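import Pool.Agent.H13.Pascal.Hnsc
import Pool.Agent.H23.BO.Homog

/-!
# Determinants of the complex Pascal matrix
-/

namespace Pool.Agent.H13.Pascal

open Finset

lemma map_P (N : ℕ) : (P N).map (fun r : ℝ => (r : ℂ)) = Pool.Agent.H23.BO.pascal N := by
  ext i j
  simp only [Matrix.map_apply, P, Pool.Agent.H23.BO.pascal, Matrix.of_apply]
  push_cast
  rfl

lemma DD_pascal (N : ℕ) (x : ℂ) :
    DD N x = (x • (1 : Matrix (Fin N) (Fin N) ℂ) + Pool.Agent.H23.BO.pascal N).det := by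
  unfold DD
  rw [map_P]

lemma norm_add_real (x : ℂ) (hx : ‖x‖ = 1) (α : ℝ) (h : x.re = Real.cos α) (l : ℝ) :
    ‖x + (l : ℂ)‖ = ‖ee α + (l : ℂ)‖ := by
  have h1 : ‖x + (l : ℂ)‖ ^ 2 = ‖ee α + (l : ℂ)‖ ^ 2 := by
    rw [norm_ee_add, Complex.sq_norm, Complex.normSq_apply]
    have h2 : ‖x‖ ^ 2 = 1 := by rw [hx]; norm_num
    rw [Complex.sq_norm, Complex.normSq_apply] at h2
    simp only [Complex.add_re, Complex.add_im, Complex.ofReal_re, Complex.ofReal_im]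
    rw [← h]
    linear_combination h2
  have := congrArg Real.sqrt h1
  rwa [Real.sqrt_sq (norm_nonneg _), Real.sqrt_sq (norm_nonneg _)] at this

lemma norm_DD (N : ℕ) (x : ℂ) (hx : ‖x‖ = 1) (α : ℝ) (h : x.re = Real.cos α) :
    ‖DD N x‖ = ‖DD N (ee α)‖ := by
  rw [DD_eq, DD_eq, norm_prod, norm_prod]
  apply Finset.prod_congr rfl
  intro k _
  exact norm_add_real x hx α h _

lemma unit_of_quad (x : ℂ) (c : ℝ) (hc : |c| < 1) (h : x ^ 2 - 2 * (c : ℂ) * x + 1 = 0) :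
    ‖x‖ = 1 ∧ x.re = c := by
  have h1 := congrArg Complex.re h
  have h2 := congrArg Complex.im h
  simp only [Complex.add_re, Complex.sub_re, Complex.mul_re, Complex.mul_im, Complex.add_im,
    Complex.sub_im, Complex.one_re, Complex.one_im, Complex.ofReal_re, Complex.ofReal_im, pow_two,
    Complex.zero_re, Complex.zero_im, Complex.re_ofNat, Complex.im_ofNat] at h1 h2
  have h3 : 2 * x.im * (x.re - c) = 0 := by linear_combination h2
  have him : x.im ≠ 0 := by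
    intro him
    rw [him] at h1
    have : (x.re - c) ^ 2 + (1 - c ^ 2) = 0 := by linear_combination h1
    have h4 : c ^ 2 < 1 := by
      rw [← sq_abs]
      have := abs_nonneg c
      nlinarith
    nlinarith [sq_nonneg (x.re - c)]
  have hre : x.re = c := by
    rcases mul_eq_zero.mp h3 with h4 | h4
    · exact absurd (by linarith) him
    · linarith
  refine ⟨?_, hre⟩
  have h4 : ‖x‖ ^ 2 = 1 := by
    rw [Complex.sq_norm, Complex.normSq_apply]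
    rw [hre] at h1 ⊢
    linear_combination -h1
  have h5 := congrArg Real.sqrt h4
  rw [Real.sqrt_sq (norm_nonneg _), Real.sqrt_one] at h5
  exact h5

/-- the ratio of two determinants of the Pascal matrix -/
lemma norm_ratio (n : ℕ) (w q : ℂ) (α : ℝ) (hα : |Real.cos α| < 1)
    (hw : w ^ 2 - 2 * (Real.cos α : ℂ) * w + 1 = 0) (hq : q ^ 2 - q + 1 = 0) :
    ‖((w • 1 + Pool.Agent.H23.BO.pascal (2 * n)).det)‖ /
      ‖((q • 1 + Pool.Agent.H23.BO.pascal (2 * n)).det)‖ = RR α n := by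
  rw [← DD_pascal, ← DD_pascal]
  obtain ⟨h1, h2⟩ := unit_of_quad w (Real.cos α) hα hw
  have hq' : q ^ 2 - 2 * ((1 / 2 : ℝ) : ℂ) * q + 1 = 0 := by
    push_cast
    linear_combination hq
  obtain ⟨h3, h4⟩ := unit_of_quad q (1 / 2) (by rw [abs_lt]; constructor <;> norm_num) hq'
  rw [norm_DD (2 * n) w h1 α h2, norm_DD (2 * n) q h3 (Real.pi / 3) (by rw [h4, Real.cos_pi_div_three])]
  rfl

lemma norm_of_quad (x : ℂ) (c : ℝ) (hc : |c| < 1) (h : x ^ 2 - 2 * (c : ℂ) * x + 1 = 0) (n : ℕ) :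
    ‖(x ^ n)⁻¹‖ = 1 := by
  rw [norm_inv, norm_pow, (unit_of_quad x c hc h).1, one_pow, inv_one]

/-- two-sided bounds for the normalized determinants -/
theorem one_arm_of (hr : ∃ c : ℝ, 0 < c ∧ ∀ n : ℕ, 1 ≤ n → ∀ w q : ℂ, w ^ 2 + w + 1 = 0 →
      q ^ 2 - q + 1 = 0 → c * (n : ℝ) ^ (-(1 / 4) : ℝ) ≤
      ‖((w • 1 + Pool.Agent.H23.BO.pascal (2 * n)).det)‖ /
        ‖((q • 1 + Pool.Agent.H23.BO.pascal (2 * n)).det)‖) :
    ∃ c C : ℝ, 0 < c ∧ 0 < C ∧ ∀ n : ℕ, 1 ≤ n → ∀ w q : ℂ, w ^ 2 + 1 = 0 → q ^ 2 - q + 1 = 0 →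
      c * (n : ℝ) ^ (-(5 / 48) : ℝ) ≤
        ‖(w ^ n)⁻¹ * (w • 1 + Pool.Agent.H23.BO.pascal (2 * n)).det‖ /
          ‖(q ^ n)⁻¹ * (q • 1 + Pool.Agent.H23.BO.pascal (2 * n)).det‖ ∧
        ‖(w ^ n)⁻¹ * (w • 1 + Pool.Agent.H23.BO.pascal (2 * n)).det‖ /
          ‖(q ^ n)⁻¹ * (q • 1 + Pool.Agent.H23.BO.pascal (2 * n)).det‖
        ≤ C * (n : ℝ) ^ (-(5 / 48) : ℝ) := by
  have hsq : (Real.sqrt 3) ^ 2 = 3 := Real.sq_sqrt (by norm_num)
  have hsum : ∃ c : ℝ, 0 < c ∧ ∀ n : ℕ, 1 ≤ n →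
      c * (n : ℝ) ^ (-(1 / 4) : ℝ) ≤ RR (2 * Real.pi / 3) n := by
    obtain ⟨c, hc, h⟩ := hr
    refine ⟨c, hc, fun n hn => ?_⟩
    have hI : Complex.I ^ 2 = -1 := Complex.I_sq
    have hs : ((Real.sqrt 3 : ℝ) : ℂ) ^ 2 = 3 := by
      rw [← Complex.ofReal_pow, hsq]; norm_num
    have hw : (-1 / 2 + (Real.sqrt 3 : ℝ) / 2 * Complex.I : ℂ) ^ 2
        + (-1 / 2 + (Real.sqrt 3 : ℝ) / 2 * Complex.I) + 1 = 0 := by
      linear_combination (1 / 4) * ((Real.sqrt 3 : ℝ) : ℂ) ^ 2 * hI - (1 / 4) * hs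
    have hq : (1 / 2 + (Real.sqrt 3 : ℝ) / 2 * Complex.I : ℂ) ^ 2
        - (1 / 2 + (Real.sqrt 3 : ℝ) / 2 * Complex.I) + 1 = 0 := by
      linear_combination (1 / 4) * ((Real.sqrt 3 : ℝ) : ℂ) ^ 2 * hI - (1 / 4) * hs
    have h2 := h n hn _ _ hw hq
    have hcos : Real.cos (2 * Real.pi / 3) = - (1 / 2) := by
      rw [show 2 * Real.pi / 3 = Real.pi - Real.pi / 3 by ring, Real.cos_pi_sub,
        Real.cos_pi_div_three]
    rw [norm_ratio n _ _ (2 * Real.pi / 3) (by rw [hcos, abs_lt]; constructor <;> norm_num)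
      (by rw [hcos]; push_cast; linear_combination hw) hq] at h2
    exact h2
  obtain ⟨c, C, hc, hC, h⟩ := rr_asymp nsc_bound hsum
  refine ⟨c, C, hc, hC, ?_⟩
  intro n hn w q hw hq
  have hcos0 : |Real.cos (Real.pi / 2)| < 1 := by rw [Real.cos_pi_div_two]; norm_num
  have hw' : w ^ 2 - 2 * (Real.cos (Real.pi / 2) : ℂ) * w + 1 = 0 := by
    rw [Real.cos_pi_div_two]; push_cast; linear_combination hw
  have hq' : q ^ 2 - 2 * ((1 / 2 : ℝ) : ℂ) * q + 1 = 0 := by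
    push_cast
    linear_combination hq
  rw [norm_mul, norm_mul, norm_of_quad w (Real.cos (Real.pi / 2)) hcos0 hw',
    norm_of_quad q (1 / 2) (by rw [abs_lt]; constructor <;> norm_num) hq', one_mul, one_mul,
    norm_ratio n w q (Real.pi / 2) hcos0 hw' hq]
  exact h n hn

end Pool.Agent.H13.Pascal
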