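import Pool.Agent.H13.Pascal.Defs

/-!
# Bessel inequality for almost orthogonal complex vectors and a spectral inequality

Job PB: abstract finite dimensional linear algebra.
-/

namespace Pool.Agent.H13.Pascal

open Matrix Finset

/-- a double sum with small coefficients -/
lemma norm_double_sum_le {I : Type*} [Fintype I] (x z : I → ℂ) (c : I → ℝ) (E : I → I → ℂ) (ε : ℝ)
    (hε : 0 ≤ ε) (hx : ∀ p, ‖x p‖ = c p) (hz : ∀ p, ‖z p‖ = c p) (hE : ∀ p q, ‖E p q‖ ≤ ε) :
    ‖∑ p, ∑ q, x p * z q * E p q‖ ≤ (Fintype.card I : ℝ) * ε * ∑ p, c p ^ 2 := by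
  have hc : ∀ p, 0 ≤ c p := fun p => by rw [← hx p]; exact norm_nonneg _
  calc ‖∑ p, ∑ q, x p * z q * E p q‖ ≤ ∑ p, ∑ q, c p * c q * ε := by
        refine (norm_sum_le _ _).trans (Finset.sum_le_sum fun p _ => ?_)
        refine (norm_sum_le _ _).trans (Finset.sum_le_sum fun q _ => ?_)
        rw [norm_mul, norm_mul, hx, hz]
        exact mul_le_mul_of_nonneg_left (hE p q) (mul_nonneg (hc p) (hc q))
    _ = ε * (∑ p, c p) ^ 2 := by
        rw [sq, Finset.sum_mul_sum, Finset.mul_sum]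
        refine Finset.sum_congr rfl fun p _ => ?_
        rw [Finset.mul_sum]
        refine Finset.sum_congr rfl fun q _ => ?_
        ring
    _ ≤ ε * ((Fintype.card I : ℝ) * ∑ p, c p ^ 2) := by
        refine mul_le_mul_of_nonneg_left ?_ hε
        have := sq_sum_le_card_mul_sum_sq (s := (Finset.univ : Finset I)) (f := c)
        simpa using this
    _ = _ := by ring

theorem bessel {n : ℕ} {I : Type*} [Fintype I] [DecidableEq I] (w : I → Fin n → ℂ) (L ε : ℝ) (hL : 0 ≤ L)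
    (hε : 0 ≤ ε)
    (h1 : ∀ p q, ‖(∑ j, (starRingEnd ℂ) (w p j) * w q j) - (if p = q then (L : ℂ) else 0)‖ ≤ ε)
    (h2 : ∀ p q, ‖∑ j, w p j * w q j‖ ≤ ε) (y : Fin n → ℝ) :
    ∑ p, ‖∑ j, w p j * (y j : ℂ)‖ ^ 2 ≤ (L / 2 + (Fintype.card I : ℝ) * ε) * ∑ j, (y j) ^ 2 := by
  classical
  set c : I → ℂ := fun p => ∑ j, w p j * (y j : ℂ) with hc
  set X : ℝ := ∑ p, ‖c p‖ ^ 2 with hX
  set g : Fin n → ℂ := fun j => ∑ p, (starRingEnd ℂ) (c p) * w p j with hg
  change X ≤ _
  have hX0 : 0 ≤ X := Finset.sum_nonneg fun p _ => by positivity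
  have hXc : (X : ℂ) = ∑ j, (y j : ℂ) * g j := by
    rw [hX]
    push_cast
    simp only [hg, Finset.mul_sum]
    rw [Finset.sum_comm]
    refine Finset.sum_congr rfl fun p _ => ?_
    rw [← Complex.conj_mul']
    conv_lhs => rw [hc]
    simp only [Finset.mul_sum]
    refine Finset.sum_congr rfl fun j _ => ?_
    simp only [hc]
    ring
  have hXr : X = ∑ j, y j * (g j).re := by
    have := congrArg Complex.re hXc
    simpa [Complex.re_sum] using this
  -- the sum of squares of norms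
  have hn : (∑ j, ‖g j‖ ^ 2) ≤ L * X + (Fintype.card I : ℝ) * ε * X := by
    have e1 : ((∑ j, ‖g j‖ ^ 2 : ℝ) : ℂ) = (L : ℂ) * X +
        ∑ p, ∑ q, c p * (starRingEnd ℂ) (c q) *
          ((∑ j, (starRingEnd ℂ) (w p j) * w q j) - (if p = q then (L : ℂ) else 0)) := by
      have e2 : ((∑ j, ‖g j‖ ^ 2 : ℝ) : ℂ) =
          ∑ p, ∑ q, c p * (starRingEnd ℂ) (c q) * (∑ j, (starRingEnd ℂ) (w p j) * w q j) := by
        push_cast
        have e3 : ∀ j, ((‖g j‖ : ℂ)) ^ 2 =
            ∑ p, ∑ q, c p * (starRingEnd ℂ) (c q) * ((starRingEnd ℂ) (w p j) * w q j) := by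
          intro j
          rw [← Complex.conj_mul']
          simp only [hg, map_sum, map_mul, Complex.conj_conj]
          rw [Finset.sum_mul_sum]
          refine Finset.sum_congr rfl fun p _ => Finset.sum_congr rfl fun q _ => ?_
          ring
        simp only [e3]
        rw [Finset.sum_comm]
        refine Finset.sum_congr rfl fun p _ => ?_
        rw [Finset.sum_comm]
        refine Finset.sum_congr rfl fun q _ => ?_
        rw [Finset.mul_sum]
      rw [e2, hX]
      push_cast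
      rw [Finset.mul_sum, ← Finset.sum_add_distrib]
      refine Finset.sum_congr rfl fun p _ => ?_
      have e4 : ∑ q, c p * (starRingEnd ℂ) (c q) * (if p = q then (L : ℂ) else 0) =
          (L : ℂ) * (‖c p‖ : ℂ) ^ 2 := by
        rw [Finset.sum_eq_single p]
        · rw [if_pos rfl, ← Complex.conj_mul']; ring
        · intro q _ hq
          rw [if_neg (Ne.symm hq), mul_zero]
        · intro h; exact absurd (Finset.mem_univ _) h
      rw [← e4, ← Finset.sum_add_distrib]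
      refine Finset.sum_congr rfl fun q _ => ?_
      ring
    have e5 := norm_double_sum_le c (fun q => (starRingEnd ℂ) (c q)) (fun p => ‖c p‖)
      (fun p q => (∑ j, (starRingEnd ℂ) (w p j) * w q j) - (if p = q then (L : ℂ) else 0)) ε hε
      (fun _ => rfl) (fun p => by simp) h1
    have e6 := congrArg Complex.re e1
    have e7 := Complex.re_le_norm (∑ p, ∑ q, c p * (starRingEnd ℂ) (c q) *
          ((∑ j, (starRingEnd ℂ) (w p j) * w q j) - (if p = q then (L : ℂ) else 0)))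
    rw [Complex.ofReal_re, Complex.add_re] at e6
    have e8 : ((L : ℂ) * (X : ℂ)).re = L * X := by simp
    rw [e8] at e6
    have e9 : (∑ p, ‖c p‖ ^ 2) = X := rfl
    rw [e9] at e5
    linarith
  have hs : ‖∑ j, (g j) ^ 2‖ ≤ (Fintype.card I : ℝ) * ε * X := by
    have e1 : (∑ j, (g j) ^ 2) = ∑ p, ∑ q, (starRingEnd ℂ) (c p) * (starRingEnd ℂ) (c q) *
          (∑ j, w p j * w q j) := by
      have e3 : ∀ j, (g j) ^ 2 =
            ∑ p, ∑ q, (starRingEnd ℂ) (c p) * (starRingEnd ℂ) (c q) * (w p j * w q j) := by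
        intro j
        simp only [hg, sq]
        rw [Finset.sum_mul_sum]
        refine Finset.sum_congr rfl fun p _ => Finset.sum_congr rfl fun q _ => ?_
        ring
      simp only [e3]
      rw [Finset.sum_comm]
      refine Finset.sum_congr rfl fun p _ => ?_
      rw [Finset.sum_comm]
      refine Finset.sum_congr rfl fun q _ => ?_
      rw [Finset.mul_sum]
    rw [e1]
    exact norm_double_sum_le _ _ (fun p => ‖c p‖) _ ε hε (fun p => by simp) (fun p => by simp) h2
  have hre : (∑ j, (g j).re ^ 2) ≤ (L / 2 + (Fintype.card I : ℝ) * ε) * X := by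
    have e1 : (∑ j, (g j).re ^ 2) = (∑ j, ‖g j‖ ^ 2) / 2 + (∑ j, (g j) ^ 2).re / 2 := by
      rw [Complex.re_sum, ← add_div, ← Finset.sum_add_distrib, Finset.sum_div]
      refine Finset.sum_congr rfl fun j _ => ?_
      have : ‖g j‖ ^ 2 = (g j).re ^ 2 + (g j).im ^ 2 := by
        rw [← Complex.normSq_eq_norm_sq, Complex.normSq_apply]; ring
      rw [this, sq (g j), Complex.mul_re]
      ring
    have e2 := Complex.re_le_norm (∑ j, (g j) ^ 2)
    rw [e1]
    nlinarith [hn, hs, e2]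
  have hCS : X ^ 2 ≤ (∑ j, y j ^ 2) * ((L / 2 + (Fintype.card I : ℝ) * ε) * X) := by
    calc X ^ 2 = (∑ j, y j * (g j).re) ^ 2 := by rw [← hXr]
      _ ≤ (∑ j, y j ^ 2) * ∑ j, (g j).re ^ 2 := Finset.sum_mul_sq_le_sq_mul_sq _ _ _
      _ ≤ _ := mul_le_mul_of_nonneg_left hre (Finset.sum_nonneg fun j _ => sq_nonneg _)
  rcases hX0.eq_or_lt with h | h
  · rw [← h]
    exact mul_nonneg (by positivity) (Finset.sum_nonneg fun j _ => sq_nonneg _)
  · have : X * X ≤ ((L / 2 + (Fintype.card I : ℝ) * ε) * ∑ j, y j ^ 2) * X := by nlinarith [hCS]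
    exact le_of_mul_le_mul_right this h

section Spectral

variable {n : ℕ} (M : Matrix (Fin n) (Fin n) ℝ) (hM : M.IsHermitian)

/-- real coefficient of a vector in the eigenbasis -/
noncomputable def coef (hM : M.IsHermitian) (x : Fin n → ℝ) (k : Fin n) : ℝ :=
  ∑ j, x j * (hM.eigenvectorBasis k).ofLp j

lemma coef_eq_inner (x : Fin n → ℝ) (k : Fin n) :
    coef M hM x k = inner ℝ (hM.eigenvectorBasis k) (WithLp.toLp 2 x) := by
  rw [PiLp.inner_apply]
  unfold coef
  refine Finset.sum_congr rfl fun j _ => ?_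
  simp

lemma sum_coef_sq (x : Fin n → ℝ) : ∑ k, (coef M hM x k) ^ 2 = ∑ j, x j ^ 2 := by
  have h := hM.eigenvectorBasis.sum_sq_inner_right (WithLp.toLp 2 x)
  simp only [← coef_eq_inner] at h
  rw [h, EuclideanSpace.norm_sq_eq]
  refine Finset.sum_congr rfl fun j _ => ?_
  simp

lemma coef_mulVec (x : Fin n → ℝ) (k : Fin n) :
    coef M hM (M *ᵥ x) k = hM.eigenvalues k * coef M hM x k := by
  have h := hM.mulVec_eigenvectorBasis k
  have h1 : coef M hM (M *ᵥ x) k = (M *ᵥ x) ⬝ᵥ (hM.eigenvectorBasis k).ofLp := rfl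
  have h2 : coef M hM x k = x ⬝ᵥ (hM.eigenvectorBasis k).ofLp := rfl
  have hT : Mᵀ = M := by
    have := hM.eq
    rwa [Matrix.conjTranspose_eq_transpose_of_trivial] at this
  rw [h1, h2, dotProduct_comm, Matrix.dotProduct_mulVec, ← Matrix.mulVec_transpose, hT, h,
    smul_dotProduct, dotProduct_comm, smul_eq_mul]

lemma coef_sub_smul (x : Fin n → ℝ) (κ : ℝ) (k : Fin n) :
    coef M hM (fun i => (M *ᵥ x) i - κ * x i) k = (hM.eigenvalues k - κ) * coef M hM x k := by
  have h : coef M hM (fun i => (M *ᵥ x) i - κ * x i) k =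
      coef M hM (M *ᵥ x) k - κ * coef M hM x k := by
    unfold coef
    rw [Finset.mul_sum, ← Finset.sum_sub_distrib]
    refine Finset.sum_congr rfl fun j _ => ?_
    ring
  rw [h, coef_mulVec]
  ring

lemma norm_sq_coef (v : Fin n → ℂ) (k : Fin n) :
    ‖∑ j, v j * ((hM.eigenvectorBasis k).ofLp j : ℂ)‖ ^ 2 =
      (coef M hM (fun j => (v j).re) k) ^ 2 + (coef M hM (fun j => (v j).im) k) ^ 2 := by
  rw [← Complex.normSq_eq_norm_sq, Complex.normSq_apply]
  have h1 : (∑ j, v j * ((hM.eigenvectorBasis k).ofLp j : ℂ)).re = coef M hM (fun j => (v j).re) k := by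
    rw [Complex.re_sum]
    unfold coef
    refine Finset.sum_congr rfl fun j _ => ?_
    simp
  have h2 : (∑ j, v j * ((hM.eigenvectorBasis k).ofLp j : ℂ)).im = coef M hM (fun j => (v j).im) k := by
    rw [Complex.im_sum]
    unfold coef
    refine Finset.sum_congr rfl fun j _ => ?_
    simp
  rw [h1, h2]
  ring

end Spectral

theorem spectral {n : ℕ} (M : Matrix (Fin n) (Fin n) ℝ) (hM : M.IsHermitian) (h : ℝ → ℝ) (Lip : ℝ)
    (hLip : 0 ≤ Lip) (hh : ∀ s t, |h s - h t| ≤ Lip * |s - t|) (κ : ℝ) (v : Fin n → ℂ) (V R : ℝ) (hV : 0 ≤ V)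
    (hR : 0 ≤ R) (h1 : ∑ j, ‖v j‖ ^ 2 ≤ V ^ 2)
    (h2 : ∑ i, ‖(∑ j, (M i j : ℂ) * v j) - (κ : ℂ) * v i‖ ^ 2 ≤ R ^ 2) :
    h κ * ∑ j, ‖v j‖ ^ 2 - Lip * V * R ≤
      ∑ k, h (hM.eigenvalues k) * ‖∑ j, v j * ((hM.eigenvectorBasis k).ofLp j : ℂ)‖ ^ 2 := by
  set A : Fin n → ℝ := fun k => ‖∑ j, v j * ((hM.eigenvectorBasis k).ofLp j : ℂ)‖ with hA
  have hA0 : ∀ k, 0 ≤ A k := fun k => norm_nonneg _
  have hpars : ∑ k, A k ^ 2 = ∑ j, ‖v j‖ ^ 2 := by
    simp only [hA, norm_sq_coef]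
    rw [Finset.sum_add_distrib, sum_coef_sq, sum_coef_sq, ← Finset.sum_add_distrib]
    refine Finset.sum_congr rfl fun j _ => ?_
    rw [← Complex.normSq_eq_norm_sq, Complex.normSq_apply]
    ring
  have hres : ∑ k, (|hM.eigenvalues k - κ| * A k) ^ 2 =
      ∑ i, ‖(∑ j, (M i j : ℂ) * v j) - (κ : ℂ) * v i‖ ^ 2 := by
    have e1 : ∀ k, (|hM.eigenvalues k - κ| * A k) ^ 2 =
        (coef M hM (fun i => (M *ᵥ (fun j => (v j).re)) i - κ * (v i).re) k) ^ 2 +
        (coef M hM (fun i => (M *ᵥ (fun j => (v j).im)) i - κ * (v i).im) k) ^ 2 := by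
      intro k
      have f1 := coef_sub_smul M hM (fun j => (v j).re) κ k
      have f2 := coef_sub_smul M hM (fun j => (v j).im) κ k
      rw [f1, f2, mul_pow, sq_abs]
      simp only [hA, norm_sq_coef]
      ring
    simp only [e1]
    rw [Finset.sum_add_distrib, sum_coef_sq, sum_coef_sq, ← Finset.sum_add_distrib]
    refine Finset.sum_congr rfl fun i _ => ?_
    rw [← Complex.normSq_eq_norm_sq, Complex.normSq_apply]
    have g1 : ((∑ j, (M i j : ℂ) * v j) - (κ : ℂ) * v i).re =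
        (M *ᵥ (fun j => (v j).re)) i - κ * (v i).re := by
      simp [Complex.re_sum, Matrix.mulVec, dotProduct]
    have g2 : ((∑ j, (M i j : ℂ) * v j) - (κ : ℂ) * v i).im =
        (M *ᵥ (fun j => (v j).im)) i - κ * (v i).im := by
      simp [Complex.im_sum, Matrix.mulVec, dotProduct]
    rw [g1, g2]
    ring
  have hCS : ∑ k, (|hM.eigenvalues k - κ| * A k) * A k ≤ R * V := by
    have e := Finset.sum_mul_sq_le_sq_mul_sq (Finset.univ : Finset (Fin n))
      (fun k => |hM.eigenvalues k - κ| * A k) A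
    rw [hres, hpars] at e
    have e2 : (∑ k, (|hM.eigenvalues k - κ| * A k) * A k) ^ 2 ≤ (R * V) ^ 2 := by
      refine e.trans ?_
      rw [mul_pow]
      exact mul_le_mul h2 h1 (Finset.sum_nonneg fun j _ => by positivity) (by positivity)
    exact abs_le_of_sq_le_sq' e2 (by positivity) |>.2
  have hterm : ∀ k, h κ * A k ^ 2 - Lip * ((|hM.eigenvalues k - κ| * A k) * A k) ≤
      h (hM.eigenvalues k) * A k ^ 2 := by
    intro k
    have e1 := hh κ (hM.eigenvalues k)
    have e2 : h κ - h (hM.eigenvalues k) ≤ Lip * |hM.eigenvalues k - κ| := by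
      rw [abs_sub_comm (hM.eigenvalues k) κ]
      exact (le_abs_self _).trans e1
    nlinarith [mul_le_mul_of_nonneg_right e2 (sq_nonneg (A k))]
  calc h κ * ∑ j, ‖v j‖ ^ 2 - Lip * V * R
      ≤ h κ * ∑ k, A k ^ 2 - Lip * ∑ k, (|hM.eigenvalues k - κ| * A k) * A k := by
        rw [hpars]
        nlinarith [mul_le_mul_of_nonneg_left hCS hLip]
    _ = ∑ k, (h κ * A k ^ 2 - Lip * ((|hM.eigenvalues k - κ| * A k) * A k)) := by
        rw [Finset.sum_sub_distrib, Finset.mul_sum, Finset.mul_sum]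
    _ ≤ _ := Finset.sum_le_sum fun k _ => hterm k

end Pool.Agent.H13.Pascal
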