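import Pool.Agent.H13.Pascal.Eig

/-!
# Counting eigenvalues by trial subspaces
-/

namespace Pool.Agent.H13.Pascal

open Matrix Finset

/-- coefficients in the eigenbasis -/
noncomputable def coef {n : ℕ} (M : Matrix (Fin n) (Fin n) ℝ) (hM : M.IsHermitian) (k : Fin n)
    (v : Fin n → ℝ) : ℝ := ∑ i, (hM.eigenvectorBasis k).ofLp i * v i

lemma coef_mul {n : ℕ} (M : Matrix (Fin n) (Fin n) ℝ) (hM : M.IsHermitian) (k : Fin n)
    (v : Fin n → ℝ) : coef M hM k (M *ᵥ v) = hM.eigenvalues k * coef M hM k v := by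
  unfold coef
  have h1 : ∑ i, (hM.eigenvectorBasis k).ofLp i * (M *ᵥ v) i
      = ∑ j, (∑ i, M j i * (hM.eigenvectorBasis k).ofLp i) * v j := by
    simp only [Matrix.mulVec, dotProduct, Finset.mul_sum, Finset.sum_mul]
    rw [Finset.sum_comm]
    apply Finset.sum_congr rfl
    intro j _
    apply Finset.sum_congr rfl
    intro i _
    have hs : M i j = M j i := by
      have := hM.apply j i
      simpa using this
    rw [hs]; ring
  rw [h1, Finset.mul_sum]
  apply Finset.sum_congr rfl
  intro j _
  have h := congrFun (hM.mulVec_eigenvectorBasis k) j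
  simp only [Matrix.mulVec, dotProduct, Pi.smul_apply, smul_eq_mul] at h
  rw [h]; ring

lemma coef_eq_inner {n : ℕ} (M : Matrix (Fin n) (Fin n) ℝ) (hM : M.IsHermitian) (k : Fin n)
    (v : Fin n → ℝ) : coef M hM k v = inner ℝ (hM.eigenvectorBasis k) (WithLp.toLp 2 v) := by
  unfold coef
  rw [PiLp.inner_apply]
  apply Finset.sum_congr rfl
  intro i _
  simp [mul_comm]

lemma coef_parseval {n : ℕ} (M : Matrix (Fin n) (Fin n) ℝ) (hM : M.IsHermitian)
    (v w : Fin n → ℝ) : ∑ k, coef M hM k v * coef M hM k w = ∑ i, v i * w i := by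
  have h := (hM.eigenvectorBasis).sum_inner_mul_inner (WithLp.toLp 2 v) (WithLp.toLp 2 w)
  have h2 : inner ℝ (WithLp.toLp 2 v) (WithLp.toLp 2 w) = ∑ i, v i * w i := by
    rw [PiLp.inner_apply]
    apply Finset.sum_congr rfl
    intro i _
    simp [mul_comm]
  rw [h2] at h
  rw [← h]
  apply Finset.sum_congr rfl
  intro k _
  rw [coef_eq_inner, coef_eq_inner]
  rw [real_inner_comm (WithLp.toLp 2 v)]

/-- a linear family of trial vectors with form `≥ κ` bounds the number of eigenvalues `≥ κ` -/
theorem count_ge {n : ℕ} (M : Matrix (Fin n) (Fin n) ℝ) (hM : M.IsHermitian) (κ : ℝ)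
    {I : Type*} [Fintype I] (Φ : (I → ℝ) →ₗ[ℝ] (Fin n → ℝ)) (hinj : Function.Injective Φ)
    (hΦ : ∀ c, κ * ∑ i, Φ c i * Φ c i ≤ ∑ i, Φ c i * (M *ᵥ Φ c) i) :
    Fintype.card I ≤ (Finset.univ.filter (fun k => κ ≤ hM.eigenvalues k)).card := by
  classical
  let S := {k : Fin n // κ ≤ hM.eigenvalues k}
  let Ψ : (I → ℝ) →ₗ[ℝ] (S → ℝ) :=
    { toFun := fun c s => coef M hM s.1 (Φ c)
      map_add' := by
        intro c d
        ext s
        simp only [coef, map_add, Pi.add_apply, mul_add, Finset.sum_add_distrib]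
      map_smul' := by
        intro r c
        ext s
        simp only [coef, map_smul, Pi.smul_apply, smul_eq_mul, RingHom.id_apply, Finset.mul_sum]
        apply Finset.sum_congr rfl
        intro i _
        ring }
  have hΨ : Function.Injective Ψ := by
    rw [injective_iff_map_eq_zero]
    intro c hc
    apply hinj
    rw [map_zero]
    have h1 := hΦ c
    rw [← coef_parseval M hM (Φ c) (Φ c), ← coef_parseval M hM (Φ c) (M *ᵥ Φ c)] at h1
    simp_rw [coef_mul] at h1
    have h2 : ∀ k, κ ≤ hM.eigenvalues k → coef M hM k (Φ c) = 0 := by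
      intro k hk
      have := congrFun hc ⟨k, hk⟩
      exact this
    have h3 : ∑ k, (hM.eigenvalues k - κ) * (coef M hM k (Φ c)) ^ 2 ≥ 0 := by
      have : ∑ k, (hM.eigenvalues k - κ) * (coef M hM k (Φ c)) ^ 2
          = ∑ k, coef M hM k (Φ c) * (hM.eigenvalues k * coef M hM k (Φ c))
            - κ * ∑ k, coef M hM k (Φ c) * coef M hM k (Φ c) := by
        rw [Finset.mul_sum, ← Finset.sum_sub_distrib]
        apply Finset.sum_congr rfl
        intro k _
        ring
      rw [this]
      linarith
    have h4 : ∀ k ∈ (Finset.univ : Finset (Fin n)),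
        (hM.eigenvalues k - κ) * (coef M hM k (Φ c)) ^ 2 ≤ 0 := by
      intro k _
      by_cases hk : κ ≤ hM.eigenvalues k
      · rw [h2 k hk]; simp
      · exact mul_nonpos_of_nonpos_of_nonneg (by linarith [not_le.mp hk]) (sq_nonneg _)
    have h5 : ∑ k, (hM.eigenvalues k - κ) * (coef M hM k (Φ c)) ^ 2 = 0 :=
      le_antisymm (Finset.sum_nonpos h4) h3
    have h6 := (Finset.sum_eq_zero_iff_of_nonpos h4).mp h5
    have h7 : ∀ k, coef M hM k (Φ c) = 0 := by
      intro k
      by_cases hk : κ ≤ hM.eigenvalues k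
      · exact h2 k hk
      · have := h6 k (Finset.mem_univ k)
        rcases mul_eq_zero.mp this with h | h
        · exact absurd h (by linarith [not_le.mp hk] : hM.eigenvalues k - κ < 0).ne
        · exact pow_eq_zero_iff (n := 2) (by norm_num) |>.mp h
    have h8 := coef_parseval M hM (Φ c) (Φ c)
    simp_rw [h7] at h8
    have h9 : ∑ i, Φ c i * Φ c i = 0 := by rw [← h8]; simp
    have h10 := (Finset.sum_eq_zero_iff_of_nonneg
      (fun i _ => mul_self_nonneg (Φ c i))).mp h9
    ext i
    have := h10 i (Finset.mem_univ i)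
    simpa using this
  have h := LinearMap.finrank_le_finrank_of_injective hΨ
  rw [Module.finrank_fintype_fun_eq_card, Module.finrank_fintype_fun_eq_card] at h
  have h' : Fintype.card S = (Finset.univ.filter (fun k => κ ≤ hM.eigenvalues k)).card :=
    Fintype.card_subtype _
  omega

/-- a linear family of trial vectors with form `≤ κ` bounds the number of eigenvalues `≤ κ` -/
theorem count_le {n : ℕ} (M : Matrix (Fin n) (Fin n) ℝ) (hM : M.IsHermitian) (κ : ℝ)
    {I : Type*} [Fintype I] (Φ : (I → ℝ) →ₗ[ℝ] (Fin n → ℝ)) (hinj : Function.Injective Φ)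
    (hΦ : ∀ c, ∑ i, Φ c i * (M *ᵥ Φ c) i ≤ κ * ∑ i, Φ c i * Φ c i) :
    Fintype.card I ≤ (Finset.univ.filter (fun k => hM.eigenvalues k ≤ κ)).card := by
  classical
  let S := {k : Fin n // hM.eigenvalues k ≤ κ}
  let Ψ : (I → ℝ) →ₗ[ℝ] (S → ℝ) :=
    { toFun := fun c s => coef M hM s.1 (Φ c)
      map_add' := by
        intro c d
        ext s
        simp only [coef, map_add, Pi.add_apply, mul_add, Finset.sum_add_distrib]
      map_smul' := by
        intro r c
        ext s
        simp only [coef, map_smul, Pi.smul_apply, smul_eq_mul, RingHom.id_apply, Finset.mul_sum]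
        apply Finset.sum_congr rfl
        intro i _
        ring }
  have hΨ : Function.Injective Ψ := by
    rw [injective_iff_map_eq_zero]
    intro c hc
    apply hinj
    rw [map_zero]
    have h1 := hΦ c
    rw [← coef_parseval M hM (Φ c) (Φ c), ← coef_parseval M hM (Φ c) (M *ᵥ Φ c)] at h1
    simp_rw [coef_mul] at h1
    have h2 : ∀ k, hM.eigenvalues k ≤ κ → coef M hM k (Φ c) = 0 := by
      intro k hk
      have := congrFun hc ⟨k, hk⟩
      exact this
    have h3 : ∑ k, (hM.eigenvalues k - κ) * (coef M hM k (Φ c)) ^ 2 ≤ 0 := by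
      have : ∑ k, (hM.eigenvalues k - κ) * (coef M hM k (Φ c)) ^ 2
          = ∑ k, coef M hM k (Φ c) * (hM.eigenvalues k * coef M hM k (Φ c))
            - κ * ∑ k, coef M hM k (Φ c) * coef M hM k (Φ c) := by
        rw [Finset.mul_sum, ← Finset.sum_sub_distrib]
        apply Finset.sum_congr rfl
        intro k _
        ring
      rw [this]
      linarith
    have h4 : ∀ k ∈ (Finset.univ : Finset (Fin n)),
        0 ≤ (hM.eigenvalues k - κ) * (coef M hM k (Φ c)) ^ 2 := by
      intro k _
      by_cases hk : hM.eigenvalues k ≤ κ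
      · rw [h2 k hk]; simp
      · exact mul_nonneg (by linarith [not_le.mp hk]) (sq_nonneg _)
    have h5 : ∑ k, (hM.eigenvalues k - κ) * (coef M hM k (Φ c)) ^ 2 = 0 :=
      le_antisymm h3 (Finset.sum_nonneg h4)
    have h6 := (Finset.sum_eq_zero_iff_of_nonneg h4).mp h5
    have h7 : ∀ k, coef M hM k (Φ c) = 0 := by
      intro k
      by_cases hk : hM.eigenvalues k ≤ κ
      · exact h2 k hk
      · have := h6 k (Finset.mem_univ k)
        rcases mul_eq_zero.mp this with h | h
        · exact absurd h (by linarith [not_le.mp hk] : 0 < hM.eigenvalues k - κ).ne'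
        · exact pow_eq_zero_iff (n := 2) (by norm_num) |>.mp h
    have h8 := coef_parseval M hM (Φ c) (Φ c)
    simp_rw [h7] at h8
    have h9 : ∑ i, Φ c i * Φ c i = 0 := by rw [← h8]; simp
    have h10 := (Finset.sum_eq_zero_iff_of_nonneg
      (fun i _ => mul_self_nonneg (Φ c i))).mp h9
    ext i
    have := h10 i (Finset.mem_univ i)
    simpa using this
  have h := LinearMap.finrank_le_finrank_of_injective hΨ
  rw [Module.finrank_fintype_fun_eq_card, Module.finrank_fintype_fun_eq_card] at h
  have h' : Fintype.card S = (Finset.univ.filter (fun k => hM.eigenvalues k ≤ κ)).card :=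
    Fintype.card_subtype _
  omega

end Pool.Agent.H13.Pascal
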