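import Pool.Agent.H13.Pascal.WkbDefs

/-!
# Lower bound for the number of eigenvalues of `T N` in a window
-/

namespace Pool.Agent.H13.Pascal

open Finset

lemma HH_ge_log (M : ℕ) : Real.log ((M : ℝ) + 1) ≤ HH M := by
  induction M with
  | zero => simp [HH]
  | succ m ih =>
    have h1 : HH (m + 1) = HH m + 1 / ((m : ℝ) + 1) := by
      unfold HH
      rw [Finset.sum_range_succ]
    rw [h1]
    push_cast
    have hm : (0 : ℝ) < (m : ℝ) + 1 := by positivity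
    have h2 : Real.log ((m : ℝ) + 1 + 1) ≤ Real.log ((m : ℝ) + 1) + 1 / ((m : ℝ) + 1) := by
      have h3 : (m : ℝ) + 1 + 1 = ((m : ℝ) + 1) * (1 + 1 / ((m : ℝ) + 1)) := by
        field_simp
      rw [h3, Real.log_mul hm.ne' (by positivity)]
      have := Real.log_le_sub_one_of_pos (show (0 : ℝ) < 1 + 1 / ((m : ℝ) + 1) by positivity)
      linarith
    linarith

lemma HH_nonneg (M : ℕ) : 0 ≤ HH M := by
  unfold HH
  apply Finset.sum_nonneg
  intro i _
  positivity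

lemma kk_mono {μ₁ μ₂ : ℝ} (h : μ₁ ≤ μ₂) : kk μ₁ ≤ kk μ₂ := by
  unfold kk
  have : 0 ≤ Real.sqrt 3 := Real.sqrt_nonneg _
  nlinarith

theorem count_mu (hnsc : ∃ C : ℝ, 0 < C ∧ ∀ (N M : ℕ) (μ : ℝ), 40 * (1 + |μ|) * (M + 1) ≤ N →
    |(nsc N (kk μ) M : ℝ) - (Th N M - μ * HH M) / Real.pi| ≤ C * (1 + |μ|) ^ 3) :
    ∃ C : ℝ, 0 < C ∧ ∀ (N : ℕ) (L μ₁ μ₂ : ℝ), 1 ≤ N → |μ₁| ≤ L → |μ₂| ≤ L → μ₁ ≤ μ₂ →
      (μ₂ - μ₁) / Real.pi * Real.log N - C * (1 + L) ^ 3
        ≤ ((Finset.univ.filter (fun k : Fin N => kk μ₁ ≤ kap N k ∧ kap N k ≤ kk μ₂)).card : ℝ) := by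
  obtain ⟨C, hC, hn⟩ := hnsc
  refine ⟨2 * C + 200, by positivity, ?_⟩
  intro N L μ₁ μ₂ hN h1 h2 h12
  have hL : 0 ≤ L := le_trans (abs_nonneg _) h1
  have hpi := Real.pi_pos
  have hpi3 := Real.pi_gt_three
  have hNpos : (0 : ℝ) < N := by exact_mod_cast hN
  have hd : μ₂ - μ₁ ≤ 2 * L := by
    have e1 := abs_le.mp h1
    have e2 := abs_le.mp h2
    linarith
  have hd0 : 0 ≤ μ₂ - μ₁ := by linarith
  have hlogN : 0 ≤ Real.log N := Real.log_nonneg (by exact_mod_cast hN)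
  have hdpi : (μ₂ - μ₁) / Real.pi ≤ L := by
    rw [div_le_iff₀ hpi]; nlinarith
  have hdpi0 : 0 ≤ (μ₂ - μ₁) / Real.pi := div_nonneg hd0 hpi.le
  have hL3 : (1 + L) * L ≤ (1 + L) ^ 3 := by nlinarith [mul_nonneg hL hL, mul_nonneg (mul_nonneg hL hL) hL]
  by_cases hbig : 80 * (1 + L) ≤ (N : ℝ)
  · -- choose M
    set q : ℝ := (N : ℝ) / (40 * (1 + L)) with hq
    have hden : 0 < 40 * (1 + L) := by positivity
    have hq2 : 2 ≤ q := by
      rw [hq, le_div_iff₀ hden]; linarith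
    set F : ℕ := ⌊q⌋₊ with hF
    have hF1 : (F : ℝ) ≤ q := Nat.floor_le (by linarith)
    have hF2 : q < F + 1 := Nat.lt_floor_add_one q
    have hFpos : 1 ≤ F := by
      have : (1 : ℝ) < F + 1 := by linarith
      have : (0 : ℝ) < F := by linarith
      exact_mod_cast this
    obtain ⟨M, hM⟩ : ∃ M, F = M + 1 := ⟨F - 1, by omega⟩
    have hMF : ((M : ℝ) + 1) = F := by rw [hM]; push_cast; ring
    have hMc : ∀ μ : ℝ, |μ| ≤ L → 40 * (1 + |μ|) * ((M : ℝ) + 1) ≤ N := by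
      intro μ hμ
      rw [hMF]
      have e1 : (F : ℝ) * (40 * (1 + L)) ≤ N := by
        have := (le_div_iff₀ hden).mp (by rw [← hq]; exact hF1 : (F : ℝ) ≤ (N : ℝ) / (40 * (1 + L)))
        exact this
      have e2 : 0 ≤ (F : ℝ) := Nat.cast_nonneg _
      nlinarith
    have hM3 : M + 3 ≤ N := by
      have e1 := hMc 0 (by simpa using hL)
      rw [abs_zero] at e1
      have e2 : (M : ℝ) + 3 ≤ N := by
        have : 0 ≤ (M : ℝ) := Nat.cast_nonneg _
        linarith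
      exact_mod_cast e2
    have hc := count_window N M (kk μ₁) (kk μ₂) (kk_mono h12) hM3
    have hc' : (nsc N (kk μ₁) M : ℝ) - (nsc N (kk μ₂) M : ℝ) - 4
      ≤ ((Finset.univ.filter (fun k : Fin N => kk μ₁ ≤ kap N k ∧ kap N k ≤ kk μ₂)).card : ℝ) := by
      classical
      exact_mod_cast hc
    have n1 := abs_le.mp (hn N M μ₁ (hMc μ₁ h1))
    have n2 := abs_le.mp (hn N M μ₂ (hMc μ₂ h2))
    have b1 : C * (1 + |μ₁|) ^ 3 ≤ C * (1 + L) ^ 3 := by gcongr
    have b2 : C * (1 + |μ₂|) ^ 3 ≤ C * (1 + L) ^ 3 := by gcongr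
    have hH := HH_ge_log M
    have hlog : Real.log N - 80 * (1 + L) ≤ HH M := by
      have e1 : Real.log ((M : ℝ) + 1) ≥ Real.log (N / (80 * (1 + L))) := by
        apply Real.log_le_log (by positivity)
        rw [hMF]
        have : (N : ℝ) / (80 * (1 + L)) = q / 2 := by
          rw [hq]; field_simp; ring
        rw [this]
        linarith
      rw [Real.log_div hNpos.ne' (by positivity)] at e1
      have e2 : Real.log (80 * (1 + L)) ≤ 80 * (1 + L) :=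
        le_trans (Real.log_le_sub_one_of_pos (by positivity)) (by linarith)
      linarith
    have e3 : (μ₂ - μ₁) / Real.pi * (Real.log N - 80 * (1 + L)) ≤ (μ₂ - μ₁) / Real.pi * HH M :=
      mul_le_mul_of_nonneg_left hlog hdpi0
    have e4 : (μ₂ - μ₁) / Real.pi * (80 * (1 + L)) ≤ 80 * (1 + L) ^ 3 := by
      have : (μ₂ - μ₁) / Real.pi * (80 * (1 + L)) ≤ L * (80 * (1 + L)) :=
        mul_le_mul_of_nonneg_right hdpi (by positivity)
      nlinarith
    have e5 : (1 : ℝ) ≤ (1 + L) ^ 3 := one_le_pow₀ (by linarith)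
    have e6 : (Th N M - μ₁ * HH M) / Real.pi - (Th N M - μ₂ * HH M) / Real.pi
        = (μ₂ - μ₁) / Real.pi * HH M := by
      field_simp; ring
    nlinarith
  · have hcard : (0 : ℝ) ≤ ((Finset.univ.filter
      (fun k : Fin N => kk μ₁ ≤ kap N k ∧ kap N k ≤ kk μ₂)).card : ℝ) := Nat.cast_nonneg _
    have e1 : Real.log N ≤ 80 * (1 + L) := by
      have := Real.log_le_sub_one_of_pos hNpos
      linarith [not_le.mp hbig]
    have e2 : (μ₂ - μ₁) / Real.pi * Real.log N ≤ L * (80 * (1 + L)) :=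
      mul_le_mul hdpi e1 hlogN hL
    have e3 : L * (80 * (1 + L)) ≤ 80 * (1 + L) ^ 3 := by nlinarith
    have e4 : 0 ≤ C * (1 + L) ^ 3 := by positivity
    have e5 : (0 : ℝ) ≤ (1 + L) ^ 3 := by positivity
    nlinarith

end Pool.Agent.H13.Pascal
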