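import Pool.Agent.H13.Pascal.Defs

/-!
# Growth bound for the eigenvectors of the tridiagonal matrix commuting with the Pascal matrix

Discrete energy estimate: `f_j ^ 2 = O(N ^ (3/2))`, uniformly for bounded `κ`.
-/

namespace Pool.Agent.H13.Pascal

open Finset

namespace Growth

/-- real-variable version of `b` -/
noncomputable def B (n t : ℝ) : ℝ := t - t ^ 3 / n ^ 2

/-- real-variable version of `κ + a` -/
noncomputable def A (n κ t : ℝ) : ℝ := κ + (t - (2 * t ^ 3 + 3 * t ^ 2 + 2 * t) / n ^ 2)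

lemma b_eq (N j : ℕ) : b N j = B N j := rfl

lemma a_eq (N j : ℕ) (κ : ℝ) : κ + a N j = A N κ j := rfl

lemma disc_bound (u v s : ℝ) (hu0 : 0 ≤ u) (hu1 : u ≤ 1 / 1000) (hs : |s| ≤ 1 / 1000)
    (hv0 : 0 ≤ v) (hv1 : v ≤ 76 / 100) :
    (5 + 6 * v + 9 * s - 27 * v * u - 14 * v * u ^ 2) ^ 2 ≤
      36 * (1 - v) * (1 + 15 * v - 24 * v * u + 8 * v * u ^ 2) := by
  obtain ⟨hs1, hs2⟩ := abs_le.1 hs
  have hvu0 : 0 ≤ v * u := mul_nonneg hv0 hu0
  have hvu1 : v * u ≤ 76 / 100000 := by nlinarith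
  have hvu20 : 0 ≤ v * u ^ 2 := by positivity
  have hvu21 : v * u ^ 2 ≤ 1 / 1000 := by nlinarith
  have hvu3 : v * u ≤ v / 1000 := by nlinarith
  have h1 : (5 + 6 * v + 9 * s - 27 * v * u - 14 * v * u ^ 2) ^ 2 ≤ (504 / 100 + 6 * v) ^ 2 := by
    apply sq_le_sq'
    · nlinarith
    · nlinarith
  have h2 : 36 * (1 - v) * (1 + 149 / 10 * v) ≤
      36 * (1 - v) * (1 + 15 * v - 24 * v * u + 8 * v * u ^ 2) := by
    apply mul_le_mul_of_nonneg_left
    · nlinarith
    · nlinarith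
  have h3 : (504 / 100 + 6 * v) ^ 2 ≤ 36 * (1 - v) * (1 + 149 / 10 * v) := by
    nlinarith [mul_nonneg hv0 (sub_nonneg.2 hv1)]
  linarith

lemma quad_nonneg (P Q R p q : ℝ) (hP : 0 < P) (h : R ^ 2 ≤ 4 * P * Q) :
    0 ≤ P * p ^ 2 + Q * q ^ 2 - R * (p * q) := by
  have h1 : 0 ≤ 4 * P * (P * p ^ 2 + Q * q ^ 2 - R * (p * q)) := by
    have : 4 * P * (P * p ^ 2 + Q * q ^ 2 - R * (p * q)) =
        (2 * P * p - R * q) ^ 2 + (4 * P * Q - R ^ 2) * q ^ 2 := by ring
    rw [this]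
    have := mul_nonneg (sub_nonneg.2 h) (sq_nonneg q)
    positivity
  by_contra hneg
  push Not at hneg
  nlinarith

/-- the energy step -/
lemma step (x n κ K p q r : ℝ) (hK : 0 ≤ K) (hκ : |κ| ≤ K) (hx : 1000 * (K + 1) ≤ x) (hn : 0 < n)
    (hv : x ^ 2 ≤ 76 / 100 * n ^ 2)
    (hrec : B n x * p + B n (x - 1) * r = A n κ (x - 1) * q) :
    (1 - 9 / (4 * x)) * (B n x ^ 2 * (p ^ 2 + q ^ 2) - B n x * A n κ x * (p * q)) ≤
      B n (x - 1) ^ 2 * (q ^ 2 + r ^ 2) - B n (x - 1) * A n κ (x - 1) * (q * r) := by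
  have hx0 : 0 < x := by nlinarith
  have hn2 : 0 < n ^ 2 := by positivity
  obtain ⟨hκ1, hκ2⟩ := abs_le.1 hκ
  set u : ℝ := 1 / x with hu
  set v : ℝ := x ^ 2 / n ^ 2 with hvdef
  set s : ℝ := κ / x with hs
  have hxu : x * u = 1 := by rw [hu]; field_simp
  have hu0 : 0 < u := by rw [hu]; positivity
  have hu1 : u ≤ 1 / 1000 := by
    rw [hu]; apply one_div_le_one_div_of_le <;> nlinarith
  have hv0 : 0 ≤ v := by rw [hvdef]; positivity
  have hv1 : v ≤ 76 / 100 := by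
    rw [hvdef, div_le_iff₀ hn2]; exact hv
  have hs1 : |s| ≤ 1 / 1000 := by
    rw [hs, abs_div, abs_of_pos hx0, div_le_iff₀ hx0]
    nlinarith
  have hκs : κ = x * s := by rw [hs]; field_simp
  have hdisc := disc_bound u v s hu0.le hu1 hs1 hv0 hv1
  have hP : 0 < 9 * (1 - v) := by nlinarith
  have hquad := quad_nonneg (9 * (1 - v)) (1 + 15 * v - 24 * v * u + 8 * v * u ^ 2)
    (5 + 6 * v + 9 * s - 27 * v * u - 14 * v * u ^ 2) p q hP (by linarith)
  -- formulas
  have hB : B n x = x * (1 - v) := by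
    rw [B, hvdef]; field_simp
  have hB' : B n (x - 1) = x * (1 - v) - (1 - 3 * v + 3 * v * u - v * u ^ 2) := by
    rw [B, hvdef, hu]; field_simp; ring
  have hA : A n κ x = x * (s + 1 - 2 * v - 3 * v * u - 2 * v * u ^ 2) := by
    rw [A, hvdef, hu, hs]; field_simp; ring
  have hA' : A n κ (x - 1) = x * (s + 1 - 2 * v - 3 * v * u - 2 * v * u ^ 2)
      - (1 - 6 * v - v * u ^ 2) := by
    rw [A, hvdef, hu, hs]; field_simp; ring
  -- the identity Y_k - Y_{k-1}
  have hid : B n (x - 1) ^ 2 * (q ^ 2 + r ^ 2) - B n (x - 1) * A n κ (x - 1) * (q * r) =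
      (B n x ^ 2 * (p ^ 2 + q ^ 2) - B n x * A n κ x * (p * q))
      - (B n x ^ 2 - B n (x - 1) ^ 2) * q ^ 2 + B n x * (A n κ x - A n κ (x - 1)) * (p * q) := by
    have hr : B n (x - 1) * r = A n κ (x - 1) * q - B n x * p := by linarith
    have : B n (x - 1) ^ 2 * (q ^ 2 + r ^ 2) - B n (x - 1) * A n κ (x - 1) * (q * r) =
      B n (x - 1) ^ 2 * q ^ 2 + (B n (x - 1) * r) ^ 2 - A n κ (x - 1) * q * (B n (x - 1) * r) := by
      ring
    rw [this, hr]; ring
  rw [hid]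
  have h94 : 9 / (4 * x) = 9 / 4 * u := by rw [hu]; field_simp
  rw [h94]
  -- reduce to the quadratic form
  have hbx : 0 < B n x := by rw [hB]; apply mul_pos hx0; nlinarith
  have hsq : 0 ≤ (B n x - B n (x - 1)) ^ 2 * q ^ 2 := by positivity
  have hmul := mul_nonneg hbx.le hquad
  have hkey : (9 / 4 * u) * (B n x ^ 2 * (p ^ 2 + q ^ 2) - B n x * A n κ x * (p * q))
      - (B n x ^ 2 - B n (x - 1) ^ 2) * q ^ 2 + B n x * (A n κ x - A n κ (x - 1)) * (p * q) =
      B n x * (9 * (1 - v) * p ^ 2 + (1 + 15 * v - 24 * v * u + 8 * v * u ^ 2) * q ^ 2 -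
        (5 + 6 * v + 9 * s - 27 * v * u - 14 * v * u ^ 2) * (p * q)) / 4
      + (B n x - B n (x - 1)) ^ 2 * q ^ 2 := by
    have hx1 : x = 1 / u := by rw [hu]; field_simp
    rw [hB', hA', hB, hA]
    have hu' : u ≠ 0 := hu0.ne'
    rw [hx1]
    field_simp
    ring
  nlinarith

lemma sqrt_step (x : ℝ) (hx : 8 ≤ x) :
    (x - 1) ^ 2 * Real.sqrt (x - 1) ≤ (1 - 9 / (4 * x)) * (x ^ 2 * Real.sqrt x) := by
  have hx0 : 0 < x := by linarith
  have h1 : Real.sqrt (x - 1) ≤ Real.sqrt x * (1 - 1 / (2 * x)) := by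
    apply Real.sqrt_le_iff.2
    constructor
    · apply mul_nonneg (Real.sqrt_nonneg _)
      rw [sub_nonneg, div_le_one (by positivity)]; linarith
    · rw [mul_pow, Real.sq_sqrt hx0.le]
      have : x * (1 - 1 / (2 * x)) ^ 2 = x - 1 + 1 / (4 * x) := by field_simp; ring
      rw [this]
      have : 0 < 1 / (4 * x) := by positivity
      linarith
  have hs : 0 ≤ Real.sqrt x := Real.sqrt_nonneg _
  have h2 : (x - 1) ^ 2 * (1 - 1 / (2 * x)) ≤ (1 - 9 / (4 * x)) * x ^ 2 := by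
    have e1 : (x - 1) ^ 2 * (1 - 1 / (2 * x)) = (x - 1) ^ 2 * (2 * x - 1) / (2 * x) := by
      field_simp
    have e2 : (1 - 9 / (4 * x)) * x ^ 2 = (2 * x ^ 3 - 9 / 2 * x ^ 2) / (2 * x) := by
      field_simp; ring
    rw [e1, e2]
    apply div_le_div_of_nonneg_right _ (by positivity)
    nlinarith
  calc (x - 1) ^ 2 * Real.sqrt (x - 1) ≤ (x - 1) ^ 2 * (Real.sqrt x * (1 - 1 / (2 * x))) :=
        mul_le_mul_of_nonneg_left h1 (sq_nonneg _)
    _ = (x - 1) ^ 2 * (1 - 1 / (2 * x)) * Real.sqrt x := by ring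
    _ ≤ (1 - 9 / (4 * x)) * x ^ 2 * Real.sqrt x := mul_le_mul_of_nonneg_right h2 hs
    _ = (1 - 9 / (4 * x)) * (x ^ 2 * Real.sqrt x) := by ring

lemma b_lower (N m : ℕ) (hm : 1 ≤ m) (hN : m < N) : 3 / 4 ≤ b N m := by
  have hm' : (1 : ℝ) ≤ m := by exact_mod_cast hm
  have hN' : (m : ℝ) + 1 ≤ N := by exact_mod_cast hN
  have h1 : (m : ℝ) ^ 3 / (N : ℝ) ^ 2 ≤ (m : ℝ) ^ 3 / ((m : ℝ) + 1) ^ 2 := by
    apply div_le_div_of_nonneg_left (by positivity) (by positivity)
    apply pow_le_pow_left₀ (by positivity) hN'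
  have h2 : (m : ℝ) ^ 3 / ((m : ℝ) + 1) ^ 2 ≤ m - 3 / 4 := by
    rw [div_le_iff₀ (by positivity)]
    nlinarith [mul_nonneg (sub_nonneg.2 hm') (by positivity : (0 : ℝ) ≤ 5 * m + 3)]
  unfold b
  linarith

lemma b_nonneg (N m : ℕ) (hN : m < N) : 0 ≤ b N m := by
  rcases Nat.eq_zero_or_pos m with rfl | h
  · rw [b_zero]
  · have := b_lower N m h hN
    linarith

lemma b_le (N m : ℕ) : b N m ≤ m := by
  unfold b
  have : 0 ≤ (m : ℝ) ^ 3 / (N : ℝ) ^ 2 := by positivity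
  linarith

lemma c_bound (N j : ℕ) (hN : j < N) (κ K : ℝ) (hκ : |κ| ≤ K) :
    |κ + a N j| ≤ K + j + 5 := by
  obtain ⟨hκ1, hκ2⟩ := abs_le.1 hκ
  have hj : (0 : ℝ) ≤ j := by positivity
  have hN' : (j : ℝ) + 1 ≤ N := by exact_mod_cast hN
  have hN0 : (0 : ℝ) < N := by linarith
  have h1 : (2 * (j : ℝ) ^ 3 + 3 * (j : ℝ) ^ 2 + 2 * (j : ℝ)) / (N : ℝ) ^ 2 ≤ 2 * j + 5 := by
    rw [div_le_iff₀ (by positivity)]
    have h2 : ((j : ℝ) + 1) ^ 2 ≤ (N : ℝ) ^ 2 := pow_le_pow_left₀ (by positivity) hN' 2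
    nlinarith [mul_le_mul_of_nonneg_left h2 (by positivity : (0 : ℝ) ≤ 2 * j + 5)]
  have h0 : 0 ≤ (2 * (j : ℝ) ^ 3 + 3 * (j : ℝ) ^ 2 + 2 * (j : ℝ)) / (N : ℝ) ^ 2 := by positivity
  unfold a
  rw [abs_le]
  constructor <;> linarith

/-- crude bound for small indices -/
noncomputable def D (K : ℝ) : ℕ → ℝ
  | 0 => 1
  | (j + 1) => 2 * (K + 2 * j + 5) * D K j

lemma D_one_le (K : ℝ) (hK : 0 ≤ K) (j : ℕ) : 1 ≤ D K j := by
  induction j with
  | zero => exact le_refl _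
  | succ j ih =>
    rw [D]
    have hj : (0 : ℝ) ≤ j := by positivity
    nlinarith

lemma D_mono (K : ℝ) (hK : 0 ≤ K) : Monotone (D K) := by
  apply monotone_nat_of_le_succ
  intro j
  rw [D]
  have hj : (0 : ℝ) ≤ j := by positivity
  have := D_one_le K hK j
  nlinarith

lemma crude (N : ℕ) (κ K : ℝ) (hK : 0 ≤ K) (hκ : |κ| ≤ K) (f : ℕ → ℝ) (hf0 : f 0 = 1)
    (hf : IsEig N κ f) (j : ℕ) (hj : j < N) : ∀ i ≤ j, |f i| ≤ D K j := by
  induction j with
  | zero =>
    intro i hi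
    rw [Nat.le_zero.1 hi, hf0, D]; simp
  | succ j ih =>
    have ih' := ih (by omega)
    intro i hi
    rcases Nat.lt_or_ge i (j + 1) with h | h
    · exact (ih' i (by omega)).trans (D_mono K hK (Nat.le_succ j))
    · have hi' : i = j + 1 := by omega
      subst hi'
      have hrec := hf j (by omega)
      have hb := b_lower N (j + 1) (by omega) hj
      have hbj := b_nonneg N j (by omega)
      have hbj2 := b_le N j
      have hc := c_bound N j (by omega) κ K hκ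
      have h1 := ih' j le_rfl
      have h2 := ih' (j - 1) (by omega)
      have hD := D_one_le K hK j
      have e : b N (j + 1) * f (j + 1) = (κ + a N j) * f j - b N j * f (j - 1) := by linarith
      have e2 : b N (j + 1) * |f (j + 1)| ≤ (K + j + 5) * D K j + j * D K j := by
        calc b N (j + 1) * |f (j + 1)| = |b N (j + 1) * f (j + 1)| := by
              rw [abs_mul, abs_of_nonneg (by linarith : 0 ≤ b N (j + 1))]
          _ ≤ |(κ + a N j) * f j| + |b N j * f (j - 1)| := by rw [e]; exact abs_sub _ _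
          _ ≤ (K + j + 5) * D K j + j * D K j := by
              rw [abs_mul, abs_mul, abs_of_nonneg hbj]
              apply add_le_add
              · exact mul_le_mul hc h1 (abs_nonneg _) (by positivity)
              · exact mul_le_mul hbj2 h2 (abs_nonneg _) (by positivity)
      rw [D]
      have hj0 : (0 : ℝ) ≤ j := by positivity
      have hD0 : 0 ≤ (K + 2 * j + 5) * D K j := by positivity
      have := mul_le_mul_of_nonneg_right hb (abs_nonneg (f (j + 1)))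
      nlinarith

/-- the discrete energy -/
noncomputable def Y (N : ℕ) (κ : ℝ) (f : ℕ → ℝ) (k : ℕ) : ℝ :=
  B N k ^ 2 * (f k ^ 2 + f (k - 1) ^ 2) - B N k * A N κ k * (f k * f (k - 1))

lemma energy (N : ℕ) (κ K : ℝ) (hK : 0 ≤ K) (hκ : |κ| ≤ K) (f : ℕ → ℝ)
    (hf : IsEig N κ f) (k0 : ℕ) (hk0 : 1000 * (K + 1) ≤ k0) (M : ℝ) (hM : 0 ≤ M)
    (hY : Y N κ f k0 ≤ M * ((k0 : ℝ) ^ 2 * Real.sqrt k0)) (k : ℕ) (hk : k0 ≤ k) :
    k < N → (k : ℝ) ^ 2 ≤ 76 / 100 * (N : ℝ) ^ 2 →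
      Y N κ f k ≤ M * ((k : ℝ) ^ 2 * Real.sqrt k) := by
  induction k, hk using Nat.le_induction with
  | base => intro _ _; exact hY
  | succ k hk ih =>
    intro hkN hv
    have hkr : (k0 : ℝ) ≤ k := by exact_mod_cast hk
    have hN0 : (0 : ℝ) < N := by exact_mod_cast (by omega : 0 < N)
    have hcast : ((k + 1 : ℕ) : ℝ) = (k : ℝ) + 1 := by push_cast; ring
    have hk_nonneg : (0 : ℝ) ≤ k := by positivity
    rw [hcast] at hv
    have ih' := ih (by omega) (by nlinarith)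
    have hrec := hf k (by omega)
    have hrec' : B N ((k : ℝ) + 1) * f (k + 1) + B N ((k : ℝ) + 1 - 1) * f (k - 1) =
        A N κ ((k : ℝ) + 1 - 1) * f k := by
      have e : (k : ℝ) + 1 - 1 = k := by ring
      rw [e, ← hcast, ← b_eq, ← b_eq, ← a_eq]
      exact hrec
    have hx : 1000 * (K + 1) ≤ (k : ℝ) + 1 := by linarith
    have hst := step ((k : ℝ) + 1) N κ K (f (k + 1)) (f k) (f (k - 1)) hK hκ hx hN0 hv hrec'
    have e : (k : ℝ) + 1 - 1 = k := by ring
    rw [e] at hst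
    have hst2 : (1 - 9 / (4 * ((k : ℝ) + 1))) * Y N κ f (k + 1) ≤ Y N κ f k := by
      rw [Y, Y, hcast]
      simpa using hst
    have hsq := sqrt_step ((k : ℝ) + 1) (by nlinarith)
    rw [e] at hsq
    have hpos : 0 < 1 - 9 / (4 * ((k : ℝ) + 1)) := by
      rw [sub_pos, div_lt_one (by positivity)]
      nlinarith
    have h1 : (1 - 9 / (4 * ((k : ℝ) + 1))) * Y N κ f (k + 1) ≤
        (1 - 9 / (4 * ((k : ℝ) + 1))) * (M * (((k : ℝ) + 1) ^ 2 * Real.sqrt ((k : ℝ) + 1))) := by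
      calc _ ≤ Y N κ f k := hst2
        _ ≤ M * ((k : ℝ) ^ 2 * Real.sqrt k) := ih'
        _ ≤ M * ((1 - 9 / (4 * ((k : ℝ) + 1))) *
              (((k : ℝ) + 1) ^ 2 * Real.sqrt ((k : ℝ) + 1))) :=
            mul_le_mul_of_nonneg_left hsq hM
        _ = _ := by ring
    rw [hcast]
    exact le_of_mul_le_mul_left h1 hpos

/-- coercivity in the oscillatory range -/
lemma coercive (x n κ K p q : ℝ) (hK : 0 ≤ K) (hκ : |κ| ≤ K) (hx : 1000 * (K + 1) ≤ x)
    (hn : 0 < n) (hxn : x ≤ n) (hA : 1 ≤ 2 * B n x + A n κ x) :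
    x ^ 2 ≤ 76 / 100 * n ^ 2 ∧
    x * p ^ 2 ≤ 10 * (B n x ^ 2 * (p ^ 2 + q ^ 2) - B n x * A n κ x * (p * q)) := by
  have hx0 : 0 < x := by nlinarith
  have hn2 : 0 < n ^ 2 := by positivity
  obtain ⟨hκ1, hκ2⟩ := abs_le.1 hκ
  set v : ℝ := x ^ 2 / n ^ 2 with hvdef
  have hv0 : 0 ≤ v := by rw [hvdef]; positivity
  have hv1 : v ≤ 1 := by
    rw [hvdef, div_le_one hn2]; exact pow_le_pow_left₀ hx0.le hxn 2
  have hB : B n x = x * (1 - v) := by
    rw [B, hvdef]; field_simp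
  have hA' : A n κ x = κ + x - 2 * x * v - 3 * v - 2 * (x / n ^ 2) := by
    rw [A, hvdef]; field_simp; ring
  have hxn0 : 0 ≤ x / n ^ 2 := by positivity
  have hxn1 : x / n ^ 2 ≤ 1 := by
    rw [div_le_one hn2]; nlinarith
  rw [hB, hA'] at hA
  have hv2 : v ≤ 76 / 100 := by
    by_contra hcon
    push Not at hcon
    nlinarith
  constructor
  · rw [hvdef, div_le_iff₀ hn2] at hv2; exact hv2
  · have hb : 24 / 100 * x ≤ B n x := by rw [hB]; nlinarith
    have hb0 : 0 < B n x := by nlinarith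
    have hc1 : 1 ≤ 2 * B n x + A n κ x := by rw [hB, hA']; exact hA
    have hc2 : 1 ≤ 2 * B n x - A n κ x := by rw [hB, hA']; nlinarith
    have hpq : 2 * (p * q) ≤ p ^ 2 + q ^ 2 := by nlinarith [sq_nonneg (p - q)]
    have hpq2 : -(2 * (p * q)) ≤ p ^ 2 + q ^ 2 := by nlinarith [sq_nonneg (p + q)]
    have hs : 0 ≤ p ^ 2 + q ^ 2 := by positivity
    -- 2 B (p²+q²) - 2 A p q ≥ p² + q²
    have h1 : p ^ 2 + q ^ 2 ≤ 2 * (B n x * (p ^ 2 + q ^ 2) - A n κ x * (p * q)) := by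
      rcases le_total 0 (A n κ x) with h | h
      · nlinarith [mul_nonneg h (sub_nonneg.2 hpq)]
      · nlinarith [mul_nonneg (neg_nonneg.2 h) (sub_nonneg.2 hpq2)]
    have h2 := mul_le_mul_of_nonneg_left h1 hb0.le
    have h3 : 24 / 100 * x * (p ^ 2 + q ^ 2) ≤ B n x * (p ^ 2 + q ^ 2) :=
      mul_le_mul_of_nonneg_right hb hs
    have h4 : 0 ≤ x * q ^ 2 := by positivity
    have h5 : 0 ≤ x * p ^ 2 := by positivity
    nlinarith

/-- the monotone range -/
lemma mono_range (x n κ K : ℝ) (hK : 0 ≤ K) (hκ : |κ| ≤ K) (hx : 1000 * (K + 1) ≤ x)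
    (hn : 0 < n) (hxn : x ≤ n) (hA : 2 * B n x + A n κ x < 1) :
    B n x + B n (x + 1) ≤ - A n κ x ∧ 2 * B n (x + 1) + A n κ (x + 1) < 1 := by
  have hx0 : 0 < x := by nlinarith
  have hn2 : 0 < n ^ 2 := by positivity
  obtain ⟨hκ1, hκ2⟩ := abs_le.1 hκ
  set v : ℝ := x ^ 2 / n ^ 2 with hvdef
  set z : ℝ := x / n ^ 2 with hzdef
  set w : ℝ := 1 / n ^ 2 with hwdef
  have hv0 : 0 ≤ v := by rw [hvdef]; positivity
  have hB : B n x = x * (1 - v) := by
    rw [B, hvdef]; field_simp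
  have hA' : A n κ x = κ + x - 2 * x * v - 3 * v - 2 * z := by
    rw [A, hvdef, hzdef]; field_simp; ring
  have hB1 : B n (x + 1) = x * (1 - v) + 1 - 3 * v - 3 * z - w := by
    rw [B, hvdef, hzdef, hwdef]; field_simp; ring
  have hA1 : A n κ (x + 1) = κ + x - 2 * x * v - 3 * v - 2 * z + 1
      - (6 * v + 12 * z + 7 * w) := by
    rw [A, hvdef, hzdef, hwdef]; field_simp; ring
  have hz0 : 0 ≤ z := by rw [hzdef]; positivity
  have hz1 : z ≤ 1 := by
    rw [hzdef, div_le_one hn2]; nlinarith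
  have hw0 : 0 ≤ w := by rw [hwdef]; positivity
  rw [hB, hA'] at hA
  have hv2 : 7 / 10 ≤ v := by
    by_contra hcon
    push Not at hcon
    nlinarith
  rw [hA1, hB1, hB, hA']
  constructor
  · nlinarith
  · nlinarith

end Growth

namespace Growth

/-- the constant in the growth bound, `k0 = ⌈1000 (K + 1)⌉` -/
noncomputable def Cst (K : ℝ) (k0 : ℕ) : ℝ :=
  D K k0 ^ 2 + 10 * ((k0 : ℝ) ^ 2 * (2 * D K k0 ^ 2) + k0 * (K + k0 + 5) * D K k0 ^ 2)

lemma D_le_pow (K : ℝ) (hK : 0 ≤ K) (j : ℕ) : D K j ≤ (2 * (K + 2 * j + 5)) ^ j := by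
  induction j with
  | zero => simp [D]
  | succ j ih =>
    rw [D]
    have hj : (0 : ℝ) ≤ j := by positivity
    have h1 : (2 * (K + 2 * (j : ℝ) + 5)) ≤ 2 * (K + 2 * ((j + 1 : ℕ) : ℝ) + 5) := by
      push_cast; linarith
    calc 2 * (K + 2 * (j : ℝ) + 5) * D K j ≤
        2 * (K + 2 * (j : ℝ) + 5) * (2 * (K + 2 * j + 5)) ^ j :=
          mul_le_mul_of_nonneg_left ih (by positivity)
      _ = (2 * (K + 2 * (j : ℝ) + 5)) ^ (j + 1) := by ring
      _ ≤ _ := pow_le_pow_left₀ (by positivity) h1 _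

lemma Cst_le (K : ℝ) (hK : 0 ≤ K) :
    Cst K ⌈1000 * (K + 1)⌉₊ ≤ Real.exp (50000000 * (1 + K) ^ 2) := by
  set k0 : ℕ := ⌈1000 * (K + 1)⌉₊ with hk0def
  set L : ℝ := 1 + K with hL
  have hL1 : 1 ≤ L := by linarith
  have hk0 : (k0 : ℝ) ≤ 1001 * L := by
    have := Nat.ceil_lt_add_one (by linarith : 0 ≤ 1000 * (K + 1))
    linarith
  have hk00 : (0 : ℝ) ≤ k0 := by positivity
  have hD1 : D K k0 ≤ Real.exp (4020016 * L ^ 2) := by
    have h1 := D_le_pow K hK k0
    have h2 : 2 * (K + 2 * (k0 : ℝ) + 5) ≤ 4016 * L := by linarith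
    have h3 : 2 * (K + 2 * (k0 : ℝ) + 5) ≤ Real.exp (4016 * L) := by
      have := Real.add_one_le_exp (4016 * L)
      linarith
    calc D K k0 ≤ (2 * (K + 2 * k0 + 5)) ^ k0 := h1
      _ ≤ (Real.exp (4016 * L)) ^ k0 := pow_le_pow_left₀ (by positivity) h3 _
      _ = Real.exp (k0 * (4016 * L)) := by rw [← Real.exp_nat_mul]
      _ ≤ Real.exp (4020016 * L ^ 2) := by
          apply Real.exp_le_exp.2
          nlinarith
  have hD0 : 0 ≤ D K k0 := by linarith [D_one_le K hK k0]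
  have hD2 : D K k0 ^ 2 ≤ Real.exp (8040032 * L ^ 2) := by
    calc D K k0 ^ 2 ≤ (Real.exp (4020016 * L ^ 2)) ^ 2 := pow_le_pow_left₀ hD0 hD1 2
      _ = Real.exp (8040032 * L ^ 2) := by
          rw [← Real.exp_nat_mul]; congr 1; push_cast; ring
  have hpoly : 1 + 20 * (k0 : ℝ) ^ 2 + 10 * (k0 * (K + k0 + 5)) ≤ Real.exp (41000000 * L ^ 2) := by
    have h1 : (k0 : ℝ) ^ 2 ≤ 1002001 * L ^ 2 := by nlinarith
    have h2 : (k0 : ℝ) * (K + k0 + 5) ≤ 1008007 * L ^ 2 := by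
      have : K + (k0 : ℝ) + 5 ≤ 1007 * L := by linarith
      calc (k0 : ℝ) * (K + k0 + 5) ≤ (1001 * L) * (1007 * L) :=
            mul_le_mul hk0 this (by positivity) (by positivity)
        _ = 1008007 * L ^ 2 := by ring
    have h3 := Real.add_one_le_exp (41000000 * L ^ 2)
    nlinarith
  have e : Cst K k0 = D K k0 ^ 2 * (1 + 20 * (k0 : ℝ) ^ 2 + 10 * (k0 * (K + k0 + 5))) := by
    rw [Cst]; ring
  rw [e]
  calc D K k0 ^ 2 * (1 + 20 * (k0 : ℝ) ^ 2 + 10 * (k0 * (K + k0 + 5)))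
      ≤ Real.exp (8040032 * L ^ 2) * Real.exp (41000000 * L ^ 2) :=
        mul_le_mul hD2 hpoly (by positivity) (Real.exp_nonneg _)
    _ = Real.exp (8040032 * L ^ 2 + 41000000 * L ^ 2) := (Real.exp_add _ _).symm
    _ ≤ Real.exp (50000000 * L ^ 2) := by
        apply Real.exp_le_exp.2
        nlinarith

end Growth

open Growth in
/-- growth bound, with the explicit constant -/
theorem growth_const (K : ℝ) (hK : 0 ≤ K) (N : ℕ) (hN : 1 ≤ N) (κ : ℝ) (hκ : |κ| ≤ K)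
    (f : ℕ → ℝ) (hf0 : f 0 = 1) (hf : IsEig N κ f) :
    ∀ j < N, (f j) ^ 2 ≤ Cst K ⌈1000 * (K + 1)⌉₊ * ((N : ℝ) * Real.sqrt N) := by
  set k0 : ℕ := ⌈1000 * (K + 1)⌉₊ with hk0def
  have hk0 : 1000 * (K + 1) ≤ k0 := Nat.le_ceil _
  have hk01 : (1 : ℝ) ≤ k0 := by linarith
  rw [Cst]
  set D0 : ℝ := D K k0 with hD0
  have hD01 : 1 ≤ D0 := D_one_le K hK k0
  set M : ℝ := (k0 : ℝ) ^ 2 * (2 * D0 ^ 2) + k0 * (K + k0 + 5) * D0 ^ 2 with hMdef
  have hM0 : 0 ≤ M := by positivity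
  have hN1 : (1 : ℝ) ≤ N := by exact_mod_cast hN
  have hsN : 1 ≤ Real.sqrt N := Real.one_le_sqrt.2 hN1
  have hNs : 1 ≤ (N : ℝ) * Real.sqrt N := by nlinarith
  have hY0 : k0 < N → Y N κ f k0 ≤ M * ((k0 : ℝ) ^ 2 * Real.sqrt k0) := by
    intro hk0N
    have h1 := crude N κ K hK hκ f hf0 hf k0 hk0N k0 le_rfl
    have h2 := crude N κ K hK hκ f hf0 hf k0 hk0N (k0 - 1) (by omega)
    have hb0 : 0 ≤ B N k0 := b_nonneg N k0 hk0N
    have hb1 : B N k0 ≤ k0 := b_le N k0
    have hc : |A N κ k0| ≤ K + k0 + 5 := c_bound N k0 hk0N κ K hκ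
    have h3 : f k0 ^ 2 ≤ D0 ^ 2 := by rw [← sq_abs]; exact pow_le_pow_left₀ (abs_nonneg _) h1 2
    have h4 : f (k0 - 1) ^ 2 ≤ D0 ^ 2 := by
      rw [← sq_abs]; exact pow_le_pow_left₀ (abs_nonneg _) h2 2
    have h5 : B N k0 ^ 2 ≤ (k0 : ℝ) ^ 2 := pow_le_pow_left₀ hb0 hb1 2
    have h6 : Y N κ f k0 ≤ M := by
      rw [Y, hMdef]
      have e1 : B N k0 ^ 2 * (f k0 ^ 2 + f (k0 - 1) ^ 2) ≤ (k0 : ℝ) ^ 2 * (2 * D0 ^ 2) :=
        mul_le_mul h5 (by linarith) (by positivity) (by positivity)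
      have e2 : -(B N k0 * A N κ k0 * (f k0 * f (k0 - 1))) ≤ k0 * (K + k0 + 5) * D0 ^ 2 := by
        calc -(B N k0 * A N κ k0 * (f k0 * f (k0 - 1)))
            ≤ |B N k0 * A N κ k0 * (f k0 * f (k0 - 1))| := neg_le_abs _
          _ = (B N k0 * |A N κ k0|) * (|f k0| * |f (k0 - 1)|) := by
              rw [abs_mul, abs_mul, abs_mul, abs_of_nonneg hb0]
          _ ≤ (k0 * (K + k0 + 5)) * (D0 * D0) := by
              apply mul_le_mul
              · exact mul_le_mul hb1 hc (abs_nonneg _) (by positivity)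
              · exact mul_le_mul h1 h2 (abs_nonneg _) (by positivity)
              · positivity
              · positivity
          _ = _ := by ring
      linarith
    have h7 : 1 ≤ Real.sqrt k0 := Real.one_le_sqrt.2 hk01
    have h8 : 1 ≤ (k0 : ℝ) ^ 2 * Real.sqrt k0 := by nlinarith
    calc Y N κ f k0 ≤ M * 1 := by linarith
      _ ≤ _ := mul_le_mul_of_nonneg_left h8 hM0
  intro j
  induction j using Nat.strong_induction_on with
  | _ j ih =>
    intro hjN
    rcases Nat.lt_or_ge k0 j with hj | hj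
    swap
    · -- small index
      have h1 := crude N κ K hK hκ f hf0 hf j hjN j le_rfl
      have h2 : |f j| ≤ D0 := h1.trans (D_mono K hK hj)
      have h3 : f j ^ 2 ≤ D0 ^ 2 := by rw [← sq_abs]; exact pow_le_pow_left₀ (abs_nonneg _) h2 2
      calc f j ^ 2 ≤ (D0 ^ 2 + 10 * M) * 1 := by linarith
        _ ≤ _ := mul_le_mul_of_nonneg_left hNs (by positivity)
    · have hjr : (k0 : ℝ) ≤ j := by exact_mod_cast hj.le
      have hx : 1000 * (K + 1) ≤ (j : ℝ) := hk0.trans hjr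
      have hj0 : (0 : ℝ) < j := by linarith
      have hjN' : (j : ℝ) ≤ N := by exact_mod_cast hjN.le
      have hN0 : (0 : ℝ) < N := by linarith
      by_cases hA : 1 ≤ 2 * B N j + A N κ j
      · obtain ⟨hv, hco⟩ := coercive (j : ℝ) N κ K (f j) (f (j - 1)) hK hκ hx hN0 hjN' hA
        have hen := energy N κ K hK hκ f hf k0 hk0 M hM0 (hY0 (by omega)) j hj.le hjN hv
        rw [Y] at hen
        have h1 : (j : ℝ) * f j ^ 2 ≤ j * (10 * M * (j * Real.sqrt j)) := by nlinarith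
        have h2 : f j ^ 2 ≤ 10 * M * (j * Real.sqrt j) := le_of_mul_le_mul_left h1 hj0
        have h3 : (j : ℝ) * Real.sqrt j ≤ N * Real.sqrt N :=
          mul_le_mul hjN' (Real.sqrt_le_sqrt hjN') (Real.sqrt_nonneg _) hN0.le
        have h4 : 10 * M * ((j : ℝ) * Real.sqrt j) ≤ 10 * M * (N * Real.sqrt N) :=
          mul_le_mul_of_nonneg_left h3 (by positivity)
        have h5 : 0 ≤ D0 ^ 2 * ((N : ℝ) * Real.sqrt N) := by positivity
        nlinarith
      · push Not at hA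
        -- all later indices are in the monotone range
        have hall : ∀ i, j ≤ i → i < N → 2 * B N i + A N κ i < 1 := by
          intro i hi
          induction i, hi using Nat.le_induction with
          | base => intro _; exact hA
          | succ i hi ihi =>
            intro hiN
            have h1 := ihi (by omega)
            have hxi : 1000 * (K + 1) ≤ (i : ℝ) := hx.trans (by exact_mod_cast hi)
            have := (mono_range (i : ℝ) N κ K hK hκ hxi hN0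
              (by exact_mod_cast (by omega : i ≤ N)) h1).2
            rw [show ((i + 1 : ℕ) : ℝ) = (i : ℝ) + 1 by push_cast; ring]
            exact this
        have hdec : ∀ m, ∀ i, j ≤ i → i < N → N - 1 - i = m → |f i| ≤ |f (i - 1)| := by
          intro m
          induction m with
          | zero =>
            intro i hi hiN hm
            have hi1 : i + 1 = N := by omega
            have hxi : 1000 * (K + 1) ≤ (i : ℝ) := hx.trans (by exact_mod_cast hi)
            have hF := (mono_range (i : ℝ) N κ K hK hκ hxi hN0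
              (by exact_mod_cast (by omega : i ≤ N)) (hall i hi hiN)).1
            rw [show (i : ℝ) + 1 = ((i + 1 : ℕ) : ℝ) by push_cast; ring] at hF
            have hb1 : B N ((i + 1 : ℕ) : ℝ) = 0 := by
              rw [← b_eq, hi1]; exact b_self N (by omega)
            rw [hb1] at hF
            have hrec := hf i hiN
            rw [b_eq, b_eq, a_eq, hb1] at hrec
            have hbi : 3 / 4 ≤ B N i := b_lower N i (by omega) hiN
            have h1 : B N i * |f (i - 1)| = |A N κ i| * |f i| := by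
              rw [← abs_mul, ← hrec, zero_mul, zero_add, abs_mul,
                abs_of_nonneg (by linarith : 0 ≤ B (N : ℝ) i)]
            have h2 : B N i ≤ |A N κ i| := by
              have := neg_le_abs (A N κ i)
              linarith
            have h3 : B N i * |f i| ≤ B N i * |f (i - 1)| := by
              rw [h1]; exact mul_le_mul_of_nonneg_right h2 (abs_nonneg _)
            exact le_of_mul_le_mul_left h3 (by linarith)
          | succ m ihm =>
            intro i hi hiN hm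
            have hi1 : i + 1 < N := by omega
            have hnext := ihm (i + 1) (by omega) hi1 (by omega)
            rw [Nat.add_sub_cancel] at hnext
            have hxi : 1000 * (K + 1) ≤ (i : ℝ) := hx.trans (by exact_mod_cast hi)
            have hF := (mono_range (i : ℝ) N κ K hK hκ hxi hN0
              (by exact_mod_cast (by omega : i ≤ N)) (hall i hi hiN)).1
            rw [show (i : ℝ) + 1 = ((i + 1 : ℕ) : ℝ) by push_cast; ring] at hF
            have hb1 : 0 ≤ B N ((i + 1 : ℕ) : ℝ) := b_nonneg N (i + 1) hi1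
            have hrec := hf i hiN
            rw [b_eq, b_eq, a_eq] at hrec
            have hbi : 3 / 4 ≤ B N i := b_lower N i (by omega) hiN
            have h1 : |A N κ i| * |f i| ≤ B N ((i + 1 : ℕ) : ℝ) * |f (i + 1)| +
                B N i * |f (i - 1)| := by
              calc |A N κ i| * |f i| = |A N κ i * f i| := (abs_mul _ _).symm
                _ = |B N ((i + 1 : ℕ) : ℝ) * f (i + 1) + B N i * f (i - 1)| := by rw [hrec]
                _ ≤ |B N ((i + 1 : ℕ) : ℝ) * f (i + 1)| + |B N i * f (i - 1)| := abs_add_le _ _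
                _ = _ := by
                  rw [abs_mul, abs_mul, abs_of_nonneg hb1,
                    abs_of_nonneg (by linarith : 0 ≤ B (N : ℝ) i)]
            have h2 : B N i + B N ((i + 1 : ℕ) : ℝ) ≤ |A N κ i| := by
              have := neg_le_abs (A N κ i)
              linarith
            have h3 : B N ((i + 1 : ℕ) : ℝ) * |f (i + 1)| ≤ B N ((i + 1 : ℕ) : ℝ) * |f i| :=
              mul_le_mul_of_nonneg_left hnext hb1
            have h4 := mul_le_mul_of_nonneg_right h2 (abs_nonneg (f i))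
            have h5 : B N i * |f i| ≤ B N i * |f (i - 1)| := by nlinarith
            exact le_of_mul_le_mul_left h5 (by linarith)
        have hd := hdec (N - 1 - j) j le_rfl hjN rfl
        have h1 : f j ^ 2 ≤ f (j - 1) ^ 2 := by
          rw [← sq_abs (f j), ← sq_abs (f (j - 1))]
          exact pow_le_pow_left₀ (abs_nonneg _) hd 2
        exact h1.trans (ih (j - 1) (by omega) (by omega))

/-- growth bound -/
theorem growth (K : ℝ) : ∃ C : ℝ, ∀ N : ℕ, 1 ≤ N → ∀ κ : ℝ, |κ| ≤ K → ∀ f : ℕ → ℝ, f 0 = 1 →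
    IsEig N κ f → ∀ j < N, (f j) ^ 2 ≤ C * ((N : ℝ) * Real.sqrt N) := by
  by_cases hK : 0 ≤ K
  · exact ⟨Growth.Cst K ⌈1000 * (K + 1)⌉₊, fun N hN κ hκ f hf0 hf =>
      growth_const K hK N hN κ hκ f hf0 hf⟩
  · exact ⟨0, fun N _ κ hκ => absurd ((abs_nonneg κ).trans hκ) hK⟩

/-- growth bound with explicit dependence on `κ`, valid for all `N` -/
theorem growth_exp (N : ℕ) (κ : ℝ) (f : ℕ → ℝ) (hf0 : f 0 = 1) (hf : IsEig N κ f) :
    ∀ j < N, (f j) ^ 2 ≤ Real.exp (50000000 * (1 + |κ|) ^ 2) * ((N : ℝ) * Real.sqrt N) := by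
  intro j hj
  have h := growth_const |κ| (abs_nonneg κ) N (by omega) κ le_rfl f hf0 hf j hj
  exact h.trans (mul_le_mul_of_nonneg_right (Growth.Cst_le |κ| (abs_nonneg κ)) (by positivity))

/-- growth bound in the form used later -/
theorem growth' : ∃ C0 : ℝ, 0 < C0 ∧ ∀ (N : ℕ) (κ : ℝ), C0 * (1 + |κ|) ^ 2 ≤ N →
    ∀ f : ℕ → ℝ, f 0 = 1 → IsEig N κ f →
      ∀ j < N, (f j) ^ 2 ≤ Real.exp (C0 * (1 + |κ|) ^ 2) * ((N : ℝ) * Real.sqrt N) :=
  ⟨50000000, by norm_num, fun N κ _ f hf0 hf j hj => growth_exp N κ f hf0 hf j hj⟩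

end Pool.Agent.H13.Pascal
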