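import Pool.Agent.H13.Pascal.Defs

/-!
# The multiplier sequence

`m j = ∫_0^1 t^j w(t) dt` for the explicit weight
`w(t) = (1-t+t^2)^(-1/2) exp ((1/2-κ) (2/√3) (arctan ((2t-1)/√3) - π/6))`
almost solves the three term recurrence with right hand side `1`.
-/

namespace Pool.Agent.H13.Pascal

open Real intervalIntegral Set

/-- exponent of the weight -/
noncomputable def gw (κ t : ℝ) : ℝ :=
  -(1 / 2) * Real.log (1 - t + t ^ 2)
    + (1 / 2 - κ) * (2 / Real.sqrt 3) * (Real.arctan ((2 * t - 1) / Real.sqrt 3) - Real.pi / 6)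

/-- the weight -/
noncomputable def ww (κ t : ℝ) : ℝ := Real.exp (gw κ t)

/-- derivative of the weight -/
noncomputable def wd (κ t : ℝ) : ℝ := ww κ t * ((1 - t - κ) / (1 - t + t ^ 2))

lemma qpos (t : ℝ) : 0 < 1 - t + t ^ 2 := by nlinarith [sq_nonneg (t - 1 / 2)]

lemma qge (t : ℝ) : 3 / 4 ≤ 1 - t + t ^ 2 := by nlinarith [sq_nonneg (t - 1 / 2)]

lemma hasDerivAt_gw (κ t : ℝ) : HasDerivAt (gw κ) ((1 - t - κ) / (1 - t + t ^ 2)) t := by
  have hq := qpos t
  have h3 : (0 : ℝ) < Real.sqrt 3 := Real.sqrt_pos.mpr (by norm_num)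
  have hs3 : Real.sqrt 3 ^ 2 = 3 := Real.sq_sqrt (by norm_num)
  have h1 : HasDerivAt (fun t : ℝ => 1 - t + t ^ 2) (-1 + 2 * t) t := by
    have := ((hasDerivAt_id t).const_sub 1).add ((hasDerivAt_id t).pow 2)
    refine this.congr_deriv ?_
    simp
  have h2 := h1.log hq.ne'
  have h4 : HasDerivAt (fun t : ℝ => (2 * t - 1) / Real.sqrt 3) (2 / Real.sqrt 3) t := by
    have := ((((hasDerivAt_id t).const_mul 2).sub_const 1).div_const (Real.sqrt 3))
    refine this.congr_deriv ?_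
    simp
  have h5 := h4.arctan
  have h6 := (h2.const_mul (-(1 / 2))).add
    ((h5.sub_const (Real.pi / 6)).const_mul ((1 / 2 - κ) * (2 / Real.sqrt 3)))
  refine h6.congr_deriv ?_
  have h7 : (1 + ((2 * t - 1) / Real.sqrt 3) ^ 2) = 4 * (1 - t + t ^ 2) / 3 := by
    rw [div_pow, hs3]; ring
  rw [h7]
  have h8 : (1 / 2 - κ) * (2 / Real.sqrt 3) * (1 / (4 * (1 - t + t ^ 2) / 3) * (2 / Real.sqrt 3))
      = (1 / 2 - κ) / (1 - t + t ^ 2) := by
    have : (2 / Real.sqrt 3) * (2 / Real.sqrt 3) = 4 / 3 := by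
      rw [div_mul_div_comm, ← sq (Real.sqrt 3), hs3]; norm_num
    calc (1 / 2 - κ) * (2 / Real.sqrt 3) * (1 / (4 * (1 - t + t ^ 2) / 3) * (2 / Real.sqrt 3))
        = (1 / 2 - κ) * ((2 / Real.sqrt 3) * (2 / Real.sqrt 3)) * (1 / (4 * (1 - t + t ^ 2) / 3)) := by
          ring
      _ = (1 / 2 - κ) * (4 / 3) * (1 / (4 * (1 - t + t ^ 2) / 3)) := by rw [this]
      _ = (1 / 2 - κ) / (1 - t + t ^ 2) := by field_simp
  rw [h8]
  field_simp
  ring

lemma hasDerivAt_ww (κ t : ℝ) : HasDerivAt (ww κ) (wd κ t) t :=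
  (hasDerivAt_gw κ t).exp

lemma continuous_ww (κ : ℝ) : Continuous (ww κ) :=
  continuous_iff_continuousAt.mpr fun t => (hasDerivAt_ww κ t).continuousAt

lemma continuous_wd (κ : ℝ) : Continuous (wd κ) := by
  unfold wd
  refine (continuous_ww κ).mul ?_
  refine Continuous.div (by fun_prop) (by fun_prop) fun t => (qpos t).ne'

lemma ww_pos (κ t : ℝ) : 0 < ww κ t := Real.exp_pos _

lemma ww_one (κ : ℝ) : ww κ 1 = 1 := by
  have h3 : (0 : ℝ) < Real.sqrt 3 := Real.sqrt_pos.mpr (by norm_num)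
  have : Real.arctan ((2 * 1 - 1) / Real.sqrt 3) = Real.pi / 6 := by
    have h : Real.tan (Real.pi / 6) = 1 / Real.sqrt 3 := Real.tan_pi_div_six
    rw [show ((2 * 1 - 1 : ℝ)) = 1 by norm_num, ← h]
    exact Real.arctan_tan (by linarith [Real.pi_pos]) (by linarith [Real.pi_pos])
  unfold ww gw
  rw [this]
  norm_num

lemma ww_zero (κ : ℝ) : ww κ 0 = Real.exp (cc * (κ - 1 / 2)) := by
  have h3 : (0 : ℝ) < Real.sqrt 3 := Real.sqrt_pos.mpr (by norm_num)
  have : Real.arctan ((2 * 0 - 1) / Real.sqrt 3) = -(Real.pi / 6) := by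
    have h : Real.tan (Real.pi / 6) = 1 / Real.sqrt 3 := Real.tan_pi_div_six
    rw [show ((2 * 0 - 1 : ℝ)) / Real.sqrt 3 = -(1 / Real.sqrt 3) by ring, ← h, Real.arctan_neg]
    rw [Real.arctan_tan (by linarith [Real.pi_pos]) (by linarith [Real.pi_pos])]
  unfold ww gw cc
  rw [this]
  congr 1
  have : Real.log (1 - 0 + 0 ^ 2) = 0 := by norm_num
  rw [this]
  field_simp
  ring

/-- uniform bound of the weight -/
noncomputable def WB (K : ℝ) : ℝ := Real.exp (1 + (1 / 2 + K) * 2 * 4)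

lemma ww_le (K κ t : ℝ) (h : |κ| ≤ K) : ww κ t ≤ WB K := by
  unfold ww WB gw
  apply Real.exp_le_exp.mpr
  have hq := qge t
  have hq0 := qpos t
  have h3 : (1 : ℝ) ≤ Real.sqrt 3 := by
    rw [show (1 : ℝ) = Real.sqrt 1 by simp]; exact Real.sqrt_le_sqrt (by norm_num)
  have hlog : -(1 / 2) * Real.log (1 - t + t ^ 2) ≤ 1 := by
    have := Real.one_sub_inv_le_log_of_pos hq0
    have h4 : (1 - t + t ^ 2)⁻¹ ≤ 4 / 3 := by
      rw [inv_le_comm₀ hq0 (by norm_num)]; linarith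
    linarith
  have hK : 0 ≤ K := le_trans (abs_nonneg _) h
  have h5 : |1 / 2 - κ| ≤ 1 / 2 + K := by
    calc |1 / 2 - κ| ≤ |(1 / 2 : ℝ)| + |κ| := abs_sub _ _
      _ ≤ 1 / 2 + K := by rw [abs_of_pos (by norm_num : (0 : ℝ) < 1 / 2)]; linarith
  have h6 : |2 / Real.sqrt 3| ≤ 2 := by
    rw [abs_of_pos (by positivity)]
    rw [div_le_iff₀ (by linarith)]
    linarith
  have h7 : |Real.arctan ((2 * t - 1) / Real.sqrt 3) - Real.pi / 6| ≤ 4 := by
    have ha := Real.arctan_lt_pi_div_two ((2 * t - 1) / Real.sqrt 3)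
    have hb := Real.neg_pi_div_two_lt_arctan ((2 * t - 1) / Real.sqrt 3)
    have hpi := Real.pi_lt_four
    have hpi0 := Real.pi_pos
    rw [abs_le]
    constructor <;> linarith
  have h8 : (1 / 2 - κ) * (2 / Real.sqrt 3) * (Real.arctan ((2 * t - 1) / Real.sqrt 3) - Real.pi / 6)
      ≤ (1 / 2 + K) * 2 * 4 := by
    calc (1 / 2 - κ) * (2 / Real.sqrt 3) * (Real.arctan ((2 * t - 1) / Real.sqrt 3) - Real.pi / 6)
        ≤ |(1 / 2 - κ) * (2 / Real.sqrt 3) * (Real.arctan ((2 * t - 1) / Real.sqrt 3) - Real.pi / 6)| :=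
          le_abs_self _
      _ = |1 / 2 - κ| * |2 / Real.sqrt 3| * |Real.arctan ((2 * t - 1) / Real.sqrt 3) - Real.pi / 6| := by
          rw [abs_mul, abs_mul]
      _ ≤ (1 / 2 + K) * 2 * 4 := by gcongr
  linarith

lemma wd_le (K κ t : ℝ) (h : |κ| ≤ K) (ht : t ∈ Icc (0 : ℝ) 1) :
    |wd κ t| ≤ WB K * (2 * (1 + K)) := by
  unfold wd
  rw [abs_mul, abs_of_pos (ww_pos κ t)]
  have hK : 0 ≤ K := le_trans (abs_nonneg _) h
  have hq := qge t
  have hq0 := qpos t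
  have h1 : |(1 - t - κ) / (1 - t + t ^ 2)| ≤ 2 * (1 + K) := by
    rw [abs_div, abs_of_pos hq0, div_le_iff₀ hq0]
    have h2 : |1 - t - κ| ≤ 1 + K := by
      have h3 := abs_le.mp h
      rw [abs_le]
      constructor
      · linarith [ht.1, ht.2, h3.1, h3.2]
      · linarith [ht.1, ht.2, h3.1, h3.2]
    nlinarith
  exact mul_le_mul (ww_le K κ t h) h1 (abs_nonneg _) (Real.exp_pos _).le

/-- the multiplier sequence -/
noncomputable def mm (κ : ℝ) (j : ℕ) : ℝ := ∫ t in (0 : ℝ)..1, t ^ j * ww κ t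

/-- the error term -/
noncomputable def rr (κ : ℝ) (j : ℕ) : ℝ :=
  -(j : ℝ) ^ 3 * mm κ (j - 1) - ((j : ℝ) + 1) ^ 3 * mm κ (j + 1)
    + (2 * (j : ℝ) ^ 3 + 3 * (j : ℝ) ^ 2 + 2 * (j : ℝ)) * mm κ j

lemma hasDerivAt_pow' (j : ℕ) (t : ℝ) : HasDerivAt (fun t : ℝ => t ^ j) ((j : ℝ) * t ^ (j - 1)) t :=
  hasDerivAt_pow j t

lemma ii (f : ℝ → ℝ) (hf : Continuous f) : IntervalIntegrable f MeasureTheory.volume 0 1 :=
  hf.intervalIntegrable 0 1

lemma jpow (j : ℕ) (t : ℝ) : (j : ℝ) * t ^ (j - 1) * t = (j : ℝ) * t ^ j := by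
  rcases j with _ | j
  · simp
  · simp only [Nat.add_sub_cancel, pow_succ]; ring

lemma main_rec (κ : ℝ) (j : ℕ) :
    (j : ℝ) * mm κ (j - 1) + ((j : ℝ) + 1) * mm κ (j + 1) - (κ + j) * mm κ j
      = 1 - (if j = 0 then Real.exp (cc * (κ - 1 / 2)) else 0) := by
  have hcw := continuous_ww κ
  have hd : ∀ t ∈ uIcc (0 : ℝ) 1,
      HasDerivAt (fun t : ℝ => t ^ j * (1 - t + t ^ 2) * ww κ t)
        ((j : ℝ) * (t ^ (j - 1) * ww κ t) + ((j : ℝ) + 1) * (t ^ (j + 1) * ww κ t)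
          - (κ + j) * (t ^ j * ww κ t)) t := by
    intro t _
    have h1 : HasDerivAt (fun t : ℝ => 1 - t + t ^ 2) (-1 + 2 * t) t := by
      have := ((hasDerivAt_id t).const_sub 1).add ((hasDerivAt_id t).pow 2)
      refine this.congr_deriv ?_
      simp
    have h2 := ((hasDerivAt_pow' j t).mul h1).mul (hasDerivAt_ww κ t)
    refine h2.congr_deriv ?_
    have hq := (qpos t).ne'
    have h3 : (1 - t + t ^ 2) * wd κ t = ww κ t * (1 - t - κ) := by
      unfold wd; field_simp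
    have h4 := jpow j t
    calc ((j : ℝ) * t ^ (j - 1) * (1 - t + t ^ 2) + t ^ j * (-1 + 2 * t)) * ww κ t
          + t ^ j * (1 - t + t ^ 2) * wd κ t
        = ((j : ℝ) * t ^ (j - 1) * (1 - t + t ^ 2) + t ^ j * (-1 + 2 * t)) * ww κ t
          + t ^ j * ((1 - t + t ^ 2) * wd κ t) := by ring
      _ = ((j : ℝ) * t ^ (j - 1) - ((j : ℝ) * t ^ (j - 1) * t) + ((j : ℝ) * t ^ (j - 1) * t) * t
            + t ^ j * (-1 + 2 * t)) * ww κ t
          + t ^ j * (ww κ t * (1 - t - κ)) := by rw [h3]; ring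
      _ = _ := by rw [h4]; ring
  have hint := integral_eq_sub_of_hasDerivAt hd (ii _ (by fun_prop))
  rw [integral_sub (ii _ (by fun_prop)) (ii _ (by fun_prop)),
    integral_add (ii _ (by fun_prop)) (ii _ (by fun_prop)), integral_const_mul, integral_const_mul,
    integral_const_mul] at hint
  unfold mm
  rw [hint, ww_one, ww_zero]
  rcases Nat.eq_zero_or_pos j with h | h
  · subst h; simp
  · have : (0 : ℝ) ^ j = 0 := zero_pow (by omega)
    rw [this, if_neg (by omega)]; simp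

lemma rr_eq (κ : ℝ) (j : ℕ) :
    rr κ j = -1 + ∫ t in (0 : ℝ)..1,
      ((ww κ t - (1 - t) * wd κ t) * (t ^ j * ((2 * (j : ℝ) + 1) * t - (j : ℝ) ^ 2 * (1 - t)))
        + t ^ (j + 1) * wd κ t) := by
  have hcw := continuous_ww κ
  have hcd := continuous_wd κ
  have hd : ∀ t ∈ uIcc (0 : ℝ) 1,
      HasDerivAt (fun t : ℝ => ww κ t * (1 - t) * (((j : ℝ) + 1) ^ 2 * t ^ (j + 1) - (j : ℝ) ^ 2 * t ^ j)
          - t ^ (j + 1) * ww κ t)
        ((-(j : ℝ) ^ 3 * (t ^ (j - 1) * ww κ t) - ((j : ℝ) + 1) ^ 3 * (t ^ (j + 1) * ww κ t)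
          + (2 * (j : ℝ) ^ 3 + 3 * (j : ℝ) ^ 2 + 2 * (j : ℝ)) * (t ^ j * ww κ t))
          - ((ww κ t - (1 - t) * wd κ t) * (t ^ j * ((2 * (j : ℝ) + 1) * t - (j : ℝ) ^ 2 * (1 - t)))
        + t ^ (j + 1) * wd κ t)) t := by
    intro t _
    have h1 : HasDerivAt (fun t : ℝ => 1 - t) (-1) t := by
      have := ((hasDerivAt_id t).const_sub 1)
      exact this
    have hG : HasDerivAt (fun t : ℝ => ((j : ℝ) + 1) ^ 2 * t ^ (j + 1) - (j : ℝ) ^ 2 * t ^ j)
        (((j : ℝ) + 1) ^ 2 * (((j : ℝ) + 1) * t ^ j) - (j : ℝ) ^ 2 * ((j : ℝ) * t ^ (j - 1))) t := by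
      have h2 := hasDerivAt_pow' (j + 1) t
      have h3 := hasDerivAt_pow' j t
      have := (h2.const_mul (((j : ℝ) + 1) ^ 2)).sub (h3.const_mul ((j : ℝ) ^ 2))
      refine this.congr_deriv ?_
      push_cast
      simp
    have h5 : HasDerivAt (fun t : ℝ => t ^ (j + 1)) (((j : ℝ) + 1) * t ^ j) t := by
      have h2 := hasDerivAt_pow' (j + 1) t
      refine h2.congr_deriv ?_
      push_cast
      simp
    have h6 := (((hasDerivAt_ww κ t).mul h1).mul hG).sub (h5.mul (hasDerivAt_ww κ t))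
    refine h6.congr_deriv ?_
    have h4 := jpow j t
    have hpj : t ^ (j + 1) = t ^ j * t := pow_succ t j
    have hm : (ww κ * fun t : ℝ => 1 - t : ℝ → ℝ) t = ww κ t * (1 - t) := rfl
    rw [hpj, hm]
    linear_combination ((j : ℝ) ^ 2 * ww κ t) * h4
  have hint := integral_eq_sub_of_hasDerivAt hd (ii _ (by fun_prop))
  rw [integral_sub (ii _ (by fun_prop)) (ii _ (by fun_prop)),
    integral_add (ii _ (by fun_prop)) (ii _ (by fun_prop)),
    integral_sub (ii _ (by fun_prop)) (ii _ (by fun_prop)), integral_const_mul, integral_const_mul,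
    integral_const_mul] at hint
  unfold rr mm
  have h0 : (ww κ 1 * (1 - 1) * (((j : ℝ) + 1) ^ 2 * 1 ^ (j + 1) - (j : ℝ) ^ 2 * 1 ^ j)
          - 1 ^ (j + 1) * ww κ 1) - (ww κ 0 * (1 - 0) * (((j : ℝ) + 1) ^ 2 * 0 ^ (j + 1) - (j : ℝ) ^ 2 * 0 ^ j)
          - 0 ^ (j + 1) * ww κ 0) = -1 := by
    rw [ww_one]
    rcases Nat.eq_zero_or_pos j with h | h
    · subst h; simp
    · have : (0 : ℝ) ^ j = 0 := zero_pow (by omega)
      rw [this]; simp
  rw [h0] at hint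
  linarith

lemma poly_int (j : ℕ) :
    ∫ t in (0 : ℝ)..1, t ^ j * ((2 * (j : ℝ) + 1) * t + (j : ℝ) ^ 2 * (1 - t)) ≤ 3 := by
  have h : (fun t : ℝ => t ^ j * ((2 * (j : ℝ) + 1) * t + (j : ℝ) ^ 2 * (1 - t)))
      = fun t : ℝ => ((2 * (j : ℝ) + 1) - (j : ℝ) ^ 2) * t ^ (j + 1) + (j : ℝ) ^ 2 * t ^ j := by
    funext t; ring
  rw [h, integral_add (ii _ (by fun_prop)) (ii _ (by fun_prop)), integral_const_mul,
    integral_const_mul, integral_pow, integral_pow]
  simp only [one_pow]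
  have h1 : (0 : ℝ) ^ (j + 1 + 1) = 0 := zero_pow (by omega)
  have h2 : (0 : ℝ) ^ (j + 1) = 0 := zero_pow (by omega)
  rw [h1, h2]
  push_cast
  have hj : (0 : ℝ) ≤ j := Nat.cast_nonneg j
  have e : ((2 * (j : ℝ) + 1) - (j : ℝ) ^ 2) * ((1 - 0) / ((j : ℝ) + 1 + 1))
      + (j : ℝ) ^ 2 * ((1 - 0) / ((j : ℝ) + 1))
      = ((2 * (j : ℝ) + 1) * (j + 1) + (j : ℝ) ^ 2) / ((j + 1) * (j + 2)) := by
    field_simp; ring
  rw [e, div_le_iff₀ (by positivity)]
  nlinarith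

lemma rr_bound (K κ : ℝ) (h : |κ| ≤ K) (j : ℕ) :
    |rr κ j| ≤ 1 + ((WB K + WB K * (2 * (1 + K))) * 3 + WB K * (2 * (1 + K))) := by
  have hcw := continuous_ww κ
  have hcd := continuous_wd κ
  have hK : 0 ≤ K := le_trans (abs_nonneg _) h
  have hW : 0 < WB K := Real.exp_pos _
  rw [rr_eq]
  set A := WB K + WB K * (2 * (1 + K)) with hA
  set B := WB K * (2 * (1 + K)) with hB
  have hA0 : 0 ≤ A := by positivity
  have hB0 : 0 ≤ B := by positivity
  have key : |∫ t in (0 : ℝ)..1,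
      ((ww κ t - (1 - t) * wd κ t) * (t ^ j * ((2 * (j : ℝ) + 1) * t - (j : ℝ) ^ 2 * (1 - t)))
        + t ^ (j + 1) * wd κ t)| ≤ A * 3 + B := by
    calc |∫ t in (0 : ℝ)..1,
      ((ww κ t - (1 - t) * wd κ t) * (t ^ j * ((2 * (j : ℝ) + 1) * t - (j : ℝ) ^ 2 * (1 - t)))
        + t ^ (j + 1) * wd κ t)|
        ≤ ∫ t in (0 : ℝ)..1, |((ww κ t - (1 - t) * wd κ t) *
            (t ^ j * ((2 * (j : ℝ) + 1) * t - (j : ℝ) ^ 2 * (1 - t)))
        + t ^ (j + 1) * wd κ t)| := abs_integral_le_integral_abs (by norm_num)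
      _ ≤ ∫ t in (0 : ℝ)..1, (A * (t ^ j * ((2 * (j : ℝ) + 1) * t + (j : ℝ) ^ 2 * (1 - t))) + B) := by
          apply integral_mono_on (by norm_num) (ii _ (by fun_prop)) (ii _ (by fun_prop))
          intro t ht
          have ht0 := ht.1
          have ht1 := ht.2
          have hwd := wd_le K κ t h ht
          have hww := ww_le K κ t h
          have hwp := ww_pos κ t
          have hφ : |ww κ t - (1 - t) * wd κ t| ≤ A := by
            calc |ww κ t - (1 - t) * wd κ t| ≤ |ww κ t| + |(1 - t) * wd κ t| := abs_sub _ _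
              _ = ww κ t + (1 - t) * |wd κ t| := by
                rw [abs_of_pos hwp, abs_mul, abs_of_nonneg (by linarith : (0 : ℝ) ≤ 1 - t)]
              _ ≤ WB K + 1 * (WB K * (2 * (1 + K))) := by
                have : (1 - t) * |wd κ t| ≤ 1 * (WB K * (2 * (1 + K))) :=
                  mul_le_mul (by linarith) hwd (abs_nonneg _) (by norm_num)
                linarith
              _ = A := by rw [hA]; ring
          have hj : (0 : ℝ) ≤ j := Nat.cast_nonneg j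
          have hp : 0 ≤ t ^ j := pow_nonneg ht0 j
          have hG : |t ^ j * ((2 * (j : ℝ) + 1) * t - (j : ℝ) ^ 2 * (1 - t))|
              ≤ t ^ j * ((2 * (j : ℝ) + 1) * t + (j : ℝ) ^ 2 * (1 - t)) := by
            rw [abs_mul, abs_of_nonneg hp]
            apply mul_le_mul_of_nonneg_left _ hp
            have u : 0 ≤ (2 * (j : ℝ) + 1) * t := by positivity
            have v : 0 ≤ (j : ℝ) ^ 2 * (1 - t) := mul_nonneg (by positivity) (by linarith)
            rw [abs_le]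
            constructor <;> linarith
          calc |((ww κ t - (1 - t) * wd κ t) *
            (t ^ j * ((2 * (j : ℝ) + 1) * t - (j : ℝ) ^ 2 * (1 - t)))
              + t ^ (j + 1) * wd κ t)|
              ≤ |(ww κ t - (1 - t) * wd κ t) *
            (t ^ j * ((2 * (j : ℝ) + 1) * t - (j : ℝ) ^ 2 * (1 - t)))| + |t ^ (j + 1) * wd κ t| :=
                abs_add_le _ _
            _ = |ww κ t - (1 - t) * wd κ t| *
            |t ^ j * ((2 * (j : ℝ) + 1) * t - (j : ℝ) ^ 2 * (1 - t))| + t ^ (j + 1) * |wd κ t| := by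
                rw [abs_mul (ww κ t - (1 - t) * wd κ t), abs_mul (t ^ (j + 1)),
                  abs_of_nonneg (pow_nonneg ht0 (j + 1))]
            _ ≤ A * (t ^ j * ((2 * (j : ℝ) + 1) * t + (j : ℝ) ^ 2 * (1 - t))) + 1 * B := by
                gcongr
                exact pow_le_one₀ ht0 ht1
            _ = _ := by ring
      _ = A * (∫ t in (0 : ℝ)..1, (t ^ j * ((2 * (j : ℝ) + 1) * t + (j : ℝ) ^ 2 * (1 - t)))) + B := by
          rw [integral_add (ii _ (by fun_prop)) (ii _ (by fun_prop)), integral_const_mul]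
          simp
      _ ≤ A * 3 + B := by
          have := mul_le_mul_of_nonneg_left (poly_int j) hA0
          linarith
  calc |-1 + ∫ t in (0 : ℝ)..1,
      ((ww κ t - (1 - t) * wd κ t) * (t ^ j * ((2 * (j : ℝ) + 1) * t - (j : ℝ) ^ 2 * (1 - t)))
        + t ^ (j + 1) * wd κ t)|
      ≤ |(-1 : ℝ)| + _ := abs_add_le _ _
    _ ≤ 1 + (A * 3 + B) := by
      rw [abs_neg, abs_one]; linarith

theorem multiplier (K : ℝ) : ∃ C : ℝ, ∀ κ : ℝ, |κ| ≤ K → ∃ m r : ℕ → ℝ, (∀ j, |r j| ≤ C) ∧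
    ∀ N : ℕ, 1 ≤ N → ∀ j : ℕ,
      b N j * m (j - 1) + b N (j + 1) * m (j + 1) - (κ + a N j) * m j
        = 1 - (if j = 0 then Real.exp (cc * (κ - 1 / 2)) else 0) + r j / (N : ℝ) ^ 2 := by
  refine ⟨1 + ((WB K + WB K * (2 * (1 + K))) * 3 + WB K * (2 * (1 + K))), fun κ h =>
    ⟨mm κ, rr κ, fun j => rr_bound K κ h j, fun N hN j => ?_⟩⟩
  have hN0 : (N : ℝ) ≠ 0 := by positivity
  rw [← main_rec κ j]
  unfold b a rr
  push_cast
  field_simp
  ring

/-- The multiplier sequence with an explicit dependence of the constant on `κ`. -/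
theorem multiplier_exp : ∃ C0 : ℝ, 0 < C0 ∧ ∀ κ : ℝ, ∃ m r : ℕ → ℝ,
    (∀ j, |r j| ≤ Real.exp (C0 * (1 + |κ|))) ∧
    ∀ N : ℕ, 1 ≤ N → ∀ j : ℕ,
      b N j * m (j - 1) + b N (j + 1) * m (j + 1) - (κ + a N j) * m j
        = 1 - (if j = 0 then Real.exp (cc * (κ - 1 / 2)) else 0) + r j / (N : ℝ) ^ 2 := by
  refine ⟨17, by norm_num, fun κ => ⟨mm κ, rr κ, fun j => ?_, fun N hN j => ?_⟩⟩
  · refine (rr_bound |κ| κ le_rfl j).trans ?_
    have hK : 0 ≤ |κ| := abs_nonneg κ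
    set K := |κ| with hKdef
    have hW : WB K = Real.exp (5 + 8 * K) := by
      unfold WB; congr 1; ring
    have h1 : (1 : ℝ) ≤ Real.exp (5 + 8 * K) := Real.one_le_exp (by positivity)
    have h2 : (12 + 8 * K) ≤ Real.exp (12 + 8 * K) := by
      have := Real.add_one_le_exp (12 + 8 * K); linarith
    calc 1 + ((WB K + WB K * (2 * (1 + K))) * 3 + WB K * (2 * (1 + K)))
        ≤ Real.exp (5 + 8 * K) * (12 + 8 * K) := by rw [hW]; nlinarith
      _ ≤ Real.exp (5 + 8 * K) * Real.exp (12 + 8 * K) := by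
          apply mul_le_mul_of_nonneg_left h2 (Real.exp_pos _).le
      _ = Real.exp (17 + 16 * K) := by rw [← Real.exp_add]; congr 1; ring
      _ ≤ Real.exp (17 * (1 + K)) := by
          apply Real.exp_le_exp.mpr; linarith
  · have hN0 : (N : ℝ) ≠ 0 := by positivity
    rw [← main_rec κ j]
    unfold b a rr
    push_cast
    field_simp
    ring

end Pool.Agent.H13.Pascal
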