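import Pool.Agent.H13.Pascal.Eig
import Pool.Agent.H13.Pascal.Mult
import Pool.Agent.H13.Pascal.Growth

/-!
# The eigenvalue map: `lam = exp (cc (kap - 1/2)) + small`
-/

namespace Pool.Agent.H13.Pascal

open Finset

/-- summation by parts with the multiplier -/
lemma sum_mult (n : ℕ) (κ : ℝ) (f m : ℕ → ℝ) (hf : IsEig (n + 1) κ f) :
    ∑ j ∈ range (n + 1), f j * (b (n + 1) j * m (j - 1) + b (n + 1) (j + 1) * m (j + 1)
      - (κ + a (n + 1) j) * m j) = 0 := by
  have h1 : ∑ j ∈ range (n + 1), m j * (b (n + 1) (j + 1) * f (j + 1) + b (n + 1) j * f (j - 1)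
      - (κ + a (n + 1) j) * f j) = 0 := by
    apply Finset.sum_eq_zero
    intro j hj
    have := hf j (Finset.mem_range.mp hj)
    rw [this]; ring
  have h2 : ∑ j ∈ range (n + 1), m j * (b (n + 1) (j + 1) * f (j + 1))
      = ∑ j ∈ range (n + 1), f j * (b (n + 1) j * m (j - 1)) := by
    rw [Finset.sum_range_succ, Finset.sum_range_succ', b_self (n + 1) (by omega), b_zero]
    simp only [zero_mul, mul_zero, add_zero]
    apply Finset.sum_congr rfl
    intro j _
    simp only [Nat.add_sub_cancel]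
    ring
  have h3 : ∑ j ∈ range (n + 1), m j * (b (n + 1) j * f (j - 1))
      = ∑ j ∈ range (n + 1), f j * (b (n + 1) (j + 1) * m (j + 1)) := by
    rw [Finset.sum_range_succ', Finset.sum_range_succ (fun j => f j * (b (n + 1) (j + 1) * m (j + 1))),
      b_self (n + 1) (by omega), b_zero]
    simp only [zero_mul, mul_zero, add_zero]
    apply Finset.sum_congr rfl
    intro j _
    simp only [Nat.add_sub_cancel]
    ring
  have h4 : ∑ j ∈ range (n + 1), f j * (b (n + 1) j * m (j - 1) + b (n + 1) (j + 1) * m (j + 1)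
      - (κ + a (n + 1) j) * m j)
      = ∑ j ∈ range (n + 1), m j * (b (n + 1) (j + 1) * f (j + 1) + b (n + 1) j * f (j - 1)
      - (κ + a (n + 1) j) * f j) := by
    have e1 : ∀ j ∈ range (n + 1), f j * (b (n + 1) j * m (j - 1) + b (n + 1) (j + 1) * m (j + 1)
      - (κ + a (n + 1) j) * m j) = f j * (b (n + 1) j * m (j - 1))
        + f j * (b (n + 1) (j + 1) * m (j + 1)) - (κ + a (n + 1) j) * (f j * m j) := by
      intro j _; ring
    have e2 : ∀ j ∈ range (n + 1), m j * (b (n + 1) (j + 1) * f (j + 1) + b (n + 1) j * f (j - 1)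
      - (κ + a (n + 1) j) * f j) = m j * (b (n + 1) (j + 1) * f (j + 1))
        + m j * (b (n + 1) j * f (j - 1)) - (κ + a (n + 1) j) * (f j * m j) := by
      intro j _; ring
    rw [Finset.sum_congr rfl e1, Finset.sum_congr rfl e2]
    simp only [Finset.sum_add_distrib, Finset.sum_sub_distrib]
    rw [h2, h3]
  rw [h4, h1]

lemma mult_identity (κ : ℝ) (N : ℕ) (hN : 1 ≤ N) (j : ℕ) :
    b N j * mm κ (j - 1) + b N (j + 1) * mm κ (j + 1) - (κ + a N j) * mm κ j
        = 1 - (if j = 0 then Real.exp (cc * (κ - 1 / 2)) else 0) + rr κ j / (N : ℝ) ^ 2 := by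
  have hN0 : (N : ℝ) ≠ 0 := by positivity
  rw [← main_rec κ j]
  unfold b a rr
  push_cast
  field_simp
  ring

/-- exact formula for the sum of an eigenvector -/
lemma sum_eq (N : ℕ) (hN : 1 ≤ N) (κ : ℝ) (f : ℕ → ℝ) (hf : IsEig N κ f) (h0 : f 0 = 1) :
    ∑ j ∈ range N, f j - Real.exp (cc * (κ - 1 / 2))
      = - (∑ j ∈ range N, f j * rr κ j) / (N : ℝ) ^ 2 := by
  obtain ⟨n, rfl⟩ : ∃ n, N = n + 1 := ⟨N - 1, by omega⟩
  have h := sum_mult n κ f (mm κ) hf
  have h2 : ∀ j ∈ range (n + 1), f j * (b (n + 1) j * mm κ (j - 1) + b (n + 1) (j + 1) * mm κ (j + 1)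
      - (κ + a (n + 1) j) * mm κ j) = f j - (if j = 0 then Real.exp (cc * (κ - 1 / 2)) else 0)
        + (f j * rr κ j) / ((n + 1 : ℕ) : ℝ) ^ 2 := by
    intro j _
    rw [mult_identity κ (n + 1) hN j]
    by_cases hj : j = 0
    · subst hj
      rw [h0]; simp only [if_pos]; ring
    · simp only [if_neg hj]; ring
  rw [Finset.sum_congr rfl h2, Finset.sum_add_distrib, Finset.sum_sub_distrib,
    Finset.sum_ite_eq' (range (n + 1)) 0 (fun _ => Real.exp (cc * (κ - 1 / 2))),
    if_pos (Finset.mem_range.mpr (Nat.succ_pos n)), ← Finset.sum_div] at h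
  rw [neg_div]
  linarith

lemma RB_le (K : ℝ) (hK : 0 ≤ K) :
    1 + ((WB K + WB K * (2 * (1 + K))) * 3 + WB K * (2 * (1 + K))) ≤ Real.exp (10 * (1 + K)) := by
  unfold WB
  have h1 : (1 + K) ≤ Real.exp K := by linarith [Real.add_one_le_exp K]
  have h2 : (1 : ℝ) + (1 / 2 + K) * 2 * 4 = 5 + 8 * K := by ring
  rw [h2]
  set w := Real.exp (5 + 8 * K) with hw
  have hw1 : 1 ≤ w := by
    rw [hw]; exact Real.one_le_exp (by linarith)
  have hK1 : 1 ≤ Real.exp K := Real.one_le_exp hK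
  have h3 : 1 + ((w + w * (2 * (1 + K))) * 3 + w * (2 * (1 + K))) ≤ 12 * (w * Real.exp K) := by
    have e1 : w * (1 + K) ≤ w * Real.exp K := mul_le_mul_of_nonneg_left h1 (by linarith)
    have e2 : w ≤ w * Real.exp K := by nlinarith
    nlinarith
  have h4 : (12 : ℝ) ≤ Real.exp 5 := by
    have e1 : (2.7 : ℝ) ≤ Real.exp 1 := by linarith [Real.exp_one_gt_d9]
    have e2 : Real.exp 5 = (Real.exp 1) ^ 5 := by rw [← Real.exp_nat_mul]; norm_num
    rw [e2]
    calc (12 : ℝ) ≤ 2.7 ^ 5 := by norm_num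
      _ ≤ (Real.exp 1) ^ 5 := by gcongr
  calc 1 + ((w + w * (2 * (1 + K))) * 3 + w * (2 * (1 + K))) ≤ 12 * (w * Real.exp K) := h3
    _ ≤ Real.exp 5 * (w * Real.exp K) := by
        apply mul_le_mul_of_nonneg_right h4; positivity
    _ = Real.exp (10 + 9 * K) := by
        rw [hw, ← Real.exp_add, ← Real.exp_add]; congr 1; ring
    _ ≤ Real.exp (10 * (1 + K)) := by
        apply Real.exp_le_exp.mpr; linarith

/-- the eigenvalue map -/
theorem eig_map (N : ℕ) (k : Fin N) :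
    (lam N k - Real.exp (cc * (kap N k - 1 / 2))) ^ 2
      ≤ Real.exp (50000020 * (1 + |kap N k|) ^ 2) / Real.sqrt N := by
  have hN : 1 ≤ N := by have := k.isLt; omega
  have hNpos : (0 : ℝ) < N := by exact_mod_cast hN
  set κ := kap N k with hκ
  set f : ℕ → ℝ := fun j => uu N k j / uu N k 0 with hf
  have hne := uu_zero_ne N k
  have hf0 : f 0 = 1 := by simp only [hf]; exact div_self hne
  have hfE : IsEig N κ f := by
    intro j hj
    have := uu_isEig N k j hj
    simp only [hf]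
    have e : b N (j + 1) * (uu N k (j + 1) / uu N k 0) + b N j * (uu N k (j - 1) / uu N k 0)
        = (b N (j + 1) * uu N k (j + 1) + b N j * uu N k (j - 1)) / uu N k 0 := by ring
    rw [e, this]; ring
  have hlam : lam N k = ∑ j ∈ range N, f j := by
    unfold lam
    rw [Finset.sum_div]
  have hs := sum_eq N hN κ f hfE hf0
  rw [hlam, hs]
  set K := |κ| with hK
  have hK0 : 0 ≤ K := abs_nonneg _
  set R := Real.exp (10 * (1 + K)) with hR
  have hr : ∀ j, |rr κ j| ≤ R := fun j => le_trans (rr_bound K κ le_rfl j) (RB_le K hK0)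
  have hg := growth_exp N κ f hf0 hfE
  have hS : (∑ j ∈ range N, f j * rr κ j) ^ 2
      ≤ (N : ℝ) * (∑ j ∈ range N, (f j * rr κ j) ^ 2) := by
    have := sq_sum_le_card_mul_sum_sq (s := range N) (f := fun j => f j * rr κ j)
    rw [Finset.card_range] at this
    exact this
  have hS2 : ∑ j ∈ range N, (f j * rr κ j) ^ 2
      ≤ (N : ℝ) * (R ^ 2 * (Real.exp (50000000 * (1 + K) ^ 2) * ((N : ℝ) * Real.sqrt N))) := by
    have : ∀ j ∈ range N, (f j * rr κ j) ^ 2
        ≤ R ^ 2 * (Real.exp (50000000 * (1 + K) ^ 2) * ((N : ℝ) * Real.sqrt N)) := by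
      intro j hj
      rw [mul_pow, mul_comm]
      apply mul_le_mul
      · rw [← sq_abs]
        exact pow_le_pow_left₀ (abs_nonneg _) (hr j) 2
      · exact hg j (Finset.mem_range.mp hj)
      · exact sq_nonneg _
      · exact sq_nonneg _
    have h2 := Finset.sum_le_sum this
    rw [Finset.sum_const, Finset.card_range, nsmul_eq_mul] at h2
    exact h2
  have hRe : R ^ 2 * Real.exp (50000000 * (1 + K) ^ 2) ≤ Real.exp (50000020 * (1 + K) ^ 2) := by
    rw [hR, ← Real.exp_nat_mul, ← Real.exp_add]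
    apply Real.exp_le_exp.mpr
    push_cast
    nlinarith
  have hsq : 0 < Real.sqrt N := Real.sqrt_pos.mpr hNpos
  have hsq2 : Real.sqrt N * Real.sqrt N = N := Real.mul_self_sqrt hNpos.le
  rw [div_pow, neg_sq, div_le_div_iff₀ (by positivity) hsq]
  have h3 : (∑ j ∈ range N, f j * rr κ j) ^ 2
      ≤ (N : ℝ) ^ 3 * Real.sqrt N * Real.exp (50000020 * (1 + K) ^ 2) := by
    calc (∑ j ∈ range N, f j * rr κ j) ^ 2
        ≤ (N : ℝ) * (∑ j ∈ range N, (f j * rr κ j) ^ 2) := hS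
      _ ≤ (N : ℝ) * ((N : ℝ) * (R ^ 2 * (Real.exp (50000000 * (1 + K) ^ 2) * ((N : ℝ) * Real.sqrt N)))) :=
          mul_le_mul_of_nonneg_left hS2 hNpos.le
      _ = (N : ℝ) ^ 3 * Real.sqrt N * (R ^ 2 * Real.exp (50000000 * (1 + K) ^ 2)) := by ring
      _ ≤ (N : ℝ) ^ 3 * Real.sqrt N * Real.exp (50000020 * (1 + K) ^ 2) :=
          mul_le_mul_of_nonneg_left hRe (by positivity)
  calc (∑ j ∈ range N, f j * rr κ j) ^ 2 * Real.sqrt N
      ≤ ((N : ℝ) ^ 3 * Real.sqrt N * Real.exp (50000020 * (1 + K) ^ 2)) * Real.sqrt N :=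
        mul_le_mul_of_nonneg_right h3 hsq.le
    _ = Real.exp (50000020 * (1 + K) ^ 2) * ((N : ℝ) ^ 3 * (Real.sqrt N * Real.sqrt N)) := by ring
    _ = Real.exp (50000020 * (1 + K) ^ 2) * ((N : ℝ) ^ 2) ^ 2 := by rw [hsq2]; ring

end Pool.Agent.H13.Pascal
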