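import Mathlib

/-! # The integral of the logarithmic dispersion relation (helper79, job 109 of helper13 for MP_fe58d8_pr) -/

namespace Pool.Agent.H13.Pascal

open MeasureTheory Filter Topology

noncomputable def qq (α s : ℝ) : ℝ :=
  Real.log ((2 * Real.cos α + 2 * Real.cosh s) / (1 + 2 * Real.cosh s))

namespace IntegralAux

theorem cosh_lower (s : ℝ) : (1 + s ^ 2) / 2 ≤ Real.cosh s := by
  have h1 : Real.cosh s = Real.cosh (2 * (s / 2)) := by congr 1; ring
  rw [h1, Real.cosh_two_mul, Real.cosh_sq]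
  have h2 : (s / 2) ^ 2 ≤ Real.sinh (s / 2) ^ 2 := by
    rw [sq_le_sq]
    rcases le_total 0 (s / 2) with h | h
    · rw [abs_of_nonneg h, abs_of_nonneg (Real.sinh_nonneg_iff.2 h)]
      exact Real.self_le_sinh_iff.2 h
    · rw [abs_of_nonpos h, abs_of_nonpos (Real.sinh_nonpos_iff.2 h)]
      have := Real.sinh_le_self_iff.2 h
      linarith
  nlinarith [sq_nonneg s]

theorem den_lower {δ c s : ℝ} (h0 : 0 < δ) (h1 : δ ≤ 1) (hc : -1 + δ ≤ c) :
    δ * ((1 + s ^ 2) / 2) ≤ c + Real.cosh s := by
  have h2 := cosh_lower s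
  have h3 := Real.one_le_cosh s
  have h4 : δ * ((1 + s ^ 2) / 2) ≤ δ * Real.cosh s := mul_le_mul_of_nonneg_left h2 h0.le
  have h5 : (1 - δ) * 1 ≤ (1 - δ) * Real.cosh s := mul_le_mul_of_nonneg_left h3 (by linarith)
  linarith

theorem integrable_bound (C : ℝ) : Integrable (fun s : ℝ => C * (1 + s ^ 2)⁻¹) :=
  integrable_inv_one_add_sq.const_mul C

theorem cont_kernel {c : ℝ} (hc : -1 < c) : Continuous (fun s : ℝ => c + Real.cosh s) :=
  continuous_const.add Real.continuous_cosh

theorem ker_bound {δ c S s : ℝ} (h0 : 0 < δ) (h1 : δ ≤ 1) (hc : -1 + δ ≤ c) (hS : |S| ≤ 1) :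
    ‖S / (c + Real.cosh s)‖ ≤ (2 / δ) * (1 + s ^ 2)⁻¹ := by
  have hd := den_lower (s := s) h0 h1 hc
  have hp : 0 < δ * ((1 + s ^ 2) / 2) := by positivity
  rw [Real.norm_eq_abs, abs_div, abs_of_pos (lt_of_lt_of_le hp hd)]
  calc |S| / (c + Real.cosh s) ≤ 1 / (δ * ((1 + s ^ 2) / 2)) := by
        apply div_le_div₀ zero_le_one hS hp hd
    _ = (2 / δ) * (1 + s ^ 2)⁻¹ := by
        have : (1 + s ^ 2) ≠ 0 := by positivity
        field_simp

theorem ker_integrable {c : ℝ} (S : ℝ) (hc : -1 < c) :
    Integrable (fun s : ℝ => S / (c + Real.cosh s)) := by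
  have hne : ∀ s : ℝ, c + Real.cosh s ≠ 0 := by
    intro s
    have := Real.one_le_cosh s
    linarith
  have h1 : Integrable (fun s : ℝ => 1 / (c + Real.cosh s)) := by
    refine (integrable_bound (2 / min 1 (c + 1))).mono' ?_ ?_
    · exact (continuous_const.div (cont_kernel hc) hne).aestronglyMeasurable
    · refine Filter.Eventually.of_forall (fun s => ?_)
      refine ker_bound (lt_min one_pos (by linarith)) (min_le_left _ _) ?_ (by simp)
      have := min_le_right 1 (c + 1)
      linarith
  have h2 := h1.const_mul S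
  refine h2.congr (Filter.Eventually.of_forall (fun s => ?_))
  simp only []
  ring

theorem integral_ker_pos {θ : ℝ} (h0 : 0 < θ) (h1 : θ < Real.pi) :
    ∫ s : ℝ, Real.sin θ / (Real.cos θ + Real.cosh s) = 2 * θ := by
  have hs : 0 < Real.sin θ := Real.sin_pos_of_pos_of_lt_pi h0 h1
  have hc : -1 < Real.cos θ := by
    nlinarith [Real.sin_sq_add_cos_sq θ, Real.neg_one_le_cos θ, sq_nonneg (Real.cos θ + 1)]
  have hderiv : ∀ s : ℝ, HasDerivAt (fun s : ℝ => 2 * Real.arctan ((Real.exp s + Real.cos θ) / Real.sin θ))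
      (Real.sin θ / (Real.cos θ + Real.cosh s)) s := by
    intro s
    have e1 : HasDerivAt (fun s : ℝ => (Real.exp s + Real.cos θ) / Real.sin θ)
        (Real.exp s / Real.sin θ) s := ((Real.hasDerivAt_exp s).add_const _).div_const _
    have e2 := (e1.arctan).const_mul 2
    refine e2.congr_deriv ?_
    have hE : 0 < Real.exp s := Real.exp_pos s
    have hq := Real.sin_sq_add_cos_sq θ
    have hch : Real.cosh s = (Real.exp s + (Real.exp s)⁻¹) / 2 := by
      rw [Real.cosh_eq, Real.exp_neg]
    have hden : 0 < Real.cos θ + Real.cosh s := by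
      have := Real.one_le_cosh s
      linarith
    have hden2 : (1 + ((Real.exp s + Real.cos θ) / Real.sin θ) ^ 2)
        = 2 * Real.exp s * (Real.cos θ + Real.cosh s) / Real.sin θ ^ 2 := by
      rw [hch]
      field_simp
      nlinarith [hq]
    rw [hden2]
    field_simp
  have hbot : Tendsto (fun s : ℝ => 2 * Real.arctan ((Real.exp s + Real.cos θ) / Real.sin θ)) atBot
      (𝓝 (2 * (Real.pi / 2 - θ))) := by
    have e1 : Tendsto (fun s : ℝ => (Real.exp s + Real.cos θ) / Real.sin θ) atBot
        (𝓝 ((0 + Real.cos θ) / Real.sin θ)) :=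
      (Real.tendsto_exp_atBot.add_const _).div_const _
    have e2 : Tendsto (fun s : ℝ => Real.arctan ((Real.exp s + Real.cos θ) / Real.sin θ)) atBot
        (𝓝 (Real.arctan ((0 + Real.cos θ) / Real.sin θ))) :=
      (Real.continuous_arctan.tendsto _).comp e1
    have e3 : Real.arctan ((0 + Real.cos θ) / Real.sin θ) = Real.pi / 2 - θ := by
      have : (0 + Real.cos θ) / Real.sin θ = Real.tan (Real.pi / 2 - θ) := by
        rw [Real.tan_eq_sin_div_cos, Real.sin_pi_div_two_sub, Real.cos_pi_div_two_sub, zero_add]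
      rw [this, Real.arctan_tan (by linarith) (by linarith)]
    rw [e3] at e2
    exact e2.const_mul 2
  have htop : Tendsto (fun s : ℝ => 2 * Real.arctan ((Real.exp s + Real.cos θ) / Real.sin θ)) atTop
      (𝓝 (2 * (Real.pi / 2))) := by
    have e1 : Tendsto (fun s : ℝ => (Real.exp s + Real.cos θ) / Real.sin θ) atTop atTop :=
      (Filter.tendsto_atTop_add_const_right _ _ Real.tendsto_exp_atTop).atTop_div_const hs
    have e2 : Tendsto (fun s : ℝ => Real.arctan ((Real.exp s + Real.cos θ) / Real.sin θ)) atTop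
        (𝓝 (Real.pi / 2)) :=
      (tendsto_nhds_of_tendsto_nhdsWithin Real.tendsto_arctan_atTop).comp e1
    exact e2.const_mul 2
  rw [integral_of_hasDerivAt_of_tendsto hderiv (ker_integrable _ hc) hbot htop]
  ring

theorem integral_ker {θ : ℝ} (h0 : -Real.pi < θ) (h1 : θ < Real.pi) :
    ∫ s : ℝ, Real.sin θ / (Real.cos θ + Real.cosh s) = 2 * θ := by
  rcases lt_trichotomy θ 0 with h | h | h
  · have := integral_ker_pos (θ := -θ) (by linarith) (by linarith)
    rw [Real.cos_neg, Real.sin_neg] at this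
    have h2 : ∫ s : ℝ, Real.sin θ / (Real.cos θ + Real.cosh s)
        = - ∫ s : ℝ, -Real.sin θ / (Real.cos θ + Real.cosh s) := by
      rw [← integral_neg]
      congr 1
      ext s
      ring
    rw [h2, this]
    ring
  · subst h
    simp
  · exact integral_ker_pos h h1

theorem cos_gt {α : ℝ} (h0 : -Real.pi < α) (h1 : α < Real.pi) : -1 < Real.cos α := by
  have h2 : Real.cos |α| = Real.cos α := Real.cos_abs α
  rw [← h2, ← Real.cos_pi]
  exact Real.cos_lt_cos_of_nonneg_of_le_pi (abs_nonneg _) le_rfl (abs_lt.2 ⟨h0, h1⟩)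

theorem num_pos {α : ℝ} (h : -1 < Real.cos α) (s : ℝ) : 0 < 2 * Real.cos α + 2 * Real.cosh s := by
  have := Real.one_le_cosh s
  linarith

theorem den_pos (s : ℝ) : 0 < 1 + 2 * Real.cosh s := by
  have := Real.one_le_cosh s
  linarith

theorem qq_cont {α : ℝ} (h : -1 < Real.cos α) : Continuous (qq α) := by
  unfold qq
  refine Continuous.log ?_ (fun s => (div_pos (num_pos h s) (den_pos s)).ne')
  exact (continuous_const.add (continuous_const.mul Real.continuous_cosh)).div
    (continuous_const.add (continuous_const.mul Real.continuous_cosh)) (fun s => (den_pos s).ne')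

theorem qq_integrable {α : ℝ} (h : -1 < Real.cos α) : Integrable (qq α) := by
  have k1 := (ker_integrable (c := Real.cos α) 3 h).norm
  have k2 := (ker_integrable (c := (1 / 2 : ℝ)) 3 (by norm_num)).norm
  refine (k1.add k2).mono' (qq_cont h).aestronglyMeasurable (Filter.Eventually.of_forall fun s => ?_)
  have hn := num_pos h s
  have hd := den_pos s
  have hx : 0 < (2 * Real.cos α + 2 * Real.cosh s) / (1 + 2 * Real.cosh s) := div_pos hn hd
  have hup := Real.log_le_sub_one_of_pos hx
  have hlo := Real.one_sub_inv_le_log_of_pos hx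
  have hc1 := Real.cos_le_one α
  have h1 : (0 : ℝ) < Real.cos α + Real.cosh s := by linarith
  have h2 : (0 : ℝ) < 1 / 2 + Real.cosh s := by linarith
  simp only [Pi.add_apply, Real.norm_eq_abs]
  rw [abs_of_pos (div_pos (by norm_num) h1), abs_of_pos (div_pos (by norm_num) h2)]
  have a1 : 0 < 3 / (Real.cos α + Real.cosh s) := div_pos (by norm_num) h1
  have a2 : 0 < 3 / (1 / 2 + Real.cosh s) := div_pos (by norm_num) h2
  unfold qq
  rw [abs_le]
  constructor
  · have : 1 - ((2 * Real.cos α + 2 * Real.cosh s) / (1 + 2 * Real.cosh s))⁻¹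
        = (2 * Real.cos α - 1) / (2 * (Real.cos α + Real.cosh s)) := by
      field_simp
      ring
    rw [this] at hlo
    have h3 : -(3 / (Real.cos α + Real.cosh s)) ≤ (2 * Real.cos α - 1) / (2 * (Real.cos α + Real.cosh s)) := by
      rw [← neg_div, div_le_div_iff₀ h1 (by linarith)]
      nlinarith
    linarith
  · have : (2 * Real.cos α + 2 * Real.cosh s) / (1 + 2 * Real.cosh s) - 1
        = (2 * Real.cos α - 1) / (2 * (1 / 2 + Real.cosh s)) := by
      field_simp
      ring
    rw [this] at hup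
    have h3 : (2 * Real.cos α - 1) / (2 * (1 / 2 + Real.cosh s)) ≤ 3 / (1 / 2 + Real.cosh s) := by
      rw [div_le_div_iff₀ (by linarith) h2]
      nlinarith
    linarith

theorem hasDeriv {α : ℝ} (h0 : -Real.pi < α) (h1 : α < Real.pi) :
    HasDerivAt (fun α => ∫ s, qq α s) (-(2 * α)) α := by
  have hc := cos_gt h0 h1
  -- neighbourhood
  obtain ⟨δ, hδ, hδ1, hnb⟩ : ∃ δ : ℝ, 0 < δ ∧ δ ≤ 1 ∧ {x : ℝ | -1 + δ < Real.cos x} ∈ 𝓝 α := by
    refine ⟨min 1 ((1 + Real.cos α) / 2), lt_min one_pos (by linarith), min_le_left _ _, ?_⟩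
    refine (isOpen_lt continuous_const Real.continuous_cos).mem_nhds ?_
    have := min_le_right 1 ((1 + Real.cos α) / 2)
    show -1 + min 1 ((1 + Real.cos α) / 2) < Real.cos α
    linarith
  have key := hasDerivAt_integral_of_dominated_loc_of_deriv_le (μ := volume) (F := fun α s => qq α s)
    (F' := fun α s => -(Real.sin α / (Real.cos α + Real.cosh s)))
    (bound := fun s => (2 / δ) * (1 + s ^ 2)⁻¹) (x₀ := α) hnb ?_ (qq_integrable hc) ?_ ?_
    (integrable_bound _) ?_
  · have := key.2
    rw [integral_neg, integral_ker h0 h1] at this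
    exact this
  · filter_upwards [hnb] with x hx
    refine (qq_cont ?_).aestronglyMeasurable
    linarith
  · exact ((ker_integrable (Real.sin α) hc).neg).aestronglyMeasurable
  · refine Filter.Eventually.of_forall (fun s x hx => ?_)
    replace hx : -1 + δ < Real.cos x := hx
    rw [norm_neg]
    exact ker_bound hδ hδ1 hx.le (Real.abs_sin_le_one x)
  · refine Filter.Eventually.of_forall (fun s x hx => ?_)
    replace hx : -1 + δ < Real.cos x := hx
    have hx1 : -1 < Real.cos x := by linarith
    have hn := num_pos hx1 s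
    have hd := den_pos s
    have e1 : HasDerivAt (fun x => (2 * Real.cos x + 2 * Real.cosh s) / (1 + 2 * Real.cosh s))
        ((2 * (-Real.sin x)) / (1 + 2 * Real.cosh s)) x :=
      (((Real.hasDerivAt_cos x).const_mul 2).add_const _).div_const _
    have e2 := e1.log (div_pos hn hd).ne'
    refine HasDerivAt.congr_deriv (f := fun x => qq x s) e2 ?_
    have h3 : Real.cos x + Real.cosh s ≠ 0 := by
      intro h
      linarith
    have h4 : (2 * Real.cos x + 2 * Real.cosh s) = 2 * (Real.cos x + Real.cosh s) := by ring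
    rw [h4]
    field_simp

end IntegralAux

open IntegralAux in
theorem integral_qq (α : ℝ) (h0 : 0 ≤ α) (h1 : α < Real.pi) :
    MeasureTheory.Integrable (qq α) ∧ ∫ s, qq α s = Real.pi ^ 2 / 9 - α ^ 2 := by
  have hpi := Real.pi_pos
  refine ⟨qq_integrable (cos_gt (by linarith) h1), ?_⟩
  have hder : ∀ x ∈ Set.Ioo (-Real.pi) Real.pi,
      HasDerivAt (fun α => (∫ s, qq α s) + α ^ 2) 0 x := by
    intro x hx
    have e1 := hasDeriv hx.1 hx.2
    have e2 : HasDerivAt (fun α : ℝ => α ^ 2) (2 * x) x := by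
      simpa using hasDerivAt_pow 2 x
    have e3 := e1.add e2
    rw [neg_add_cancel] at e3
    exact e3
  have hconst : (∫ s, qq α s) + α ^ 2 = (∫ s, qq (Real.pi / 3) s) + (Real.pi / 3) ^ 2 := by
    have hconv : Convex ℝ (Set.Ioo (-Real.pi) Real.pi) := convex_Ioo _ _
    exact (isOpen_Ioo).is_const_of_deriv_eq_zero (isPreconnected_Ioo)
      (fun x hx => (hder x hx).differentiableAt.differentiableWithinAt)
      (fun x hx => (hder x hx).deriv)
      (show α ∈ Set.Ioo (-Real.pi) Real.pi from ⟨by linarith, h1⟩)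
      (show Real.pi / 3 ∈ Set.Ioo (-Real.pi) Real.pi from ⟨by linarith, by linarith⟩)
  have hzero : ∫ s, qq (Real.pi / 3) s = 0 := by
    have : qq (Real.pi / 3) = fun _ => 0 := by
      ext s
      unfold qq
      rw [Real.cos_pi_div_three]
      have hd := den_pos s
      have : (2 * (1 / 2) + 2 * Real.cosh s) / (1 + 2 * Real.cosh s) = 1 := by
        rw [mul_one_div_cancel (by norm_num : (2 : ℝ) ≠ 0)]
        exact div_self hd.ne'
      rw [this, Real.log_one]
    rw [this]
    simp
  rw [hzero] at hconst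
  linarith [hconst]

end Pool.Agent.H13.Pascal
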