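import Pool.Agent.H13.Pascal.Eig
import Pool.Agent.H13.Pascal.Integral

/-!
# Ratio of determinants as a sum over eigenvalues
-/

namespace Pool.Agent.H13.Pascal

open Finset

/-- point on the unit circle -/
noncomputable def ee (α : ℝ) : ℂ := Complex.exp ((α : ℂ) * Complex.I)

lemma ee_re (α : ℝ) : (ee α).re = Real.cos α := by
  unfold ee; exact Complex.exp_ofReal_mul_I_re α

lemma ee_im (α : ℝ) : (ee α).im = Real.sin α := by
  unfold ee; exact Complex.exp_ofReal_mul_I_im α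

lemma norm_ee_add (α x : ℝ) : ‖ee α + (x : ℂ)‖ ^ 2 = 1 + 2 * Real.cos α * x + x ^ 2 := by
  rw [Complex.sq_norm, Complex.normSq_apply]
  simp only [Complex.add_re, Complex.add_im, Complex.ofReal_re, Complex.ofReal_im, ee_re, ee_im,
    add_zero]
  have := Real.sin_sq_add_cos_sq α
  nlinarith

/-- logarithms of the eigenvalues of the Pascal matrix -/
noncomputable def ss (N : ℕ) (k : Fin N) : ℝ := Real.log (lam N k)

lemma qq_ss (N : ℕ) (k : Fin N) (α : ℝ) :
    qq α (ss N k) = Real.log (‖ee α + (lam N k : ℂ)‖ ^ 2 / ‖ee (Real.pi / 3) + (lam N k : ℂ)‖ ^ 2) := by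
  rw [norm_ee_add, norm_ee_add]
  unfold qq ss
  have hl := lam_pos N k
  set x := lam N k with hx
  have h1 : Real.cosh (Real.log x) = (x + x⁻¹) / 2 := Real.cosh_log hl
  rw [h1, Real.cos_pi_div_three]
  congr 1
  have h2 : (1 : ℝ) + 2 * ((x + x⁻¹) / 2) = (1 + x + x ^ 2) / x := by
    field_simp; ring
  have h3 : 2 * Real.cos α + 2 * ((x + x⁻¹) / 2) = (1 + 2 * Real.cos α * x + x ^ 2) / x := by
    field_simp; ring
  rw [h2, h3]
  have h4 : (1 : ℝ) + 2 * (1 / 2) * x + x ^ 2 = 1 + x + x ^ 2 := by ring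
  rw [h4, div_div_div_cancel_right₀ hl.ne']

lemma ee_add_ne (α x : ℝ) (hα : -1 < Real.cos α) (hx : 0 < x) : ‖ee α + (x : ℂ)‖ ≠ 0 := by
  intro h
  have h2 := norm_ee_add α x
  rw [h] at h2
  nlinarith [sq_nonneg (x - 1)]

lemma DD_ne (N : ℕ) (α : ℝ) (hα : -1 < Real.cos α) : ‖DD N (ee α)‖ ≠ 0 := by
  rw [DD_eq, norm_prod, Finset.prod_ne_zero_iff]
  intro k _
  exact ee_add_ne α _ hα (lam_pos N k)

lemma cos_third : -1 < Real.cos (Real.pi / 3) := by rw [Real.cos_pi_div_three]; norm_num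

theorem log_ratio (N : ℕ) (α : ℝ) (hα : -1 < Real.cos α) :
    Real.log (‖DD N (ee α)‖ / ‖DD N (ee (Real.pi / 3))‖) = (1 / 2) * ∑ k, qq α (ss N k) := by
  have h1 : (‖DD N (ee α)‖ / ‖DD N (ee (Real.pi / 3))‖) ^ 2
      = ∏ k, (‖ee α + (lam N k : ℂ)‖ ^ 2 / ‖ee (Real.pi / 3) + (lam N k : ℂ)‖ ^ 2) := by
    rw [DD_eq, DD_eq, norm_prod, norm_prod, div_pow, ← Finset.prod_pow, ← Finset.prod_pow,
      Finset.prod_div_distrib]
  have h2 := congrArg Real.log h1
  rw [Real.log_pow, Real.log_prod] at h2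
  · simp_rw [← qq_ss] at h2
    push_cast at h2
    linarith
  · intro k _
    have e1 := ee_add_ne α _ hα (lam_pos N k)
    have e2 := ee_add_ne (Real.pi / 3) _ cos_third (lam_pos N k)
    positivity

end Pool.Agent.H13.Pascal
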