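import Pool.Agent.H13.Pascal.CountMu
import Pool.Agent.H13.Pascal.EigMap
import Pool.Agent.H13.Pascal.Ratio

/-!
# Counting the logarithms of the eigenvalues of the Pascal matrix
-/

namespace Pool.Agent.H13.Pascal

open Finset Filter

lemma log_close (x y η : ℝ) (hy : 0 < y) (hη : 0 < η) (hη1 : η ≤ 1)
    (h : |x - y| ≤ y * (η / 2)) : |Real.log x - Real.log y| ≤ η := by
  have h1 := abs_le.mp h
  have hx : 0 < x := by nlinarith
  have hr : x / y ≥ 1 - η / 2 := by
    rw [ge_iff_le, le_div_iff₀ hy]; nlinarith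
  have hr2 : x / y ≤ 1 + η / 2 := by
    rw [div_le_iff₀ hy]; nlinarith
  have hr0 : 0 < x / y := div_pos hx hy
  rw [← Real.log_div hx.ne' hy.ne']
  rw [abs_le]
  constructor
  · have h2 := Real.one_sub_inv_le_log_of_pos hr0
    have h3 : (x / y)⁻¹ ≤ 1 + η := by
      rw [inv_le_comm₀ hr0 (by linarith)]
      have : (1 + η)⁻¹ ≤ 1 - η / 2 := by
        rw [inv_eq_one_div, div_le_iff₀ (by linarith)]
        nlinarith
      linarith
    linarith
  · have h2 := Real.log_le_sub_one_of_pos hr0
    linarith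

/-- the threshold: eventually the error of the eigenvalue map is tiny -/
lemma threshold : ∀ᶠ w : ℝ in atTop, 1 ≤ w ∧ 1 ≤ Real.log w ∧
    50000020 * (4 + 2 * Real.log w) ^ 2 + 6 + 6 * Real.log w ≤ w / 2 := by
  have h1 : ∀ᶠ w : ℝ in atTop, 1 ≤ w := eventually_ge_atTop 1
  have h2 : ∀ᶠ w : ℝ in atTop, 1 ≤ Real.log w := Real.tendsto_log_atTop.eventually_ge_atTop 1
  have h3 := Real.tendsto_pow_log_div_mul_add_atTop 1 0 2 one_ne_zero
  have h4 : ∀ᶠ w : ℝ in atTop, Real.log w ^ 2 / (1 * w + 0) < 1 / (4 * 10 ^ 9) :=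
    h3.eventually_lt_const (by norm_num)
  filter_upwards [h1, h2, h4] with w hw1 hw2 hw3
  refine ⟨hw1, hw2, ?_⟩
  have hw0 : 0 < w := by linarith
  rw [one_mul, add_zero, div_lt_iff₀ hw0] at hw3
  set l := Real.log w with hl
  nlinarith

lemma cc_sqrt : cc * Real.sqrt 3 = 2 * Real.pi / 3 := by
  unfold cc
  have h : 0 < Real.sqrt 3 := Real.sqrt_pos.mpr (by norm_num)
  field_simp

theorem count_s (hnsc : ∃ C : ℝ, 0 < C ∧ ∀ (N M : ℕ) (μ : ℝ), 40 * (1 + |μ|) * (M + 1) ≤ N →
    |(nsc N (kk μ) M : ℝ) - (Th N M - μ * HH M) / Real.pi| ≤ C * (1 + |μ|) ^ 3) :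
    ∃ C1 : ℝ, ∀ᶠ N : ℕ in atTop, 1 ≤ Real.log N ∧
      ∀ r : ℝ, 0 ≤ r → r ≤ 2 * Real.log (Real.log N) + 2 →
        3 / Real.pi ^ 2 * r * Real.log N - C1 * (1 + r) ^ 3
          ≤ ((Finset.univ.filter (fun k : Fin N => |ss N k| ≤ r)).card : ℝ) := by
  obtain ⟨C, hC, hcount⟩ := count_mu hnsc
  refine ⟨C + 1, ?_⟩
  have hth : ∀ᶠ N : ℕ in atTop, 1 ≤ Real.log N ∧ 1 ≤ Real.log (Real.log N) ∧
      50000020 * (4 + 2 * Real.log (Real.log N)) ^ 2 + 6 + 6 * Real.log (Real.log N)
        ≤ Real.log N / 2 :=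
    (Real.tendsto_log_atTop.comp tendsto_natCast_atTop_atTop).eventually threshold
  filter_upwards [hth, eventually_ge_atTop 1] with N hN hN1
  obtain ⟨hw1, hw2, hw3⟩ := hN
  refine ⟨hw1, ?_⟩
  intro r hr0 hr
  set w := Real.log N with hw
  set l := Real.log w with hl
  have hw0 : 0 < w := by linarith
  have hNpos : (0 : ℝ) < N := by exact_mod_cast hN1
  have hpi := Real.pi_pos
  have hpi3 := Real.pi_gt_three
  set η := 1 / w with hη
  have hη0 : 0 < η := by positivity
  have hη1 : η ≤ 1 := by rw [hη, div_le_one hw0]; exact hw1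
  have hpisq : 3 / Real.pi ^ 2 ≤ 1 := by
    rw [div_le_one (by positivity)]; nlinarith
  have hcube : (1 : ℝ) ≤ (1 + r) ^ 3 := one_le_pow₀ (by linarith)
  have hηw : η * w = 1 := by rw [hη]; field_simp
  by_cases hrη : r < η
  · have h1 : 3 / Real.pi ^ 2 * r * w ≤ 1 := by
      have : r * w ≤ 1 := by nlinarith
      have h2 : 0 ≤ r * w := by positivity
      nlinarith [show (0 : ℝ) ≤ 3 / Real.pi ^ 2 by positivity]
    have h3 : (0 : ℝ) ≤ ((Finset.univ.filter (fun k : Fin N => |ss N k| ≤ r)).card : ℝ) :=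
      Nat.cast_nonneg _
    nlinarith
  · have hrη' : η ≤ r := not_lt.mp hrη
    set ρ := 3 / (2 * Real.pi) * (r - η) with hρ
    have hρ0 : 0 ≤ ρ := by
      rw [hρ]; exact mul_nonneg (by positivity) (by linarith)
    have hρr : ρ ≤ r / 2 := by
      rw [hρ]
      have h1 : 3 / (2 * Real.pi) ≤ 1 / 2 := by
        rw [div_le_div_iff₀ (by positivity) (by norm_num)]; linarith
      have h2 : r - η ≤ r := by linarith
      have h3 : 0 ≤ r - η := by linarith
      nlinarith [show (0 : ℝ) ≤ 3 / (2 * Real.pi) by positivity]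
    have h1 := hcount N ρ (-ρ) ρ hN1 (by rw [abs_neg, abs_of_nonneg hρ0]) (by rw [abs_of_nonneg hρ0])
      (by linarith)
    -- inclusion of the filters
    have hsub : Finset.univ.filter (fun k : Fin N => kk (-ρ) ≤ kap N k ∧ kap N k ≤ kk ρ)
        ⊆ Finset.univ.filter (fun k : Fin N => |ss N k| ≤ r) := by
      intro k hk
      rw [Finset.mem_filter] at hk ⊢
      refine ⟨Finset.mem_univ _, ?_⟩
      obtain ⟨_, hk1, hk2⟩ := hk
      set κ := kap N k with hκ
      have hs3 : 0 < Real.sqrt 3 := Real.sqrt_pos.mpr (by norm_num)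
      have hs3b : Real.sqrt 3 ≤ 2 := by
        rw [Real.sqrt_le_left (by norm_num)]; norm_num
      have hδ : |κ - 1 / 2| ≤ Real.sqrt 3 * ρ := by
        unfold kk at hk1 hk2
        rw [abs_le]; constructor <;> nlinarith
      have hcc : 0 < cc := by unfold cc; positivity
      set t := cc * (κ - 1 / 2) with ht
      have htr : |t| ≤ r - η := by
        rw [ht, abs_mul, abs_of_pos hcc]
        calc cc * |κ - 1 / 2| ≤ cc * (Real.sqrt 3 * ρ) := mul_le_mul_of_nonneg_left hδ hcc.le
          _ = (cc * Real.sqrt 3) * ρ := by ring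
          _ = 2 * Real.pi / 3 * (3 / (2 * Real.pi) * (r - η)) := by rw [cc_sqrt, hρ]
          _ = r - η := by field_simp
      have hκ1 : 1 + |κ| ≤ 4 + 2 * l := by
        have e1 : |κ| ≤ |κ - 1 / 2| + 1 / 2 := by
          have := abs_add_le (κ - 1 / 2) (1 / 2)
          rw [sub_add_cancel, abs_of_pos (by norm_num : (0 : ℝ) < 1 / 2)] at this
          exact this
        have e2 : Real.sqrt 3 * ρ ≤ r := by nlinarith
        -- |κ| ≤ r + 1/2 ≤ 2 l + 5/2
        linarith
      have hmap := eig_map N k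
      -- the error
      set x := lam N k with hx
      set y := Real.exp t with hy
      have hy0 : 0 < y := Real.exp_pos _
      have herr : |x - y| ≤ y * (η / 2) := by
        apply abs_le_of_sq_le_sq _ (by positivity)
        refine le_trans hmap ?_
        have hsq : 0 < Real.sqrt N := Real.sqrt_pos.mpr hNpos
        have hsqe : Real.sqrt N = Real.exp (w / 2) := by
          rw [hw, Real.sqrt_eq_rpow, Real.rpow_def_of_pos hNpos]
          congr 1; ring
        have hwe : w = Real.exp l := by rw [hl, Real.exp_log hw0]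
        have hηe : η = Real.exp (-l) := by
          rw [hη, hwe, Real.exp_neg, one_div, ← hwe]
        rw [hsqe, ← Real.exp_sub]
        have hye : Real.exp (-(2 * l + 2)) ≤ y := by
          rw [hy]
          apply Real.exp_le_exp.mpr
          have := (abs_le.mp htr).1
          linarith
        have h4 : (Real.exp (-(2 * l + 2)) * (Real.exp (-l) * Real.exp (-1))) ^ 2
            ≤ (y * (η / 2)) ^ 2 := by
          apply pow_le_pow_left₀ (by positivity)
          apply mul_le_mul hye _ (by positivity) hy0.le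
          rw [hηe]
          have : Real.exp (-1) ≤ 1 / 2 := by
            rw [Real.exp_neg, inv_le_comm₀ (Real.exp_pos _) (by norm_num)]
            have := Real.exp_one_gt_d9
            norm_num
            linarith
          have h5 : 0 < Real.exp (-l) := Real.exp_pos _
          nlinarith
        refine le_trans ?_ h4
        rw [← Real.exp_add, ← Real.exp_add, ← Real.exp_nat_mul]
        apply Real.exp_le_exp.mpr
        push_cast
        have h6 : (1 + |κ|) ^ 2 ≤ (4 + 2 * l) ^ 2 := by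
          apply pow_le_pow_left₀ (by positivity) hκ1
        nlinarith
      have hlc := log_close x y η hy0 hη0 hη1 herr
      unfold ss
      rw [hy, Real.log_exp] at hlc
      have e3 : |Real.log x| ≤ |Real.log x - t| + |t| := by
        have := abs_add_le (Real.log x - t) t
        rw [sub_add_cancel] at this
        exact this
      linarith
    have hcard := Finset.card_le_card hsub
    have hcard' : ((Finset.univ.filter
        (fun k : Fin N => kk (-ρ) ≤ kap N k ∧ kap N k ≤ kk ρ)).card : ℝ)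
        ≤ ((Finset.univ.filter (fun k : Fin N => |ss N k| ≤ r)).card : ℝ) := by exact_mod_cast hcard
    have e1 : (ρ - -ρ) / Real.pi * w = 3 / Real.pi ^ 2 * r * w - 3 / Real.pi ^ 2 * (η * w) := by
      rw [hρ]; field_simp; ring
    rw [e1, hηw] at h1
    have e2 : (1 + ρ) ^ 3 ≤ (1 + r) ^ 3 := by
      apply pow_le_pow_left₀ (by linarith); linarith
    nlinarith

end Pool.Agent.H13.Pascal
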