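import Mathlib

/-!
# The Pascal matrix and its commuting tridiagonal matrix

`P N` is the `N x N` Pascal matrix `binom (i+j) i`.  It commutes with the tridiagonal matrix
`T N` (scaled by `1/N^2`).
-/

namespace Pool.Agent.H13.Pascal

open Matrix Finset

/-- the symmetric Pascal matrix -/
noncomputable def P (N : ℕ) : Matrix (Fin N) (Fin N) ℝ :=
  fun i j => ((i.val + j.val).choose i.val : ℝ)

/-- off-diagonal entries (between `j-1` and `j`) of the commuting tridiagonal matrix -/
noncomputable def b (N j : ℕ) : ℝ := (j : ℝ) - (j : ℝ) ^ 3 / (N : ℝ) ^ 2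

/-- minus the diagonal entries of the commuting tridiagonal matrix -/
noncomputable def a (N j : ℕ) : ℝ :=
  (j : ℝ) - (2 * (j : ℝ) ^ 3 + 3 * (j : ℝ) ^ 2 + 2 * (j : ℝ)) / (N : ℝ) ^ 2

/-- the commuting tridiagonal matrix (scaled by `1/N^2`) -/
noncomputable def T (N : ℕ) : Matrix (Fin N) (Fin N) ℝ := fun i j =>
  if j.val = i.val + 1 then b N j.val
  else if i.val = j.val + 1 then b N i.val
  else if i = j then - a N i.val else 0

/-- the three term recurrence satisfied by eigenvectors of `T N` (the value `f N` is irrelevant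
since `b N N = 0`) -/
def IsEig (N : ℕ) (κ : ℝ) (f : ℕ → ℝ) : Prop :=
  ∀ j < N, b N (j + 1) * f (j + 1) + b N j * f (j - 1) = (κ + a N j) * f j

/-- the constant `2 π / (3 √3)` -/
noncomputable def cc : ℝ := 2 * Real.pi / (3 * Real.sqrt 3)

lemma b_zero (N : ℕ) : b N 0 = 0 := by simp [b]

lemma b_self (N : ℕ) (hN : N ≠ 0) : b N N = 0 := by
  have : (N : ℝ) ≠ 0 := by exact_mod_cast hN
  unfold b
  field_simp
  ring

lemma T_isHermitian (N : ℕ) : (T N).IsHermitian := by
  ext i j
  simp only [Matrix.conjTranspose_apply, star_trivial, T]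
  by_cases h1 : j.val = i.val + 1
  · have h2 : ¬ (i.val = j.val + 1) := by omega
    rw [if_neg h2, if_pos h1, if_pos h1]
  · by_cases h2 : i.val = j.val + 1
    · rw [if_pos h2, if_neg h1, if_pos h2]
    · by_cases h3 : i = j
      · subst h3; rfl
      · have h4 : ¬ (j = i) := fun h => h3 h.symm
        rw [if_neg h2, if_neg h1, if_neg h4, if_neg h1, if_neg h2, if_neg h3]

lemma P_isHermitian (N : ℕ) : (P N).IsHermitian := by
  ext i j
  simp only [Matrix.conjTranspose_apply, star_trivial, P]
  rw [Nat.add_comm j.val i.val]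
  congr 1
  exact Nat.choose_symm_add.symm ▸ rfl

end Pool.Agent.H13.Pascal
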