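import Pool.Agent.H13.Pascal.Spec

/-!
# Common eigenvectors of `T N` and `P N`, determinant of `x + P N`
-/

namespace Pool.Agent.H13.Pascal

open Matrix Finset

/-- eigenvalues of `T N` -/
noncomputable def kap (N : ℕ) (k : Fin N) : ℝ := (T_isHermitian N).eigenvalues k

/-- orthonormal eigenvectors of `T N`, extended by zero -/
noncomputable def uu (N : ℕ) (k : Fin N) (j : ℕ) : ℝ :=
  if h : j < N then ((T_isHermitian N).eigenvectorBasis k).ofLp ⟨j, h⟩ else 0

lemma uu_fin (N : ℕ) (k j : Fin N) : uu N k j = ((T_isHermitian N).eigenvectorBasis k).ofLp j := by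
  unfold uu
  rw [dif_pos j.isLt]

lemma T_mul_uu (N : ℕ) (k i : Fin N) : ∑ j : Fin N, T N i j * uu N k j = kap N k * uu N k i := by
  have h := congrFun ((T_isHermitian N).mulVec_eigenvectorBasis k) i
  simp only [Matrix.mulVec, dotProduct, Pi.smul_apply, smul_eq_mul] at h
  rw [uu_fin]
  unfold kap
  rw [← h]
  apply Finset.sum_congr rfl
  intro j _
  rw [uu_fin]

lemma uu_isEig (N : ℕ) (k : Fin N) : IsEig N (kap N k) (uu N k) := by
  intro j hj
  have h1 := T_mul_uu N k ⟨j, hj⟩
  have h2 := T_row N (uu N k) ⟨j, hj⟩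
  simp only at h1 h2
  linarith

lemma b_pos (N j : ℕ) (h1 : 1 ≤ j) (h2 : j < N) : 0 < b N j := by
  unfold b
  have hj : (0 : ℝ) < j := by exact_mod_cast h1
  have hN : (j : ℝ) < N := by exact_mod_cast h2
  have hN0 : (0 : ℝ) < N := lt_trans hj hN
  rw [sub_pos, div_lt_iff₀ (by positivity)]
  have : (j : ℝ) ^ 2 < (N : ℝ) ^ 2 := by nlinarith
  nlinarith

lemma isEig_zero (N : ℕ) (κ : ℝ) (f : ℕ → ℝ) (h : IsEig N κ f) (h0 : f 0 = 0) :
    ∀ j < N, f j = 0 := by
  intro j
  induction j using Nat.strong_induction_on with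
  | _ j ih =>
    intro hj
    by_cases hj0 : j = 0
    · rw [hj0]; exact h0
    · obtain ⟨m, rfl⟩ : ∃ m, j = m + 1 := ⟨j - 1, by omega⟩
      have hm := h m (by omega)
      have e1 : f m = 0 := ih m (by omega) (by omega)
      have e2 : f (m - 1) = 0 := ih (m - 1) (by omega) (by omega)
      rw [e1, e2] at hm
      have hb := b_pos N (m + 1) (by omega) hj
      have : b N (m + 1) * f (m + 1) = 0 := by linarith
      rcases mul_eq_zero.mp this with h' | h'
      · exact absurd h' hb.ne'
      · exact h'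

lemma uu_zero_ne (N : ℕ) (k : Fin N) : uu N k 0 ≠ 0 := by
  intro h0
  have h := isEig_zero N (kap N k) (uu N k) (uu_isEig N k) h0
  have hz : (T_isHermitian N).eigenvectorBasis k = 0 := by
    ext j
    have := h j.val j.isLt
    rw [uu_fin] at this
    simpa using this
  have hn := (T_isHermitian N).eigenvectorBasis.orthonormal.1 k
  rw [hz] at hn
  simp at hn

/-- eigenvalues of the Pascal matrix -/
noncomputable def lam (N : ℕ) (k : Fin N) : ℝ := (∑ j ∈ range N, uu N k j) / uu N k 0

lemma P_mul_uu (N : ℕ) (k i : Fin N) : ∑ j : Fin N, P N i j * uu N k j = lam N k * uu N k i := by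
  set v : ℕ → ℝ := fun i => if h : i < N then ∑ j : Fin N, P N ⟨i, h⟩ j * uu N k j else 0 with hv
  have hvi : ∀ i : Fin N, v i = ∑ j : Fin N, P N i j * uu N k j := by
    intro i
    simp only [hv]
    rw [dif_pos i.isLt]
  have hv0 : v 0 = ∑ j ∈ range N, uu N k j := by
    have hN : 0 < N := by have := i.isLt; omega
    have := hvi ⟨0, hN⟩
    simp only at this
    rw [this, ← Fin.sum_univ_eq_sum_range]
    apply Finset.sum_congr rfl
    intro j _
    unfold P
    simp
  have hvE : IsEig N (kap N k) v := by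
    intro j hj
    have h2 := T_row N v ⟨j, hj⟩
    simp only at h2
    have h3 : ∑ l : Fin N, T N ⟨j, hj⟩ l * v l = kap N k * v j := by
      have e1 : ∑ l : Fin N, T N ⟨j, hj⟩ l * v l
          = ∑ l : Fin N, ∑ m : Fin N, T N ⟨j, hj⟩ l * (P N l m * uu N k m) := by
        apply Finset.sum_congr rfl
        intro l _
        rw [hvi l, Finset.mul_sum]
      rw [e1, Finset.sum_comm]
      have e2 : ∀ m : Fin N, ∑ l : Fin N, T N ⟨j, hj⟩ l * (P N l m * uu N k m)
          = (T N * P N) ⟨j, hj⟩ m * uu N k m := by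
        intro m
        rw [Matrix.mul_apply, Finset.sum_mul]
        apply Finset.sum_congr rfl
        intro l _
        ring
      simp_rw [e2]
      rw [T_mul_P]
      have e3 : ∀ m : Fin N, (P N * T N) ⟨j, hj⟩ m * uu N k m
          = ∑ l : Fin N, P N ⟨j, hj⟩ l * (T N l m * uu N k m) := by
        intro m
        rw [Matrix.mul_apply, Finset.sum_mul]
        apply Finset.sum_congr rfl
        intro l _
        ring
      simp_rw [e3]
      rw [Finset.sum_comm]
      have e4 : ∀ l : Fin N, ∑ m : Fin N, P N ⟨j, hj⟩ l * (T N l m * uu N k m)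
          = kap N k * (P N ⟨j, hj⟩ l * uu N k l) := by
        intro l
        rw [← Finset.mul_sum, T_mul_uu]
        ring
      simp_rw [e4]
      rw [← Finset.mul_sum]
      have := hvi ⟨j, hj⟩
      simp only at this
      rw [this]
    linarith
  have hne := uu_zero_ne N k
  -- v - (v 0 / u 0) u is an eigenvector with zero initial value
  set w : ℕ → ℝ := fun j => v j - (v 0 / uu N k 0) * uu N k j with hw
  have hwE : IsEig N (kap N k) w := by
    intro j hj
    have h1 := hvE j hj
    have h2 := uu_isEig N k j hj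
    simp only [hw]
    linear_combination h1 - (v 0 / uu N k 0) * h2
  have hw0 : w 0 = 0 := by
    simp only [hw]
    field_simp
    ring
  have := isEig_zero N (kap N k) w hwE hw0 i.val i.isLt
  simp only [hw] at this
  rw [← hvi i]
  unfold lam
  rw [hv0] at this
  linarith

/-- Vandermonde: `P = L Lᵀ` -/
lemma P_vandermonde (N i j : ℕ) (hi : i < N) :
    ((i + j).choose i : ℝ) = ∑ k ∈ range N, (i.choose k : ℝ) * (j.choose k : ℝ) := by
  have h := Nat.add_choose_eq i j i
  rw [Finset.Nat.sum_antidiagonal_eq_sum_range_succ_mk] at h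
  have h2 : (i + j).choose i = ∑ k ∈ range (i + 1), i.choose k * j.choose k := by
    rw [h, ← Finset.sum_range_reflect]
    apply Finset.sum_congr rfl
    intro k hk
    have hk' : k ≤ i := by
      have := Finset.mem_range.mp hk
      omega
    have e1 : i + 1 - 1 - k = i - k := by omega
    rw [e1, Nat.choose_symm hk']
    have e2 : i - (i - k) = k := by omega
    rw [e2]
  rw [h2]
  push_cast
  apply Finset.sum_subset
  · intro k hk
    have := Finset.mem_range.mp hk
    exact Finset.mem_range.mpr (by omega)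
  · intro k _ hk2
    have hk3 : i < k := by
      by_contra hc
      exact hk2 (Finset.mem_range.mpr (by omega))
    rw [Nat.choose_eq_zero_of_lt hk3]
    simp

lemma P_form (N : ℕ) (u : Fin N → ℝ) :
    ∑ i : Fin N, u i * ∑ j : Fin N, P N i j * u j
      = ∑ k ∈ range N, (∑ i : Fin N, ((i.val.choose k : ℕ) : ℝ) * u i) ^ 2 := by
  have h1 : ∀ i j : Fin N, P N i j
      = ∑ k ∈ range N, (i.val.choose k : ℝ) * (j.val.choose k : ℝ) := by
    intro i j
    unfold P
    exact P_vandermonde N i.val j.val i.isLt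
  simp_rw [h1]
  have h2 : ∀ k ∈ range N, (∑ i : Fin N, ((i.val.choose k : ℕ) : ℝ) * u i) ^ 2
      = ∑ i : Fin N, ∑ j : Fin N, u i * ((i.val.choose k : ℝ) * (j.val.choose k : ℝ) * u j) := by
    intro k _
    rw [sq, Finset.sum_mul_sum]
    apply Finset.sum_congr rfl
    intro i _
    apply Finset.sum_congr rfl
    intro j _
    ring
  rw [Finset.sum_congr rfl h2]
  rw [Finset.sum_comm]
  apply Finset.sum_congr rfl
  intro i _
  rw [Finset.mul_sum, Finset.sum_comm]
  apply Finset.sum_congr rfl
  intro j _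
  rw [Finset.sum_mul, Finset.mul_sum]

lemma lam_pos (N : ℕ) (k : Fin N) : 0 < lam N k := by
  have hN : 0 < N := by have := k.isLt; omega
  have h1 : lam N k * ∑ i : Fin N, (uu N k i) ^ 2
      = ∑ m ∈ range N, (∑ i : Fin N, ((i.val.choose m : ℕ) : ℝ) * uu N k i) ^ 2 := by
    rw [← P_form N (fun i => uu N k i)]
    rw [Finset.mul_sum]
    apply Finset.sum_congr rfl
    intro i _
    rw [P_mul_uu]
    ring
  have hpos : 0 < ∑ i : Fin N, (uu N k i) ^ 2 := by
    have h0 : 0 < (uu N k 0) ^ 2 := by
      have := uu_zero_ne N k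
      positivity
    have : (uu N k (⟨0, hN⟩ : Fin N)) ^ 2 ≤ ∑ i : Fin N, (uu N k i) ^ 2 :=
      Finset.single_le_sum (f := fun i : Fin N => (uu N k i) ^ 2) (fun i _ => sq_nonneg _)
        (Finset.mem_univ _)
    exact lt_of_lt_of_le h0 this
  -- the right hand side is positive
  have hR : 0 < ∑ m ∈ range N, (∑ i : Fin N, ((i.val.choose m : ℕ) : ℝ) * uu N k i) ^ 2 := by
    -- largest index with nonzero entry
    by_contra hcon
    have hnn : ∀ m ∈ range N, 0 ≤ (∑ i : Fin N, ((i.val.choose m : ℕ) : ℝ) * uu N k i) ^ 2 :=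
      fun m _ => sq_nonneg _
    have hz : ∑ m ∈ range N, (∑ i : Fin N, ((i.val.choose m : ℕ) : ℝ) * uu N k i) ^ 2 = 0 :=
      le_antisymm (not_lt.mp hcon) (Finset.sum_nonneg hnn)
    have hz' := (Finset.sum_eq_zero_iff_of_nonneg hnn).mp hz
    have hall : ∀ d : ℕ, ∀ m, m < N → N ≤ m + d → uu N k m = 0 := by
      intro d
      induction d with
      | zero => intro m h1 h2; omega
      | succ d ih =>
        intro m h1 h2
        have h3 := hz' m (Finset.mem_range.mpr h1)
        have h4 : ∑ i : Fin N, ((i.val.choose m : ℕ) : ℝ) * uu N k i = 0 := by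
          exact pow_eq_zero_iff (n := 2) (by norm_num) |>.mp h3
        have h5 : ∑ i : Fin N, ((i.val.choose m : ℕ) : ℝ) * uu N k i
            = ((m.choose m : ℕ) : ℝ) * uu N k m := by
          rw [Finset.sum_eq_single (⟨m, h1⟩ : Fin N)]
          · intro i _ hi
            have hne : i.val ≠ m := fun h => hi (Fin.ext h)
            rcases lt_or_gt_of_ne hne with h | h
            · rw [Nat.choose_eq_zero_of_lt h]; simp
            · rw [ih i.val i.isLt (by omega)]; simp
          · intro h; exact absurd (Finset.mem_univ _) h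
        rw [h5] at h4
        simpa using h4
    exact uu_zero_ne N k (hall N 0 hN (by omega))
  rw [← h1] at hR
  by_contra hc
  have : lam N k * ∑ i : Fin N, (uu N k i) ^ 2 ≤ 0 :=
    mul_nonpos_of_nonpos_of_nonneg (not_lt.mp hc) hpos.le
  linarith

/-- the determinant of `x + P N` -/
noncomputable def DD (N : ℕ) (x : ℂ) : ℂ :=
  (x • (1 : Matrix (Fin N) (Fin N) ℂ) + (P N).map (fun r : ℝ => (r : ℂ))).det

theorem DD_eq (N : ℕ) (x : ℂ) : DD N x = ∏ k : Fin N, (x + (lam N k : ℂ)) := by
  set U : Matrix (Fin N) (Fin N) ℝ := ((T_isHermitian N).eigenvectorUnitary : Matrix (Fin N) (Fin N) ℝ)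
    with hU
  have hUentry : ∀ i k : Fin N, U i k = uu N k i := by
    intro i k
    rw [hU, uu_fin, Matrix.IsHermitian.eigenvectorUnitary_apply]
  have h1 : P N * U = U * Matrix.diagonal (fun k => lam N k) := by
    ext i k
    rw [Matrix.mul_apply, Matrix.mul_diagonal, hUentry]
    have := P_mul_uu N k i
    rw [mul_comm] at this
    rw [mul_comm (uu N k i)]
    rw [mul_comm (uu N k ↑i)] at this
    rw [← this]
    apply Finset.sum_congr rfl
    intro j _
    rw [hUentry]
  set Uc : Matrix (Fin N) (Fin N) ℂ := U.map (fun r : ℝ => (r : ℂ)) with hUc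
  have h2 : (P N).map (fun r : ℝ => (r : ℂ)) * Uc
      = Uc * Matrix.diagonal (fun k => (lam N k : ℂ)) := by
    have : (P N * U).map (fun r : ℝ => (r : ℂ))
        = (U * Matrix.diagonal (fun k => lam N k)).map (fun r : ℝ => (r : ℂ)) := by rw [h1]
    have e1 : (P N * U).map (fun r : ℝ => (r : ℂ)) = (P N).map (fun r : ℝ => (r : ℂ)) * Uc := by
      ext i j
      simp [Matrix.mul_apply, Matrix.map_apply, hUc]
    have e2 : (U * Matrix.diagonal (fun k => lam N k)).map (fun r : ℝ => (r : ℂ))
        = Uc * Matrix.diagonal (fun k => (lam N k : ℂ)) := by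
      ext i j
      simp [Matrix.mul_diagonal, Matrix.map_apply, hUc]
    rw [e1, e2] at this
    exact this
  have hdet : Uc.det ≠ 0 := by
    have hu : U.det ≠ 0 := by
      have hstar : star U * U = 1 := by
        rw [hU]; exact Unitary.coe_star_mul_self _
      intro h0
      have := congrArg Matrix.det hstar
      rw [Matrix.det_mul, h0, mul_zero, Matrix.det_one] at this
      exact zero_ne_one this
    have : Uc.det = ((U.det : ℝ) : ℂ) := by
      have := RingHom.map_det (Complex.ofRealHom) U
      rw [hUc]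
      exact this.symm
    rw [this]
    exact_mod_cast hu
  have h3 : (x • (1 : Matrix (Fin N) (Fin N) ℂ) + (P N).map (fun r : ℝ => (r : ℂ))) * Uc
      = Uc * Matrix.diagonal (fun k => x + (lam N k : ℂ)) := by
    rw [Matrix.add_mul, h2, Matrix.smul_mul, Matrix.one_mul]
    ext i j
    simp [Matrix.mul_diagonal]
    ring
  have h4 := congrArg Matrix.det h3
  rw [Matrix.det_mul, Matrix.det_mul, Matrix.det_diagonal] at h4
  unfold DD
  have h5 : ((x • (1 : Matrix (Fin N) (Fin N) ℂ) + (P N).map (fun r : ℝ => (r : ℂ))).det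
      - ∏ k : Fin N, (x + (lam N k : ℂ))) * Uc.det = 0 := by
    rw [sub_mul, h4]; ring
  rcases mul_eq_zero.mp h5 with h | h
  · exact sub_eq_zero.mp h
  · exact absurd h hdet

end Pool.Agent.H13.Pascal
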