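import Pool.Agent.H13.Pascal.Integral

/-! # Layer cake for the dispersion relations (helper99, job 141 of helper13 for MP_fe58d8_pr) -/

namespace Pool.Agent.H13.Pascal

open MeasureTheory Filter Topology Set

noncomputable def q0 (s : ℝ) : ℝ := - qq (Real.pi / 2) s
noncomputable def q1 (s : ℝ) : ℝ := - qq (2 * Real.pi / 3) s + qq (Real.pi / 2) s

namespace LayerAux

noncomputable def gb (b s : ℝ) : ℝ :=
  Real.log (b + 1 + 2 * Real.cosh s) - Real.log (b + 2 * Real.cosh s)
noncomputable def hb (b s : ℝ) : ℝ :=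
  2 * Real.sinh s / ((b + 1 + 2 * Real.cosh s) * (b + 2 * Real.cosh s))

theorem cos_two_pi_div_three' : Real.cos (2 * Real.pi / 3) = -1 / 2 := by
  rw [show 2 * Real.pi / 3 = Real.pi - Real.pi / 3 by ring, Real.cos_pi_sub, Real.cos_pi_div_three]
  norm_num

theorem q0_eq : q0 = gb 0 := by
  funext s
  have hc := Real.one_le_cosh s
  unfold q0 qq gb
  rw [Real.cos_pi_div_two, Real.log_div (by linarith) (by linarith)]
  simp only [mul_zero, zero_add]
  ring

theorem q1_eq : q1 = gb (-1) := by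
  funext s
  have hc := Real.one_le_cosh s
  unfold q1 qq gb
  rw [Real.cos_pi_div_two, cos_two_pi_div_three', Real.log_div (by linarith) (by linarith),
    Real.log_div (by linarith) (by linarith)]
  have e1 : 2 * (-1 / 2 : ℝ) + 2 * Real.cosh s = -1 + 2 * Real.cosh s := by ring
  have e2 : 2 * (0 : ℝ) + 2 * Real.cosh s = -1 + 1 + 2 * Real.cosh s := by ring
  rw [e1, e2]
  ring

theorem gb_hasDerivAt {b : ℝ} (hb1 : -1 ≤ b) (s : ℝ) : HasDerivAt (gb b) (- hb b s) s := by
  have hc := Real.one_le_cosh s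
  have h1 : b + 1 + 2 * Real.cosh s ≠ 0 := by
    have : 0 < b + 1 + 2 * Real.cosh s := by linarith
    exact this.ne'
  have h2 : b + 2 * Real.cosh s ≠ 0 := by
    have : 0 < b + 2 * Real.cosh s := by linarith
    exact this.ne'
  have d1 : HasDerivAt (fun s : ℝ => b + 1 + 2 * Real.cosh s) (2 * Real.sinh s) s :=
    ((Real.hasDerivAt_cosh s).const_mul 2).const_add _
  have d2 : HasDerivAt (fun s : ℝ => b + 2 * Real.cosh s) (2 * Real.sinh s) s :=
    ((Real.hasDerivAt_cosh s).const_mul 2).const_add _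
  have d3 := (d1.log h1).sub (d2.log h2)
  have e : - hb b s = 2 * Real.sinh s / (b + 1 + 2 * Real.cosh s) - 2 * Real.sinh s / (b + 2 * Real.cosh s) := by
    unfold hb
    field_simp
    ring
  rw [e]
  exact d3

theorem inv_cosh_le (r : ℝ) : 1 / Real.cosh r ≤ 2 * Real.exp (-r) := by
  have hp := Real.cosh_pos r
  rw [div_le_iff₀ hp, Real.cosh_eq]
  have h1 : Real.exp (-r) * Real.exp r = 1 := by rw [← Real.exp_add]; simp
  have h2 : 0 < Real.exp (-r) := Real.exp_pos _
  nlinarith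

theorem gb_nonneg {b : ℝ} (hb1 : -1 ≤ b) (s : ℝ) : 0 ≤ gb b s := by
  have hc := Real.one_le_cosh s
  unfold gb
  have : Real.log (b + 2 * Real.cosh s) ≤ Real.log (b + 1 + 2 * Real.cosh s) :=
    Real.log_le_log (by linarith) (by linarith)
  linarith

theorem gb_bound {b : ℝ} (hb1 : -1 ≤ b) (s : ℝ) : gb b s ≤ 2 * Real.exp (-s) := by
  have hc := Real.one_le_cosh s
  have hpos : 0 < b + 2 * Real.cosh s := by linarith
  have hpos1 : 0 < b + 1 + 2 * Real.cosh s := by linarith
  have h1 : gb b s = Real.log ((b + 1 + 2 * Real.cosh s) / (b + 2 * Real.cosh s)) := by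
    unfold gb
    rw [Real.log_div hpos1.ne' hpos.ne']
  have h2 := Real.log_le_sub_one_of_pos (div_pos hpos1 hpos)
  have h3 : (b + 1 + 2 * Real.cosh s) / (b + 2 * Real.cosh s) - 1 = 1 / (b + 2 * Real.cosh s) := by
    field_simp
    ring
  have h4 : 1 / (b + 2 * Real.cosh s) ≤ 1 / Real.cosh s :=
    one_div_le_one_div_of_le (Real.cosh_pos s) (by linarith)
  have h5 := inv_cosh_le s
  rw [h1]
  linarith

theorem hb_nonneg {b : ℝ} (hb1 : -1 ≤ b) {r : ℝ} (hr : 0 ≤ r) : 0 ≤ hb b r := by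
  have hc := Real.one_le_cosh r
  have hs := Real.sinh_nonneg_iff.2 hr
  unfold hb
  have h1 : 0 < b + 2 * Real.cosh r := by linarith
  have h2 : 0 < b + 1 + 2 * Real.cosh r := by linarith
  positivity

theorem hb_bound {b : ℝ} (hb1 : -1 ≤ b) {r : ℝ} (hr : 0 ≤ r) : hb b r ≤ 2 * Real.exp (-r) := by
  have hc := Real.one_le_cosh r
  have hs := Real.sinh_nonneg_iff.2 hr
  have h1 : Real.cosh r ≤ b + 2 * Real.cosh r := by linarith
  have h2 : 2 * Real.cosh r ≤ b + 1 + 2 * Real.cosh r := by linarith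
  have h3 : Real.sinh r ≤ Real.cosh r := (Real.sinh_lt_cosh r).le
  have hcp := Real.cosh_pos r
  have h4 : 2 * Real.cosh r * Real.cosh r ≤ (b + 1 + 2 * Real.cosh r) * (b + 2 * Real.cosh r) :=
    mul_le_mul h2 h1 hcp.le (by linarith)
  refine le_trans ?_ (inv_cosh_le r)
  unfold hb
  rw [div_le_div_iff₀ (lt_of_lt_of_le (by positivity) h4) hcp, one_mul]
  nlinarith

theorem gb_abs (b s : ℝ) : gb b |s| = gb b s := by
  unfold gb
  rw [Real.cosh_abs]

theorem hb_cont {b : ℝ} (hb1 : -1 ≤ b) : Continuous (hb b) := by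
  unfold hb
  refine Continuous.div (by fun_prop) (by fun_prop) (fun s => ?_)
  have hc := Real.one_le_cosh s
  have h1 : 0 < b + 2 * Real.cosh s := by linarith
  have h2 : 0 < b + 1 + 2 * Real.cosh s := by linarith
  positivity

theorem q0_int : Integrable q0 := by
  have h : -1 < Real.cos (Real.pi / 2) := by rw [Real.cos_pi_div_two]; norm_num
  exact (IntegralAux.qq_integrable h).neg

theorem q1_int : Integrable q1 := by
  have h : -1 < Real.cos (Real.pi / 2) := by rw [Real.cos_pi_div_two]; norm_num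
  have h' : -1 < Real.cos (2 * Real.pi / 3) := by rw [cos_two_pi_div_three']; norm_num
  exact (IntegralAux.qq_integrable h').neg.add (IntegralAux.qq_integrable h)

/-- one layer -/
theorem one_layer {g h : ℝ → ℝ} (hd : ∀ s, HasDerivAt g (- h s) s) (hc : Continuous h)
    (hg0 : ∀ s, 0 ≤ g s) {a R : ℝ} (ha : 0 ≤ a) (hR : 0 ≤ R) :
    ∫ r in (0 : ℝ)..R, (Ici a).indicator h r ≤ g a := by
  have hii : ∀ x y : ℝ, IntervalIntegrable ((Ici a).indicator h) volume x y := by
    intro x y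
    have := hc.intervalIntegrable (μ := volume) x y
    exact ⟨this.1.indicator measurableSet_Ici, this.2.indicator measurableSet_Ici⟩
  have hz : ∀ x y : ℝ, x ≤ y → y ≤ a → ∫ r in x..y, (Ici a).indicator h r = 0 := by
    intro x y hxy hya
    refine intervalIntegral.integral_zero_ae ?_
    have : ∀ᵐ r : ℝ, r ≠ a := by
      rw [ae_iff]
      simp
    filter_upwards [this] with r hr hr'
    rw [uIoc_of_le hxy] at hr'
    refine indicator_of_notMem ?_ _
    rw [mem_Ici, not_le]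
    exact lt_of_le_of_ne (hr'.2.trans hya) hr
  rcases le_total R a with hRa | haR
  · rw [hz 0 R hR hRa]
    exact hg0 a
  · rw [← intervalIntegral.integral_add_adjacent_intervals (hii 0 a) (hii a R), hz 0 a ha le_rfl, zero_add]
    have e : ∫ r in a..R, (Ici a).indicator h r = ∫ r in a..R, h r := by
      refine intervalIntegral.integral_congr (fun r hr => ?_)
      rw [uIcc_of_le haR] at hr
      exact indicator_of_mem (by exact hr.1) _
    rw [e]
    have e2 : ∫ r in a..R, - h r = g R - g a := by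
      refine intervalIntegral.integral_eq_sub_of_hasDerivAt (fun r _ => hd r) ?_
      exact (hc.neg).intervalIntegrable _ _
    rw [intervalIntegral.integral_neg] at e2
    have := hg0 R
    linarith

theorem poly_int (R : ℝ) (hR : 0 ≤ R) :
    ∫ r in (0 : ℝ)..R, (1 + r) ^ 3 * Real.exp (-r) ≤ 16 := by
  have hd : ∀ r : ℝ, HasDerivAt (fun r : ℝ => -(((1 + r) ^ 3 + 3 * (1 + r) ^ 2 + 6 * (1 + r) + 6) * Real.exp (-r)))
      ((1 + r) ^ 3 * Real.exp (-r)) r := by
    intro r
    have h1 : HasDerivAt (fun r : ℝ => 1 + r) 1 r := (hasDerivAt_id r).const_add 1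
    have h2 : HasDerivAt (fun r : ℝ => (1 + r) ^ 3 + 3 * (1 + r) ^ 2 + 6 * (1 + r) + 6)
        (3 * (1 + r) ^ 2 * 1 + 3 * (2 * (1 + r) ^ 1 * 1) + 6 * 1) r := by
      have := (((h1.pow 3).add ((h1.pow 2).const_mul 3)).add (h1.const_mul 6)).add_const 6
      simpa using this
    have h3 : HasDerivAt (fun r : ℝ => Real.exp (-r)) (Real.exp (-r) * (-1)) r :=
      ((hasDerivAt_id r).neg).exp
    have h4 := (h2.mul h3).neg
    have e : (1 + r) ^ 3 * Real.exp (-r) =
        -((3 * (1 + r) ^ 2 * 1 + 3 * (2 * (1 + r) ^ 1 * 1) + 6 * 1) * Real.exp (-r)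
          + ((1 + r) ^ 3 + 3 * (1 + r) ^ 2 + 6 * (1 + r) + 6) * (Real.exp (-r) * (-1))) := by ring
    rw [e]
    exact h4
  rw [intervalIntegral.integral_eq_sub_of_hasDerivAt (fun r _ => hd r)]
  · have h1 : 0 ≤ ((1 + R) ^ 3 + 3 * (1 + R) ^ 2 + 6 * (1 + R) + 6) * Real.exp (-R) := by positivity
    simp only [add_zero, neg_zero, Real.exp_zero]
    norm_num
    linarith
  · exact Continuous.intervalIntegrable (by fun_prop) _ _

theorem layer_gen {g h : ℝ → ℝ} (hd : ∀ s, HasDerivAt g (- h s) s) (hc : Continuous h)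
    (hg0 : ∀ s, 0 ≤ g s) (hh0 : ∀ r, 0 ≤ r → 0 ≤ h r)
    (hgb : ∀ r, 0 ≤ r → g r ≤ 2 * Real.exp (-r)) (hhb : ∀ r, 0 ≤ r → h r ≤ 2 * Real.exp (-r))
    (habs : ∀ s, g |s| = g s) (hint : Integrable g) (C1 : ℝ) :
    ∃ C2 : ℝ, ∀ (n : ℕ) (s : Fin n → ℝ) (w : ℝ), 1 ≤ w →
    (∀ r : ℝ, 0 ≤ r → r ≤ 2 * Real.log w + 2 →
      3 / Real.pi ^ 2 * r * w - C1 * (1 + r) ^ 3 ≤ ((Finset.univ.filter (fun k => |s k| ≤ r)).card : ℝ)) →
    3 / (2 * Real.pi ^ 2) * (∫ x, g x) * w - C2 ≤ ∑ k, g (s k) := by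
  have hgc : Continuous g := continuous_iff_continuousAt.2 (fun s => (hd s).continuousAt)
  have hpi : 0 < 3 / Real.pi ^ 2 := by positivity
  refine ⟨10 * (3 / Real.pi ^ 2) + |C1| * 32, ?_⟩
  intro n s w hw hN
  set R : ℝ := 2 * Real.log w + 2 with hRdef
  have hlw : 0 ≤ Real.log w := Real.log_nonneg hw
  have hR : 0 ≤ R := by rw [hRdef]; linarith
  have hw0 : 0 < w := by linarith
  -- step 1
  have hii : ∀ a x y : ℝ, IntervalIntegrable ((Ici a).indicator h) volume x y := by
    intro a x y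
    have := hc.intervalIntegrable (μ := volume) x y
    exact ⟨this.1.indicator measurableSet_Ici, this.2.indicator measurableSet_Ici⟩
  have s1 : ∫ r in (0 : ℝ)..R, ∑ k, (Ici |s k|).indicator h r ≤ ∑ k, g (s k) := by
    rw [intervalIntegral.integral_finsetSum (fun k _ => hii _ _ _)]
    refine Finset.sum_le_sum (fun k _ => ?_)
    rw [← habs (s k)]
    exact one_layer hd hc hg0 (abs_nonneg _) hR
  -- step 2
  have s2 : ∫ r in (0 : ℝ)..R, (3 / Real.pi ^ 2 * r * w - C1 * (1 + r) ^ 3) * h r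
      ≤ ∫ r in (0 : ℝ)..R, ∑ k, (Ici |s k|).indicator h r := by
    refine intervalIntegral.integral_mono_on hR (Continuous.intervalIntegrable (by fun_prop) _ _) ?_ ?_
    · have := IntervalIntegrable.sum (μ := volume) (a := (0 : ℝ)) (b := R) Finset.univ (f := fun k : Fin n => (Ici |s k|).indicator h)
        (fun k _ => hii _ _ _)
      refine this.congr ?_
      intro r hr
      simp
    · intro r hr
      have e : ∑ k, (Ici |s k|).indicator h r = ((Finset.univ.filter (fun k => |s k| ≤ r)).card : ℝ) * h r := by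
        rw [Finset.card_filter]
        push_cast
        rw [Finset.sum_mul]
        refine Finset.sum_congr rfl (fun k _ => ?_)
        by_cases hk : |s k| ≤ r
        · rw [indicator_of_mem (by exact hk), if_pos hk, one_mul]
        · rw [indicator_of_notMem (by exact hk), if_neg hk, zero_mul]
      rw [e]
      exact mul_le_mul_of_nonneg_right (hN r hr.1 hr.2) (hh0 r hr.1)
  -- step 3
  have s3 : ∫ r in (0 : ℝ)..R, (3 / Real.pi ^ 2 * r * w - C1 * (1 + r) ^ 3) * h r
      = (3 / Real.pi ^ 2) * w * (∫ r in (0 : ℝ)..R, r * h r) - C1 * ∫ r in (0 : ℝ)..R, (1 + r) ^ 3 * h r := by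
    rw [← intervalIntegral.integral_const_mul, ← intervalIntegral.integral_const_mul,
      ← intervalIntegral.integral_sub]
    · refine intervalIntegral.integral_congr (fun r _ => ?_)
      show (3 / Real.pi ^ 2 * r * w - C1 * (1 + r) ^ 3) * h r
        = 3 / Real.pi ^ 2 * w * (r * h r) - C1 * ((1 + r) ^ 3 * h r)
      ring
    · exact Continuous.intervalIntegrable (by fun_prop) _ _
    · exact Continuous.intervalIntegrable (by fun_prop) _ _
  have s4 : ∫ r in (0 : ℝ)..R, r * h r = (∫ r in (0 : ℝ)..R, g r) - R * g R := by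
    have hd2 : ∀ r : ℝ, HasDerivAt (fun r : ℝ => r * g r) (g r - r * h r) r := by
      intro r
      have := (hasDerivAt_id r).mul (hd r)
      have e : g r - r * h r = 1 * g r + id r * (-h r) := by
        show g r - r * h r = 1 * g r + r * (-h r)
        ring
      rw [e]
      exact this
    have e := intervalIntegral.integral_eq_sub_of_hasDerivAt (a := 0) (b := R) (fun r _ => hd2 r)
      (Continuous.intervalIntegrable (by fun_prop) _ _)
    rw [intervalIntegral.integral_sub (hgc.intervalIntegrable _ _)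
      (Continuous.intervalIntegrable (by fun_prop) _ _)] at e
    linarith
  have s5 : 0 ≤ ∫ r in (0 : ℝ)..R, (1 + r) ^ 3 * h r := by
    refine intervalIntegral.integral_nonneg hR (fun r hr => ?_)
    have h1 := hh0 r hr.1
    have h2 := hr.1
    positivity
  have s6 : ∫ r in (0 : ℝ)..R, (1 + r) ^ 3 * h r ≤ 32 := by
    have e1 : ∫ r in (0 : ℝ)..R, (1 + r) ^ 3 * h r ≤ ∫ r in (0 : ℝ)..R, 2 * ((1 + r) ^ 3 * Real.exp (-r)) := by
      refine intervalIntegral.integral_mono_on hR (Continuous.intervalIntegrable (by fun_prop) _ _)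
        (Continuous.intervalIntegrable (by fun_prop) _ _) (fun r hr => ?_)
      have h1 := hhb r hr.1
      have h2 : 0 ≤ (1 + r) ^ 3 := by
        have := hr.1
        positivity
      calc (1 + r) ^ 3 * h r ≤ (1 + r) ^ 3 * (2 * Real.exp (-r)) := mul_le_mul_of_nonneg_left h1 h2
        _ = 2 * ((1 + r) ^ 3 * Real.exp (-r)) := by ring
    rw [intervalIntegral.integral_const_mul] at e1
    have := poly_int R hR
    linarith
  have s7 : (∫ x, g x) = 2 * ((∫ r in (0 : ℝ)..R, g r) + ∫ r in Ioi R, g r) := by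
    have e1 : (∫ x, g x) = ∫ x, g |x| := by
      congr 1
      funext x
      exact (habs x).symm
    rw [e1, integral_comp_abs, intervalIntegral.integral_of_le hR, ← setIntegral_union
      (Set.Ioc_disjoint_Ioi le_rfl) measurableSet_Ioi hint.integrableOn hint.integrableOn,
      Ioc_union_Ioi_eq_Ioi hR]
  have s8 : ∫ r in Ioi R, g r ≤ 2 * Real.exp (-R) := by
    rw [← integral_exp_neg_Ioi R, ← integral_const_mul]
    refine setIntegral_mono_on hint.integrableOn ?_ measurableSet_Ioi (fun r hr => ?_)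
    · exact (integrableOn_exp_neg_Ioi R).const_mul 2
    · exact hgb r (hR.trans (le_of_lt hr))
  have s9 : R * g R ≤ R * (2 * Real.exp (-R)) := mul_le_mul_of_nonneg_left (hgb R hR) hR
  have s10 : w * ((1 + R) * (2 * Real.exp (-R))) ≤ 10 := by
    have e1 : Real.exp (-R) = Real.exp (-2) / w ^ 2 := by
      have : -R = -2 - (Real.log w + Real.log w) := by rw [hRdef]; ring
      rw [this, Real.exp_sub, Real.exp_add, Real.exp_log hw0]
      ring
    have e2 : Real.log w ≤ w - 1 := Real.log_le_sub_one_of_pos hw0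
    have e3 : Real.exp (-2) ≤ 1 := by
      rw [Real.exp_le_one_iff]; norm_num
    have e4 : 0 < Real.exp (-2) := Real.exp_pos _
    rw [e1]
    have e5 : w * ((1 + R) * (2 * (Real.exp (-2) / w ^ 2))) = (1 + R) * 2 * Real.exp (-2) / w := by
      field_simp
    rw [e5, div_le_iff₀ hw0]
    have e6 : (1 + R) * 2 * Real.exp (-2) ≤ (1 + R) * 2 * 1 :=
      mul_le_mul_of_nonneg_left e3 (by positivity)
    rw [hRdef] at *
    linarith
  -- combine
  have t1 : C1 * ∫ r in (0 : ℝ)..R, (1 + r) ^ 3 * h r ≤ |C1| * 32 := by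
    calc C1 * ∫ r in (0 : ℝ)..R, (1 + r) ^ 3 * h r ≤ |C1| * ∫ r in (0 : ℝ)..R, (1 + r) ^ 3 * h r :=
          mul_le_mul_of_nonneg_right (le_abs_self _) s5
      _ ≤ |C1| * 32 := mul_le_mul_of_nonneg_left s6 (abs_nonneg _)
  have t2 : 3 / (2 * Real.pi ^ 2) * (∫ x, g x) * w
      = (3 / Real.pi ^ 2) * w * ((∫ r in (0 : ℝ)..R, g r) + ∫ r in Ioi R, g r) := by
    rw [s7]
    field_simp
  have t3 : (3 / Real.pi ^ 2) * w * (∫ r in (0 : ℝ)..R, r * h r) ≥
      (3 / Real.pi ^ 2) * w * ((∫ r in (0 : ℝ)..R, g r) + ∫ r in Ioi R, g r) - 10 * (3 / Real.pi ^ 2) := by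
    rw [s4]
    have e1 : (3 / Real.pi ^ 2) * w * (R * g R + ∫ r in Ioi R, g r) ≤
        (3 / Real.pi ^ 2) * w * (R * (2 * Real.exp (-R)) + 2 * Real.exp (-R)) :=
      mul_le_mul_of_nonneg_left (by linarith) (by positivity)
    have e2 : (3 / Real.pi ^ 2) * w * (R * (2 * Real.exp (-R)) + 2 * Real.exp (-R))
        = (3 / Real.pi ^ 2) * (w * ((1 + R) * (2 * Real.exp (-R)))) := by ring
    have e3 : (3 / Real.pi ^ 2) * (w * ((1 + R) * (2 * Real.exp (-R)))) ≤ (3 / Real.pi ^ 2) * 10 :=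
      mul_le_mul_of_nonneg_left s10 hpi.le
    have e4 : (3 / Real.pi ^ 2) * w * ((∫ r in (0 : ℝ)..R, g r) - R * g R)
        = (3 / Real.pi ^ 2) * w * ((∫ r in (0 : ℝ)..R, g r) + ∫ r in Ioi R, g r)
          - (3 / Real.pi ^ 2) * w * (R * g R + ∫ r in Ioi R, g r) := by ring
    rw [e4]
    linarith
  rw [t2]
  linarith

end LayerAux

open LayerAux in
theorem layer (g : ℝ → ℝ) (hg : g = q0 ∨ g = q1) (C1 : ℝ) : ∃ C2 : ℝ, ∀ (n : ℕ) (s : Fin n → ℝ) (w : ℝ), 1 ≤ w →
    (∀ r : ℝ, 0 ≤ r → r ≤ 2 * Real.log w + 2 →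
      3 / Real.pi ^ 2 * r * w - C1 * (1 + r) ^ 3 ≤ ((Finset.univ.filter (fun k => |s k| ≤ r)).card : ℝ)) →
    3 / (2 * Real.pi ^ 2) * (∫ x, g x) * w - C2 ≤ ∑ k, g (s k) := by
  rcases hg with hg | hg
  · have hi : Integrable g := by rw [hg]; exact q0_int
    rw [q0_eq] at hg
    subst hg
    have hb : (-1 : ℝ) ≤ 0 := by norm_num
    exact layer_gen (gb_hasDerivAt hb) (hb_cont hb) (gb_nonneg hb) (fun r hr => hb_nonneg hb hr)
      (fun r _ => gb_bound hb r) (fun r hr => hb_bound hb hr) (gb_abs _) hi C1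
  · have hi : Integrable g := by rw [hg]; exact q1_int
    rw [q1_eq] at hg
    subst hg
    have hb : (-1 : ℝ) ≤ -1 := le_rfl
    exact layer_gen (gb_hasDerivAt hb) (hb_cont hb) (gb_nonneg hb) (fun r hr => hb_nonneg hb hr)
      (fun r _ => gb_bound hb r) (fun r hr => hb_bound hb hr) (gb_abs _) hi C1

end Pool.Agent.H13.Pascal
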