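import Pool.Agent.H13.Pascal.CountS
import Pool.Agent.H13.Pascal.Layer

/-!
# Asymptotics of `det (i + P_{2n})`
-/

namespace Pool.Agent.H13.Pascal

open Finset Filter

/-- ratio `|det (e^{iα} + P_{2n})| / |det (e^{iπ/3} + P_{2n})|` -/
noncomputable def RR (α : ℝ) (n : ℕ) : ℝ := ‖DD (2 * n) (ee α)‖ / ‖DD (2 * n) (ee (Real.pi / 3))‖

lemma RR_pos (α : ℝ) (hα : -1 < Real.cos α) (n : ℕ) : 0 < RR α n := by
  unfold RR
  have h1 := DD_ne (2 * n) α hα
  have h2 := DD_ne (2 * n) (Real.pi / 3) cos_third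
  have h3 : 0 ≤ ‖DD (2 * n) (ee α)‖ := norm_nonneg _
  have h4 : 0 ≤ ‖DD (2 * n) (ee (Real.pi / 3))‖ := norm_nonneg _
  exact div_pos (lt_of_le_of_ne h3 h1.symm) (lt_of_le_of_ne h4 h2.symm)

lemma cos_half : -1 < Real.cos (Real.pi / 2) := by rw [Real.cos_pi_div_two]; norm_num

lemma cos_two_thirds : Real.cos (2 * Real.pi / 3) = -(1 / 2) := by
  have : 2 * Real.pi / 3 = Real.pi - Real.pi / 3 := by ring
  rw [this, Real.cos_pi_sub, Real.cos_pi_div_three]

lemma cos_tt : -1 < Real.cos (2 * Real.pi / 3) := by rw [cos_two_thirds]; norm_num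

lemma int_q0 : ∫ x, q0 x = 5 * Real.pi ^ 2 / 36 := by
  have h := (integral_qq (Real.pi / 2) (by positivity) (by linarith [Real.pi_pos])).2
  unfold q0
  rw [MeasureTheory.integral_neg, h]
  ring

lemma int_q1 : ∫ x, q1 x = 7 * Real.pi ^ 2 / 36 := by
  have h := integral_qq (Real.pi / 2) (by positivity) (by linarith [Real.pi_pos])
  have h' := integral_qq (2 * Real.pi / 3) (by positivity) (by linarith [Real.pi_pos])
  unfold q1
  have e := MeasureTheory.integral_add h'.1.neg h.1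
  simp only [Pi.neg_apply] at e
  rw [e, MeasureTheory.integral_neg, h.2, h'.2]
  ring

/-- two-sided bound of `log RR (π/2) n` -/
theorem log_bound (hnsc : ∃ C : ℝ, 0 < C ∧ ∀ (N M : ℕ) (μ : ℝ), 40 * (1 + |μ|) * (M + 1) ≤ N →
    |(nsc N (kk μ) M : ℝ) - (Th N M - μ * HH M) / Real.pi| ≤ C * (1 + |μ|) ^ 3)
    (hsum : ∃ B : ℝ, ∀ n : ℕ, 1 ≤ n → - (1 / 4) * Real.log n - B ≤ Real.log (RR (2 * Real.pi / 3) n)) :
    ∃ B : ℝ, ∀ n : ℕ, 1 ≤ n → |Real.log (RR (Real.pi / 2) n) + (5 / 48) * Real.log n| ≤ B := by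
  obtain ⟨C1, hC1⟩ := count_s hnsc
  obtain ⟨A0, hA0⟩ := layer q0 (Or.inl rfl) C1
  obtain ⟨A1, hA1⟩ := layer q1 (Or.inr rfl) C1
  obtain ⟨B0, hB0⟩ := hsum
  obtain ⟨N0, hN0⟩ := eventually_atTop.mp hC1
  have hpi := Real.pi_pos
  -- bound for large n
  have hlarge : ∀ n : ℕ, N0 ≤ 2 * n → 1 ≤ n →
      |Real.log (RR (Real.pi / 2) n) + (5 / 48) * Real.log n|
        ≤ |A0| + |A1| + |B0| + Real.log 2 := by
    intro n hn hn1
    obtain ⟨hw, hc⟩ := hN0 (2 * n) hn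
    have hnpos : (0 : ℝ) < n := by exact_mod_cast hn1
    have hlog2 : Real.log ((2 * n : ℕ) : ℝ) = Real.log 2 + Real.log n := by
      push_cast
      rw [Real.log_mul (by norm_num) hnpos.ne']
    have g0 := hA0 (2 * n) (ss (2 * n)) (Real.log ((2 * n : ℕ) : ℝ)) hw hc
    have g1 := hA1 (2 * n) (ss (2 * n)) (Real.log ((2 * n : ℕ) : ℝ)) hw hc
    rw [int_q0, hlog2] at g0
    rw [int_q1, hlog2] at g1
    have r0 : Real.log (RR (Real.pi / 2) n) = (1 / 2) * ∑ k, qq (Real.pi / 2) (ss (2 * n) k) :=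
      log_ratio (2 * n) (Real.pi / 2) cos_half
    have r1 : Real.log (RR (2 * Real.pi / 3) n)
        = (1 / 2) * ∑ k, qq (2 * Real.pi / 3) (ss (2 * n) k) :=
      log_ratio (2 * n) (2 * Real.pi / 3) cos_tt
    have e0 : ∑ k, q0 (ss (2 * n) k) = - ∑ k, qq (Real.pi / 2) (ss (2 * n) k) := by
      unfold q0
      rw [Finset.sum_neg_distrib]
    have e1 : ∑ k, q1 (ss (2 * n) k) = - ∑ k, qq (2 * Real.pi / 3) (ss (2 * n) k)
        + ∑ k, qq (Real.pi / 2) (ss (2 * n) k) := by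
      unfold q1
      rw [Finset.sum_add_distrib, Finset.sum_neg_distrib]
    rw [e0] at g0
    rw [e1] at g1
    have hb := hB0 n hn1
    set X := ∑ k, qq (Real.pi / 2) (ss (2 * n) k) with hX
    set Y := ∑ k, qq (2 * Real.pi / 3) (ss (2 * n) k) with hY
    set l := Real.log (n : ℝ) with hl
    have hl0 : 0 ≤ l := Real.log_nonneg (by exact_mod_cast hn1)
    have hlog2pos : 0 < Real.log 2 := Real.log_pos (by norm_num)
    have c0 : 3 / (2 * Real.pi ^ 2) * (5 * Real.pi ^ 2 / 36) = 5 / 24 := by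
      field_simp; norm_num
    have c1 : 3 / (2 * Real.pi ^ 2) * (7 * Real.pi ^ 2 / 36) = 7 / 24 := by
      field_simp; norm_num
    rw [c0] at g0
    rw [c1] at g1
    have a0 := le_abs_self A0
    have a1 := le_abs_self A1
    have b0 := le_abs_self B0
    have a0' := abs_nonneg A0
    have a1' := abs_nonneg A1
    have b0' := abs_nonneg B0
    rw [r0]
    rw [r1] at hb
    rw [abs_le]
    constructor
    · linarith
    · linarith
  -- finitely many small n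
  refine ⟨(|A0| + |A1| + |B0| + Real.log 2) + ∑ n ∈ range N0,
    |Real.log (RR (Real.pi / 2) n) + (5 / 48) * Real.log n|, ?_⟩
  intro n hn
  have hlog2pos : 0 < Real.log 2 := Real.log_pos (by norm_num)
  have hs : 0 ≤ ∑ n ∈ range N0, |Real.log (RR (Real.pi / 2) n) + (5 / 48) * Real.log n| :=
    Finset.sum_nonneg (fun _ _ => abs_nonneg _)
  have a0' := abs_nonneg A0
  have a1' := abs_nonneg A1
  have b0' := abs_nonneg B0
  by_cases h : N0 ≤ 2 * n
  · have := hlarge n h hn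
    linarith
  · have h1 : n ∈ range N0 := Finset.mem_range.mpr (by omega)
    have h2 := Finset.single_le_sum
      (f := fun n : ℕ => |Real.log (RR (Real.pi / 2) n) + (5 / 48) * Real.log n|)
      (fun i _ => abs_nonneg _) h1
    linarith

/-- up-to-constants asymptotics -/
theorem rr_asymp (hnsc : ∃ C : ℝ, 0 < C ∧ ∀ (N M : ℕ) (μ : ℝ), 40 * (1 + |μ|) * (M + 1) ≤ N →
    |(nsc N (kk μ) M : ℝ) - (Th N M - μ * HH M) / Real.pi| ≤ C * (1 + |μ|) ^ 3)
    (hsum : ∃ c : ℝ, 0 < c ∧ ∀ n : ℕ, 1 ≤ n →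
      c * (n : ℝ) ^ (-(1 / 4) : ℝ) ≤ RR (2 * Real.pi / 3) n) :
    ∃ c C : ℝ, 0 < c ∧ 0 < C ∧ ∀ n : ℕ, 1 ≤ n →
      c * (n : ℝ) ^ (-(5 / 48) : ℝ) ≤ RR (Real.pi / 2) n ∧
        RR (Real.pi / 2) n ≤ C * (n : ℝ) ^ (-(5 / 48) : ℝ) := by
  obtain ⟨c, hc, hs⟩ := hsum
  obtain ⟨B, hB⟩ := log_bound hnsc ⟨- Real.log c, by
    intro n hn
    have hnpos : (0 : ℝ) < n := by exact_mod_cast hn
    have h := hs n hn
    have h2 : Real.log (c * (n : ℝ) ^ (-(1 / 4) : ℝ)) ≤ Real.log (RR (2 * Real.pi / 3) n) :=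
      Real.log_le_log (by positivity) h
    rw [Real.log_mul hc.ne' (by positivity), Real.log_rpow hnpos] at h2
    linarith⟩
  refine ⟨Real.exp (-B), Real.exp B, Real.exp_pos _, Real.exp_pos _, ?_⟩
  intro n hn
  have hnpos : (0 : ℝ) < n := by exact_mod_cast hn
  have hR := RR_pos (Real.pi / 2) cos_half n
  have h := abs_le.mp (hB n hn)
  have e : RR (Real.pi / 2) n = Real.exp (Real.log (RR (Real.pi / 2) n)) := (Real.exp_log hR).symm
  have e2 : (n : ℝ) ^ (-(5 / 48) : ℝ) = Real.exp (- (5 / 48) * Real.log n) := by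
    rw [Real.rpow_def_of_pos hnpos]; congr 1; ring
  constructor
  · rw [e2, ← Real.exp_add, e]
    apply Real.exp_le_exp.mpr
    linarith [h.1]
  · rw [e2, ← Real.exp_add, e]
    apply Real.exp_le_exp.mpr
    linarith [h.2]

end Pool.Agent.H13.Pascal
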