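import Pool.Agent.H13.Pascal.WkbDefs

/-!
# Counting sign changes of the forward solution (Job W4)

`nsc_bound_of` deduces the count of sign changes of the forward solution from the
variation-of-constants statement (`VaryHyp`), with arbitrary explicit constants.
-/

namespace Pool.Agent.H13.Pascal

open Finset

/-- the conclusion of Job W3, with general constants -/
def VaryHyp (c₁ c₂ : ℝ) : Prop :=
  ∀ (N J M : ℕ) (μ : ℝ), c₁ * (1 + |μ|) ^ 2 ≤ J → J ≤ M → c₂ * (1 + |μ|) * (M + 1) ≤ N →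
    ∃ (β : ℝ) (r θ : ℕ → ℝ), (∀ j, J ≤ j → j ≤ M → 0 < r j ∧ sol N (kk μ) j = r j * Real.sin (θ j)) ∧
      (∀ j, J ≤ j → j ≤ M → |θ j - (Th N j - μ * HH j) - β| ≤ 1 / 4) ∧
      (∀ j, J ≤ j → j < M → 0 < θ (j + 1) - θ j ∧ θ (j + 1) - θ j < Real.pi)

/-- `sin` on the `k`-th interval -/
lemma nsc_sin_shift (k : ℤ) (t : ℝ) : Real.sin t = (-1 : ℝ) ^ k * Real.sin (t - k * Real.pi) := by
  have h := Real.sin_sub_int_mul_pi t k
  rw [h, ← mul_assoc, ← mul_zpow]
  norm_num

lemma nsc_floor_pi (t : ℝ) :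
    (⌊t / Real.pi⌋ : ℝ) * Real.pi ≤ t ∧ t < ((⌊t / Real.pi⌋ : ℝ) + 1) * Real.pi := by
  have hp := Real.pi_pos
  constructor
  · have h := Int.floor_le (t / Real.pi)
    rwa [le_div_iff₀ hp] at h
  · have h := Int.lt_floor_add_one (t / Real.pi)
    rwa [div_lt_iff₀ hp] at h

/-- one step: a strict sign change occurs exactly when the floor of `θ/π` increases by one -/
lemma nsc_floor_step (f r θ : ℕ → ℝ) (j : ℕ) (h0 : 0 < r j) (h1 : 0 < r (j + 1))
    (hf0 : f j = r j * Real.sin (θ j)) (hf1 : f (j + 1) = r (j + 1) * Real.sin (θ (j + 1)))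
    (hθ : 0 < θ (j + 1) - θ j) (hθ' : θ (j + 1) - θ j < Real.pi) :
    (SC f j → ⌊θ (j + 1) / Real.pi⌋ = ⌊θ j / Real.pi⌋ + 1) ∧
      (¬ SC f j → ⌊θ (j + 1) / Real.pi⌋ = ⌊θ j / Real.pi⌋) := by
  have hp := Real.pi_pos
  obtain ⟨hk1, hk2⟩ := nsc_floor_pi (θ j)
  set k : ℤ := ⌊θ j / Real.pi⌋ with hk
  set s : ℝ := θ j - k * Real.pi with hs
  set t : ℝ := θ (j + 1) - k * Real.pi with ht
  have hs0 : 0 ≤ s := by rw [hs]; linarith
  have hs1 : s < Real.pi := by rw [hs]; linarith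
  have hst : s < t := by rw [hs, ht]; linarith
  have hst' : t < s + Real.pi := by rw [hs, ht]; linarith
  have hε : ((-1 : ℝ) ^ k = 1) ∨ ((-1 : ℝ) ^ k = -1) := by
    rcases Int.even_or_odd k with h | h
    · exact Or.inl h.neg_one_zpow
    · exact Or.inr h.neg_one_zpow
  have hfj : f j = r j * ((-1 : ℝ) ^ k * Real.sin s) := by rw [hf0, nsc_sin_shift k (θ j)]
  have hfj1 : f (j + 1) = r (j + 1) * ((-1 : ℝ) ^ k * Real.sin t) := by
    rw [hf1, nsc_sin_shift k (θ (j + 1))]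
  have hfloor : ∀ m : ℤ, (m : ℝ) * Real.pi ≤ t → t < ((m : ℝ) + 1) * Real.pi →
      ⌊θ (j + 1) / Real.pi⌋ = k + m := by
    intro m hm1 hm2
    rw [Int.floor_eq_iff]
    push_cast
    constructor
    · rw [le_div_iff₀ hp]; rw [ht] at hm1; linarith
    · rw [div_lt_iff₀ hp]; rw [ht] at hm2; linarith
  by_cases hcase : t < Real.pi
  · -- no change
    have hfl : ⌊θ (j + 1) / Real.pi⌋ = k := by
      have := hfloor 0 (by push_cast; linarith) (by push_cast; linarith)
      simpa using this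
    have hsint : 0 < Real.sin t := Real.sin_pos_of_pos_of_lt_pi (by linarith) hcase
    have hsins : 0 ≤ Real.sin s := Real.sin_nonneg_of_nonneg_of_le_pi hs0 hs1.le
    have hnot : ¬ SC f j := by
      intro hSC
      unfold SC at hSC
      rcases hε with he | he
      · rw [hfj, hfj1, he] at hSC
        have e1 : 0 ≤ r j * (1 * Real.sin s) := by positivity
        have e2 : 0 < r (j + 1) * (1 * Real.sin t) := by positivity
        rcases hSC with ⟨_, h⟩ | ⟨h, _⟩ <;> linarith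
      · rw [hfj, hfj1, he] at hSC
        have e1 : 0 ≤ r j * (1 * Real.sin s) := by positivity
        have e2 : 0 < r (j + 1) * (1 * Real.sin t) := by positivity
        rcases hSC with ⟨h, _⟩ | ⟨_, h⟩ <;> linarith
    exact ⟨fun h => absurd h hnot, fun _ => hfl⟩
  · push Not at hcase
    have hs00 : 0 < s := by
      by_contra hcon
      have : s = 0 := le_antisymm (not_lt.mp hcon) hs0
      linarith
    have hfl : ⌊θ (j + 1) / Real.pi⌋ = k + 1 :=
      hfloor 1 (by push_cast; linarith) (by push_cast; linarith)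
    have hsins : 0 < Real.sin s := Real.sin_pos_of_pos_of_lt_pi hs00 hs1
    have hsint : Real.sin t ≤ 0 := by
      have h3 : Real.sin (t - Real.pi) = - Real.sin t := Real.sin_sub_pi t
      have h4 : 0 ≤ Real.sin (t - Real.pi) :=
        Real.sin_nonneg_of_nonneg_of_le_pi (by linarith) (by linarith)
      linarith
    have hyes : SC f j := by
      unfold SC
      have e1 : 0 < r j * (1 * Real.sin s) := by positivity
      have e2 : 0 ≤ r (j + 1) * (1 * (- Real.sin t)) := by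
        apply mul_nonneg h1.le
        linarith
      rcases hε with he | he
      · left
        rw [hfj, hfj1, he]
        constructor <;> linarith
      · right
        rw [hfj, hfj1, he]
        constructor <;> linarith
    exact ⟨fun _ => hfl, fun h => absurd hyes h⟩

open Classical in
/-- exact count of strict sign changes on `[J, M)` -/
lemma nsc_card_Ico (f r θ : ℕ → ℝ) (J M : ℕ) (hJM : J ≤ M)
    (hf : ∀ j, J ≤ j → j ≤ M → 0 < r j ∧ f j = r j * Real.sin (θ j))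
    (hθ : ∀ j, J ≤ j → j < M → 0 < θ (j + 1) - θ j ∧ θ (j + 1) - θ j < Real.pi) :
    (((Ico J M).filter (fun j => SC f j)).card : ℤ)
      = ⌊θ M / Real.pi⌋ - ⌊θ J / Real.pi⌋ := by
  induction M, hJM using Nat.le_induction with
  | base => simp
  | succ M hM ih =>
    have ih' := ih (fun j h1 h2 => hf j h1 (by omega)) (fun j h1 h2 => hθ j h1 (by omega))
    have hstep := nsc_floor_step f r θ M (hf M hM (by omega)).1 (hf (M + 1) (by omega) le_rfl).1
      (hf M hM (by omega)).2 (hf (M + 1) (by omega) le_rfl).2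
      (hθ M hM (by omega)).1 (hθ M hM (by omega)).2
    have hIco : Ico J (M + 1) = insert M (Ico J M) := by
      ext x
      simp only [Finset.mem_insert, Finset.mem_Ico]
      omega
    rw [hIco, Finset.filter_insert]
    by_cases hSC : SC f M
    · rw [if_pos hSC, Finset.card_insert_of_notMem (by simp)]
      push_cast
      rw [ih', hstep.1 hSC]
      ring
    · rw [if_neg hSC, ih', hstep.2 hSC]

lemma nsc_Th_nonneg (N j : ℕ) : 0 ≤ Th N j :=
  Finset.sum_nonneg (fun _ _ => Real.arccos_nonneg _)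

lemma nsc_Th_le (N j : ℕ) : Th N j ≤ Real.pi * j := by
  unfold Th
  calc ∑ k ∈ range j, pp N (k + 1) ≤ ∑ _k ∈ range j, Real.pi :=
        Finset.sum_le_sum (fun _ _ => Real.arccos_le_pi _)
    _ = Real.pi * j := by rw [Finset.sum_const, Finset.card_range, nsmul_eq_mul]; ring

lemma nsc_HH_nonneg (j : ℕ) : 0 ≤ HH j :=
  Finset.sum_nonneg (fun _ _ => by positivity)

lemma nsc_HH_le (j : ℕ) : HH j ≤ j := by
  unfold HH
  calc ∑ i ∈ range j, 1 / ((i : ℝ) + 1) ≤ ∑ _i ∈ range j, (1 : ℝ) := by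
        apply Finset.sum_le_sum
        intro i _
        rw [div_le_one (by positivity)]
        have : (0 : ℝ) ≤ i := Nat.cast_nonneg i
        linarith
    _ = j := by simp

lemma nsc_phase_bound (N j : ℕ) (μ : ℝ) :
    |(Th N j - μ * HH j) / Real.pi| ≤ (1 + |μ|) * j := by
  have hp := Real.pi_pos
  have h3 := Real.pi_gt_three
  rw [abs_div, abs_of_pos hp, div_le_iff₀ hp]
  have h1 : |Th N j - μ * HH j| ≤ |Th N j| + |μ * HH j| := abs_sub _ _
  rw [abs_of_nonneg (nsc_Th_nonneg N j), abs_mul, abs_of_nonneg (nsc_HH_nonneg j)] at h1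
  have h2 := nsc_Th_le N j
  have h4 : |μ| * HH j ≤ |μ| * j := mul_le_mul_of_nonneg_left (nsc_HH_le j) (abs_nonneg μ)
  have h5 : |μ| * (j : ℝ) ≤ |μ| * j * Real.pi := by
    have : 0 ≤ |μ| * (j : ℝ) := by positivity
    nlinarith
  calc |Th N j - μ * HH j| ≤ Th N j + |μ| * HH j := h1
    _ ≤ Real.pi * j + |μ| * j * Real.pi := by linarith
    _ = (1 + |μ|) * j * Real.pi := by ring

theorem nsc_bound_of (c₁ c₂ : ℝ) (hc₁ : 0 ≤ c₁) (hv : VaryHyp c₁ c₂) :
    ∃ C : ℝ, 0 < C ∧ ∀ (N M : ℕ) (μ : ℝ), c₂ * (1 + |μ|) * (M + 1) ≤ N →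
      |(nsc N (kk μ) M : ℝ) - (Th N M - μ * HH M) / Real.pi| ≤ C * (1 + |μ|) ^ 3 := by
  classical
  refine ⟨2 * (c₁ + 1) + 2, by positivity, ?_⟩
  intro N M μ hN
  have hp := Real.pi_pos
  have h3 := Real.pi_gt_three
  set m : ℝ := 1 + |μ| with hm
  have hm1 : 1 ≤ m := by rw [hm]; linarith [abs_nonneg μ]
  set J : ℕ := ⌈c₁ * m ^ 2⌉₊ with hJ
  have hJ1 : c₁ * m ^ 2 ≤ J := Nat.le_ceil _
  have hJ2 : (J : ℝ) ≤ (c₁ + 1) * m ^ 2 := by
    have h := (Nat.ceil_lt_add_one (a := c₁ * m ^ 2) (by positivity)).le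
    have : (1 : ℝ) ≤ m ^ 2 := one_le_pow₀ hm1
    calc (J : ℝ) ≤ c₁ * m ^ 2 + 1 := h
      _ ≤ (c₁ + 1) * m ^ 2 := by linarith
  have hmm : (1 : ℝ) ≤ m ^ 2 := one_le_pow₀ hm1
  have hmm3 : m ^ 2 ≤ m ^ 3 := pow_le_pow_right₀ hm1 (by norm_num)
  have hJ3 : m * (J : ℝ) ≤ (c₁ + 1) * m ^ 3 := by
    calc m * (J : ℝ) ≤ m * ((c₁ + 1) * m ^ 2) := mul_le_mul_of_nonneg_left hJ2 (by linarith)
      _ = (c₁ + 1) * m ^ 3 := by ring
  have hJ4 : (J : ℝ) ≤ (c₁ + 1) * m ^ 3 := by
    calc (J : ℝ) ≤ (c₁ + 1) * m ^ 2 := hJ2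
      _ ≤ (c₁ + 1) * m ^ 3 := mul_le_mul_of_nonneg_left hmm3 (by linarith)
  rcases lt_or_ge M J with hMJ | hMJ
  · -- trivial case
    have h1 : (nsc N (kk μ) M : ℝ) ≤ M := by
      have : nsc N (kk μ) M ≤ M := by
        unfold nsc
        calc _ ≤ (range M).card := Finset.card_le_card (Finset.filter_subset _ _)
          _ = M := Finset.card_range M
      exact_mod_cast this
    have h2 : (0 : ℝ) ≤ (nsc N (kk μ) M : ℝ) := Nat.cast_nonneg _
    have h4 := nsc_phase_bound N M μ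
    have h5 : (M : ℝ) ≤ J := by exact_mod_cast hMJ.le
    have h6 : (1 + |μ|) * (M : ℝ) ≤ (c₁ + 1) * m ^ 3 := by
      calc (1 + |μ|) * (M : ℝ) ≤ m * J := mul_le_mul_of_nonneg_left h5 (by linarith)
        _ ≤ _ := hJ3
    have h7 : |(nsc N (kk μ) M : ℝ) - (Th N M - μ * HH M) / Real.pi|
        ≤ |(nsc N (kk μ) M : ℝ)| + |(Th N M - μ * HH M) / Real.pi| := abs_sub _ _
    rw [abs_of_nonneg h2] at h7
    have h8 : (0:ℝ) ≤ m ^ 3 := by positivity
    calc _ ≤ (nsc N (kk μ) M : ℝ) + |(Th N M - μ * HH M) / Real.pi| := h7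
      _ ≤ (c₁ + 1) * m ^ 3 + (c₁ + 1) * m ^ 3 := by linarith
      _ ≤ (2 * (c₁ + 1) + 2) * m ^ 3 := by linarith
  · obtain ⟨β, r, θ, hr, hβ, hθ⟩ := hv N J M μ hJ1 hMJ hN
    have hcount := nsc_card_Ico (sol N (kk μ)) r θ J M hMJ hr hθ
    have hsplit : nsc N (kk μ) M = ((range J).filter (fun j => SC (sol N (kk μ)) j)).card
        + ((Ico J M).filter (fun j => SC (sol N (kk μ)) j)).card := by
      unfold nsc
      rw [← Finset.card_union_of_disjoint]
      · rw [← Finset.filter_union]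
        congr 1
        ext x
        simp only [Finset.mem_filter, Finset.mem_union, Finset.mem_range, Finset.mem_Ico]
        constructor
        · rintro ⟨h1, h2⟩
          exact ⟨by omega, h2⟩
        · rintro ⟨h1, h2⟩
          exact ⟨by omega, h2⟩
      · apply Finset.disjoint_filter_filter
        rw [Finset.disjoint_left]
        intro x hx hx2
        have h1 := Finset.mem_range.mp hx
        have h2 := (Finset.mem_Ico.mp hx2).1
        omega
    set A : ℕ := ((range J).filter (fun j => SC (sol N (kk μ)) j)).card with hA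
    have hAJ : A ≤ J := by
      calc A ≤ (range J).card := Finset.card_le_card (Finset.filter_subset _ _)
        _ = J := Finset.card_range J
    have hAJ' : (A : ℝ) ≤ J := by exact_mod_cast hAJ
    have hA0 : (0 : ℝ) ≤ A := Nat.cast_nonneg _
    have hreal : (nsc N (kk μ) M : ℝ) = A + ((⌊θ M / Real.pi⌋ : ℝ) - (⌊θ J / Real.pi⌋ : ℝ)) := by
      have h1 : ((nsc N (kk μ) M : ℕ) : ℤ) = (A : ℤ) + (⌊θ M / Real.pi⌋ - ⌊θ J / Real.pi⌋) := by
        rw [hsplit]
        push_cast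
        rw [hcount]
      have h2 : (((nsc N (kk μ) M : ℕ) : ℤ) : ℝ) = (((A : ℤ) + (⌊θ M / Real.pi⌋ - ⌊θ J / Real.pi⌋) : ℤ) : ℝ) := by
        rw [h1]
      push_cast at h2
      exact h2
    have f1 := Int.floor_le (θ M / Real.pi)
    have f2 := Int.lt_floor_add_one (θ M / Real.pi)
    have f3 := Int.floor_le (θ J / Real.pi)
    have f4 := Int.lt_floor_add_one (θ J / Real.pi)
    have g1 := hβ M hMJ le_rfl
    have g2 := hβ J le_rfl hMJ
    rw [abs_le] at g1 g2
    -- phase difference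
    have hd1 : θ M - θ J - ((Th N M - μ * HH M) - (Th N J - μ * HH J)) ≤ 1 / 2 := by linarith
    have hd2 : -(1 / 2) ≤ θ M - θ J - ((Th N M - μ * HH M) - (Th N J - μ * HH J)) := by linarith
    have he1 : θ M / Real.pi - θ J / Real.pi
        - ((Th N M - μ * HH M) / Real.pi - (Th N J - μ * HH J) / Real.pi) ≤ 1 / 2 := by
      rw [← sub_div, ← sub_div, ← sub_div, div_le_iff₀ hp]
      nlinarith
    have he2 : -(1 / 2) ≤ θ M / Real.pi - θ J / Real.pi
        - ((Th N M - μ * HH M) / Real.pi - (Th N J - μ * HH J) / Real.pi) := by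
      rw [← sub_div, ← sub_div, ← sub_div, le_div_iff₀ hp]
      nlinarith
    have hph := nsc_phase_bound N J μ
    rw [abs_le] at hph
    have hmJ : (1 + |μ|) * (J : ℝ) ≤ (c₁ + 1) * m ^ 3 := hJ3
    have h8 : (1:ℝ) ≤ m ^ 3 := one_le_pow₀ hm1
    have hfin : (2 : ℝ) ≤ 2 * m ^ 3 := by linarith
    rw [abs_le, hreal]
    constructor
    · have : (2 * (c₁ + 1) + 2) * m ^ 3 = (c₁ + 1) * m ^ 3 + (c₁ + 1) * m ^ 3 + 2 * m ^ 3 := by ring
      rw [this]
      have h9 : 0 ≤ (c₁ + 1) * m ^ 3 := by positivity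
      linarith
    · have : (2 * (c₁ + 1) + 2) * m ^ 3 = (c₁ + 1) * m ^ 3 + (c₁ + 1) * m ^ 3 + 2 * m ^ 3 := by ring
      rw [this]
      have h9 : 0 ≤ (c₁ + 1) * m ^ 3 := by positivity
      linarith

end Pool.Agent.H13.Pascal
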