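import Pool.Agent.H13.Pascal.WkbDefs

/-!
# The residual of the first order WKB function (job W1)
-/

namespace Pool.Agent.H13.Pascal

open Finset

/-! ## The local momentum -/

theorem pp_facts (N j : ℕ) (hj : 1 ≤ j) (hN : 4 * j ≤ N) :
    b N j * Real.cos (pp N j) = yy N j ∧ b N j * Real.sin (pp N j) = sg N j ∧
      Real.pi / 3 ≤ pp N j ∧ pp N j ≤ Real.pi / 2 := by
  have hx : (1 : ℝ) ≤ j := by exact_mod_cast hj
  have hn : 4 * (j : ℝ) ≤ N := by exact_mod_cast hN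
  have hn0 : (0 : ℝ) < N := by linarith
  set x : ℝ := (j : ℝ) with hxdef
  set n : ℝ := (N : ℝ) with hndef
  set u : ℝ := x / n with hu
  have hu0 : 0 ≤ u := by positivity
  have hu1 : u ≤ 1 / 4 := by
    rw [hu, div_le_iff₀ hn0]; linarith
  have hu2 : u ^ 2 ≤ 1 / 16 := by nlinarith
  have hb : b N j = x * (1 - u ^ 2) := by
    show x - x ^ 3 / n ^ 2 = x * (1 - u ^ 2)
    rw [hu]; field_simp
  have hy : yy N j = x * (1 / 2 - u ^ 2) := by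
    show x / 2 - x ^ 3 / n ^ 2 = x * (1 / 2 - u ^ 2)
    rw [hu]; field_simp
  have hs : sg N j = x * Real.sqrt (3 / 4 - u ^ 2) := by
    unfold sg; rfl
  have hb0 : 0 < b N j := by
    rw [hb]; apply mul_pos <;> nlinarith
  have hq0 : 0 ≤ yy N j / b N j := by
    apply div_nonneg _ hb0.le
    rw [hy]; apply mul_nonneg <;> nlinarith
  have hq1 : yy N j / b N j ≤ 1 / 2 := by
    rw [div_le_iff₀ hb0, hb, hy]; nlinarith
  have hcos : Real.cos (pp N j) = yy N j / b N j := by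
    unfold pp
    exact Real.cos_arccos (by linarith) (by linarith)
  have hsin : Real.sin (pp N j) = Real.sqrt (1 - (yy N j / b N j) ^ 2) := by
    unfold pp
    exact Real.sin_arccos _
  refine ⟨?_, ?_, ?_, ?_⟩
  · rw [hcos]; field_simp
  · rw [hsin, hs]
    have h1 : b N j * Real.sqrt (1 - (yy N j / b N j) ^ 2)
        = Real.sqrt (b N j ^ 2 * (1 - (yy N j / b N j) ^ 2)) := by
      rw [Real.sqrt_mul (by positivity), Real.sqrt_sq hb0.le]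
    have h2 : x * Real.sqrt (3 / 4 - u ^ 2) = Real.sqrt (x ^ 2 * (3 / 4 - u ^ 2)) := by
      rw [Real.sqrt_mul (by positivity), Real.sqrt_sq (by linarith)]
    rw [h1, h2]
    congr 1
    have h3 : b N j ^ 2 * (1 - (yy N j / b N j) ^ 2) = b N j ^ 2 - yy N j ^ 2 := by
      field_simp
    rw [h3, hb, hy]; ring
  · unfold pp
    have h1 : Real.pi / 3 = Real.arccos (1 / 2) := by
      rw [← Real.cos_pi_div_three, Real.arccos_cos]
      · positivity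
      · linarith [Real.pi_pos]
    rw [h1]
    exact Real.arccos_le_arccos hq1
  · unfold pp
    exact Real.arccos_le_pi_div_two.mpr hq0

/-! ## Square roots -/

lemma alpha_bounds (x : ℝ) (hx : 2 ≤ x) :
    1 - 1 / (2 * x) ≤ Real.sqrt (x / (x + 1)) ∧
      Real.sqrt (x / (x + 1)) ≤ 1 - 1 / (2 * x) + 1 / (2 * x ^ 2) := by
  have h0 : (0 : ℝ) < x := by linarith
  constructor
  · apply Real.le_sqrt_of_sq_le
    rw [le_div_iff₀ (by linarith)]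
    have : (1 - 1 / (2 * x)) ^ 2 * (x + 1) = x - (3 * x - 1) / (4 * x ^ 2) := by
      field_simp; ring
    rw [this]
    have h2 : 0 ≤ (3 * x - 1) / (4 * x ^ 2) := by
      apply div_nonneg <;> nlinarith
    linarith
  · rw [Real.sqrt_le_iff]
    constructor
    · have : 1 / (2 * x) ≤ 1 / 4 := by
        apply one_div_le_one_div_of_le <;> linarith
      have h3 : 0 ≤ 1 / (2 * x ^ 2) := by positivity
      linarith
    · rw [div_le_iff₀ (by linarith)]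
      have : (1 - 1 / (2 * x) + 1 / (2 * x ^ 2)) ^ 2 * (x + 1)
          = x + (x ^ 3 + 3 * x ^ 2 - x + 1) / (4 * x ^ 4) := by
        field_simp; ring
      rw [this]
      have h2 : 0 ≤ (x ^ 3 + 3 * x ^ 2 - x + 1) / (4 * x ^ 4) := by
        apply div_nonneg
        · nlinarith [pow_pos h0 3]
        · positivity
      linarith

lemma beta_bounds (x : ℝ) (hx : 2 ≤ x) :
    1 + 1 / (2 * x) ≤ Real.sqrt (x / (x - 1)) ∧
      Real.sqrt (x / (x - 1)) ≤ 1 + 1 / (2 * x) + 1 / x ^ 2 := by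
  have h0 : (0 : ℝ) < x := by linarith
  constructor
  · apply Real.le_sqrt_of_sq_le
    rw [le_div_iff₀ (by linarith)]
    have : (1 + 1 / (2 * x)) ^ 2 * (x - 1) = x - (3 * x + 1) / (4 * x ^ 2) := by
      field_simp; ring
    rw [this]
    have h2 : 0 ≤ (3 * x + 1) / (4 * x ^ 2) := by positivity
    linarith
  · rw [Real.sqrt_le_iff]
    constructor
    · positivity
    · rw [div_le_iff₀ (by linarith)]
      have : (1 + 1 / (2 * x) + 1 / x ^ 2) ^ 2 * (x - 1)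
          = x + (5 * x ^ 3 - 5 * x ^ 2 - 4) / (4 * x ^ 4) := by
        field_simp; ring
      rw [this]
      have h2 : 0 ≤ (5 * x ^ 3 - 5 * x ^ 2 - 4) / (4 * x ^ 4) := by
        apply div_nonneg
        · nlinarith [mul_nonneg (mul_nonneg h0.le h0.le) (sub_nonneg.mpr hx)]
        · positivity
      linarith

/-! ## The two exponential factors -/

lemma norm_exp_I_sub (t : ℝ) (ht : |t| ≤ 1) :
    ‖Complex.exp ((t : ℂ) * Complex.I) - 1 - (t : ℂ) * Complex.I‖ ≤ t ^ 2 := by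
  have h := Complex.norm_exp_sub_one_sub_id_le (x := (t : ℂ) * Complex.I)
    (by rw [norm_mul, Complex.norm_I, mul_one, Complex.norm_real]; exact ht)
  rw [norm_mul, Complex.norm_I, mul_one, Complex.norm_real, Real.norm_eq_abs, sq_abs] at h
  exact h

lemma eps1 (x μ : ℝ) (hx : 2 ≤ x) (hμ : |μ| ≤ x) :
    ‖((Real.sqrt (x / (x + 1)) : ℝ) : ℂ) * Complex.exp (((-(μ / (x + 1)) : ℝ) : ℂ) * Complex.I)
      - (1 - (1 / 2 + (μ : ℂ) * Complex.I) / (x : ℂ))‖ ≤ (1 + |μ|) ^ 2 / x ^ 2 := by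
  have h0 : (0 : ℝ) < x := by linarith
  have hx0 : (x : ℂ) ≠ 0 := by exact_mod_cast h0.ne'
  have hx1 : (x : ℂ) + 1 ≠ 0 := by
    have : (x : ℝ) + 1 ≠ 0 := by linarith
    exact_mod_cast this
  obtain ⟨ha, hb⟩ := alpha_bounds x hx
  set α := Real.sqrt (x / (x + 1)) with hα
  set t : ℝ := -(μ / (x + 1)) with ht
  set e := Complex.exp ((t : ℂ) * Complex.I) with he
  have ht1 : |t| ≤ |μ| / x := by
    rw [ht, abs_neg, abs_div, abs_of_pos (by linarith : (0:ℝ) < x + 1)]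
    apply div_le_div_of_nonneg_left (abs_nonneg _) h0 (by linarith)
  have ht2 : |t| ≤ 1 := ht1.trans (by rw [div_le_one h0]; exact hμ)
  have hee : ‖e‖ = 1 := Complex.norm_exp_ofReal_mul_I t
  have he2 : ‖e - 1 - (t : ℂ) * Complex.I‖ ≤ μ ^ 2 / x ^ 2 := by
    refine (norm_exp_I_sub t ht2).trans ?_
    have : t ^ 2 = |t| ^ 2 := (sq_abs t).symm
    rw [this, ← sq_abs μ, ← div_pow]
    exact pow_le_pow_left₀ (abs_nonneg _) ht1 2
  have hid : (α : ℂ) * e - (1 - (1 / 2 + (μ : ℂ) * Complex.I) / (x : ℂ))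
      = ((α - (1 - 1 / (2 * x)) : ℝ) : ℂ) * e
        + ((1 - 1 / (2 * x) : ℝ) : ℂ) * (e - 1 - (t : ℂ) * Complex.I)
        + ((μ * (3 / 2) / (x * (x + 1)) : ℝ) : ℂ) * Complex.I := by
    rw [ht]; push_cast; field_simp; ring
  rw [hid]
  have hA : ‖((α - (1 - 1 / (2 * x)) : ℝ) : ℂ) * e‖ ≤ 1 / (2 * x ^ 2) := by
    rw [norm_mul, hee, mul_one, Complex.norm_real, Real.norm_eq_abs, abs_le]
    constructor
    · have : 0 ≤ 1 / (2 * x ^ 2) := by positivity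
      linarith
    · linarith
  have hB : ‖((1 - 1 / (2 * x) : ℝ) : ℂ) * (e - 1 - (t : ℂ) * Complex.I)‖ ≤ μ ^ 2 / x ^ 2 := by
    rw [norm_mul, Complex.norm_real, Real.norm_eq_abs]
    have h3 : |1 - 1 / (2 * x)| ≤ 1 := by
      have h4 : 0 ≤ 1 / (2 * x) := by positivity
      have h5 : 1 / (2 * x) ≤ 1 := by
        rw [div_le_one (by linarith)]; linarith
      rw [abs_le]; constructor <;> linarith
    calc |1 - 1 / (2 * x)| * ‖e - 1 - (t : ℂ) * Complex.I‖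
        ≤ 1 * ‖e - 1 - (t : ℂ) * Complex.I‖ := mul_le_mul_of_nonneg_right h3 (norm_nonneg _)
      _ ≤ μ ^ 2 / x ^ 2 := by rw [one_mul]; exact he2
  have hC : ‖((μ * (3 / 2) / (x * (x + 1)) : ℝ) : ℂ) * Complex.I‖ ≤ (3 / 2) * |μ| / x ^ 2 := by
    rw [norm_mul, Complex.norm_I, mul_one, Complex.norm_real, Real.norm_eq_abs, abs_div, abs_mul,
      abs_of_pos (by norm_num : (0:ℝ) < 3 / 2), abs_of_pos (by positivity : (0:ℝ) < x * (x + 1)),
      mul_comm]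
    apply div_le_div_of_nonneg_left (by positivity) (by positivity)
    nlinarith
  calc _ ≤ 1 / (2 * x ^ 2) + μ ^ 2 / x ^ 2 + (3 / 2) * |μ| / x ^ 2 :=
        (norm_add_le _ _).trans (add_le_add ((norm_add_le _ _).trans (add_le_add hA hB)) hC)
    _ = (1 / 2 + |μ| ^ 2 + (3 / 2) * |μ|) / x ^ 2 := by rw [sq_abs]; field_simp
    _ ≤ (1 + |μ|) ^ 2 / x ^ 2 := by
        apply div_le_div_of_nonneg_right _ (by positivity)
        nlinarith [abs_nonneg μ]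

lemma eps2 (x μ : ℝ) (hx : 2 ≤ x) (hμ : |μ| ≤ x) :
    ‖((Real.sqrt (x / (x - 1)) : ℝ) : ℂ) * Complex.exp (((μ / x : ℝ) : ℂ) * Complex.I)
      - (1 + (1 / 2 + (μ : ℂ) * Complex.I) / (x : ℂ))‖ ≤ (5 / 4) * (1 + |μ|) ^ 2 / x ^ 2 := by
  have h0 : (0 : ℝ) < x := by linarith
  have hx0 : (x : ℂ) ≠ 0 := by exact_mod_cast h0.ne'
  obtain ⟨ha, hb⟩ := beta_bounds x hx
  set β := Real.sqrt (x / (x - 1)) with hβ
  set t : ℝ := μ / x with ht
  set e := Complex.exp ((t : ℂ) * Complex.I) with he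
  have ht1 : |t| = |μ| / x := by
    rw [ht, abs_div, abs_of_pos h0]
  have ht2 : |t| ≤ 1 := by rw [ht1, div_le_one h0]; exact hμ
  have hee : ‖e‖ = 1 := Complex.norm_exp_ofReal_mul_I t
  have he2 : ‖e - 1 - (t : ℂ) * Complex.I‖ ≤ μ ^ 2 / x ^ 2 := by
    refine (norm_exp_I_sub t ht2).trans ?_
    rw [ht, div_pow]
  have hid : (β : ℂ) * e - (1 + (1 / 2 + (μ : ℂ) * Complex.I) / (x : ℂ))
      = ((β - (1 + 1 / (2 * x)) : ℝ) : ℂ) * e
        + ((1 + 1 / (2 * x) : ℝ) : ℂ) * (e - 1 - (t : ℂ) * Complex.I)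
        + ((μ / (2 * x ^ 2) : ℝ) : ℂ) * Complex.I := by
    rw [ht]; push_cast; field_simp; ring
  rw [hid]
  have hA : ‖((β - (1 + 1 / (2 * x)) : ℝ) : ℂ) * e‖ ≤ 1 / x ^ 2 := by
    rw [norm_mul, hee, mul_one, Complex.norm_real, Real.norm_eq_abs, abs_le]
    constructor
    · have : 0 ≤ 1 / x ^ 2 := by positivity
      linarith
    · linarith
  have hB : ‖((1 + 1 / (2 * x) : ℝ) : ℂ) * (e - 1 - (t : ℂ) * Complex.I)‖
      ≤ (5 / 4) * (μ ^ 2 / x ^ 2) := by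
    rw [norm_mul, Complex.norm_real, Real.norm_eq_abs]
    have h3 : |1 + 1 / (2 * x)| ≤ 5 / 4 := by
      have h4 : 0 ≤ 1 / (2 * x) := by positivity
      have h5 : 1 / (2 * x) ≤ 1 / 4 := by
        apply one_div_le_one_div_of_le <;> linarith
      rw [abs_le]; constructor <;> linarith
    exact mul_le_mul h3 he2 (norm_nonneg _) (by norm_num)
  have hC : ‖((μ / (2 * x ^ 2) : ℝ) : ℂ) * Complex.I‖ ≤ |μ| / (2 * x ^ 2) := by
    rw [norm_mul, Complex.norm_I, mul_one, Complex.norm_real, Real.norm_eq_abs, abs_div,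
      abs_of_pos (by positivity : (0:ℝ) < 2 * x ^ 2)]
  calc _ ≤ 1 / x ^ 2 + (5 / 4) * (μ ^ 2 / x ^ 2) + |μ| / (2 * x ^ 2) :=
        (norm_add_le _ _).trans (add_le_add ((norm_add_le _ _).trans (add_le_add hA hB)) hC)
    _ = (1 + (5 / 4) * |μ| ^ 2 + (1 / 2) * |μ|) / x ^ 2 := by rw [sq_abs]; field_simp
    _ ≤ (5 / 4) * (1 + |μ|) ^ 2 / x ^ 2 := by
        apply div_le_div_of_nonneg_right _ (by positivity)
        nlinarith [abs_nonneg μ]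

/-! ## The deviation of `sg` from linear growth -/

lemma sqrt3_bounds : (173 / 100 : ℝ) ≤ Real.sqrt 3 ∧ Real.sqrt 3 ≤ 174 / 100 := by
  constructor
  · apply Real.le_sqrt_of_sq_le; norm_num
  · rw [Real.sqrt_le_iff]; constructor <;> norm_num

lemma r_facts (v : ℝ) (hv0 : 0 ≤ v) (hv : v ≤ 1 / 8) :
    (17 / 20 : ℝ) ≤ Real.sqrt (3 / 4 - v ^ 2) ∧ Real.sqrt (3 / 4 - v ^ 2) ≤ Real.sqrt 3 / 2 ∧
      (17 / 10) * (Real.sqrt 3 / 2 - Real.sqrt (3 / 4 - v ^ 2)) ≤ v ^ 2 := by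
  have hv2 : v ^ 2 ≤ 1 / 64 := by nlinarith
  have h1 : (17 / 20 : ℝ) ≤ Real.sqrt (3 / 4 - v ^ 2) := by
    apply Real.le_sqrt_of_sq_le; nlinarith
  have h2 : Real.sqrt (3 / 4 - v ^ 2) ≤ Real.sqrt 3 / 2 := by
    rw [Real.sqrt_le_iff]
    constructor
    · positivity
    · rw [div_pow, Real.sq_sqrt (by norm_num)]; nlinarith [sq_nonneg v]
  refine ⟨h1, h2, ?_⟩
  have h3 : Real.sqrt (3 / 4 - v ^ 2) ^ 2 = 3 / 4 - v ^ 2 := Real.sq_sqrt (by nlinarith)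
  have h4 : (Real.sqrt 3 / 2) ^ 2 = 3 / 4 := by
    rw [div_pow, Real.sq_sqrt (by norm_num)]; norm_num
  have h5 := sqrt3_bounds.1
  nlinarith [mul_nonneg (sub_nonneg.mpr h2)
    (by linarith : (0:ℝ) ≤ Real.sqrt 3 / 2 + Real.sqrt (3 / 4 - v ^ 2) - 17 / 10)]



/-- bounds for the deviations `d0`, `d1` of `sg` from linear growth -/
lemma dev_facts (x n : ℝ) (hx : 2 ≤ x) (hn : 8 * (x + 1) ≤ n) :
    0 ≤ x * (Real.sqrt 3 / 2 - Real.sqrt (3 / 4 - (x / n) ^ 2)) ∧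
    0 ≤ (x + 1) * (Real.sqrt 3 / 2 - Real.sqrt (3 / 4 - ((x + 1) / n) ^ 2)) ∧
    0 ≤ (x + 1) * (Real.sqrt 3 / 2 - Real.sqrt (3 / 4 - ((x + 1) / n) ^ 2))
      - x * (Real.sqrt 3 / 2 - Real.sqrt (3 / 4 - (x / n) ^ 2)) ∧
    (x + 1) * (Real.sqrt 3 / 2 - Real.sqrt (3 / 4 - ((x + 1) / n) ^ 2))
      - x * (Real.sqrt 3 / 2 - Real.sqrt (3 / 4 - (x / n) ^ 2)) ≤ 3 * (x / n) ^ 2 ∧
    (x * (Real.sqrt 3 / 2 - Real.sqrt (3 / 4 - (x / n) ^ 2))
      + (x + 1) * (Real.sqrt 3 / 2 - Real.sqrt (3 / 4 - ((x + 1) / n) ^ 2))) / x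
      ≤ (13 / 5) * (x / n) ^ 2 := by
  have h0 : (0 : ℝ) < x := by linarith
  have hn0 : (0 : ℝ) < n := by linarith
  set u : ℝ := x / n with hu
  set u' : ℝ := (x + 1) / n with hu'
  have hu0 : 0 ≤ u := by positivity
  have hu'0 : 0 ≤ u' := by positivity
  have huu' : u ≤ u' := div_le_div_of_nonneg_right (by linarith) hn0.le
  have hu'1 : u' ≤ 1 / 8 := by rw [hu', div_le_iff₀ hn0]; linarith
  obtain ⟨hr1, hr2, hr3⟩ := r_facts u hu0 (huu'.trans hu'1)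
  obtain ⟨hs1, hs2, hs3⟩ := r_facts u' hu'0 hu'1
  have hrsq : Real.sqrt (3 / 4 - u ^ 2) ^ 2 = 3 / 4 - u ^ 2 := Real.sq_sqrt (by nlinarith)
  have hssq : Real.sqrt (3 / 4 - u' ^ 2) ^ 2 = 3 / 4 - u' ^ 2 := Real.sq_sqrt (by nlinarith)
  set r := Real.sqrt (3 / 4 - u ^ 2) with hr
  set s := Real.sqrt (3 / 4 - u' ^ 2) with hs
  have hsr : s ≤ r := Real.sqrt_le_sqrt (by nlinarith)
  set q := Real.sqrt 3 with hq
  set d0 : ℝ := x * (q / 2 - r) with hd0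
  set d1 : ℝ := (x + 1) * (q / 2 - s) with hd1
  have hU : u' ^ 2 ≤ (9 / 4) * u ^ 2 := by
    have : u' ≤ (3 / 2) * u := by
      rw [hu, hu', ← mul_div_assoc]
      apply div_le_div_of_nonneg_right _ hn0.le
      linarith
    nlinarith
  have hxx : x * (u' ^ 2 - u ^ 2) ≤ (5 / 2) * u ^ 2 := by
    have : x * (u' ^ 2 - u ^ 2) = x * (2 * x + 1) / n ^ 2 := by
      rw [hu, hu']; field_simp; ring
    rw [this, hu, div_pow, ← mul_div_assoc]
    apply div_le_div_of_nonneg_right _ (by positivity)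
    nlinarith
  have hd0n : 0 ≤ d0 := mul_nonneg h0.le (by linarith)
  have hd1n : 0 ≤ d1 := mul_nonneg (by linarith) (by linarith)
  have hd0u : (17 / 10) * d0 ≤ x * u ^ 2 := by
    have := mul_le_mul_of_nonneg_left hr3 h0.le
    rw [hd0]; linarith
  have hd1u : (17 / 10) * d1 ≤ (x + 1) * u' ^ 2 := by
    have := mul_le_mul_of_nonneg_left hs3 (by linarith : (0:ℝ) ≤ x + 1)
    rw [hd1]; linarith
  have hd01 : 0 ≤ d1 - d0 := by
    have : d1 - d0 = (q / 2 - s) + x * (r - s) := by rw [hd0, hd1]; ring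
    rw [this]
    have := mul_nonneg h0.le (sub_nonneg.mpr hsr)
    linarith
  have hrs : (17 / 10) * (r - s) ≤ u' ^ 2 - u ^ 2 := by
    nlinarith [mul_nonneg (sub_nonneg.mpr hsr) (by linarith : (0:ℝ) ≤ r + s - 17 / 10)]
  have hd01u : d1 - d0 ≤ 3 * u ^ 2 := by
    have h1 : d1 - d0 = (q / 2 - s) + x * (r - s) := by rw [hd0, hd1]; ring
    have h2 := mul_le_mul_of_nonneg_left hrs h0.le
    have h3 : (17 / 10) * (d1 - d0) ≤ u' ^ 2 + x * (u' ^ 2 - u ^ 2) := by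
      rw [h1]; linarith
    have h4 : 0 ≤ u ^ 2 := sq_nonneg u
    linarith
  have hdx : (d0 + d1) / x ≤ (13 / 5) * u ^ 2 := by
    rw [div_le_iff₀ h0]
    have h1 : (x + 1) * u' ^ 2 ≤ (27 / 8) * (x * u ^ 2) := by
      have h2 : (x + 1) * u' ^ 2 = (x + 1) ^ 3 / n ^ 2 := by rw [hu']; field_simp
      have h3 : (27 / 8) * (x * u ^ 2) = (27 / 8) * x ^ 3 / n ^ 2 := by rw [hu]; field_simp
      rw [h2, h3]
      apply div_le_div_of_nonneg_right _ (by positivity)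
      have h4 : x + 1 ≤ (3 / 2) * x := by linarith
      have h5 := pow_le_pow_left₀ (by linarith : (0:ℝ) ≤ x + 1) h4 3
      have h6 : ((3 / 2) * x) ^ 3 = (27 / 8) * x ^ 3 := by ring
      rw [h6] at h5
      exact h5
    have h7 : 0 ≤ x * u ^ 2 := by positivity
    linarith
  exact ⟨hd0n, hd1n, hd01, hd01u, hdx⟩

lemma main_id (x n μ q r s : ℝ) (hx : x ≠ 0) (hn : n ≠ 0) :
    ((((x + 1) / 2 - (x + 1) ^ 3 / n ^ 2 : ℝ) : ℂ)
          + (((x + 1) * s : ℝ) : ℂ) * Complex.I)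
        * (1 - (1 / 2 + (μ : ℂ) * Complex.I) / (x : ℂ))
      + (((x / 2 - x ^ 3 / n ^ 2 : ℝ) : ℂ)
          - ((x * r : ℝ) : ℂ) * Complex.I)
        * (1 + (1 / 2 + (μ : ℂ) * Complex.I) / (x : ℂ))
      - (((1 / 2 + q * μ) + (x - (2 * x ^ 3 + 3 * x ^ 2 + 2 * x) / n ^ 2) : ℝ) : ℂ)
      = ((-(x + 1) / n ^ 2 : ℝ) : ℂ)
        + ((-((x + 1) * (q / 2 - s) - x * (q / 2 - r)) : ℝ) : ℂ) * Complex.I
        + ((μ : ℂ) - Complex.I / 2)
          * (((q / 2 - (x * (q / 2 - r) + (x + 1) * (q / 2 - s))) / x : ℝ) : ℂ)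
        + ((((1 / 2 - (3 * x ^ 2 + 3 * x + 1) / n ^ 2) / x : ℝ)) : ℂ)
            * (-(1 / 2 + (μ : ℂ) * Complex.I)) := by
  have hx0 : (x : ℂ) ≠ 0 := by exact_mod_cast hx
  have hnc : (n : ℂ) ≠ 0 := by exact_mod_cast hn
  have hI : Complex.I ^ 2 = -1 := Complex.I_sq
  push_cast
  field_simp
  ring_nf
  simp only [hI]
  ring

/-- the main (algebraic) part of the residual -/
lemma main_part (x n μ : ℝ) (hx : 2 ≤ x) (hn : 8 * (x + 1) ≤ n) :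
    ‖((((x + 1) / 2 - (x + 1) ^ 3 / n ^ 2 : ℝ) : ℂ)
          + (((x + 1) * Real.sqrt (3 / 4 - ((x + 1) / n) ^ 2) : ℝ) : ℂ) * Complex.I)
        * (1 - (1 / 2 + (μ : ℂ) * Complex.I) / (x : ℂ))
      + (((x / 2 - x ^ 3 / n ^ 2 : ℝ) : ℂ)
          - ((x * Real.sqrt (3 / 4 - (x / n) ^ 2) : ℝ) : ℂ) * Complex.I)
        * (1 + (1 / 2 + (μ : ℂ) * Complex.I) / (x : ℂ))
      - (((1 / 2 + Real.sqrt 3 * μ) + (x - (2 * x ^ 3 + 3 * x ^ 2 + 2 * x) / n ^ 2) : ℝ) : ℂ)‖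
      ≤ 2 * (1 + |μ|) / x + 8 * (1 + |μ|) * (x / n) ^ 2 := by
  have h0 : (0 : ℝ) < x := by linarith
  have hn0 : (0 : ℝ) < n := by linarith
  obtain ⟨hd0n, hd1n, hd01, hd01u, hdx⟩ := dev_facts x n hx hn
  rw [main_id x n μ (Real.sqrt 3) _ _ h0.ne' hn0.ne']
  obtain ⟨q1, q2⟩ := sqrt3_bounds
  set d0 : ℝ := x * (Real.sqrt 3 / 2 - Real.sqrt (3 / 4 - (x / n) ^ 2)) with hd0
  set d1 : ℝ := (x + 1) * (Real.sqrt 3 / 2 - Real.sqrt (3 / 4 - ((x + 1) / n) ^ 2)) with hd1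
  set u : ℝ := x / n with hu
  have hμ0 := abs_nonneg μ
  have n1 : ‖((-(x + 1) / n ^ 2 : ℝ) : ℂ)‖ ≤ (3 / 4) * u ^ 2 := by
    rw [Complex.norm_real, Real.norm_eq_abs, neg_div, abs_neg, abs_of_nonneg (by positivity)]
    have : (3 / 4) * u ^ 2 = (3 / 4 * x ^ 2) / n ^ 2 := by rw [hu]; field_simp
    rw [this]
    apply div_le_div_of_nonneg_right _ (by positivity)
    nlinarith
  have n2 : ‖((-(d1 - d0) : ℝ) : ℂ) * Complex.I‖ ≤ 3 * u ^ 2 := by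
    rw [norm_mul, Complex.norm_I, mul_one, Complex.norm_real, Real.norm_eq_abs, abs_neg,
      abs_of_nonneg hd01]
    exact hd01u
  have hw1 : ‖(μ : ℂ) - Complex.I / 2‖ ≤ |μ| + 1 / 2 := by
    refine (norm_sub_le _ _).trans ?_
    rw [Complex.norm_real, Real.norm_eq_abs, norm_div, Complex.norm_I]
    norm_num
  have hw2 : ‖-(1 / 2 + (μ : ℂ) * Complex.I)‖ ≤ |μ| + 1 / 2 := by
    rw [norm_neg]
    refine (norm_add_le _ _).trans ?_
    rw [norm_mul, Complex.norm_I, mul_one, Complex.norm_real, Real.norm_eq_abs]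
    norm_num
    linarith
  have n3 : ‖((μ : ℂ) - Complex.I / 2) * (((Real.sqrt 3 / 2 - (d0 + d1)) / x : ℝ) : ℂ)‖
      ≤ (|μ| + 1 / 2) * ((87 / 100) / x + (13 / 5) * u ^ 2) := by
    rw [norm_mul]
    apply mul_le_mul hw1 _ (norm_nonneg _) (by linarith)
    rw [Complex.norm_real, Real.norm_eq_abs, sub_div]
    refine (abs_sub _ _).trans ?_
    rw [abs_of_nonneg (by positivity), abs_of_nonneg (by positivity)]
    apply add_le_add _ hdx
    apply div_le_div_of_nonneg_right _ h0.le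
    linarith
  have n4 : ‖((((1 / 2 - (3 * x ^ 2 + 3 * x + 1) / n ^ 2) / x : ℝ)) : ℂ)
            * (-(1 / 2 + (μ : ℂ) * Complex.I))‖ ≤ (1 / 2) / x * (|μ| + 1 / 2) := by
    rw [norm_mul]
    apply mul_le_mul _ hw2 (norm_nonneg _) (by positivity)
    rw [Complex.norm_real, Real.norm_eq_abs, abs_div, abs_of_pos h0]
    apply div_le_div_of_nonneg_right _ h0.le
    have h1 : 0 ≤ (3 * x ^ 2 + 3 * x + 1) / n ^ 2 := by positivity
    have h2 : (3 * x ^ 2 + 3 * x + 1) / n ^ 2 ≤ 1 / 2 := by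
      rw [div_le_iff₀ (by positivity)]
      have h3 : (8 * (x + 1)) ^ 2 ≤ n ^ 2 := pow_le_pow_left₀ (by linarith) hn 2
      nlinarith
    rw [abs_le]; constructor <;> linarith
  calc _ ≤ (3 / 4) * u ^ 2 + 3 * u ^ 2 + (|μ| + 1 / 2) * ((87 / 100) / x + (13 / 5) * u ^ 2)
          + (1 / 2) / x * (|μ| + 1 / 2) :=
        (norm_add_le _ _).trans (add_le_add ((norm_add_le _ _).trans
          (add_le_add ((norm_add_le _ _).trans (add_le_add n1 n2)) n3)) n4)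
    _ = (137 / 100) * (|μ| + 1 / 2) / x + (15 / 4 + (13 / 5) * (|μ| + 1 / 2)) * u ^ 2 := by
        ring
    _ ≤ 2 * (1 + |μ|) / x + 8 * (1 + |μ|) * u ^ 2 := by
        apply add_le_add
        · apply div_le_div_of_nonneg_right _ h0.le
          linarith
        · apply mul_le_mul_of_nonneg_right _ (by positivity)
          linarith

/-! ## Assembly -/

lemma b_exp (N j : ℕ) (hj : 1 ≤ j) (hN : 4 * j ≤ N) :
    (b N j : ℂ) * Complex.exp ((pp N j : ℂ) * Complex.I)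
      = (yy N j : ℂ) + (sg N j : ℂ) * Complex.I := by
  obtain ⟨h1, h2, -, -⟩ := pp_facts N j hj hN
  rw [Complex.exp_mul_I, ← Complex.ofReal_cos, ← Complex.ofReal_sin, ← h1, ← h2]
  push_cast
  ring

lemma b_exp_neg (N j : ℕ) (hj : 1 ≤ j) (hN : 4 * j ≤ N) :
    (b N j : ℂ) * Complex.exp (((-pp N j : ℝ) : ℂ) * Complex.I)
      = (yy N j : ℂ) - (sg N j : ℂ) * Complex.I := by
  obtain ⟨h1, h2, -, -⟩ := pp_facts N j hj hN
  rw [Complex.exp_mul_I, ← Complex.ofReal_cos, ← Complex.ofReal_sin, ← h1, ← h2, Real.cos_neg,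
    Real.sin_neg]
  push_cast
  ring

lemma b_norm (N j : ℕ) (hN : j ≤ N) (h0 : 1 ≤ N) : ‖(b N j : ℂ)‖ ≤ j := by
  rw [Complex.norm_real, Real.norm_eq_abs]
  have hn0 : (0 : ℝ) < N := by exact_mod_cast h0
  have hx : (0 : ℝ) ≤ j := Nat.cast_nonneg j
  have hxn : (j : ℝ) ≤ N := by exact_mod_cast hN
  unfold b
  have h1 : 0 ≤ (j : ℝ) ^ 3 / (N : ℝ) ^ 2 := by positivity
  have h2 : (j : ℝ) ^ 3 / (N : ℝ) ^ 2 ≤ j := by
    rw [div_le_iff₀ (by positivity)]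
    nlinarith [mul_nonneg hx (sub_nonneg.mpr (pow_le_pow_left₀ hx hxn 2))]
  rw [abs_le]; constructor <;> linarith

theorem residual (N j : ℕ) (μ : ℝ) (hj : 2 ≤ j) (hN : 8 * (j + 1) ≤ N) (hμ : |μ| ≤ j) :
    ‖(b N (j + 1) : ℂ) * psi N μ (j + 1) + (b N j : ℂ) * psi N μ (j - 1)
        - ((kk μ + a N j : ℝ) : ℂ) * psi N μ j‖
      ≤ (7 * (1 + |μ|) ^ 2 / j + 14 * (1 + |μ|) * ((j : ℝ) / N) ^ 2) / Real.sqrt j := by
  obtain ⟨i, rfl⟩ : ∃ i, j = i + 1 := ⟨j - 1, by omega⟩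
  rw [Nat.add_sub_cancel]
  have hx : (2 : ℝ) ≤ ((i + 1 : ℕ) : ℝ) := by exact_mod_cast hj
  have hn : 8 * (((i + 1 : ℕ) : ℝ) + 1) ≤ (N : ℝ) := by exact_mod_cast hN
  have hy1 : yy N (i + 1 + 1) = (((i + 1 : ℕ) : ℝ) + 1) / 2
      - (((i + 1 : ℕ) : ℝ) + 1) ^ 3 / (N : ℝ) ^ 2 := by
    unfold yy; push_cast; ring
  have hs1 : sg N (i + 1 + 1) = (((i + 1 : ℕ) : ℝ) + 1)
      * Real.sqrt (3 / 4 - ((((i + 1 : ℕ) : ℝ) + 1) / N) ^ 2) := by
    unfold sg; push_cast; ring_nf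
  have hy0 : yy N (i + 1) = ((i + 1 : ℕ) : ℝ) / 2 - ((i + 1 : ℕ) : ℝ) ^ 3 / (N : ℝ) ^ 2 := rfl
  have hs0 : sg N (i + 1) = ((i + 1 : ℕ) : ℝ)
      * Real.sqrt (3 / 4 - (((i + 1 : ℕ) : ℝ) / N) ^ 2) := rfl
  have ha : kk μ + a N (i + 1) = (1 / 2 + Real.sqrt 3 * μ) + (((i + 1 : ℕ) : ℝ)
      - (2 * ((i + 1 : ℕ) : ℝ) ^ 3 + 3 * ((i + 1 : ℕ) : ℝ) ^ 2 + 2 * ((i + 1 : ℕ) : ℝ))
        / (N : ℝ) ^ 2) := rfl
  have hTh1 : Th N (i + 1 + 1) = Th N (i + 1) + pp N (i + 1 + 1) := by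
    unfold Th; rw [Finset.sum_range_succ]
  have hTh0 : Th N i = Th N (i + 1) - pp N (i + 1) := by
    unfold Th; rw [Finset.sum_range_succ]; ring
  have hH1 : HH (i + 1 + 1) = HH (i + 1) + 1 / (((i + 1 : ℕ) : ℝ) + 1) := by
    unfold HH; rw [Finset.sum_range_succ]
  have hH0 : HH i = HH (i + 1) - 1 / ((i + 1 : ℕ) : ℝ) := by
    unfold HH; rw [Finset.sum_range_succ]; push_cast; ring
  have hb1 := b_exp N (i + 1 + 1) (by omega) (by omega)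
  have hb0 := b_exp_neg N (i + 1) (by omega) (by omega)
  have hn1 : ‖(b N (i + 1 + 1) : ℂ)‖ ≤ ((i + 1 : ℕ) : ℝ) + 1 := by
    have := b_norm N (i + 1 + 1) (by omega) (by omega)
    push_cast at this ⊢
    exact this
  have hn0 := b_norm N (i + 1) (by omega) (by omega)
  have hmain := main_part ((i + 1 : ℕ) : ℝ) (N : ℝ) μ hx hn
  have he1 := eps1 ((i + 1 : ℕ) : ℝ) μ hx hμ
  have he2 := eps2 ((i + 1 : ℕ) : ℝ) μ hx hμ
  have hsq1 : Real.sqrt (((i + 1 + 1 : ℕ) : ℝ)) = Real.sqrt (((i + 1 : ℕ) : ℝ) + 1) := by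
    push_cast; rfl
  have hsq0 : Real.sqrt ((i : ℝ)) = Real.sqrt (((i + 1 : ℕ) : ℝ) - 1) := by
    push_cast; rw [add_sub_cancel_right]
  have hps1 : psi N μ (i + 1 + 1) = Complex.exp (((Th N (i + 1) - μ * HH (i + 1) : ℝ) : ℂ)
      * Complex.I) * Complex.exp ((pp N (i + 1 + 1) : ℂ) * Complex.I)
      * Complex.exp (((-(μ / (((i + 1 : ℕ) : ℝ) + 1)) : ℝ) : ℂ) * Complex.I)
      / ((Real.sqrt (((i + 1 : ℕ) : ℝ) + 1) : ℝ) : ℂ) := by
    unfold psi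
    rw [hTh1, hH1, hsq1, ← Complex.exp_add, ← Complex.exp_add]
    congr 2
    push_cast
    ring
  have hps0 : psi N μ i = Complex.exp (((Th N (i + 1) - μ * HH (i + 1) : ℝ) : ℂ)
      * Complex.I) * Complex.exp (((-pp N (i + 1) : ℝ) : ℂ) * Complex.I)
      * Complex.exp (((μ / ((i + 1 : ℕ) : ℝ) : ℝ) : ℂ) * Complex.I)
      / ((Real.sqrt (((i + 1 : ℕ) : ℝ) - 1) : ℝ) : ℂ) := by
    unfold psi
    rw [hTh0, hH0, hsq0, ← Complex.exp_add, ← Complex.exp_add]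
    congr 2
    push_cast
    ring
  have hps : psi N μ (i + 1) = Complex.exp (((Th N (i + 1) - μ * HH (i + 1) : ℝ) : ℂ)
      * Complex.I) / ((Real.sqrt ((i + 1 : ℕ) : ℝ) : ℝ) : ℂ) := rfl
  rw [hps1, hps0, hps, ha]
  have hE : ‖Complex.exp (((Th N (i + 1) - μ * HH (i + 1) : ℝ) : ℂ) * Complex.I)‖ = 1 :=
    Complex.norm_exp_ofReal_mul_I _
  have hp1 : ‖Complex.exp ((pp N (i + 1 + 1) : ℂ) * Complex.I)‖ = 1 :=
    Complex.norm_exp_ofReal_mul_I _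
  have hp0 : ‖Complex.exp (((-pp N (i + 1) : ℝ) : ℂ) * Complex.I)‖ = 1 :=
    Complex.norm_exp_ofReal_mul_I _
  rw [hy1, hs1] at hb1
  rw [hy0, hs0] at hb0
  rw [← hb1, ← hb0] at hmain
  generalize Complex.exp (((Th N (i + 1) - μ * HH (i + 1) : ℝ) : ℂ) * Complex.I) = E at *
  generalize Complex.exp ((pp N (i + 1 + 1) : ℂ) * Complex.I) = p1 at *
  generalize Complex.exp (((-pp N (i + 1) : ℝ) : ℂ) * Complex.I) = p0 at *
  generalize (((i + 1 : ℕ) : ℝ)) = x at *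
  generalize (1 / 2 + Real.sqrt 3 * μ) + (x - (2 * x ^ 3 + 3 * x ^ 2 + 2 * x) / (N : ℝ) ^ 2) = K at *
  generalize Complex.exp (((-(μ / (x + 1)) : ℝ) : ℂ) * Complex.I) = e1 at *
  generalize Complex.exp (((μ / x : ℝ) : ℂ) * Complex.I) = e2 at *
  generalize (1 / 2 + (μ : ℂ) * Complex.I) / (x : ℂ) = w at *
  have h0 : (0 : ℝ) < x := by linarith
  have hx1 : (0 : ℝ) < x + 1 := by linarith
  have hx2 : (0 : ℝ) < x - 1 := by linarith
  have hα : ((Real.sqrt (x / (x + 1)) : ℝ) : ℂ) = ((Real.sqrt x : ℝ) : ℂ)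
      / ((Real.sqrt (x + 1) : ℝ) : ℂ) := by
    rw [Real.sqrt_div h0.le]; push_cast; rfl
  have hβ : ((Real.sqrt (x / (x - 1)) : ℝ) : ℂ) = ((Real.sqrt x : ℝ) : ℂ)
      / ((Real.sqrt (x - 1) : ℝ) : ℂ) := by
    rw [Real.sqrt_div h0.le]; push_cast; rfl
  have hsx : ((Real.sqrt x : ℝ) : ℂ) ≠ 0 := by
    exact_mod_cast (Real.sqrt_pos.mpr h0).ne'
  have hsx1 : ((Real.sqrt (x + 1) : ℝ) : ℂ) ≠ 0 := by
    exact_mod_cast (Real.sqrt_pos.mpr hx1).ne'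
  have hsx2 : ((Real.sqrt (x - 1) : ℝ) : ℂ) ≠ 0 := by
    exact_mod_cast (Real.sqrt_pos.mpr hx2).ne'
  rw [hα] at he1
  rw [hβ] at he2
  have hid : (b N (i + 1 + 1) : ℂ) * (E * p1 * e1 / ((Real.sqrt (x + 1) : ℝ) : ℂ))
      + (b N (i + 1) : ℂ) * (E * p0 * e2 / ((Real.sqrt (x - 1) : ℝ) : ℂ))
      - (K : ℂ) * (E / ((Real.sqrt x : ℝ) : ℂ))
      = (E / ((Real.sqrt x : ℝ) : ℂ)) * (((b N (i + 1 + 1) : ℂ) * p1 * (1 - w)
          + (b N (i + 1) : ℂ) * p0 * (1 + w) - (K : ℂ))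
        + (b N (i + 1 + 1) : ℂ) * p1
          * (((Real.sqrt x : ℝ) : ℂ) / ((Real.sqrt (x + 1) : ℝ) : ℂ) * e1 - (1 - w))
        + (b N (i + 1) : ℂ) * p0
          * (((Real.sqrt x : ℝ) : ℂ) / ((Real.sqrt (x - 1) : ℝ) : ℂ) * e2 - (1 + w))) := by
    field_simp
    ring
  rw [hid, norm_mul, norm_div, hE, Complex.norm_real, Real.norm_eq_abs,
    abs_of_pos (Real.sqrt_pos.mpr h0), one_div, mul_comm, ← div_eq_mul_inv]
  apply div_le_div_of_nonneg_right _ (Real.sqrt_nonneg _)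
  have k1 : ‖(b N (i + 1 + 1) : ℂ) * p1
          * (((Real.sqrt x : ℝ) : ℂ) / ((Real.sqrt (x + 1) : ℝ) : ℂ) * e1 - (1 - w))‖
      ≤ (3 / 2) * (1 + |μ|) ^ 2 / x := by
    rw [norm_mul, norm_mul, hp1, mul_one]
    calc _ ≤ (x + 1) * ((1 + |μ|) ^ 2 / x ^ 2) :=
          mul_le_mul hn1 he1 (norm_nonneg _) hx1.le
      _ ≤ ((3 / 2) * x) * ((1 + |μ|) ^ 2 / x ^ 2) :=
          mul_le_mul_of_nonneg_right (by linarith) (by positivity)
      _ = (3 / 2) * (1 + |μ|) ^ 2 / x := by field_simp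
  have k2 : ‖(b N (i + 1) : ℂ) * p0
          * (((Real.sqrt x : ℝ) : ℂ) / ((Real.sqrt (x - 1) : ℝ) : ℂ) * e2 - (1 + w))‖
      ≤ (5 / 4) * (1 + |μ|) ^ 2 / x := by
    rw [norm_mul, norm_mul, hp0, mul_one]
    calc _ ≤ x * ((5 / 4) * (1 + |μ|) ^ 2 / x ^ 2) :=
          mul_le_mul hn0 he2 (norm_nonneg _) h0.le
      _ = (5 / 4) * (1 + |μ|) ^ 2 / x := by field_simp
  have hμ0 := abs_nonneg μ
  calc _ ≤ (2 * (1 + |μ|) / x + 8 * (1 + |μ|) * (x / N) ^ 2) + (3 / 2) * (1 + |μ|) ^ 2 / x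
          + (5 / 4) * (1 + |μ|) ^ 2 / x :=
        (norm_add_le _ _).trans (add_le_add ((norm_add_le _ _).trans (add_le_add hmain k1)) k2)
    _ = (2 * (1 + |μ|) + (11 / 4) * (1 + |μ|) ^ 2) / x + 8 * (1 + |μ|) * (x / N) ^ 2 := by ring
    _ ≤ 7 * (1 + |μ|) ^ 2 / x + 14 * (1 + |μ|) * (x / N) ^ 2 := by
        apply add_le_add
        · apply div_le_div_of_nonneg_right _ h0.le
          nlinarith
        · apply mul_le_mul_of_nonneg_right _ (by positivity)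
          linarith

end Pool.Agent.H13.Pascal
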