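import Pool.Agent.H13.Pascal.Final

/-!
# Linear statistics of the spectrum of the Pascal matrix

For every `C¹` function `F` on `[0, 1/3]` with `F 0 = 0`,
`∑_k F (p_k) = (3 / (2 π²)) (∫ F (p s) ds) log n + O(1)`, `p s = 1 / (1 + 2 cosh s)`.
-/

namespace Pool.Agent.H13.Pascal

open Finset Filter MeasureTheory

/-- the Bernoulli parameter as a function of the logarithm of the eigenvalue -/
noncomputable def bp (s : ℝ) : ℝ := 1 / (1 + 2 * Real.cosh s)

lemma bp_pos (s : ℝ) : 0 < bp s := by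
  unfold bp
  have := Real.cosh_pos s
  positivity

lemma bp_le (s : ℝ) : bp s ≤ 1 / 3 := by
  unfold bp
  have := Real.one_le_cosh s
  apply one_div_le_one_div_of_le (by norm_num)
  linarith

lemma bp_mem (s : ℝ) : bp s ∈ Set.Icc (0 : ℝ) (1 / 3) := ⟨(bp_pos s).le, bp_le s⟩

lemma bp_abs (s : ℝ) : bp |s| = bp s := by
  unfold bp
  rw [Real.cosh_abs]

lemma bp_le_exp (s : ℝ) : bp s ≤ Real.exp (-s) := by
  unfold bp
  rw [Real.exp_neg, ← one_div]
  apply one_div_le_one_div_of_le (Real.exp_pos _)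
  rw [Real.cosh_eq]
  have := Real.exp_pos (-s)
  linarith

lemma bp_hasDeriv (s : ℝ) : HasDerivAt bp (-(2 * Real.sinh s * bp s ^ 2)) s := by
  have h1 : HasDerivAt (fun s => 1 + 2 * Real.cosh s) (2 * Real.sinh s) s :=
    ((Real.hasDerivAt_cosh s).const_mul 2).const_add 1
  have h0 : (1 + 2 * Real.cosh s) ≠ 0 := by
    have := Real.cosh_pos s
    positivity
  have h2 := h1.inv h0
  have h3 : bp = fun s => (1 + 2 * Real.cosh s)⁻¹ := by
    funext s
    unfold bp
    rw [one_div]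
  have h4 : -(2 * Real.sinh s * bp s ^ 2) = -(2 * Real.sinh s) / (1 + 2 * Real.cosh s) ^ 2 := by
    unfold bp
    field_simp
  rw [h4, h3]
  exact h2

lemma bp_cont : Continuous bp := by
  rw [continuous_iff_continuousAt]
  intro s
  exact (bp_hasDeriv s).continuousAt

lemma bp_deriv_nonneg (s : ℝ) (hs : 0 ≤ s) : 0 ≤ 2 * Real.sinh s * bp s ^ 2 := by
  have := Real.sinh_nonneg_iff.mpr hs
  positivity

lemma bp_deriv_le (s : ℝ) (hs : 0 ≤ s) : 2 * Real.sinh s * bp s ^ 2 ≤ Real.exp (-s) := by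
  have h1 := bp_le_exp s
  have h2 := bp_pos s
  have h3 : bp s ^ 2 ≤ Real.exp (-s) ^ 2 := pow_le_pow_left₀ h2.le h1 2
  have h4 : 2 * Real.sinh s ≤ Real.exp s := by
    rw [Real.sinh_eq]
    have := Real.exp_pos (-s)
    linarith
  have h5 := Real.sinh_nonneg_iff.mpr hs
  calc 2 * Real.sinh s * bp s ^ 2 ≤ Real.exp s * Real.exp (-s) ^ 2 :=
        mul_le_mul h4 h3 (sq_nonneg _) (Real.exp_pos _).le
    _ = Real.exp (-s) := by
        rw [← Real.exp_nat_mul, ← Real.exp_add]; congr 1; push_cast; ring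

lemma exp_neg_abs_integrable : Integrable (fun s : ℝ => Real.exp (-|s|)) := by
  have h1 : IntegrableOn (fun s : ℝ => Real.exp (-|s|)) (Set.Ioi 0) := by
    have h := integrableOn_exp_neg_Ioi 0
    refine h.congr_fun ?_ measurableSet_Ioi
    intro s hs
    simp only
    rw [abs_of_pos hs]
  have h2 : IntegrableOn (fun s : ℝ => Real.exp (-|s|)) (Set.Iic 0) := by
    have h := integrableOn_exp_Iic 0
    refine h.congr_fun ?_ measurableSet_Iic
    intro s hs
    simp only
    rw [abs_of_nonpos hs, neg_neg]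
  have h3 : IntegrableOn (fun s : ℝ => Real.exp (-|s|)) (Set.Iic 0 ∪ Set.Ioi 0) := h2.union h1
  rw [Set.Iic_union_Ioi] at h3
  exact integrableOn_univ.mp h3

/-- integrability of `F ∘ bp` for `|F x| ≤ D x` -/
lemma comp_integrable (F : ℝ → ℝ) (D : ℝ) (hc : ContinuousOn F (Set.Icc 0 (1 / 3)))
    (hD : ∀ x ∈ Set.Icc (0 : ℝ) (1 / 3), |F x| ≤ D * x) : Integrable (fun s => F (bp s)) := by
  have hcont : Continuous (fun s => F (bp s)) :=
    hc.comp_continuous bp_cont bp_mem
  refine Integrable.mono' (exp_neg_abs_integrable.const_mul |D|) hcont.aestronglyMeasurable ?_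
  refine Filter.Eventually.of_forall ?_
  intro s
  have h1 := hD (bp s) (bp_mem s)
  have h2 : bp s ≤ Real.exp (-|s|) := by
    rw [← bp_abs]
    exact bp_le_exp _
  rw [Real.norm_eq_abs]
  calc |F (bp s)| ≤ D * bp s := h1
    _ ≤ |D| * bp s := mul_le_mul_of_nonneg_right (le_abs_self D) (bp_pos s).le
    _ ≤ |D| * Real.exp (-|s|) := mul_le_mul_of_nonneg_left h2 (abs_nonneg D)

/-- one-sided statement for increasing `G` -/
lemma layer_comp (G G' : ℝ → ℝ) (D : ℝ) (hD : 0 < D)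
    (hG : ∀ x ∈ Set.Icc (0 : ℝ) (1 / 3), HasDerivAt G (G' x) x)
    (hc : ContinuousOn G' (Set.Icc 0 (1 / 3))) (h0 : G 0 = 0)
    (hpos : ∀ x ∈ Set.Icc (0 : ℝ) (1 / 3), 0 ≤ G' x)
    (hle : ∀ x ∈ Set.Icc (0 : ℝ) (1 / 3), G' x ≤ D) (C1 : ℝ) :
    ∃ C2 : ℝ, ∀ (n : ℕ) (s : Fin n → ℝ) (w : ℝ), 1 ≤ w →
    (∀ r : ℝ, 0 ≤ r → r ≤ 2 * Real.log w + 2 →
      3 / Real.pi ^ 2 * r * w - C1 * (1 + r) ^ 3 ≤ ((Finset.univ.filter (fun k => |s k| ≤ r)).card : ℝ)) →
    3 / (2 * Real.pi ^ 2) * (∫ x, G (bp x)) * w - C2 ≤ ∑ k, G (bp (s k)) := by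
  -- bounds for G
  have hGb : ∀ x ∈ Set.Icc (0 : ℝ) (1 / 3), 0 ≤ G x ∧ G x ≤ D * x := by
    intro x hx
    have hmono : MonotoneOn G (Set.Icc 0 (1 / 3)) := by
      apply monotoneOn_of_deriv_nonneg (convex_Icc 0 (1 / 3))
      · intro y hy
        exact (hG y hy).continuousAt.continuousWithinAt
      · intro y hy
        rw [interior_Icc] at hy
        exact (hG y ⟨hy.1.le, hy.2.le⟩).differentiableAt.differentiableWithinAt
      · intro y hy
        rw [interior_Icc] at hy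
        rw [(hG y ⟨hy.1.le, hy.2.le⟩).deriv]
        exact hpos y ⟨hy.1.le, hy.2.le⟩
    have hanti : AntitoneOn (fun y => G y - D * y) (Set.Icc 0 (1 / 3)) := by
      apply antitoneOn_of_deriv_nonpos (convex_Icc 0 (1 / 3))
      · intro y hy
        exact ((hG y hy).continuousAt.sub (by fun_prop)).continuousWithinAt
      · intro y hy
        rw [interior_Icc] at hy
        exact ((hG y ⟨hy.1.le, hy.2.le⟩).sub ((hasDerivAt_id y).const_mul D)).differentiableAt.differentiableWithinAt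
      · intro y hy
        rw [interior_Icc] at hy
        have h1 := ((hG y ⟨hy.1.le, hy.2.le⟩).sub ((hasDerivAt_id y).const_mul D)).deriv
        have h2 : deriv (fun y => G y - D * y) y = G' y - D * 1 := h1
        rw [h2]
        have := hle y ⟨hy.1.le, hy.2.le⟩
        linarith
    have hz : (0 : ℝ) ∈ Set.Icc (0 : ℝ) (1 / 3) := ⟨le_rfl, by norm_num⟩
    have e1 := hmono hz hx hx.1
    have e2 := hanti hz hx hx.1
    simp only at e2
    rw [h0] at e1 e2
    constructor <;> linarith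
  set ε := 2 / D with hε
  have hε0 : 0 < ε := by positivity
  have hεD : ε * D = 2 := by rw [hε]; field_simp
  have hGc : ContinuousOn G (Set.Icc 0 (1 / 3)) := fun y hy =>
    (hG y hy).continuousAt.continuousWithinAt
  obtain ⟨C2, hC2⟩ := LayerAux.layer_gen (g := fun s => ε * G (bp s))
    (h := fun s => ε * (G' (bp s) * (2 * Real.sinh s * bp s ^ 2)))
    (by
      intro s
      have h1 := (hG (bp s) (bp_mem s)).comp s (bp_hasDeriv s)
      have h2 := h1.const_mul ε
      have h3 : -(ε * (G' (bp s) * (2 * Real.sinh s * bp s ^ 2)))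
          = ε * (G' (bp s) * -(2 * Real.sinh s * bp s ^ 2)) := by ring
      rw [h3]
      exact h2)
    (by
      have h1 : Continuous (fun s => G' (bp s)) := hc.comp_continuous bp_cont bp_mem
      exact continuous_const.mul (h1.mul ((continuous_const.mul Real.continuous_sinh).mul
        (bp_cont.pow 2))))
    (fun s => mul_nonneg hε0.le (hGb _ (bp_mem s)).1)
    (fun r hr => mul_nonneg hε0.le (mul_nonneg (hpos _ (bp_mem r)) (bp_deriv_nonneg r hr)))
    (by
      intro r hr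
      have h1 := (hGb _ (bp_mem r)).2
      have h2 := bp_le_exp r
      calc ε * G (bp r) ≤ ε * (D * bp r) := mul_le_mul_of_nonneg_left h1 hε0.le
        _ = 2 * bp r := by rw [← mul_assoc, hεD]
        _ ≤ 2 * Real.exp (-r) := by linarith)
    (by
      intro r hr
      have h1 := hle _ (bp_mem r)
      have h2 := bp_deriv_le r hr
      have h3 := bp_deriv_nonneg r hr
      calc ε * (G' (bp r) * (2 * Real.sinh r * bp r ^ 2))
          ≤ ε * (D * Real.exp (-r)) := by
            apply mul_le_mul_of_nonneg_left _ hε0.le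
            exact mul_le_mul h1 h2 h3 hD.le
        _ = 2 * Real.exp (-r) := by rw [← mul_assoc, hεD])
    (by intro s; rw [bp_abs])
    (by
      apply Integrable.const_mul
      apply comp_integrable G D hGc
      intro x hx
      rw [abs_of_nonneg (hGb x hx).1]
      exact (hGb x hx).2)
    C1
  refine ⟨C2 / ε, ?_⟩
  intro n s w hw hN
  have h := hC2 n s w hw hN
  rw [integral_const_mul, ← Finset.mul_sum] at h
  have h2 : ε * (3 / (2 * Real.pi ^ 2) * (∫ x, G (bp x)) * w - C2 / ε) ≤ ε * ∑ k, G (bp (s k)) := by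
    have : ε * (C2 / ε) = C2 := by field_simp
    rw [mul_sub, this]
    linarith
  exact le_of_mul_le_mul_left h2 hε0

lemma qq_tt (s : ℝ) : - qq (2 * Real.pi / 3) s = - Real.log (1 - 2 * bp s) := by
  unfold qq bp
  rw [cos_two_thirds]
  congr 2
  have h0 : (1 + 2 * Real.cosh s) ≠ 0 := by
    have := Real.cosh_pos s
    positivity
  field_simp
  ring

/-- Linear statistics: general theorem. -/
theorem stat (hnsc : ∃ C : ℝ, 0 < C ∧ ∀ (N M : ℕ) (μ : ℝ), 40 * (1 + |μ|) * (M + 1) ≤ N →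
    |(nsc N (kk μ) M : ℝ) - (Th N M - μ * HH M) / Real.pi| ≤ C * (1 + |μ|) ^ 3)
    (hsum : ∃ B : ℝ, ∀ n : ℕ, 1 ≤ n → - (1 / 4) * Real.log n - B ≤ Real.log (RR (2 * Real.pi / 3) n))
    (F F' : ℝ → ℝ) (hF : ∀ x ∈ Set.Icc (0 : ℝ) (1 / 3), HasDerivAt F (F' x) x)
    (hc : ContinuousOn F' (Set.Icc 0 (1 / 3))) (h0 : F 0 = 0) :
    ∃ B : ℝ, ∀ n : ℕ, 1 ≤ n →
      |∑ k, F (bp (ss (2 * n) k)) - 3 / (2 * Real.pi ^ 2) * (∫ s, F (bp s)) * Real.log n| ≤ B := by
  -- bound for F'
  obtain ⟨D, hD⟩ : ∃ D : ℝ, ∀ x ∈ Set.Icc (0 : ℝ) (1 / 3), |F' x| ≤ D := by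
    obtain ⟨D, hD⟩ := isCompact_Icc.exists_bound_of_continuousOn hc
    exact ⟨D, fun x hx => by simpa using hD x hx⟩
  have hD0 : 0 ≤ D := le_trans (abs_nonneg _) (hD 0 ⟨le_rfl, by norm_num⟩)
  -- F0
  set F0 : ℝ → ℝ := fun x => - Real.log (1 - 2 * x) with hF0
  set F0' : ℝ → ℝ := fun x => 2 / (1 - 2 * x) with hF0'
  have hF0d : ∀ x ∈ Set.Icc (0 : ℝ) (1 / 3), HasDerivAt F0 (F0' x) x := by
    intro x hx
    have hne : (1 - 2 * x) ≠ 0 := by
      have := hx.2; intro h; linarith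
    have h1 : HasDerivAt (fun x : ℝ => 1 - 2 * x) (-2) x := by
      simpa using ((hasDerivAt_id x).const_mul (2 : ℝ)).const_sub 1
    have h2 := (h1.log hne).neg
    have h3 : F0' x = -(-2 / (1 - 2 * x)) := by
      show 2 / (1 - 2 * x) = -(-2 / (1 - 2 * x))
      ring
    rw [h3]
    exact h2
  have hF0b : ∀ x ∈ Set.Icc (0 : ℝ) (1 / 3), 2 ≤ F0' x ∧ F0' x ≤ 6 := by
    intro x hx
    have h1 : 0 < 1 - 2 * x := by have := hx.2; linarith
    simp only [hF0']
    constructor
    · rw [le_div_iff₀ h1]; have := hx.1; linarith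
    · rw [div_le_iff₀ h1]; have := hx.2; linarith
  have hF0c : ContinuousOn F0' (Set.Icc 0 (1 / 3)) := by
    simp only [hF0']
    apply ContinuousOn.div continuousOn_const (by fun_prop)
    intro x hx h
    have := hx.2
    linarith
  set K := D / 2 + 1 with hK
  have hK0 : 0 < K := by positivity
  obtain ⟨C1, hC1⟩ := count_s hnsc
  -- two one-sided statements and the sum rule
  obtain ⟨A1, hA1⟩ := layer_comp (fun x => K * F0 x + F x) (fun x => K * F0' x + F' x) (6 * K + D + 1)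
    (by positivity)
    (fun x hx => ((hF0d x hx).const_mul K).add (hF x hx))
    ((hF0c.const_smul K).add hc) (by simp only [hF0, h0]; norm_num)
    (fun x hx => by
      have h1 := (hF0b x hx).1
      have h2 := (abs_le.mp (hD x hx)).1
      nlinarith)
    (fun x hx => by
      have h1 := (hF0b x hx).2
      have h2 := (abs_le.mp (hD x hx)).2
      nlinarith) C1
  obtain ⟨A2, hA2⟩ := layer_comp (fun x => K * F0 x - F x) (fun x => K * F0' x - F' x) (6 * K + D + 1)
    (by positivity)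
    (fun x hx => ((hF0d x hx).const_mul K).sub (hF x hx))
    ((hF0c.const_smul K).sub hc) (by simp only [hF0, h0]; norm_num)
    (fun x hx => by
      have h1 := (hF0b x hx).1
      have h2 := (abs_le.mp (hD x hx)).2
      nlinarith)
    (fun x hx => by
      have h1 := (hF0b x hx).2
      have h2 := (abs_le.mp (hD x hx)).1
      nlinarith) C1
  obtain ⟨B0, hB0⟩ := hsum
  obtain ⟨N0, hN0⟩ := eventually_atTop.mp hC1
  -- integrals
  have hFb : ∀ x ∈ Set.Icc (0 : ℝ) (1 / 3), |F x| ≤ D * x := by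
    intro x hx
    have hz : (0 : ℝ) ∈ Set.Icc (0 : ℝ) (1 / 3) := ⟨le_rfl, by norm_num⟩
    have h1 := (convex_Icc (0 : ℝ) (1 / 3)).norm_image_sub_le_of_norm_hasDerivWithin_le
      (f := F) (f' := F') (C := D) (fun y hy => (hF y hy).hasDerivWithinAt)
      (fun y hy => by rw [Real.norm_eq_abs]; exact hD y hy) hz hx
    rw [h0, sub_zero, sub_zero, Real.norm_eq_abs, Real.norm_eq_abs, abs_of_nonneg hx.1] at h1
    exact h1
  have hF0b' : ∀ x ∈ Set.Icc (0 : ℝ) (1 / 3), |F0 x| ≤ 6 * x := by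
    intro x hx
    have hz : (0 : ℝ) ∈ Set.Icc (0 : ℝ) (1 / 3) := ⟨le_rfl, by norm_num⟩
    have h1 := (convex_Icc (0 : ℝ) (1 / 3)).norm_image_sub_le_of_norm_hasDerivWithin_le
      (f := F0) (f' := F0') (C := 6) (fun y hy => (hF0d y hy).hasDerivWithinAt)
      (fun y hy => by
        rw [Real.norm_eq_abs, abs_le]
        have := hF0b y hy
        constructor <;> linarith) hz hx
    have h00 : F0 0 = 0 := by simp only [hF0]; norm_num
    rw [h00, sub_zero, sub_zero, Real.norm_eq_abs, Real.norm_eq_abs, abs_of_nonneg hx.1] at h1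
    exact h1
  have iF : Integrable (fun s => F (bp s)) := comp_integrable F D
    (fun y hy => (hF y hy).continuousAt.continuousWithinAt) hFb
  have iF0 : Integrable (fun s => F0 (bp s)) := comp_integrable F0 6
    (fun y hy => (hF0d y hy).continuousAt.continuousWithinAt) hF0b'
  have hI0 : ∫ s, F0 (bp s) = Real.pi ^ 2 / 3 := by
    have h := integral_qq (2 * Real.pi / 3) (by positivity) (by linarith [Real.pi_pos])
    have e : (fun s => F0 (bp s)) = fun s => - qq (2 * Real.pi / 3) s := by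
      funext s
      rw [qq_tt]
    rw [e, integral_neg, h.2]
    ring
  have hI1 : ∫ s, (K * F0 (bp s) + F (bp s)) = K * (Real.pi ^ 2 / 3) + ∫ s, F (bp s) := by
    rw [integral_add (iF0.const_mul K) iF, integral_const_mul, hI0]
  have hI2 : ∫ s, (K * F0 (bp s) - F (bp s)) = K * (Real.pi ^ 2 / 3) - ∫ s, F (bp s) := by
    rw [integral_sub (iF0.const_mul K) iF, integral_const_mul, hI0]
  set I := ∫ s, F (bp s) with hI
  have hpi := Real.pi_pos
  have hlog2pos : 0 < Real.log 2 := Real.log_pos (by norm_num)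
  set Λ := 3 / (2 * Real.pi ^ 2) * I with hΛ
  have hlarge : ∀ n : ℕ, N0 ≤ 2 * n → 1 ≤ n →
      |∑ k, F (bp (ss (2 * n) k)) - Λ * Real.log n|
        ≤ |A1| + |A2| + 2 * K * |B0| + (|Λ| + K) * Real.log 2 := by
    intro n hn hn1
    obtain ⟨hw, hcn⟩ := hN0 (2 * n) hn
    have hnpos : (0 : ℝ) < n := by exact_mod_cast hn1
    have hlog2 : Real.log ((2 * n : ℕ) : ℝ) = Real.log 2 + Real.log n := by
      push_cast
      rw [Real.log_mul (by norm_num) hnpos.ne']
    have g1 := hA1 (2 * n) (ss (2 * n)) (Real.log ((2 * n : ℕ) : ℝ)) hw hcn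
    have g2 := hA2 (2 * n) (ss (2 * n)) (Real.log ((2 * n : ℕ) : ℝ)) hw hcn
    rw [hI1, hlog2, Finset.sum_add_distrib, ← Finset.mul_sum] at g1
    rw [hI2, hlog2, Finset.sum_sub_distrib, ← Finset.mul_sum] at g2
    have r1 : Real.log (RR (2 * Real.pi / 3) n)
        = (1 / 2) * ∑ k, qq (2 * Real.pi / 3) (ss (2 * n) k) :=
      log_ratio (2 * n) (2 * Real.pi / 3) cos_tt
    have e0 : ∑ k, F0 (bp (ss (2 * n) k)) = - ∑ k, qq (2 * Real.pi / 3) (ss (2 * n) k) := by
      rw [← Finset.sum_neg_distrib]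
      apply Finset.sum_congr rfl
      intro k _
      rw [qq_tt]
    have hb := hB0 n hn1
    rw [r1] at hb
    set X := ∑ k, F (bp (ss (2 * n) k)) with hX
    set Y := ∑ k, F0 (bp (ss (2 * n) k)) with hY
    set l := Real.log (n : ℝ) with hl
    have hYb : Y ≤ (1 / 2) * l + 2 * B0 := by rw [e0]; linarith
    have c1 : 3 / (2 * Real.pi ^ 2) * (K * (Real.pi ^ 2 / 3) + I) = K / 2 + Λ := by
      rw [hΛ]; field_simp
    have c2 : 3 / (2 * Real.pi ^ 2) * (K * (Real.pi ^ 2 / 3) - I) = K / 2 - Λ := by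
      rw [hΛ]; field_simp
    rw [c1] at g1
    rw [c2] at g2
    have hKY : K * Y ≤ K * ((1 / 2) * l + 2 * B0) := mul_le_mul_of_nonneg_left hYb hK0.le
    have a1 := le_abs_self A1
    have a2 := le_abs_self A2
    have a1' := abs_nonneg A1
    have a2' := abs_nonneg A2
    have b0 : K * B0 ≤ K * |B0| := mul_le_mul_of_nonneg_left (le_abs_self B0) hK0.le
    have b0' : 0 ≤ K * |B0| := mul_nonneg hK0.le (abs_nonneg _)
    have l1 : Λ * Real.log 2 ≤ |Λ| * Real.log 2 := mul_le_mul_of_nonneg_right (le_abs_self Λ) hlog2pos.le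
    have l2 : -(|Λ| * Real.log 2) ≤ Λ * Real.log 2 := by
      have := mul_le_mul_of_nonneg_right (neg_abs_le Λ) hlog2pos.le
      linarith
    have l3 : 0 ≤ K * Real.log 2 := by positivity
    rw [abs_le]
    constructor
    · nlinarith
    · nlinarith
  refine ⟨(|A1| + |A2| + 2 * K * |B0| + (|Λ| + K) * Real.log 2) + ∑ n ∈ range N0,
    |∑ k, F (bp (ss (2 * n) k)) - Λ * Real.log n|, ?_⟩
  intro n hn
  have hs : 0 ≤ ∑ n ∈ range N0, |∑ k, F (bp (ss (2 * n) k)) - Λ * Real.log n| :=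
    Finset.sum_nonneg (fun _ _ => abs_nonneg _)
  have hs2 : 0 ≤ |A1| + |A2| + 2 * K * |B0| + (|Λ| + K) * Real.log 2 := by positivity
  by_cases h : N0 ≤ 2 * n
  · have := hlarge n h hn
    linarith
  · have h1 : n ∈ range N0 := Finset.mem_range.mpr (by omega)
    have h2 := Finset.single_le_sum
      (f := fun n : ℕ => |∑ k, F (bp (ss (2 * n) k)) - Λ * Real.log n|)
      (fun i _ => abs_nonneg _) h1
    linarith

end Pool.Agent.H13.Pascal
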