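import Pool.Agent.H13.Pascal.Vary
import Pool.Agent.H13.Pascal.Residual
import Pool.Agent.H13.Pascal.Nsc
import Pool.Agent.H13.Pascal.Final
import Pool.Agent.H13.Pascal.Stat

/-!
# The nodal count, unconditionally
-/

namespace Pool.Agent.H13.Pascal

open Finset

theorem nsc_bound : ∃ C : ℝ, 0 < C ∧ ∀ (N M : ℕ) (μ : ℝ), 40 * (1 + |μ|) * (M + 1) ≤ N →
    |(nsc N (kk μ) M : ℝ) - (Th N M - μ * HH M) / Real.pi| ≤ C * (1 + |μ|) ^ 3 :=
  nsc_bound_of 600 40 (by norm_num) vary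

end Pool.Agent.H13.Pascal
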