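import Pool.Agent.H13.Pascal.Count

/-!
# Nodal blocks and eigenvalue counting for `T N`
-/

namespace Pool.Agent.H13.Pascal

open Matrix Finset

lemma nodal_form (n : ℕ) (f g e : ℕ → ℝ)
    (h : ∀ j < n + 1, g j = 0 ∨
      b (n + 1) (j + 1) * f (j + 1) + b (n + 1) j * f (j - 1) = (e j + a (n + 1) j) * f j) :
    ∑ i : Fin (n + 1), (g i * f i) * (T (n + 1) *ᵥ (fun k : Fin (n + 1) => g k * f k)) i
      = ∑ j ∈ range (n + 1), e j * (g j * f j) ^ 2
        - ∑ j ∈ range n, b (n + 1) (j + 1) * (f j * f (j + 1)) * (g (j + 1) - g j) ^ 2 := by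
  have h1 : ∀ i : Fin (n + 1), (T (n + 1) *ᵥ (fun k : Fin (n + 1) => g k * f k)) i
      = b (n + 1) (i + 1) * (g (i + 1) * f (i + 1)) + b (n + 1) i * (g (i - 1) * f (i - 1))
        - a (n + 1) i * (g i * f i) := by
    intro i
    have := T_row (n + 1) (fun k => g k * f k) i
    exact this
  simp_rw [h1]
  rw [Fin.sum_univ_eq_sum_range (fun i => (g i * f i) * (b (n + 1) (i + 1) * (g (i + 1) * f (i + 1))
    + b (n + 1) i * (g (i - 1) * f (i - 1)) - a (n + 1) i * (g i * f i))) (n + 1)]
  set X : ℕ → ℝ := fun i => b (n + 1) (i + 1) * (f i * f (i + 1)) * (g i * (g (i + 1) - g i)) with hX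
  set Y : ℕ → ℝ := fun i => b (n + 1) i * (f i * f (i - 1)) * (g i * (g (i - 1) - g i)) with hY
  have h2 : ∀ i ∈ range (n + 1), (g i * f i) * (b (n + 1) (i + 1) * (g (i + 1) * f (i + 1))
    + b (n + 1) i * (g (i - 1) * f (i - 1)) - a (n + 1) i * (g i * f i))
      = e i * (g i * f i) ^ 2 + (X i + Y i) := by
    intro i hi
    simp only [hX, hY]
    rcases h i (Finset.mem_range.mp hi) with h0 | h0
    · rw [h0]; ring
    · linear_combination ((g i) ^ 2 * f i) * h0
  rw [Finset.sum_congr rfl h2, Finset.sum_add_distrib, Finset.sum_add_distrib]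
  have hXs : ∑ i ∈ range (n + 1), X i = ∑ i ∈ range n, X i := by
    rw [Finset.sum_range_succ]
    have : X n = 0 := by
      simp only [hX]
      rw [b_self (n + 1) (by omega)]; ring
    rw [this]; ring
  have hYs : ∑ i ∈ range (n + 1), Y i = ∑ i ∈ range n, Y (i + 1) := by
    rw [Finset.sum_range_succ']
    have : Y 0 = 0 := by
      simp only [hY]
      rw [b_zero]; ring
    rw [this]; ring
  rw [hXs, hYs, ← Finset.sum_add_distrib, sub_eq_add_neg, ← Finset.sum_neg_distrib]
  congr 1
  apply Finset.sum_congr rfl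
  intro j _
  simp only [hX, hY, Nat.add_sub_cancel]
  ring

/-- block index -/
def bidx (A : Finset ℕ) (j : ℕ) : ℕ := (A.filter (fun x => x < j)).card

lemma bidx_zero (A : Finset ℕ) : bidx A 0 = 0 := by simp [bidx]

lemma bidx_succ_of_mem (A : Finset ℕ) (j : ℕ) (h : j ∈ A) : bidx A (j + 1) = bidx A j + 1 := by
  unfold bidx
  have : A.filter (fun x => x < j + 1) = insert j (A.filter (fun x => x < j)) := by
    ext x
    simp only [Finset.mem_filter, Finset.mem_insert]
    constructor
    · rintro ⟨h1, h2⟩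
      rcases Nat.lt_succ_iff_lt_or_eq.mp h2 with h3 | h3
      · exact Or.inr ⟨h1, h3⟩
      · exact Or.inl h3
    · rintro (h1 | h1)
      · subst h1; exact ⟨h, Nat.lt_succ_self _⟩
      · exact ⟨h1.1, by omega⟩
  rw [this, Finset.card_insert_of_notMem]
  simp

lemma bidx_succ_of_not_mem (A : Finset ℕ) (j : ℕ) (h : j ∉ A) : bidx A (j + 1) = bidx A j := by
  unfold bidx
  congr 1
  ext x
  simp only [Finset.mem_filter]
  constructor
  · rintro ⟨h1, h2⟩
    refine ⟨h1, ?_⟩
    rcases Nat.lt_succ_iff_lt_or_eq.mp h2 with h3 | h3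
    · exact h3
    · subst h3; exact absurd h1 h
  · rintro ⟨h1, h2⟩
    exact ⟨h1, by omega⟩

lemma bidx_eq_card (A : Finset ℕ) (j : ℕ) (h : ∀ x ∈ A, x < j) : bidx A j = A.card := by
  unfold bidx
  rw [Finset.filter_true_of_mem h]

lemma bidx_le_card (A : Finset ℕ) (j : ℕ) : bidx A j ≤ A.card :=
  Finset.card_le_card (Finset.filter_subset _ _)

/-- every positive block index `≤ card` starts right after a cut edge -/
lemma exists_block_start (A : Finset ℕ) (i : ℕ) (h1 : 1 ≤ i) (h2 : i ≤ A.card) :
    ∃ x ∈ A, bidx A (x + 1) = i := by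
  have hex : ∃ j, i ≤ bidx A j := by
    refine ⟨A.sup id + 1, ?_⟩
    rw [bidx_eq_card]
    · exact h2
    · intro x hx
      have : x ≤ A.sup id := Finset.le_sup (f := id) hx
      omega
  have hs := Nat.find_spec hex
  have hm := fun j (hj : j < Nat.find hex) => Nat.find_min hex hj
  set j0 := Nat.find hex with hj0
  have hj0ne : j0 ≠ 0 := by
    intro h0
    rw [h0, bidx_zero] at hs
    omega
  obtain ⟨x, hx⟩ : ∃ x, j0 = x + 1 := ⟨j0 - 1, by omega⟩
  have hx2 : ¬ (i ≤ bidx A x) := hm x (by omega)
  rw [hx] at hs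
  by_cases hxA : x ∈ A
  · refine ⟨x, hxA, ?_⟩
    have := bidx_succ_of_mem A x hxA
    omega
  · have := bidx_succ_of_not_mem A x hxA
    omega

/-- the trial map -/
noncomputable def trial (N : ℕ) (f : ℕ → ℝ) (A I : Finset ℕ) : (I → ℝ) →ₗ[ℝ] (Fin N → ℝ) where
  toFun c i := (if h : bidx A i ∈ I then c ⟨bidx A i, h⟩ else 0) * f i
  map_add' c d := by
    ext i
    by_cases h : bidx A i ∈ I
    · simp only [Pi.add_apply, dif_pos h]; ring
    · simp only [Pi.add_apply, dif_neg h]; ring
  map_smul' r c := by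
    ext i
    by_cases h : bidx A i ∈ I
    · simp only [Pi.smul_apply, dif_pos h, smul_eq_mul, RingHom.id_apply]; ring
    · simp only [Pi.smul_apply, dif_neg h, smul_eq_mul, RingHom.id_apply]; ring

lemma trial_injective (N : ℕ) (f : ℕ → ℝ) (A I : Finset ℕ)
    (hne : ∀ i ∈ I, ∃ j < N, bidx A j = i ∧ f j ≠ 0) : Function.Injective (trial N f A I) := by
  rw [injective_iff_map_eq_zero]
  intro c hc
  ext s
  obtain ⟨j, hj, hji, hfj⟩ := hne s.1 s.2
  have h := congrFun hc ⟨j, hj⟩
  have hmem : bidx A j ∈ I := by rw [hji]; exact s.2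
  have h2 : c ⟨bidx A j, hmem⟩ * f j = 0 := by
    have : (trial N f A I) c ⟨j, hj⟩
        = (if h : bidx A j ∈ I then c ⟨bidx A j, h⟩ else 0) * f j := rfl
    rw [this, dif_pos hmem] at h
    simpa using h
  have h3 : (⟨bidx A j, hmem⟩ : I) = s := Subtype.ext hji
  rw [h3] at h2
  rcases mul_eq_zero.mp h2 with h4 | h4
  · simpa using h4
  · exact absurd h4 hfj

theorem block_count_ge (n : ℕ) (f e : ℕ → ℝ) (κ : ℝ) (A I : Finset ℕ)
    (hrec : ∀ j < n + 1, bidx A j ∈ I →
      b (n + 1) (j + 1) * f (j + 1) + b (n + 1) j * f (j - 1) = (e j + a (n + 1) j) * f j)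
    (he : ∀ j < n + 1, bidx A j ∈ I → κ ≤ e j)
    (hA : ∀ j < n, j ∈ A → f j * f (j + 1) ≤ 0)
    (hne : ∀ i ∈ I, ∃ j < n + 1, bidx A j = i ∧ f j ≠ 0) :
    I.card ≤ (Finset.univ.filter (fun k => κ ≤ kap (n + 1) k)).card := by
  have h := count_ge (T (n + 1)) (T_isHermitian (n + 1)) κ (trial (n + 1) f A I)
    (trial_injective (n + 1) f A I hne) ?_
  · rw [Fintype.card_coe] at h
    exact h
  · intro c
    set g : ℕ → ℝ := fun j => if h : bidx A j ∈ I then c ⟨bidx A j, h⟩ else 0 with hg
    have ht : (trial (n + 1) f A I) c = fun k : Fin (n + 1) => g k * f k := rfl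
    have hform := nodal_form n f g e (by
      intro j hj
      by_cases hm : bidx A j ∈ I
      · exact Or.inr (hrec j hj hm)
      · left
        simp only [hg]
        rw [dif_neg hm])
    rw [ht]
    simp only
    rw [hform]
    have h1 : κ * ∑ i : Fin (n + 1), (g i * f i) * (g i * f i)
        = ∑ j ∈ range (n + 1), κ * (g j * f j) ^ 2 := by
      rw [Finset.mul_sum, ← Fin.sum_univ_eq_sum_range (fun j => κ * (g j * f j) ^ 2) (n + 1)]
      apply Finset.sum_congr rfl
      intro i _
      ring
    rw [h1]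
    have h2 : ∑ j ∈ range (n + 1), κ * (g j * f j) ^ 2
        ≤ ∑ j ∈ range (n + 1), e j * (g j * f j) ^ 2 := by
      apply Finset.sum_le_sum
      intro j hj
      by_cases hm : bidx A j ∈ I
      · exact mul_le_mul_of_nonneg_right (he j (Finset.mem_range.mp hj) hm) (sq_nonneg _)
      · have : g j = 0 := by simp only [hg]; rw [dif_neg hm]
        rw [this]; simp
    have h3 : ∑ j ∈ range n, b (n + 1) (j + 1) * (f j * f (j + 1)) * (g (j + 1) - g j) ^ 2 ≤ 0 := by
      apply Finset.sum_nonpos
      intro j hj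
      have hj' := Finset.mem_range.mp hj
      by_cases hm : j ∈ A
      · have hb := b_pos (n + 1) (j + 1) (by omega) (by omega)
        have := hA j hj' hm
        have h4 : b (n + 1) (j + 1) * (f j * f (j + 1)) ≤ 0 :=
          mul_nonpos_of_nonneg_of_nonpos hb.le this
        exact mul_nonpos_of_nonpos_of_nonneg h4 (sq_nonneg _)
      · have hgg : g (j + 1) = g j := by
          simp only [hg]
          have := bidx_succ_of_not_mem A j hm
          simp only [this]
        rw [hgg]; simp
    linarith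

theorem block_count_le (n : ℕ) (f e : ℕ → ℝ) (κ : ℝ) (A I : Finset ℕ)
    (hrec : ∀ j < n + 1, bidx A j ∈ I →
      b (n + 1) (j + 1) * f (j + 1) + b (n + 1) j * f (j - 1) = (e j + a (n + 1) j) * f j)
    (he : ∀ j < n + 1, bidx A j ∈ I → e j ≤ κ)
    (hA : ∀ j < n, j ∈ A → 0 ≤ f j * f (j + 1))
    (hne : ∀ i ∈ I, ∃ j < n + 1, bidx A j = i ∧ f j ≠ 0) :
    I.card ≤ (Finset.univ.filter (fun k => kap (n + 1) k ≤ κ)).card := by
  have h := count_le (T (n + 1)) (T_isHermitian (n + 1)) κ (trial (n + 1) f A I)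
    (trial_injective (n + 1) f A I hne) ?_
  · rw [Fintype.card_coe] at h
    exact h
  · intro c
    set g : ℕ → ℝ := fun j => if h : bidx A j ∈ I then c ⟨bidx A j, h⟩ else 0 with hg
    have ht : (trial (n + 1) f A I) c = fun k : Fin (n + 1) => g k * f k := rfl
    have hform := nodal_form n f g e (by
      intro j hj
      by_cases hm : bidx A j ∈ I
      · exact Or.inr (hrec j hj hm)
      · left
        simp only [hg]
        rw [dif_neg hm])
    rw [ht]
    simp only
    rw [hform]
    have h1 : κ * ∑ i : Fin (n + 1), (g i * f i) * (g i * f i)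
        = ∑ j ∈ range (n + 1), κ * (g j * f j) ^ 2 := by
      rw [Finset.mul_sum, ← Fin.sum_univ_eq_sum_range (fun j => κ * (g j * f j) ^ 2) (n + 1)]
      apply Finset.sum_congr rfl
      intro i _
      ring
    rw [h1]
    have h2 : ∑ j ∈ range (n + 1), e j * (g j * f j) ^ 2
        ≤ ∑ j ∈ range (n + 1), κ * (g j * f j) ^ 2 := by
      apply Finset.sum_le_sum
      intro j hj
      by_cases hm : bidx A j ∈ I
      · exact mul_le_mul_of_nonneg_right (he j (Finset.mem_range.mp hj) hm) (sq_nonneg _)
      · have : g j = 0 := by simp only [hg]; rw [dif_neg hm]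
        rw [this]; simp
    have h3 : 0 ≤ ∑ j ∈ range n, b (n + 1) (j + 1) * (f j * f (j + 1)) * (g (j + 1) - g j) ^ 2 := by
      apply Finset.sum_nonneg
      intro j hj
      have hj' := Finset.mem_range.mp hj
      by_cases hm : j ∈ A
      · have hb := b_pos (n + 1) (j + 1) (by omega) (by omega)
        have := hA j hj' hm
        have h4 : 0 ≤ b (n + 1) (j + 1) * (f j * f (j + 1)) :=
          mul_nonneg hb.le this
        exact mul_nonneg h4 (sq_nonneg _)
      · have hgg : g (j + 1) = g j := by
          simp only [hg]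
          have := bidx_succ_of_not_mem A j hm
          simp only [this]
        rw [hgg]; simp
    linarith

/-- forward solution of the recurrence: pairs `(f (j-1), f j)` -/
noncomputable def solP (N : ℕ) (κ : ℝ) : ℕ → ℝ × ℝ
  | 0 => (0, 1)
  | j + 1 => ((solP N κ j).2, ((κ + a N j) * (solP N κ j).2 - b N j * (solP N κ j).1) / b N (j + 1))

/-- forward solution with `f 0 = 1` -/
noncomputable def sol (N : ℕ) (κ : ℝ) (j : ℕ) : ℝ := (solP N κ j).2

lemma sol_zero (N : ℕ) (κ : ℝ) : sol N κ 0 = 1 := rfl

lemma solP_fst (N : ℕ) (κ : ℝ) (j : ℕ) : (solP N κ (j + 1)).1 = sol N κ j := rfl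

lemma sol_rec (N : ℕ) (κ : ℝ) (j : ℕ) (hj : j + 1 < N) :
    b N (j + 1) * sol N κ (j + 1) + b N j * sol N κ (j - 1) = (κ + a N j) * sol N κ j := by
  have hb := (b_pos N (j + 1) (by omega) hj).ne'
  cases j with
  | zero =>
    have h1 : sol N κ (0 + 1) = ((κ + a N 0) * 1 - b N 0 * 0) / b N (0 + 1) := rfl
    rw [h1, sol_zero, b_zero]
    field_simp
    ring
  | succ m =>
    have h1 : sol N κ (m + 1 + 1) = ((κ + a N (m + 1)) * sol N κ (m + 1)
        - b N (m + 1) * sol N κ m) / b N (m + 1 + 1) := rfl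
    rw [h1]
    simp only [Nat.add_sub_cancel]
    field_simp
    ring

lemma sol_no_zeros (N : ℕ) (κ : ℝ) (j : ℕ) (hj : j + 1 < N) (h0 : sol N κ j = 0)
    (h1 : sol N κ (j + 1) = 0) : False := by
  induction j with
  | zero => rw [sol_zero] at h0; exact one_ne_zero h0
  | succ m ih =>
    have hr := sol_rec N κ (m + 1) hj
    rw [h0, h1] at hr
    simp only [Nat.add_sub_cancel] at hr
    have hb := b_pos N (m + 1) (by omega) (by omega)
    have : b N (m + 1) * sol N κ m = 0 := by linarith
    rcases mul_eq_zero.mp this with h | h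
    · exact absurd h hb.ne'
    · exact ih (by omega) h h0

/-- strict sign change edges -/
def SC (f : ℕ → ℝ) (j : ℕ) : Prop := (0 < f j ∧ f (j + 1) ≤ 0) ∨ (f j < 0 ∧ 0 ≤ f (j + 1))

lemma SC_mul {f : ℕ → ℝ} {j : ℕ} (h : SC f j) : f j * f (j + 1) ≤ 0 := by
  rcases h with ⟨h1, h2⟩ | ⟨h1, h2⟩
  · exact mul_nonpos_of_nonneg_of_nonpos h1.le h2
  · exact mul_nonpos_of_nonpos_of_nonneg h1.le h2

lemma not_SC_mul {f : ℕ → ℝ} {j : ℕ} (h : ¬ SC f j) : 0 ≤ f j * f (j + 1) := by
  unfold SC at h
  push Not at h
  obtain ⟨h1, h2⟩ := h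
  rcases lt_trichotomy (f j) 0 with hj | hj | hj
  · exact (mul_pos_of_neg_of_neg hj (h2 hj)).le
  · rw [hj]; simp
  · exact (mul_pos hj (h1 hj)).le

lemma not_SC_of_zero {f : ℕ → ℝ} {j : ℕ} (h : f j = 0) : ¬ SC f j := by
  rintro (⟨h1, _⟩ | ⟨h1, _⟩) <;> linarith

lemma SC_ne {f : ℕ → ℝ} {j : ℕ} (h : SC f j) : f j ≠ 0 := fun h0 => not_SC_of_zero h0 h

lemma zero_of_not_SC {f : ℕ → ℝ} {j : ℕ} (h : ¬ SC f j) (h1 : f (j + 1) = 0) : f j = 0 := by
  unfold SC at h
  push Not at h
  obtain ⟨h2, h3⟩ := h
  rw [h1] at h2 h3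
  by_contra hne
  rcases lt_or_gt_of_ne hne with hj | hj
  · exact lt_irrefl _ (h3 hj)
  · exact lt_irrefl _ (h2 hj)

open Classical in
/-- number of sign changes of the forward solution on `[0, M]` -/
noncomputable def nsc (N : ℕ) (κ : ℝ) (M : ℕ) : ℕ :=
  ((range M).filter (fun j => SC (sol N κ) j)).card

open Classical in
/-- Main counting theorem. -/
theorem count_window (N M : ℕ) (κ₁ κ₂ : ℝ) (h12 : κ₁ ≤ κ₂) (hM : M + 3 ≤ N) :
    (nsc N κ₁ M : ℤ) - (nsc N κ₂ M : ℤ) - 4
      ≤ ((Finset.univ.filter (fun k : Fin N => κ₁ ≤ kap N k ∧ kap N k ≤ κ₂)).card : ℤ) := by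
  obtain ⟨n, rfl⟩ : ∃ n, N = n + 1 := ⟨N - 1, by omega⟩
  set F1 : ℕ → ℝ := sol (n + 1) κ₁ with hF1
  set F2 : ℕ → ℝ := sol (n + 1) κ₂ with hF2
  -- piecewise solutions
  set f1 : ℕ → ℝ := fun j => if j ≤ M then F1 j else F2 j with hf1
  set e1 : ℕ → ℝ := fun j => if j ≤ M then κ₁ else κ₂ with he1
  set A1 : Finset ℕ := (range M).filter (fun j => SC F1 j)
    ∪ (Ico (M + 1) n).filter (fun j => SC F2 j) with hA1
  set A2 : Finset ℕ := (range M).filter (fun j => ¬ SC F2 j)
    ∪ (Ico (M + 1) n).filter (fun j => ¬ SC F2 j) with hA2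
  have hdis : Disjoint (range M) (Ico (M + 1) n) := by
    rw [Finset.disjoint_left]
    intro x hx hx2
    have h1 := Finset.mem_range.mp hx
    have h2 := (Finset.mem_Ico.mp hx2).1
    omega
  have hc1 : A1.card = ((range M).filter (fun j => SC F1 j)).card
      + ((Ico (M + 1) n).filter (fun j => SC F2 j)).card := by
    rw [hA1, Finset.card_union_of_disjoint]
    exact Finset.disjoint_filter_filter hdis
  have hc2 : A2.card = ((range M).filter (fun j => ¬ SC F2 j)).card
      + ((Ico (M + 1) n).filter (fun j => ¬ SC F2 j)).card := by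
    rw [hA2, Finset.card_union_of_disjoint]
    exact Finset.disjoint_filter_filter hdis
  have hcr : ((range M).filter (fun j => SC F2 j)).card
      + ((range M).filter (fun j => ¬ SC F2 j)).card = M := by
    have := Finset.card_filter_add_card_filter_not (s := range M) (fun j => SC F2 j)
    rw [Finset.card_range] at this
    exact this
  have hci : ((Ico (M + 1) n).filter (fun j => SC F2 j)).card
      + ((Ico (M + 1) n).filter (fun j => ¬ SC F2 j)).card = n - (M + 1) := by
    have := Finset.card_filter_add_card_filter_not (s := Ico (M + 1) n) (fun j => SC F2 j)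
    rw [Nat.card_Ico] at this
    exact this
  have hMA1 : M ∉ A1 := by
    intro h
    rw [hA1, Finset.mem_union, Finset.mem_filter, Finset.mem_filter, Finset.mem_range,
      Finset.mem_Ico] at h
    omega
  have hMA2 : M ∉ A2 := by
    intro h
    rw [hA2, Finset.mem_union, Finset.mem_filter, Finset.mem_filter, Finset.mem_range,
      Finset.mem_Ico] at h
    omega
  have hA1n : ∀ x ∈ A1, x < n := by
    intro x h
    rw [hA1, Finset.mem_union, Finset.mem_filter, Finset.mem_filter, Finset.mem_range,
      Finset.mem_Ico] at h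
    omega
  have hA2n : ∀ x ∈ A2, x < n := by
    intro x h
    rw [hA2, Finset.mem_union, Finset.mem_filter, Finset.mem_filter, Finset.mem_range,
      Finset.mem_Ico] at h
    omega
  -- index sets
  set I1 : Finset ℕ := ((range (A1.card + 1)).erase (bidx A1 M)).erase A1.card with hI1
  set I2 : Finset ℕ := ((range (A2.card + 1)).erase (bidx A2 M)).erase A2.card with hI2
  have hI1c : A1.card ≤ I1.card + 1 := by
    have e1 := Finset.pred_card_le_card_erase (s := range (A1.card + 1)) (a := bidx A1 M)
    have e2 := Finset.pred_card_le_card_erase (s := (range (A1.card + 1)).erase (bidx A1 M))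
      (a := A1.card)
    rw [← hI1] at e2
    rw [Finset.card_range] at e1
    omega
  have hI2c : A2.card ≤ I2.card + 1 := by
    have e1 := Finset.pred_card_le_card_erase (s := range (A2.card + 1)) (a := bidx A2 M)
    have e2 := Finset.pred_card_le_card_erase (s := (range (A2.card + 1)).erase (bidx A2 M))
      (a := A2.card)
    rw [← hI2] at e2
    rw [Finset.card_range] at e1
    omega
  have key1 : I1.card ≤ (Finset.univ.filter (fun k => κ₁ ≤ kap (n + 1) k)).card := by
    apply block_count_ge n f1 e1 κ₁ A1 I1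
    · intro j hj hm
      rw [hI1, Finset.mem_erase, Finset.mem_erase] at hm
      have hjM : j ≠ M := by
        intro h; rw [h] at hm; exact hm.2.1 rfl
      have hjM1 : j ≠ M + 1 := by
        intro h
        rw [h, bidx_succ_of_not_mem A1 M hMA1] at hm
        exact hm.2.1 rfl
      have hjn : j ≠ n := by
        intro h
        rw [h, bidx_eq_card A1 n hA1n] at hm
        exact hm.1 rfl
      rcases Nat.lt_or_gt_of_ne hjM with hlt | hgt
      · simp only [hf1, he1]
        rw [if_pos (by omega), if_pos (by omega), if_pos (by omega), if_pos (by omega)]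
        exact sol_rec (n + 1) κ₁ j (by omega)
      · simp only [hf1, he1]
        rw [if_neg (by omega), if_neg (by omega), if_neg (by omega), if_neg (by omega)]
        exact sol_rec (n + 1) κ₂ j (by omega)
    · intro j _ _
      simp only [he1]
      split_ifs
      · exact le_refl _
      · exact h12
    · intro j hj hm
      rw [hA1, Finset.mem_union, Finset.mem_filter, Finset.mem_filter, Finset.mem_range,
        Finset.mem_Ico] at hm
      rcases hm with ⟨h1, h2⟩ | ⟨h1, h2⟩
      · simp only [hf1]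
        rw [if_pos (by omega), if_pos (by omega)]
        exact SC_mul h2
      · simp only [hf1]
        rw [if_neg (by omega), if_neg (by omega)]
        exact SC_mul h2
    · intro i hi
      rw [hI1, Finset.mem_erase, Finset.mem_erase, Finset.mem_range] at hi
      obtain ⟨hi1, hi2, hi3⟩ := hi
      by_cases hi0 : i = 0
      · refine ⟨0, by omega, ?_, ?_⟩
        · rw [bidx_zero, hi0]
        · simp only [hf1]
          rw [if_pos (by omega), hF1, sol_zero]
          exact one_ne_zero
      · obtain ⟨x, hxA, hx⟩ := exists_block_start A1 i (by omega) (by omega)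
        have hxA' := hxA
        rw [hA1, Finset.mem_union, Finset.mem_filter, Finset.mem_filter, Finset.mem_range,
          Finset.mem_Ico] at hxA'
        have hxn := hA1n x hxA
        by_cases hz : f1 (x + 1) = 0
        · have hx1A : x + 1 ∉ A1 := by
            intro h
            rw [hA1, Finset.mem_union, Finset.mem_filter, Finset.mem_filter, Finset.mem_range,
              Finset.mem_Ico] at h
            rcases h with ⟨h1, h2⟩ | ⟨h1, h2⟩
            · simp only [hf1] at hz
              rw [if_pos (by omega)] at hz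
              exact SC_ne h2 hz
            · simp only [hf1] at hz
              rw [if_neg (by omega)] at hz
              exact SC_ne h2 hz
          have hx2 : bidx A1 (x + 1 + 1) = i := by
            rw [bidx_succ_of_not_mem A1 (x + 1) hx1A, hx]
          rcases hxA' with ⟨h1, h2⟩ | ⟨h1, h2⟩
          · have hxM : x + 1 ≠ M := by
              intro h
              rw [h] at hx
              exact hi2 hx.symm
            refine ⟨x + 1 + 1, by omega, hx2, ?_⟩
            simp only [hf1] at hz ⊢
            rw [if_pos (by omega)] at hz ⊢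
            intro h3
            exact sol_no_zeros (n + 1) κ₁ (x + 1) (by omega) hz h3
          · have hxn1 : x + 1 ≠ n := by
              intro h
              rw [h, bidx_eq_card A1 n hA1n] at hx
              exact hi1 hx.symm
            refine ⟨x + 1 + 1, by omega, hx2, ?_⟩
            simp only [hf1] at hz ⊢
            rw [if_neg (by omega)] at hz ⊢
            intro h3
            exact sol_no_zeros (n + 1) κ₂ (x + 1) (by omega) hz h3
        · exact ⟨x + 1, by omega, hx, hz⟩
  have key2 : I2.card ≤ (Finset.univ.filter (fun k => kap (n + 1) k ≤ κ₂)).card := by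
    apply block_count_le n F2 (fun _ => κ₂) κ₂ A2 I2
    · intro j hj hm
      rw [hI2, Finset.mem_erase, Finset.mem_erase] at hm
      have hjn : j ≠ n := by
        intro h
        rw [h, bidx_eq_card A2 n hA2n] at hm
        exact hm.1 rfl
      exact sol_rec (n + 1) κ₂ j (by omega)
    · intro j _ _
      exact le_refl _
    · intro j hj hm
      rw [hA2, Finset.mem_union, Finset.mem_filter, Finset.mem_filter, Finset.mem_range,
        Finset.mem_Ico] at hm
      rcases hm with ⟨h1, h2⟩ | ⟨h1, h2⟩
      · exact not_SC_mul h2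
      · exact not_SC_mul h2
    · intro i hi
      rw [hI2, Finset.mem_erase, Finset.mem_erase, Finset.mem_range] at hi
      obtain ⟨hi1, hi2, hi3⟩ := hi
      by_cases hi0 : i = 0
      · refine ⟨0, by omega, ?_, ?_⟩
        · rw [bidx_zero, hi0]
        · rw [hF2, sol_zero]
          exact one_ne_zero
      · obtain ⟨x, hxA, hx⟩ := exists_block_start A2 i (by omega) (by omega)
        have hxn := hA2n x hxA
        refine ⟨x + 1, by omega, hx, ?_⟩
        intro hz
        rw [hA2, Finset.mem_union, Finset.mem_filter, Finset.mem_filter, Finset.mem_range,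
          Finset.mem_Ico] at hxA
        have hns : ¬ SC F2 x := by
          rcases hxA with ⟨h1, h2⟩ | ⟨h1, h2⟩
          · exact h2
          · exact h2
        exact sol_no_zeros (n + 1) κ₂ x (by omega) (zero_of_not_SC hns hz) hz
  -- combine
  have hun : (Finset.univ.filter (fun k => κ₁ ≤ kap (n + 1) k)).card
      + (Finset.univ.filter (fun k => kap (n + 1) k ≤ κ₂)).card
      ≤ (n + 1) + (Finset.univ.filter
        (fun k : Fin (n + 1) => κ₁ ≤ kap (n + 1) k ∧ kap (n + 1) k ≤ κ₂)).card := by
    have h1 := Finset.card_union_add_card_inter (Finset.univ.filter (fun k => κ₁ ≤ kap (n + 1) k))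
      (Finset.univ.filter (fun k => kap (n + 1) k ≤ κ₂))
    have h2 : (Finset.univ.filter (fun k => κ₁ ≤ kap (n + 1) k)
      ∪ Finset.univ.filter (fun k => kap (n + 1) k ≤ κ₂)).card ≤ n + 1 := by
      have := Finset.card_le_univ (Finset.univ.filter (fun k => κ₁ ≤ kap (n + 1) k)
        ∪ Finset.univ.filter (fun k => kap (n + 1) k ≤ κ₂))
      rw [Fintype.card_fin] at this
      exact this
    have h3 : Finset.univ.filter (fun k => κ₁ ≤ kap (n + 1) k)
      ∩ Finset.univ.filter (fun k => kap (n + 1) k ≤ κ₂)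
        = Finset.univ.filter (fun k : Fin (n + 1) => κ₁ ≤ kap (n + 1) k ∧ kap (n + 1) k ≤ κ₂) := by
      ext k
      simp
    rw [h3] at h1
    omega
  have hn1 : nsc (n + 1) κ₁ M = ((range M).filter (fun j => SC F1 j)).card := rfl
  have hn2 : nsc (n + 1) κ₂ M = ((range M).filter (fun j => SC F2 j)).card := rfl
  rw [hn1, hn2]
  omega

end Pool.Agent.H13.Pascal
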