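import Pool.Agent.H13.Pascal.Defs

/-!
# Riemann sums on the logarithmic scale and Abel summation
-/

namespace Pool.Agent.H13.Pascal

open Finset

lemma log_succ_sub (m : ℕ) (hm : 1 ≤ m) :
    1 / ((m : ℝ) + 1) ≤ Real.log ((m + 1 : ℕ) : ℝ) - Real.log (m : ℝ) ∧
      Real.log ((m + 1 : ℕ) : ℝ) - Real.log (m : ℝ) ≤ 1 / (m : ℝ) := by
  have h0 : (0 : ℝ) < m := by exact_mod_cast hm
  have h1 : (0 : ℝ) < ((m + 1 : ℕ) : ℝ) := by positivity
  rw [← Real.log_div h1.ne' h0.ne']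
  push_cast
  constructor
  · have h2 := Real.one_sub_inv_le_log_of_pos (x := ((m : ℝ) + 1) / m) (by positivity)
    have h3 : 1 - (((m : ℝ) + 1) / m)⁻¹ = 1 / ((m : ℝ) + 1) := by
      field_simp
      ring
    linarith
  · have h2 := Real.log_le_sub_one_of_pos (x := ((m : ℝ) + 1) / m) (by positivity)
    have h3 : ((m : ℝ) + 1) / m - 1 = 1 / (m : ℝ) := by
      field_simp
      ring
    linarith

lemma riem_step (F : ℝ → ℂ) (M : ℝ) (hF : ∀ s, ‖F s‖ ≤ M) (hF' : ∀ s t, ‖F s - F t‖ ≤ M * |s - t|)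
    (hc : Continuous F) (m : ℕ) (hm : 1 ≤ m) :
    ‖(1 / ((m + 1 : ℕ) : ℂ)) * F (Real.log ((m + 1 : ℕ) : ℝ)) -
      ∫ t in (Real.log (m : ℝ))..(Real.log ((m + 1 : ℕ) : ℝ)), F t‖
      ≤ 2 * M * (1 / (m : ℝ) - 1 / ((m : ℝ) + 1)) := by
  have h0 : (0 : ℝ) < m := by exact_mod_cast hm
  have hM : 0 ≤ M := (norm_nonneg _).trans (hF 0)
  obtain ⟨hl, hu⟩ := log_succ_sub m hm
  set x := Real.log (m : ℝ) with hx
  set y := Real.log ((m + 1 : ℕ) : ℝ) with hy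
  have hxy : x ≤ y := by
    have : 0 < 1 / ((m : ℝ) + 1) := by positivity
    linarith
  have e1 : (1 / ((m + 1 : ℕ) : ℂ)) * F y - ∫ t in x..y, F t =
      (∫ t in x..y, (F y - F t)) - ((y - x - 1 / ((m : ℝ) + 1) : ℝ) : ℂ) * F y := by
    rw [intervalIntegral.integral_sub (by simp) (hc.intervalIntegrable _ _)]
    simp only [intervalIntegral.integral_const, Complex.real_smul]
    push_cast
    ring
  have e2 : ‖∫ t in x..y, (F y - F t)‖ ≤ M * ((y - x) ^ 2 / 2) := by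
    have h1 : ‖∫ t in x..y, (F y - F t)‖ ≤ ∫ t in x..y, M * (y - t) := by
      refine intervalIntegral.norm_integral_le_of_norm_le hxy ?_ (by
        apply Continuous.intervalIntegrable; fun_prop)
      filter_upwards with t ht
      refine (hF' y t).trans ?_
      rw [abs_of_nonneg (by linarith [ht.2])]
    have h2 : ∫ t in x..y, M * (y - t) = M * ((y - x) ^ 2 / 2) := by
      rw [intervalIntegral.integral_const_mul]
      congr 1
      rw [intervalIntegral.integral_sub (by simp) (by simp)]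
      simp
      ring
    rw [← h2]
    exact h1
  have e3 : ‖((y - x - 1 / ((m : ℝ) + 1) : ℝ) : ℂ) * F y‖ ≤
      (1 / (m : ℝ) - 1 / ((m : ℝ) + 1)) * M := by
    rw [norm_mul, Complex.norm_real, Real.norm_eq_abs, abs_of_nonneg (by linarith)]
    exact mul_le_mul (by linarith) (hF y) (norm_nonneg _) (by
      rw [sub_nonneg]
      exact one_div_le_one_div_of_le h0 (by linarith))
  rw [e1]
  refine (norm_sub_le _ _).trans ((add_le_add e2 e3).trans ?_)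
  have e4 : (y - x) ^ 2 ≤ (1 / (m : ℝ)) ^ 2 := by
    apply pow_le_pow_left₀ (by linarith) hu
  have e5 : (1 / (m : ℝ)) ^ 2 / 2 ≤ 1 / (m : ℝ) - 1 / ((m : ℝ) + 1) := by
    have h1 : (1 : ℝ) ≤ m := by exact_mod_cast hm
    rw [div_sub_div _ _ h0.ne' (by positivity), one_div, inv_pow, inv_eq_one_div, div_div,
      div_le_div_iff₀ (by positivity) (by positivity)]
    nlinarith
  have e6 := mul_le_mul_of_nonneg_left (e4.trans' le_rfl) hM
  have e7 := mul_le_mul_of_nonneg_left e5 hM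
  nlinarith

theorem riem (F : ℝ → ℂ) (M : ℝ) (hF : ∀ s, ‖F s‖ ≤ M) (hF' : ∀ s t, ‖F s - F t‖ ≤ M * |s - t|)
    (p q : ℕ) (hp : 1 ≤ p) (hpq : p ≤ q) :
    ‖(∑ j ∈ Finset.Ioc p q, (1 / (j : ℂ)) * F (Real.log j)) - ∫ t in (Real.log p)..(Real.log q), F t‖
      ≤ 2 * M / p := by
  have hM : 0 ≤ M := (norm_nonneg _).trans (hF 0)
  have hc : Continuous F := by
    have : LipschitzWith (Real.toNNReal M) F := by
      refine LipschitzWith.of_dist_le_mul fun s t ↦ ?_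
      rw [dist_eq_norm, Real.dist_eq, Real.coe_toNNReal _ hM]
      exact hF' s t
    exact this.continuous
  have key : ‖(∑ j ∈ Finset.Ioc p q, (1 / (j : ℂ)) * F (Real.log j)) -
      ∫ t in (Real.log p)..(Real.log q), F t‖ ≤ 2 * M * (1 / (p : ℝ) - 1 / (q : ℝ)) := by
    induction q, hpq using Nat.le_induction with
    | base => simp
    | succ m hm ih =>
      rw [← Finset.insert_Ioc_right_eq_Ioc_add_one hm, Finset.sum_insert (by simp),
        ← intervalIntegral.integral_add_adjacent_intervals (b := Real.log (m : ℝ))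
          (hc.intervalIntegrable _ _) (hc.intervalIntegrable _ _)]
      have h1 := riem_step F M hF hF' hc m (hp.trans hm)
      have h2 : ∀ a b c d : ℂ, a + b - (c + d) = (b - c) + (a - d) := by intros; ring
      rw [h2]
      refine (norm_add_le _ _).trans ((add_le_add ih h1).trans (le_of_eq ?_))
      push_cast
      ring
  have hp0 : (0 : ℝ) < p := by exact_mod_cast hp
  refine key.trans ?_
  have h3 : 0 ≤ 1 / (q : ℝ) := by positivity
  have h4 := mul_nonneg (mul_nonneg zero_le_two hM) h3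
  have h5 : 2 * M / p = 2 * M * (1 / (p : ℝ)) := by ring
  rw [h5, mul_sub]
  linarith

/-- unimodular local phases: `zz N j = exp(i p_j)`, `cos p_j = (1/2-u^2)/(1-u^2)`, `u=j/N` -/
noncomputable def zz (N j : ℕ) : ℂ :=
  ((((1 / 2 : ℝ) - ((j : ℝ) / N) ^ 2) / (1 - ((j : ℝ) / N) ^ 2) : ℝ) : ℂ)
    + ((Real.sqrt (3 / 4 - ((j : ℝ) / N) ^ 2) / (1 - ((j : ℝ) / N) ^ 2) : ℝ) : ℂ) * Complex.I

/-- accumulated phase -/
noncomputable def EE (N j : ℕ) : ℂ := ∏ k ∈ Finset.Icc 1 j, zz N k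

/-- real part of the local phase as a function of `v = u^2` -/
noncomputable def cv (v : ℝ) : ℝ := (1 / 2 - v) / (1 - v)

/-- imaginary part of the local phase as a function of `v = u^2` -/
noncomputable def sv (v : ℝ) : ℝ := Real.sqrt (3 / 4 - v) / (1 - v)

lemma zz_eq (N j : ℕ) :
    zz N j = ((cv (((j : ℝ) / N) ^ 2) : ℝ) : ℂ) + ((sv (((j : ℝ) / N) ^ 2) : ℝ) : ℂ) * Complex.I :=
  rfl

lemma cv_sq_add (v : ℝ) (hv : v ≤ 3 / 4) : cv v ^ 2 + sv v ^ 2 = 1 := by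
  have h1 : (1 - v) ≠ 0 := by
    intro h
    linarith
  unfold cv sv
  rw [div_pow, div_pow, Real.sq_sqrt (by linarith), ← add_div, div_eq_one_iff_eq (pow_ne_zero 2 h1)]
  ring

lemma norm_cs (v : ℝ) (hv : v ≤ 3 / 4) :
    ‖((cv v : ℝ) : ℂ) + ((sv v : ℝ) : ℂ) * Complex.I‖ = 1 := by
  have h1 := cv_sq_add v hv
  have h2 : ‖((cv v : ℝ) : ℂ) + ((sv v : ℝ) : ℂ) * Complex.I‖ ^ 2 = 1 := by
    rw [← Complex.normSq_eq_norm_sq, Complex.normSq_add_mul_I, h1]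
  have h3 := norm_nonneg (((cv v : ℝ) : ℂ) + ((sv v : ℝ) : ℂ) * Complex.I)
  nlinarith

lemma u_sq_le (N j : ℕ) (h : 2 * j ≤ N) (hN : 1 ≤ N) : ((j : ℝ) / N) ^ 2 ≤ 3 / 4 := by
  have h0 : (0 : ℝ) < N := by exact_mod_cast hN
  have h1 : (j : ℝ) / N ≤ 1 / 2 := by
    rw [div_le_iff₀ h0]
    have : (2 : ℝ) * j ≤ N := by exact_mod_cast h
    linarith
  have h2 : 0 ≤ (j : ℝ) / N := by positivity
  nlinarith

theorem norm_zz (N j : ℕ) (h : 2 * j ≤ N) (hN : 1 ≤ N) : ‖zz N j‖ = 1 := by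
  rw [zz_eq]
  exact norm_cs _ (u_sq_le N j h hN)

lemma norm_EE (N j : ℕ) (h : 2 * j ≤ N) (hN : 1 ≤ N) : ‖EE N j‖ = 1 := by
  unfold EE
  rw [norm_prod]
  refine Finset.prod_eq_one fun k hk ↦ ?_
  have := (Finset.mem_Icc.1 hk).2
  exact norm_zz N k (by omega) hN

lemma EE_succ (N j : ℕ) : EE N (j + 1) = EE N j * zz N (j + 1) := by
  unfold EE
  rw [Finset.prod_Icc_succ_top (by omega)]

/-- `|z^2 - 1| ≥ 1` -/
lemma one_le_zsq (v : ℝ) (hv0 : 0 ≤ v) (hv : v ≤ 1 / 2) :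
    1 ≤ ‖(((cv v : ℝ) : ℂ) + ((sv v : ℝ) : ℂ) * Complex.I) ^ 2 - 1‖ := by
  have h1 := cv_sq_add v (by linarith)
  have h2 : (((cv v : ℝ) : ℂ) + ((sv v : ℝ) : ℂ) * Complex.I) ^ 2 - 1 =
      ((-2 * sv v ^ 2 : ℝ) : ℂ) + ((2 * cv v * sv v : ℝ) : ℂ) * Complex.I := by
    have h3 : (1 : ℂ) = ((cv v ^ 2 + sv v ^ 2 : ℝ) : ℂ) := by rw [h1]; simp
    rw [h3]
    push_cast
    linear_combination ((sv v : ℝ) : ℂ) ^ 2 * Complex.I_sq
  have h4 : ‖(((cv v : ℝ) : ℂ) + ((sv v : ℝ) : ℂ) * Complex.I) ^ 2 - 1‖ ^ 2 = 4 * sv v ^ 2 := by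
    rw [h2, ← Complex.normSq_eq_norm_sq, Complex.normSq_add_mul_I]
    have : cv v ^ 2 = 1 - sv v ^ 2 := by linarith
    calc (-2 * sv v ^ 2) ^ 2 + (2 * cv v * sv v) ^ 2
        = 4 * sv v ^ 4 + 4 * cv v ^ 2 * sv v ^ 2 := by ring
      _ = 4 * sv v ^ 2 := by rw [this]; ring
  have h5 : 1 / 4 ≤ sv v ^ 2 := by
    unfold sv
    rw [div_pow, Real.sq_sqrt (by linarith), le_div_iff₀ (by nlinarith)]
    nlinarith
  nlinarith [norm_nonneg ((((cv v : ℝ) : ℂ) + ((sv v : ℝ) : ℂ) * Complex.I) ^ 2 - 1)]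

/-- Lipschitz bound for the local phase -/
lemma lip_z (v w : ℝ) (hv0 : 0 ≤ v) (hvw : v ≤ w) (hw : w ≤ 1 / 2) :
    ‖(((cv v : ℝ) : ℂ) + ((sv v : ℝ) : ℂ) * Complex.I) -
      (((cv w : ℝ) : ℂ) + ((sv w : ℝ) : ℂ) * Complex.I)‖ ≤ 6 * (w - v) := by
  have hc : |cv v - cv w| ≤ 2 * (w - v) := by
    have e : cv v - cv w = (w - v) / (2 * (1 - v) * (1 - w)) := by
      unfold cv
      have h1 : (1 - v) ≠ 0 := by intro h; linarith
      have h2 : (1 - w) ≠ 0 := by intro h; linarith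
      field_simp
      ring
    have hpos : 0 < 2 * (1 - v) * (1 - w) := by
      have : 0 < 1 - v := by linarith
      have : 0 < 1 - w := by linarith
      positivity
    rw [e, abs_of_nonneg (div_nonneg (by linarith) hpos.le), div_le_iff₀ hpos]
    have h3 : 1 ≤ 2 * (2 * (1 - v) * (1 - w)) := by nlinarith
    nlinarith
  have hs : ∀ x : ℝ, 0 ≤ x → x ≤ 1 / 2 → 1 / 2 ≤ sv x := by
    intro x hx0 hx
    unfold sv
    have h1 : 1 / 2 ≤ Real.sqrt (3 / 4 - x) := by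
      apply Real.le_sqrt_of_sq_le
      linarith
    rw [le_div_iff₀ (by linarith)]
    nlinarith
  have hs2 : |sv v - sv w| ≤ 2 * |cv v - cv w| := by
    have h1 := cv_sq_add v (by linarith)
    have h2 := cv_sq_add w (by linarith)
    have h3 : (sv v - sv w) * (sv v + sv w) = -((cv v - cv w) * (cv v + cv w)) := by
      ring_nf
      linarith
    have h4 := hs v hv0 (by linarith)
    have h5 := hs w (by linarith) hw
    have h6 : |sv v - sv w| * (sv v + sv w) = |cv v - cv w| * |cv v + cv w| := by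
      rw [← abs_of_nonneg (a := sv v + sv w) (by linarith), ← abs_mul, h3, abs_neg, abs_mul]
    have h7 : |cv v + cv w| ≤ 2 := by
      have h8 : |cv v| ≤ 1 := by
        rw [← sq_le_one_iff_abs_le_one]
        nlinarith [sq_nonneg (sv v)]
      have h9 : |cv w| ≤ 1 := by
        rw [← sq_le_one_iff_abs_le_one]
        nlinarith [sq_nonneg (sv w)]
      exact (abs_add_le _ _).trans (by linarith)
    have h10 : |sv v - sv w| * 1 ≤ |sv v - sv w| * (sv v + sv w) :=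
      mul_le_mul_of_nonneg_left (by linarith) (abs_nonneg _)
    have h11 : |cv v - cv w| * |cv v + cv w| ≤ |cv v - cv w| * 2 :=
      mul_le_mul_of_nonneg_left h7 (abs_nonneg _)
    linarith
  have e : (((cv v : ℝ) : ℂ) + ((sv v : ℝ) : ℂ) * Complex.I) -
      (((cv w : ℝ) : ℂ) + ((sv w : ℝ) : ℂ) * Complex.I) =
      ((cv v - cv w : ℝ) : ℂ) + ((sv v - sv w : ℝ) : ℂ) * Complex.I := by
    push_cast
    ring
  rw [e]
  refine (norm_add_le _ _).trans ?_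
  rw [norm_mul, Complex.norm_I, mul_one, Complex.norm_real, Complex.norm_real, Real.norm_eq_abs,
    Real.norm_eq_abs]
  linarith

lemma zz_lip (N j : ℕ) (hN : 1 ≤ N) (hj : 1 ≤ j) (h : 4 * (j + 1) ≤ N) :
    ‖zz N (j + 1) ^ 2 - zz N j ^ 2‖ ≤ 12 / (j + 1 : ℝ) := by
  have h0 : (0 : ℝ) < N := by exact_mod_cast hN
  have hj0 : (0 : ℝ) < j := by exact_mod_cast hj
  have hjN : 4 * ((j : ℝ) + 1) ≤ N := by exact_mod_cast h
  have h1 : ‖zz N (j + 1)‖ = 1 := norm_zz N _ (by omega) hN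
  have h2 : ‖zz N j‖ = 1 := norm_zz N _ (by omega) hN
  have h3 : zz N (j + 1) ^ 2 - zz N j ^ 2 = (zz N (j + 1) + zz N j) * (zz N (j + 1) - zz N j) := by
    ring
  have hv : ((j : ℝ) / N) ^ 2 ≤ (((j + 1 : ℕ) : ℝ) / N) ^ 2 := by
    apply pow_le_pow_left₀ (by positivity)
    apply div_le_div_of_nonneg_right _ h0.le
    push_cast
    linarith
  have hw : (((j + 1 : ℕ) : ℝ) / N) ^ 2 ≤ 1 / 2 := by
    rw [div_pow, div_le_iff₀ (by positivity)]
    push_cast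
    nlinarith
  have h4 := lip_z _ _ (sq_nonneg ((j : ℝ) / N)) hv hw
  rw [← zz_eq, ← zz_eq, norm_sub_rev] at h4
  have h5 : (((j + 1 : ℕ) : ℝ) / N) ^ 2 - ((j : ℝ) / N) ^ 2 ≤ 1 / (j + 1 : ℝ) := by
    rw [div_pow, div_pow, ← sub_div, div_le_div_iff₀ (by positivity) (by positivity)]
    push_cast
    nlinarith
  rw [h3, norm_mul]
  have h6 : ‖zz N (j + 1) + zz N j‖ ≤ 2 := by
    refine (norm_add_le _ _).trans ?_
    rw [h1, h2]
    norm_num
  calc ‖zz N (j + 1) + zz N j‖ * ‖zz N (j + 1) - zz N j‖ ≤ 2 * (6 * (1 / (j + 1 : ℝ))) := by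
        apply mul_le_mul h6 _ (norm_nonneg _) (by norm_num)
        linarith
    _ = 12 / (j + 1 : ℝ) := by ring

/-- the smooth amplitude -/
noncomputable def al (ξ : ℝ) (j : ℕ) : ℂ :=
  (1 / (j : ℂ)) * Complex.exp ((ξ * Real.log j : ℝ) * Complex.I)

lemma norm_al (ξ : ℝ) (j : ℕ) : ‖al ξ j‖ = 1 / (j : ℝ) := by
  unfold al
  rw [norm_mul, Complex.norm_exp_ofReal_mul_I, mul_one, norm_div, norm_one, Complex.norm_natCast]

lemma al_lip (ξ : ℝ) (j : ℕ) (hj : 1 ≤ j) :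
    ‖al ξ (j + 1) - al ξ j‖ ≤ (1 + 2 * |ξ|) * (1 / (j : ℝ) - 1 / ((j : ℝ) + 1)) := by
  have hj0 : (0 : ℝ) < j := by exact_mod_cast hj
  have hj1 : (1 : ℝ) ≤ j := by exact_mod_cast hj
  have hd : 0 ≤ 1 / (j : ℝ) - 1 / ((j : ℝ) + 1) := by
    rw [sub_nonneg]
    exact one_div_le_one_div_of_le hj0 (by linarith)
  set x := Complex.exp ((ξ * Real.log ((j + 1 : ℕ) : ℝ) : ℝ) * Complex.I) with hx
  set y := Complex.exp ((ξ * Real.log (j : ℝ) : ℝ) * Complex.I) with hy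
  have e : al ξ (j + 1) - al ξ j =
      -(((1 / (j : ℝ) - 1 / ((j : ℝ) + 1) : ℝ) : ℂ) * x) + (1 / (j : ℂ)) * (x - y) := by
    unfold al
    rw [← hx, ← hy]
    push_cast
    ring
  have hxn : ‖x‖ = 1 := Complex.norm_exp_ofReal_mul_I _
  have hxy : ‖x - y‖ ≤ |ξ| * (1 / (j : ℝ)) := by
    have h1 : x - y = y * (Complex.exp (Complex.I *
        ((ξ * (Real.log ((j + 1 : ℕ) : ℝ) - Real.log (j : ℝ)) : ℝ) : ℂ)) - 1) := by
      rw [mul_sub, mul_one, hy, ← Complex.exp_add, hx]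
      congr 2
      push_cast
      ring
    rw [h1, norm_mul, Complex.norm_exp_ofReal_mul_I, one_mul]
    refine (Real.norm_exp_I_mul_ofReal_sub_one_le (x := _)).trans ?_
    rw [Real.norm_eq_abs, abs_mul]
    apply mul_le_mul_of_nonneg_left _ (abs_nonneg _)
    obtain ⟨h2, h3⟩ := log_succ_sub j hj
    rw [abs_of_nonneg (h2.trans' (by positivity))]
    exact h3
  rw [e]
  refine (norm_add_le _ _).trans ?_
  rw [norm_neg, norm_mul, hxn, mul_one, Complex.norm_real, Real.norm_eq_abs, abs_of_nonneg hd,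
    norm_mul, norm_div, norm_one, Complex.norm_natCast]
  have h4 : (1 / (j : ℝ)) * (1 / (j : ℝ)) ≤ 2 * (1 / (j : ℝ) - 1 / ((j : ℝ) + 1)) := by
    rw [div_sub_div _ _ hj0.ne' (by positivity), div_mul_div_comm, mul_div_assoc',
      div_le_div_iff₀ (by positivity) (by positivity)]
    nlinarith
  have h5 : (1 / (j : ℝ)) * ‖x - y‖ ≤ (1 / (j : ℝ)) * (|ξ| * (1 / (j : ℝ))) :=
    mul_le_mul_of_nonneg_left hxy (by positivity)
  have h6 : |ξ| * ((1 / (j : ℝ)) * (1 / (j : ℝ))) ≤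
      |ξ| * (2 * (1 / (j : ℝ) - 1 / ((j : ℝ) + 1))) :=
    mul_le_mul_of_nonneg_left h4 (abs_nonneg _)
  nlinarith

/-- the amplitude divided by `z_{j+1}^2 - 1` -/
noncomputable def be (ξ : ℝ) (N j : ℕ) : ℂ := al ξ j / (zz N (j + 1) ^ 2 - 1)

lemma one_le_zz (N j : ℕ) (hN : 1 ≤ N) (h : 2 * j ≤ N) : 1 ≤ ‖zz N j ^ 2 - 1‖ := by
  have h0 : (0 : ℝ) < N := by exact_mod_cast hN
  have h1 : (2 : ℝ) * j ≤ N := by exact_mod_cast h
  rw [zz_eq]
  apply one_le_zsq _ (sq_nonneg _)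
  rw [div_pow, div_le_iff₀ (by positivity)]
  nlinarith

lemma norm_be_le (ξ : ℝ) (N j : ℕ) (hN : 1 ≤ N) (h : 2 * (j + 1) ≤ N) :
    ‖be ξ N j‖ ≤ 1 / (j : ℝ) := by
  unfold be
  rw [norm_div, norm_al]
  exact div_le_self (by positivity) (one_le_zz N (j + 1) hN h)

lemma be_lip (ξ : ℝ) (N j : ℕ) (hN : 1 ≤ N) (hj : 1 ≤ j) (h : 4 * (j + 2) ≤ N) :
    ‖be ξ N (j + 1) - be ξ N j‖ ≤ (13 + 2 * |ξ|) * (1 / (j : ℝ) - 1 / ((j : ℝ) + 1)) := by
  have hj0 : (0 : ℝ) < j := by exact_mod_cast hj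
  have hd : 0 ≤ 1 / (j : ℝ) - 1 / ((j : ℝ) + 1) := by
    rw [sub_nonneg]
    exact one_div_le_one_div_of_le hj0 (by linarith)
  have hX := one_le_zz N (j + 2) hN (by omega)
  have hY := one_le_zz N (j + 1) hN (by omega)
  set X := zz N (j + 2) ^ 2 - 1 with hXd
  set Y := zz N (j + 1) ^ 2 - 1 with hYd
  have hX0 : X ≠ 0 := by
    intro h; rw [h, norm_zero] at hX; linarith
  have hY0 : Y ≠ 0 := by
    intro h; rw [h, norm_zero] at hY; linarith
  have e : be ξ N (j + 1) - be ξ N j =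
      (al ξ (j + 1) - al ξ j) / X + al ξ j * ((Y - X) / (X * Y)) := by
    unfold be
    rw [← hYd, show j + 1 + 1 = j + 2 from rfl, ← hXd]
    field_simp
    ring
  have h1 : ‖(al ξ (j + 1) - al ξ j) / X‖ ≤
      (1 + 2 * |ξ|) * (1 / (j : ℝ) - 1 / ((j : ℝ) + 1)) := by
    rw [norm_div]
    exact (div_le_self (norm_nonneg _) hX).trans (al_lip ξ j hj)
  have h2 : ‖al ξ j * ((Y - X) / (X * Y))‖ ≤ 12 * (1 / (j : ℝ) - 1 / ((j : ℝ) + 1)) := by
    rw [norm_mul, norm_al, norm_div, norm_mul]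
    have h3 : ‖Y - X‖ ≤ 12 / ((j : ℝ) + 1) := by
      have h4 := zz_lip N (j + 1) hN (by omega) (by omega)
      have h5 : Y - X = -(zz N (j + 1 + 1) ^ 2 - zz N (j + 1) ^ 2) := by
        rw [hXd, hYd]; ring
      rw [h5, norm_neg]
      refine h4.trans ?_
      push_cast
      apply div_le_div_of_nonneg_left (by norm_num) (by positivity)
      linarith
    have h6 : ‖Y - X‖ / (‖X‖ * ‖Y‖) ≤ 12 / ((j : ℝ) + 1) :=
      (div_le_self (norm_nonneg _) (one_le_mul_of_one_le_of_one_le hX hY)).trans h3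
    have h7 : 12 * (1 / (j : ℝ) - 1 / ((j : ℝ) + 1)) = 1 / (j : ℝ) * (12 / ((j : ℝ) + 1)) := by
      field_simp
      ring
    rw [h7]
    exact mul_le_mul_of_nonneg_left h6 (by positivity)
  rw [e]
  refine (norm_add_le _ _).trans ((add_le_add h1 h2).trans (le_of_eq ?_))
  ring

lemma abel (ξ : ℝ) (N p q : ℕ) (hN : 1 ≤ N) (hpq : p + 1 ≤ q) (h : 4 * q + 4 ≤ N) :
    ‖(∑ j ∈ Finset.Ioc p q, (EE N j) ^ 2 * al ξ j) - EE N (q + 1) ^ 2 * be ξ N q +
      EE N (p + 1) ^ 2 * be ξ N (p + 1)‖ ≤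
      (13 + 2 * |ξ|) * (1 / ((p : ℝ) + 1) - 1 / (q : ℝ)) := by
  have hal : ∀ j, 2 * (j + 1) ≤ N → al ξ j = be ξ N j * (zz N (j + 1) ^ 2 - 1) := by
    intro j hj
    have h1 := one_le_zz N (j + 1) hN hj
    have h0 : zz N (j + 1) ^ 2 - 1 ≠ 0 := by
      intro h; rw [h, norm_zero] at h1; linarith
    unfold be
    field_simp
  induction q, hpq using Nat.le_induction with
  | base =>
    have h1 : Finset.Ioc p (p + 1) = {p + 1} := by
      ext x
      simp only [Finset.mem_Ioc, Finset.mem_singleton]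
      omega
    rw [h1, Finset.sum_singleton, hal (p + 1) (by omega), EE_succ N (p + 1)]
    have h2 : EE N (p + 1) ^ 2 * (be ξ N (p + 1) * (zz N (p + 1 + 1) ^ 2 - 1)) -
        (EE N (p + 1) * zz N (p + 1 + 1)) ^ 2 * be ξ N (p + 1) +
        EE N (p + 1) ^ 2 * be ξ N (p + 1) = 0 := by ring
    rw [h2, norm_zero]
    push_cast
    simp
  | succ m hm ih =>
    have h0 := ih (by omega)
    rw [← Finset.insert_Ioc_right_eq_Ioc_add_one (by omega : p ≤ m), Finset.sum_insert (by simp)]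
    set S := ∑ j ∈ Finset.Ioc p m, (EE N j) ^ 2 * al ξ j with hS
    have h1 : EE N (m + 1) ^ 2 * al ξ (m + 1) + S - EE N (m + 1 + 1) ^ 2 * be ξ N (m + 1) +
        EE N (p + 1) ^ 2 * be ξ N (p + 1) =
        (S - EE N (m + 1) ^ 2 * be ξ N m + EE N (p + 1) ^ 2 * be ξ N (p + 1)) -
          EE N (m + 1) ^ 2 * (be ξ N (m + 1) - be ξ N m) := by
      rw [hal (m + 1) (by omega), EE_succ N (m + 1)]
      ring
    rw [h1]
    refine (norm_sub_le _ _).trans ?_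
    have h2 : ‖EE N (m + 1) ^ 2 * (be ξ N (m + 1) - be ξ N m)‖ ≤
        (13 + 2 * |ξ|) * (1 / (m : ℝ) - 1 / ((m : ℝ) + 1)) := by
      rw [norm_mul, norm_pow, norm_EE N (m + 1) (by omega) hN, one_pow, one_mul]
      exact be_lip ξ N m hN (by omega) (by omega)
    refine (add_le_add h0 h2).trans (le_of_eq ?_)
    push_cast
    ring

theorem cross (ξ : ℝ) : ∃ C : ℝ, ∀ N p q : ℕ, 1 ≤ N → 1 ≤ p → p ≤ q → 4 * q + 4 ≤ N →
    ‖∑ j ∈ Finset.Ioc p q, (EE N j) ^ 2 * ((1 / (j : ℂ)) * Complex.exp ((ξ * Real.log j : ℝ) * Complex.I))‖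
      ≤ C / p := by
  refine ⟨15 + 2 * |ξ|, fun N p q hN hp hpq h ↦ ?_⟩
  have hp0 : (0 : ℝ) < p := by exact_mod_cast hp
  have hC : 0 ≤ 15 + 2 * |ξ| := by positivity
  rcases hpq.eq_or_lt with rfl | hlt
  · simp only [Finset.Ioc_self, Finset.sum_empty, norm_zero]
    positivity
  have h1 := abel ξ N p q hN hlt h
  have h2 : ‖EE N (q + 1) ^ 2 * be ξ N q‖ ≤ 1 / (p : ℝ) := by
    rw [norm_mul, norm_pow, norm_EE N (q + 1) (by omega) hN, one_pow, one_mul]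
    refine (norm_be_le ξ N q hN (by omega)).trans ?_
    apply one_div_le_one_div_of_le hp0
    exact_mod_cast hpq
  have h3 : ‖EE N (p + 1) ^ 2 * be ξ N (p + 1)‖ ≤ 1 / (p : ℝ) := by
    rw [norm_mul, norm_pow, norm_EE N (p + 1) (by omega) hN, one_pow, one_mul]
    refine (norm_be_le ξ N (p + 1) hN (by omega)).trans ?_
    apply one_div_le_one_div_of_le hp0
    push_cast
    linarith
  have h4 : (13 + 2 * |ξ|) * (1 / ((p : ℝ) + 1) - 1 / (q : ℝ)) ≤ (13 + 2 * |ξ|) * (1 / (p : ℝ)) := by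
    apply mul_le_mul_of_nonneg_left _ (by positivity)
    have h5 : 1 / ((p : ℝ) + 1) ≤ 1 / (p : ℝ) := one_div_le_one_div_of_le hp0 (by linarith)
    have h6 : 0 ≤ 1 / (q : ℝ) := by positivity
    linarith
  have h7 : ∑ j ∈ Finset.Ioc p q, (EE N j) ^ 2 * ((1 / (j : ℂ)) *
      Complex.exp ((ξ * Real.log j : ℝ) * Complex.I)) =
      ((∑ j ∈ Finset.Ioc p q, (EE N j) ^ 2 * al ξ j) - EE N (q + 1) ^ 2 * be ξ N q +
        EE N (p + 1) ^ 2 * be ξ N (p + 1)) + EE N (q + 1) ^ 2 * be ξ N q -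
        EE N (p + 1) ^ 2 * be ξ N (p + 1) := by
    simp only [al]
    ring
  rw [h7]
  refine (norm_sub_le _ _).trans ((add_le_add (norm_add_le _ _) le_rfl).trans ?_)
  have h8 : (15 + 2 * |ξ|) / p = (13 + 2 * |ξ|) * (1 / (p : ℝ)) + 1 / (p : ℝ) + 1 / (p : ℝ) := by
    ring
  rw [h8]
  linarith

end Pool.Agent.H13.Pascal
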