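import Pool.Agent.H13.Pascal.Defs

/-!
# Spectral set-up: the Pascal matrix commutes with `T N`
-/

namespace Pool.Agent.H13.Pascal

open Matrix Finset

lemma T_row (N : ℕ) (g : ℕ → ℝ) (i : Fin N) :
    ∑ k : Fin N, T N i k * g k
      = b N (i + 1) * g (i + 1) + b N i * g (i - 1) - a N i * g i := by
  have hN : N ≠ 0 := by have := i.isLt; omega
  have h1 : ∑ k : Fin N, T N i k * g k = ∑ k ∈ range N,
      ((if k = i.val + 1 then b N (i.val + 1) * g (i.val + 1) else 0)
        + (if k = i.val - 1 then (if 1 ≤ i.val then b N i * g (i - 1) else 0) else 0)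
        + (if k = i.val then - a N i * g i else 0)) := by
    rw [← Fin.sum_univ_eq_sum_range (fun k =>
      ((if k = i.val + 1 then b N (i.val + 1) * g (i.val + 1) else 0)
        + (if k = i.val - 1 then (if 1 ≤ i.val then b N i * g (i - 1) else 0) else 0)
        + (if k = i.val then - a N i * g i else 0))) N]
    apply Finset.sum_congr rfl
    intro k _
    unfold T
    by_cases c1 : k.val = i.val + 1
    · have c2 : ¬ (k.val = i.val - 1) := by omega
      have c3 : ¬ (k.val = i.val) := by omega
      rw [if_pos c1, if_pos c1, if_neg c2, if_neg c3, c1]; ring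
    · rw [if_neg c1, if_neg c1]
      by_cases c2 : i.val = k.val + 1
      · have c4 : k.val = i.val - 1 := by omega
        have c5 : 1 ≤ i.val := by omega
        have c6 : ¬ (k.val = i.val) := by omega
        rw [if_pos c2, if_pos c4, if_pos c5, if_neg c6, c4]; ring
      · rw [if_neg c2]
        by_cases c3 : i = k
        · subst c3
          rw [if_pos rfl, if_pos rfl]
          by_cases c7 : i.val = i.val - 1
          · have c8 : ¬ (1 ≤ i.val) := by omega
            rw [if_pos c7, if_neg c8]; ring
          · rw [if_neg c7]; ring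
        · have c8 : ¬ (k.val = i.val) := fun h => c3 (Fin.ext h.symm)
          rw [if_neg c3, if_neg c8]
          by_cases c7 : k.val = i.val - 1
          · have c9 : ¬ (1 ≤ i.val) := by omega
            rw [if_pos c7, if_neg c9]; ring
          · rw [if_neg c7]; ring
  rw [h1, Finset.sum_add_distrib, Finset.sum_add_distrib, Finset.sum_ite_eq', Finset.sum_ite_eq',
    Finset.sum_ite_eq']
  have hi := i.isLt
  have m1 : i.val - 1 ∈ range N := by rw [Finset.mem_range]; omega
  have m2 : i.val ∈ range N := by rw [Finset.mem_range]; omega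
  rw [if_pos m1, if_pos m2]
  by_cases c : i.val + 1 < N
  · rw [if_pos (Finset.mem_range.mpr c)]
    by_cases c2 : 1 ≤ i.val
    · rw [if_pos c2]; ring
    · have : i.val = 0 := by omega
      rw [if_neg c2, this, b_zero]; ring
  · rw [if_neg (fun h => c (Finset.mem_range.mp h))]
    have : i.val + 1 = N := by omega
    rw [this, b_self N hN]
    by_cases c2 : 1 ≤ i.val
    · rw [if_pos c2]; ring
    · have h0 : i.val = 0 := by omega
      rw [if_neg c2, h0, b_zero]; ring

/-- symmetric combination -/
lemma pascal_sym (N i j : ℕ) (hN : N ≠ 0) :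
    b N (i + 1) * ((i + 1 + j).choose (i + 1) : ℝ) + b N i * ((i - 1 + j).choose (i - 1) : ℝ)
      - a N i * ((i + j).choose i : ℝ)
    = b N (j + 1) * ((j + 1 + i).choose (j + 1) : ℝ) + b N j * ((j - 1 + i).choose (j - 1) : ℝ)
      - a N j * ((j + i).choose j : ℝ) := by
  have hN' : (N : ℝ) ≠ 0 := by exact_mod_cast hN
  have key1 : ∀ i j : ℕ, ((i : ℝ) + 1) * ((i + 1 + j).choose (i + 1) : ℝ)
      = ((i : ℝ) + j + 1) * ((i + j).choose i : ℝ) := by
    intro i j
    have h := Nat.add_one_mul_choose_eq (i + j) i
    have h2 : i + j + 1 = i + 1 + j := by omega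
    rw [h2] at h
    have h3 : (((i + 1 + j) * (i + j).choose i : ℕ) : ℝ)
        = (((i + 1 + j).choose (i + 1) * (i + 1) : ℕ) : ℝ) := by exact_mod_cast h
    push_cast at h3
    linarith
  have sym : ∀ i j : ℕ, ((j + i).choose j : ℝ) = ((i + j).choose i : ℝ) := by
    intro i j
    rw [Nat.add_comm j i]
    have := Nat.choose_symm_add (a := i) (b := j)
    exact_mod_cast this.symm
  have key2 : ∀ i j : ℕ, 1 ≤ i → ((i : ℝ) + j) * ((i - 1 + j).choose (i - 1) : ℝ)
      = (i : ℝ) * ((i + j).choose i : ℝ) := by
    intro i j hi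
    obtain ⟨k, rfl⟩ : ∃ k, i = k + 1 := ⟨i - 1, by omega⟩
    have := key1 k j
    simp only [Nat.add_sub_cancel]
    push_cast
    linarith
  by_cases hi : i = 0
  · by_cases hj : j = 0
    · subst hi; subst hj; rfl
    · subst hi
      have hj1 : 1 ≤ j := by omega
      have k1 := key1 j 0
      have k2 := key2 j 0 hj1
      have hj' : (j : ℝ) ≠ 0 := by exact_mod_cast hj
      have e1 : (0 + 1 + j).choose (0 + 1) = j + 1 := by simp [Nat.add_comm]
      have e2 : (0 + j).choose 0 = 1 := by simp
      have e3 : (j + 1 + 0).choose (j + 1) = 1 := by simp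
      have e4 : (j - 1 + 0).choose (j - 1) = 1 := by simp
      have e5 : (j + 0).choose j = 1 := by simp
      rw [e1, e2, e3, e4, e5]
      unfold b a
      push_cast
      field_simp
      ring
  · by_cases hj : j = 0
    · subst hj
      have hi1 : 1 ≤ i := by omega
      have e1 : (0 + 1 + i).choose (0 + 1) = i + 1 := by simp [Nat.add_comm]
      have e2 : (0 + i).choose 0 = 1 := by simp
      have e3 : (i + 1 + 0).choose (i + 1) = 1 := by simp
      have e4 : (i - 1 + 0).choose (i - 1) = 1 := by simp
      have e5 : (i + 0).choose i = 1 := by simp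
      rw [e1, e2, e3, e4, e5]
      unfold b a
      push_cast
      field_simp
      ring
    · have hi1 : 1 ≤ i := by omega
      have hj1 : 1 ≤ j := by omega
      have k1 := key1 i j
      have k2 := key1 j i
      have k3 := key2 i j hi1
      have k4 := key2 j i hj1
      rw [sym i j] at k2 k4
      have hs := sym i j
      rw [hs]
      set c : ℝ := ((i + j).choose i : ℝ) with hc
      set x1 : ℝ := ((i + 1 + j).choose (i + 1) : ℝ) with hx1
      set x2 : ℝ := ((j + 1 + i).choose (j + 1) : ℝ) with hx2
      set x3 : ℝ := ((i - 1 + j).choose (i - 1) : ℝ) with hx3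
      set x4 : ℝ := ((j - 1 + i).choose (j - 1) : ℝ) with hx4
      have hi' : (i : ℝ) + 1 ≠ 0 := by positivity
      have hj' : (j : ℝ) + 1 ≠ 0 := by positivity
      have hij : (i : ℝ) + j ≠ 0 := by
        have : (0 : ℝ) < i := by exact_mod_cast hi1
        positivity
      have hji : (j : ℝ) + i ≠ 0 := by rw [add_comm]; exact hij
      have e1 : x1 = ((i : ℝ) + j + 1) * c / ((i : ℝ) + 1) := by
        field_simp; linarith
      have e2 : x2 = ((j : ℝ) + i + 1) * c / ((j : ℝ) + 1) := by
        field_simp; linarith
      have e3 : x3 = (i : ℝ) * c / ((i : ℝ) + j) := by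
        field_simp; linarith
      have e4 : x4 = (j : ℝ) * c / ((j : ℝ) + i) := by
        field_simp; linarith
      rw [e1, e2, e3, e4]
      unfold b a
      push_cast
      field_simp
      ring

theorem T_mul_P (N : ℕ) : T N * P N = P N * T N := by
  ext i j
  have hN : N ≠ 0 := by have := i.isLt; omega
  rw [Matrix.mul_apply, Matrix.mul_apply]
  have h1 := T_row N (fun k => ((k + j.val).choose k : ℝ)) i
  have h2 := T_row N (fun k => ((k + i.val).choose k : ℝ)) j
  have e1 : ∑ k, T N i k * P N k j = ∑ k : Fin N, T N i k * ((k.val + j.val).choose k.val : ℝ) := rfl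
  have e2 : ∑ k, P N i k * T N k j = ∑ k : Fin N, T N j k * ((k.val + i.val).choose k.val : ℝ) := by
    apply Finset.sum_congr rfl
    intro k _
    have hs : T N k j = T N j k := by
      have := (T_isHermitian N).apply j k
      simpa using this
    have hp : P N i k = ((k.val + i.val).choose k.val : ℝ) := by
      unfold P
      rw [Nat.add_comm k.val i.val]
      have := Nat.choose_symm_add (a := i.val) (b := k.val)
      exact_mod_cast this
    rw [hs, hp]; ring
  rw [e1, e2, h1, h2]
  have := pascal_sym N i.val j.val hN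
  exact this

end Pool.Agent.H13.Pascal
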