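import Pool.Agent.H13.Pascal.Residual

/-!
# Variation of constants (Job W3)

`vary_of` proves the statement of the job from the residual bound (Job W1), with general constants.
-/

namespace Pool.Agent.H13.Pascal

open Finset

/-- the phase of `psi` -/
noncomputable def vph (N : ℕ) (μ : ℝ) (j : ℕ) : ℝ := Th N j - μ * HH j

/-- the residual of the WKB function -/
noncomputable def vR (N : ℕ) (μ : ℝ) (j : ℕ) : ℂ :=
  (b N (j + 1) : ℂ) * psi N μ (j + 1) + (b N j : ℂ) * psi N μ (j - 1)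
        - ((kk μ + a N j : ℝ) : ℂ) * psi N μ j

/-- the Wronskian of the solution and the conjugate of the WKB function -/
noncomputable def vA (N : ℕ) (μ : ℝ) (f : ℕ → ℝ) (j : ℕ) : ℂ :=
  (b N (j + 1) : ℂ) * ((f (j + 1) : ℂ) * (starRingEnd ℂ) (psi N μ j)
    - (f j : ℂ) * (starRingEnd ℂ) (psi N μ (j + 1)))

/-- the Wronskian of the WKB function and its conjugate -/
noncomputable def vw (N : ℕ) (μ : ℝ) (j : ℕ) : ℝ :=
  b N (j + 1) * (psi N μ (j + 1) * (starRingEnd ℂ) (psi N μ j)).im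

lemma vA_succ (N : ℕ) (μ : ℝ) (j : ℕ) (hj : j + 1 + 1 < N) :
    vA N μ (sol N (kk μ)) (j + 1) = vA N μ (sol N (kk μ)) j
      - (starRingEnd ℂ) (vR N μ (j + 1)) * (sol N (kk μ) (j + 1) : ℂ) := by
  have h := sol_rec N (kk μ) (j + 1) hj
  simp only [Nat.add_sub_cancel] at h
  have hc : (b N (j + 1 + 1) : ℂ) * (sol N (kk μ) (j + 1 + 1) : ℂ)
      + (b N (j + 1) : ℂ) * (sol N (kk μ) j : ℂ)
      = ((kk μ + a N (j + 1) : ℝ) : ℂ) * (sol N (kk μ) (j + 1) : ℂ) := by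
    exact_mod_cast h
  unfold vA vR
  simp only [map_sub, map_add, map_mul, Complex.conj_ofReal, Nat.add_sub_cancel]
  linear_combination (starRingEnd ℂ) (psi N μ (j + 1)) * hc

lemma vA_mul_im (N : ℕ) (μ : ℝ) (f : ℕ → ℝ) (j : ℕ) :
    (vA N μ f j * psi N μ j).im = f j * vw N μ j := by
  unfold vA vw
  simp only [Complex.mul_im, Complex.mul_re, Complex.sub_re, Complex.sub_im, Complex.ofReal_re,
    Complex.ofReal_im, Complex.conj_re, Complex.conj_im]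
  ring

lemma vA_mul_im' (N : ℕ) (μ : ℝ) (f : ℕ → ℝ) (j : ℕ) :
    (vA N μ f j * psi N μ (j + 1)).im = f (j + 1) * vw N μ j := by
  unfold vA vw
  simp only [Complex.mul_im, Complex.mul_re, Complex.sub_re, Complex.sub_im, Complex.ofReal_re,
    Complex.ofReal_im, Complex.conj_re, Complex.conj_im]
  ring

lemma norm_psi (N : ℕ) (μ : ℝ) (j : ℕ) : ‖psi N μ j‖ = 1 / Real.sqrt j := by
  unfold psi
  rw [norm_div, Complex.norm_exp_ofReal_mul_I, Complex.norm_real, Real.norm_eq_abs,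
    abs_of_nonneg (Real.sqrt_nonneg _)]

lemma vph_succ (N : ℕ) (μ : ℝ) (j : ℕ) :
    vph N μ (j + 1) - vph N μ j = pp N (j + 1) - μ / ((j : ℝ) + 1) := by
  unfold vph Th HH
  rw [sum_range_succ, sum_range_succ]
  ring

lemma psi_eq (N : ℕ) (μ : ℝ) (j : ℕ) :
    psi N μ j = Complex.exp ((vph N μ j : ℂ) * Complex.I) / ((Real.sqrt j : ℝ) : ℂ) := rfl

lemma vw_eq (N : ℕ) (μ : ℝ) (j : ℕ) :
    vw N μ j = b N (j + 1) * Real.sin (vph N μ (j + 1) - vph N μ j) /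
      (Real.sqrt (j + 1 : ℕ) * Real.sqrt j) := by
  unfold vw
  rw [psi_eq, psi_eq, map_div₀, ← Complex.exp_conj, Complex.conj_ofReal, div_mul_div_comm,
    ← Complex.exp_add, ← Complex.ofReal_mul, Complex.div_ofReal_im, mul_div_assoc]
  congr 2
  have : (vph N μ (j + 1) : ℂ) * Complex.I + (starRingEnd ℂ) ((vph N μ j : ℂ) * Complex.I)
      = ((vph N μ (j + 1) - vph N μ j : ℝ) : ℂ) * Complex.I := by
    simp only [map_mul, Complex.conj_ofReal, Complex.conj_I]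
    push_cast
    ring
  rw [this, Complex.exp_ofReal_mul_I_im]

/-- the residual bound, general constants -/
def ResHyp (K₁ K₂ : ℝ) : Prop :=
  ∀ (N j : ℕ) (μ : ℝ), 2 ≤ j → 8 * (j + 1) ≤ N → |μ| ≤ j →
    ‖vR N μ j‖ ≤ (K₁ * (1 + |μ|) ^ 2 / j + K₂ * (1 + |μ|) * ((j : ℝ) / N) ^ 2) / Real.sqrt j

/-- the bound on the momentum -/
def PPHyp : Prop :=
  ∀ (N j : ℕ), 1 ≤ j → 4 * j ≤ N → Real.pi / 3 ≤ pp N j ∧ pp N j ≤ Real.pi / 2

lemma sin_ge_of_mem {x : ℝ} (h1 : Real.pi / 4 ≤ x) (h2 : x ≤ 3 * Real.pi / 4) :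
    7 / 10 ≤ Real.sin x := by
  rw [← Real.cos_pi_div_two_sub, ← Real.cos_abs]
  have h3 : |Real.pi / 2 - x| ≤ Real.pi / 4 := by
    rw [abs_le]; constructor <;> linarith
  have h4 : Real.cos (Real.pi / 4) ≤ Real.cos |Real.pi / 2 - x| :=
    Real.cos_le_cos_of_nonneg_of_le_pi (abs_nonneg _) (by linarith [Real.pi_pos]) h3
  rw [Real.cos_pi_div_four] at h4
  have h5 : (7 / 5 : ℝ) ≤ Real.sqrt 2 := Real.le_sqrt_of_sq_le (by norm_num)
  linarith

lemma vw_ge (hpp : PPHyp) (N j : ℕ) (μ : ℝ) (hj : 600 * (1 + |μ|) ^ 2 ≤ j)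
    (hN : 40 * (1 + |μ|) * (j + 1) ≤ N) : 1 / 2 ≤ vw N μ j := by
  have hμ := abs_nonneg μ
  have hj0 : (600 : ℝ) ≤ j := by nlinarith
  have hj0' : (0 : ℝ) < j := by linarith
  have hN0 : (40 : ℝ) * (j + 1) ≤ N := by
    have : (40 : ℝ) * 1 * (j + 1) ≤ 40 * (1 + |μ|) * (j + 1) := by gcongr; linarith
    linarith
  have hNn : 40 * (j + 1) ≤ N := by exact_mod_cast hN0
  obtain ⟨h1, h2⟩ := hpp N (j + 1) (by omega) (by omega)
  rw [vw_eq, vph_succ]
  have h3 : |μ / ((j : ℝ) + 1)| ≤ 1 / 600 := by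
    rw [abs_div, abs_of_pos (by linarith : (0 : ℝ) < (j : ℝ) + 1),
      div_le_div_iff₀ (by linarith) (by norm_num)]
    nlinarith
  rw [abs_le] at h3
  have hp3 := Real.pi_gt_three
  have h4 : 7 / 10 ≤ Real.sin (pp N (j + 1) - μ / ((j : ℝ) + 1)) := by
    apply sin_ge_of_mem <;> linarith
  have hb : (9 / 10 : ℝ) * (j + 1) ≤ b N (j + 1) := by
    unfold b
    push_cast
    have hN1 : (0 : ℝ) < N := by nlinarith
    have h5 : ((j : ℝ) + 1) ^ 3 / (N : ℝ) ^ 2 ≤ 1 / 10 * (j + 1) := by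
      rw [div_le_iff₀ (by positivity)]
      have h6 : ((j : ℝ) + 1) ^ 2 ≤ 1 / 10 * (N : ℝ) ^ 2 := by nlinarith
      calc ((j : ℝ) + 1) ^ 3 = ((j : ℝ) + 1) * ((j : ℝ) + 1) ^ 2 := by ring
        _ ≤ ((j : ℝ) + 1) * (1 / 10 * (N : ℝ) ^ 2) := by gcongr
        _ = _ := by ring
    linarith
  have hs : Real.sqrt (j + 1 : ℕ) * Real.sqrt j ≤ j + 1 := by
    have e1 : Real.sqrt j ≤ Real.sqrt (j + 1 : ℕ) := Real.sqrt_le_sqrt (by push_cast; linarith)
    calc Real.sqrt (j + 1 : ℕ) * Real.sqrt j ≤ Real.sqrt (j + 1 : ℕ) * Real.sqrt (j + 1 : ℕ) := by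
          gcongr
      _ = ((j + 1 : ℕ) : ℝ) := Real.mul_self_sqrt (Nat.cast_nonneg _)
      _ = j + 1 := by push_cast; ring
  have hspos : 0 < Real.sqrt (j + 1 : ℕ) * Real.sqrt j := by
    apply mul_pos <;> apply Real.sqrt_pos.2
    · push_cast; linarith
    · exact hj0'
  rw [le_div_iff₀ hspos]
  calc 1 / 2 * (Real.sqrt (j + 1 : ℕ) * Real.sqrt j) ≤ 1 / 2 * (j + 1) := by gcongr
    _ ≤ (9 / 10 * (j + 1)) * (7 / 10) := by nlinarith
    _ ≤ b N (j + 1) * Real.sin (pp N (j + 1) - μ / ((j : ℝ) + 1)) := by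
        apply mul_le_mul hb h4 (by norm_num)
        have : (0 : ℝ) ≤ 9 / 10 * (j + 1) := by positivity
        linarith

lemma arg_bound {ζ : ℂ} (h : ‖ζ - 1‖ ≤ 1 / 10) : |ζ.arg| ≤ 1 / 5 := by
  have hre : 9 / 10 ≤ ζ.re := by
    have := (Complex.abs_re_le_norm (ζ - 1)).trans h
    rw [abs_le] at this
    simp only [Complex.sub_re, Complex.one_re] at this
    linarith
  have him : |ζ.im| ≤ 1 / 10 := by
    have := (Complex.abs_im_le_norm (ζ - 1)).trans h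
    simpa using this
  have hn : 9 / 10 ≤ ‖ζ‖ := hre.trans (Complex.re_le_norm ζ)
  have hs : |Real.sin ζ.arg| ≤ 1 / 9 := by
    rw [Complex.sin_arg, abs_div, abs_of_nonneg (norm_nonneg ζ), div_le_iff₀ (by linarith)]
    linarith
  have ha : |ζ.arg| ≤ Real.pi / 2 := by
    rw [Complex.abs_arg_le_pi_div_two_iff]
    linarith
  have h2 := Real.mul_abs_le_abs_sin ha
  have hp := Real.pi_lt_d2
  have hp0 := Real.pi_pos
  have h3 : |ζ.arg| ≤ Real.pi / 2 * (1 / 9) := by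
    have h4 : 2 / Real.pi * |ζ.arg| ≤ 1 / 9 := h2.trans hs
    rw [div_mul_eq_mul_div, div_le_iff₀ hp0] at h4
    linarith
  linarith

lemma sum_sq_le (J : ℕ) (hJ : 1 ≤ J) (n : ℕ) :
    ∑ i ∈ range n, 1 / ((J + i + 1 : ℕ) : ℝ) ^ 2 ≤ 1 / J - 1 / ((J + n : ℕ) : ℝ) := by
  have hJ' : (1 : ℝ) ≤ J := by exact_mod_cast hJ
  induction n with
  | zero => simp
  | succ n ih =>
    rw [sum_range_succ]
    have h1 : 1 / ((J + n + 1 : ℕ) : ℝ) ^ 2 ≤
        1 / ((J + n : ℕ) : ℝ) - 1 / ((J + (n + 1) : ℕ) : ℝ) := by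
      push_cast
      rw [div_sub_div _ _ (by positivity) (by positivity), div_le_div_iff₀ (by positivity)
        (by positivity)]
      nlinarith [Nat.cast_nonneg (α := ℝ) n]
    linarith

/-- the statement of the job from the residual bound, with general constants -/
theorem vary_of (K₁ K₂ c₁ c₂ : ℝ) (hK₁ : 0 ≤ K₁) (hK₂ : 0 ≤ K₂) (hc₁ : 600 ≤ c₁) (hc₂ : 40 ≤ c₂)
    (hK : 2 * K₁ / c₁ + 2 * K₂ / c₂ ^ 2 ≤ 1 / 20) (hres : ResHyp K₁ K₂) (hpp : PPHyp)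
    (N J M : ℕ) (μ : ℝ) (hJ : c₁ * (1 + |μ|) ^ 2 ≤ J) (hJM : J ≤ M)
    (hM : c₂ * (1 + |μ|) * (M + 1) ≤ N) :
    ∃ (β : ℝ) (r θ : ℕ → ℝ), (∀ j, J ≤ j → j ≤ M → 0 < r j ∧ sol N (kk μ) j = r j * Real.sin (θ j)) ∧
      (∀ j, J ≤ j → j ≤ M → |θ j - (Th N j - μ * HH j) - β| ≤ 1 / 4) ∧
      (∀ j, J ≤ j → j < M → 0 < θ (j + 1) - θ j ∧ θ (j + 1) - θ j < Real.pi) := by
  have hμ := abs_nonneg μ
  set m : ℝ := 1 + |μ| with hm
  have hm1 : 1 ≤ m := by linarith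
  set f := sol N (kk μ) with hf
  set A := vA N μ f with hA
  have hJr : (600 : ℝ) * m ^ 2 ≤ J := by nlinarith [sq_nonneg m]
  have hJ600 : (600 : ℝ) ≤ J := by nlinarith
  have hJn : 600 ≤ J := by exact_mod_cast hJ600
  have hJMr : (J : ℝ) ≤ M := by exact_mod_cast hJM
  have hM40 : 40 * m * ((M : ℝ) + 1) ≤ N := by
    have : 40 * m * ((M : ℝ) + 1) ≤ c₂ * m * (M + 1) := by gcongr
    linarith
  have hM40' : 40 * ((M : ℝ) + 1) ≤ N := by
    have : 40 * 1 * ((M : ℝ) + 1) ≤ 40 * m * ((M : ℝ) + 1) := by gcongr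
    linarith
  have hMn : 40 * (M + 1) ≤ N := by exact_mod_cast hM40'
  have hN0 : (0 : ℝ) < N := by linarith
  -- lower bound for `vw`
  have hw : ∀ j, J ≤ j → j ≤ M → 1 / 2 ≤ vw N μ j := by
    intro j h1 h2
    have h1' : (J : ℝ) ≤ j := by exact_mod_cast h1
    have h2' : (j : ℝ) ≤ M := by exact_mod_cast h2
    refine vw_ge hpp N j μ (by rw [← hm]; linarith) ?_
    rw [← hm]
    have : 40 * m * ((j : ℝ) + 1) ≤ 40 * m * ((M : ℝ) + 1) := by gcongr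
    linarith
  -- one step
  set δ : ℕ → ℝ := fun j => 2 * K₁ * m ^ 2 / (j : ℝ) ^ 2 + 2 * K₂ * m * (j : ℝ) / (N : ℝ) ^ 2
    with hδ
  have hδ0 : ∀ j, 0 ≤ δ j := by
    intro j
    simp only [hδ]
    positivity
  have hstep : ∀ j, J ≤ j → j < M → ‖A (j + 1) - A j‖ ≤ δ (j + 1) * ‖A j‖ := by
    intro j h1 h2
    have h1' : (J : ℝ) ≤ j := by exact_mod_cast h1
    have e1 : A (j + 1) - A j = -((starRingEnd ℂ) (vR N μ (j + 1)) * (f (j + 1) : ℂ)) := by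
      rw [hA, hf, vA_succ N μ j (by omega)]
      ring
    rw [e1, norm_neg, norm_mul, RCLike.norm_conj, Complex.norm_real, Real.norm_eq_abs]
    have hμj : |μ| ≤ ((j + 1 : ℕ) : ℝ) := by
      push_cast
      nlinarith
    have h3 := hres N (j + 1) μ (by omega) (by omega) hμj
    rw [← hm] at h3
    have hjpos : (0 : ℝ) < ((j + 1 : ℕ) : ℝ) := by positivity
    have hspos : 0 < Real.sqrt ((j + 1 : ℕ) : ℝ) := Real.sqrt_pos.2 hjpos
    have h4 : |f (j + 1)| ≤ 2 * ‖A j‖ / Real.sqrt ((j + 1 : ℕ) : ℝ) := by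
      have h5 := vA_mul_im' N μ f j
      have h6 : |f (j + 1) * vw N μ j| ≤ ‖A j‖ * (1 / Real.sqrt ((j + 1 : ℕ) : ℝ)) := by
        rw [← h5, ← norm_psi N μ (j + 1), ← norm_mul]
        exact Complex.abs_im_le_norm _
      rw [abs_mul] at h6
      have h7 := hw j h1 h2.le
      have h8 : |vw N μ j| = vw N μ j := abs_of_pos (by linarith)
      rw [h8] at h6
      have h9 : |f (j + 1)| * (1 / 2) ≤ |f (j + 1)| * vw N μ j := by gcongr
      have h10 : 2 * ‖A j‖ / Real.sqrt ((j + 1 : ℕ) : ℝ) =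
          2 * (‖A j‖ * (1 / Real.sqrt ((j + 1 : ℕ) : ℝ))) := by ring
      rw [h10]
      linarith
    calc ‖vR N μ (j + 1)‖ * |f (j + 1)|
        ≤ ((K₁ * m ^ 2 / ((j + 1 : ℕ) : ℝ) + K₂ * m * (((j + 1 : ℕ) : ℝ) / N) ^ 2) /
          Real.sqrt ((j + 1 : ℕ) : ℝ)) * (2 * ‖A j‖ / Real.sqrt ((j + 1 : ℕ) : ℝ)) := by
          apply mul_le_mul h3 h4 (abs_nonneg _)
          exact (norm_nonneg _).trans h3
      _ = ((K₁ * m ^ 2 / ((j + 1 : ℕ) : ℝ) + K₂ * m * (((j + 1 : ℕ) : ℝ) / N) ^ 2) *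
          (2 * ‖A j‖)) / (Real.sqrt ((j + 1 : ℕ) : ℝ) * Real.sqrt ((j + 1 : ℕ) : ℝ)) := by
          rw [div_mul_div_comm]
      _ = ((K₁ * m ^ 2 / ((j + 1 : ℕ) : ℝ) + K₂ * m * (((j + 1 : ℕ) : ℝ) / N) ^ 2) *
          (2 * ‖A j‖)) / ((j + 1 : ℕ) : ℝ) := by rw [Real.mul_self_sqrt hjpos.le]
      _ = δ (j + 1) * ‖A j‖ := by
          simp only [hδ]
          field_simp
  -- total variation
  have hsum : ∀ n, J + n ≤ M → ∑ i ∈ range n, δ (J + i + 1) ≤ 1 / 20 := by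
    intro n hn
    have hn' : (n : ℝ) ≤ M := by
      have : n ≤ M := by omega
      exact_mod_cast this
    have e1 : ∑ i ∈ range n, δ (J + i + 1) =
        2 * K₁ * m ^ 2 * ∑ i ∈ range n, 1 / ((J + i + 1 : ℕ) : ℝ) ^ 2 +
        2 * K₂ * m / (N : ℝ) ^ 2 * ∑ i ∈ range n, ((J + i + 1 : ℕ) : ℝ) := by
      simp only [hδ]
      rw [sum_add_distrib, mul_sum, mul_sum]
      congr 1
      · apply sum_congr rfl; intro i _; ring
      · apply sum_congr rfl; intro i _; ring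
    have e2 : ∑ i ∈ range n, 1 / ((J + i + 1 : ℕ) : ℝ) ^ 2 ≤ 1 / (J : ℝ) := by
      have := sum_sq_le J (by omega) n
      have h0 : (0 : ℝ) ≤ 1 / ((J + n : ℕ) : ℝ) := by positivity
      linarith
    have e3 : ∑ i ∈ range n, ((J + i + 1 : ℕ) : ℝ) ≤ (M : ℝ) * M := by
      calc ∑ i ∈ range n, ((J + i + 1 : ℕ) : ℝ) ≤ ∑ _i ∈ range n, (M : ℝ) := by
            apply sum_le_sum
            intro i hi
            have : J + i + 1 ≤ M := by
              have := mem_range.1 hi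
              omega
            exact_mod_cast this
        _ = (n : ℝ) * M := by rw [sum_const, card_range, nsmul_eq_mul]
        _ ≤ (M : ℝ) * M := by gcongr
    have hJ0 : (0 : ℝ) < J := by linarith
    have e4 : 2 * K₁ * m ^ 2 * (1 / (J : ℝ)) ≤ 2 * K₁ / c₁ := by
      rw [mul_one_div, div_le_div_iff₀ hJ0 (by linarith)]
      calc 2 * K₁ * m ^ 2 * c₁ = 2 * K₁ * (c₁ * m ^ 2) := by ring
        _ ≤ 2 * K₁ * J := by gcongr
    have e5 : 2 * K₂ * m / (N : ℝ) ^ 2 * ((M : ℝ) * M) ≤ 2 * K₂ / c₂ ^ 2 := by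
      rw [div_mul_eq_mul_div, div_le_div_iff₀ (by positivity) (by positivity)]
      have h5 : m * ((M : ℝ) * M) * c₂ ^ 2 ≤ (N : ℝ) ^ 2 := by
        have h6 : (c₂ * m * (M + 1)) ^ 2 ≤ (N : ℝ) ^ 2 := by gcongr
        have h7 : m * ((M : ℝ) * M) * c₂ ^ 2 ≤ (c₂ * m * (M + 1)) ^ 2 := by
          have h8 : m ≤ m ^ 2 := by nlinarith
          have h9 : (M : ℝ) * M ≤ ((M : ℝ) + 1) ^ 2 := by nlinarith
          calc m * ((M : ℝ) * M) * c₂ ^ 2 ≤ m ^ 2 * (((M : ℝ) + 1) ^ 2) * c₂ ^ 2 := by gcongr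
            _ = _ := by ring
        linarith
      calc 2 * K₂ * m * ((M : ℝ) * M) * c₂ ^ 2 = 2 * K₂ * (m * ((M : ℝ) * M) * c₂ ^ 2) := by ring
        _ ≤ 2 * K₂ * (N : ℝ) ^ 2 := by gcongr
    rw [e1]
    calc _ ≤ 2 * K₁ * m ^ 2 * (1 / (J : ℝ)) + 2 * K₂ * m / (N : ℝ) ^ 2 * ((M : ℝ) * M) := by gcongr
      _ ≤ 2 * K₁ / c₁ + 2 * K₂ / c₂ ^ 2 := add_le_add e4 e5
      _ ≤ 1 / 20 := hK
  have hvar : ∀ n, J + n ≤ M →
      ‖A (J + n) - A J‖ ≤ 2 * (∑ i ∈ range n, δ (J + i + 1)) * ‖A J‖ := by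
    intro n
    induction n with
    | zero => intro _; simp
    | succ n ih =>
      intro hn
      have h1 := ih (by omega)
      have h2 := hstep (J + n) (by omega) (by omega)
      have h3 := hsum n (by omega)
      have h4 : ‖A (J + n)‖ ≤ 2 * ‖A J‖ := by
        calc ‖A (J + n)‖ = ‖(A (J + n) - A J) + A J‖ := by rw [sub_add_cancel]
          _ ≤ ‖A (J + n) - A J‖ + ‖A J‖ := norm_add_le _ _
          _ ≤ 2 * (∑ i ∈ range n, δ (J + i + 1)) * ‖A J‖ + ‖A J‖ := by linarith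
          _ ≤ 2 * ‖A J‖ := by nlinarith [norm_nonneg (A J)]
      rw [sum_range_succ]
      calc ‖A (J + (n + 1)) - A J‖ = ‖(A (J + n + 1) - A (J + n)) + (A (J + n) - A J)‖ := by
            rw [sub_add_sub_cancel]; rfl
        _ ≤ ‖A (J + n + 1) - A (J + n)‖ + ‖A (J + n) - A J‖ := norm_add_le _ _
        _ ≤ δ (J + n + 1) * (2 * ‖A J‖) + 2 * (∑ i ∈ range n, δ (J + i + 1)) * ‖A J‖ := by
            refine add_le_add (h2.trans ?_) h1
            exact mul_le_mul_of_nonneg_left h4 (hδ0 _)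
        _ = _ := by ring
  have hvar' : ∀ j, J ≤ j → j ≤ M → ‖A j - A J‖ ≤ 1 / 10 * ‖A J‖ := by
    intro j h1 h2
    obtain ⟨n, rfl⟩ := Nat.exists_eq_add_of_le h1
    refine (hvar n h2).trans ?_
    have := hsum n h2
    nlinarith [norm_nonneg (A J)]
  -- nonvanishing
  have hAJ : A J ≠ 0 := by
    intro h0
    have h1 := vA_mul_im N μ f J
    have h2 := hw J le_rfl hJM
    rw [← hA, h0, zero_mul, Complex.zero_im] at h1
    have h3 : f J = 0 := (mul_eq_zero.1 h1.symm).resolve_right (by linarith)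
    have h4 := vA_mul_im' N μ f J
    rw [← hA, h0, zero_mul, Complex.zero_im] at h4
    have h5 : f (J + 1) = 0 := (mul_eq_zero.1 h4.symm).resolve_right (by linarith)
    exact sol_no_zeros N (kk μ) J (by omega) h3 h5
  have hAJn : 0 < ‖A J‖ := norm_pos_iff.2 hAJ
  have hζ : ∀ j, J ≤ j → j ≤ M → ‖A j / A J - 1‖ ≤ 1 / 10 := by
    intro j h1 h2
    have e1 : A j / A J - 1 = (A j - A J) / A J := by field_simp
    rw [e1, norm_div, div_le_iff₀ hAJn]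
    exact hvar' j h1 h2
  have hAj : ∀ j, J ≤ j → j ≤ M → A j ≠ 0 := by
    intro j h1 h2 h0
    have := hζ j h1 h2
    rw [h0, zero_div, zero_sub, norm_neg, norm_one] at this
    norm_num at this
  refine ⟨(A J).arg, fun j => ‖A j‖ / (vw N μ j * Real.sqrt j),
    fun j => (A J).arg + vph N μ j + (A j / A J).arg, ?_, ?_, ?_⟩
  · intro j h1 h2
    have hw1 := hw j h1 h2
    have hj0 : (0 : ℝ) < j := by
      have : (J : ℝ) ≤ j := by exact_mod_cast h1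
      linarith
    have hs : 0 < Real.sqrt j := Real.sqrt_pos.2 hj0
    have hwp : 0 < vw N μ j := by linarith
    refine ⟨div_pos (norm_pos_iff.2 (hAj j h1 h2)) (mul_pos hwp hs), ?_⟩
    have h3 := vA_mul_im N μ f j
    rw [← hA] at h3
    have h4 : A j * psi N μ j = ((‖A j‖ / Real.sqrt j : ℝ) : ℂ) *
        Complex.exp ((((A J).arg + vph N μ j + (A j / A J).arg : ℝ) : ℂ) * Complex.I) := by
      have e1 : A j = A J * (A j / A J) := by field_simp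
      have e2 : A j = (‖A J‖ : ℂ) * Complex.exp (((A J).arg : ℂ) * Complex.I) *
          ((‖A j / A J‖ : ℂ) * Complex.exp (((A j / A J).arg : ℂ) * Complex.I)) := by
        rw [Complex.norm_mul_exp_arg_mul_I, Complex.norm_mul_exp_arg_mul_I]
        exact e1
      have e3 : ‖A j‖ = ‖A J‖ * ‖A j / A J‖ := by
        rw [← norm_mul, ← e1]
      rw [psi_eq, e3]
      conv_lhs => rw [e2]
      push_cast
      rw [add_mul, add_mul, Complex.exp_add, Complex.exp_add]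
      ring
    have h5 : (A j * psi N μ j).im = ‖A j‖ / Real.sqrt j *
        Real.sin ((A J).arg + vph N μ j + (A j / A J).arg) := by
      rw [h4, Complex.im_ofReal_mul, Complex.exp_ofReal_mul_I_im]
    rw [h5] at h3
    field_simp at h3 ⊢
    linarith
  · intro j h1 h2
    have := arg_bound (hζ j h1 h2)
    have e1 : (A J).arg + vph N μ j + (A j / A J).arg - (Th N j - μ * HH j) - (A J).arg
        = (A j / A J).arg := by
      unfold vph; ring
    rw [e1]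
    linarith
  · intro j h1 h2
    have a1 := arg_bound (hζ j h1 h2.le)
    have a2 := arg_bound (hζ (j + 1) (by omega) (by omega))
    rw [abs_le] at a1 a2
    have hj1 : (J : ℝ) ≤ j := by exact_mod_cast h1
    obtain ⟨p1, p2⟩ := hpp N (j + 1) (by omega) (by omega)
    have h3 := vph_succ N μ j
    have h4 : |μ / ((j : ℝ) + 1)| ≤ 1 / 600 := by
      rw [abs_div, abs_of_pos (by linarith : (0 : ℝ) < (j : ℝ) + 1),
        div_le_div_iff₀ (by linarith) (by norm_num)]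
      nlinarith
    rw [abs_le] at h4
    have hp3 := Real.pi_gt_three
    constructor <;> linarith

theorem vary (N J M : ℕ) (μ : ℝ) (hJ : 600 * (1 + |μ|) ^ 2 ≤ J) (hJM : J ≤ M)
    (hM : 40 * (1 + |μ|) * (M + 1) ≤ N) :
    ∃ (β : ℝ) (r θ : ℕ → ℝ), (∀ j, J ≤ j → j ≤ M → 0 < r j ∧ sol N (kk μ) j = r j * Real.sin (θ j)) ∧
      (∀ j, J ≤ j → j ≤ M → |θ j - (Th N j - μ * HH j) - β| ≤ 1 / 4) ∧
      (∀ j, J ≤ j → j < M → 0 < θ (j + 1) - θ j ∧ θ (j + 1) - θ j < Real.pi) :=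
  vary_of 7 14 600 40 (by norm_num) (by norm_num) le_rfl le_rfl (by norm_num)
    (fun N j μ h1 h2 h3 => residual N j μ h1 h2 h3)
    (fun N j h1 h2 => ⟨(pp_facts N j h1 h2).2.2.1, (pp_facts N j h1 h2).2.2.2⟩)
    N J M μ hJ hJM hM

end Pool.Agent.H13.Pascal
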