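import Pool.Agent.H13.Pascal.Nodal

/-!
# Definitions for the WKB analysis of the forward solution
-/

namespace Pool.Agent.H13.Pascal

open Finset

/-- imaginary part of `b e^{ip}` -/
noncomputable def sg (N j : ℕ) : ℝ := (j : ℝ) * Real.sqrt (3 / 4 - ((j : ℝ) / N) ^ 2)

/-- real part of `b e^{ip}` -/
noncomputable def yy (N j : ℕ) : ℝ := (j : ℝ) / 2 - (j : ℝ) ^ 3 / (N : ℝ) ^ 2

/-- local momentum -/
noncomputable def pp (N j : ℕ) : ℝ := Real.arccos (yy N j / b N j)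

/-- accumulated phase -/
noncomputable def Th (N j : ℕ) : ℝ := ∑ k ∈ range j, pp N (k + 1)

/-- harmonic numbers -/
noncomputable def HH (j : ℕ) : ℝ := ∑ i ∈ range j, 1 / ((i : ℝ) + 1)

/-- first order WKB function -/
noncomputable def psi (N : ℕ) (μ : ℝ) (j : ℕ) : ℂ :=
  Complex.exp (((Th N j - μ * HH j : ℝ) : ℂ) * Complex.I) / ((Real.sqrt j : ℝ) : ℂ)

/-- energy as a function of `μ` -/
noncomputable def kk (μ : ℝ) : ℝ := 1 / 2 + Real.sqrt 3 * μ

end Pool.Agent.H13.Pascal
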